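import Mathlib

/-!
# VSI: virtual symplectic isotopy on the four-torus (problem MP_469ed1_gt)

Common definitions.  Symplectic forms on the torus are smooth integer periodic closed nondegenerate
two-forms on the four-space, as in the frozen statement of the problem.
-/

open Set MeasureTheory

namespace VSI

/-- the four-space -/
abbrev V : Type := Fin 4 → ℝ

/-- covectors -/
abbrev Cov : Type := (Fin 4 → ℝ) →L[ℝ] ℝ

/-- bilinear forms -/
abbrev Form : Type := (Fin 4 → ℝ) →L[ℝ] (Fin 4 → ℝ) →L[ℝ] ℝ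

/-- integer periodic maps -/
def Per {F : Type} (f : V → F) : Prop :=
  ∀ (x : Fin 4 → ℝ) (n : Fin 4 → ℤ), f (x + fun i => (n i : ℝ)) = f x

/-- alternating bilinear forms -/
def Alt (B : Form) : Prop := ∀ u v, B u v = -(B v u)

/-- nondegenerate bilinear forms -/
def Nondeg (B : Form) : Prop := ∀ v, (∀ w, B v w = 0) → v = 0

/-- smooth periodic closed two-forms -/
structure Clo (ω : V → Form) : Prop where
  smooth : ContDiff ℝ (⊤ : ℕ∞) ω
  per : ∀ (x : Fin 4 → ℝ) (n : Fin 4 → ℤ), ω (x + fun i => (n i : ℝ)) = ω x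
  alt : ∀ x u v : Fin 4 → ℝ, ω x u v = -(ω x v u)
  closed : ∀ x u v w : Fin 4 → ℝ,
    fderiv ℝ ω x u v w + fderiv ℝ ω x v w u + fderiv ℝ ω x w u v = 0

/-- symplectic forms on the four-torus -/
structure IsSymp (ω : V → Form) : Prop extends Clo ω where
  nondeg : ∀ x v : Fin 4 → ℝ, (∀ w : Fin 4 → ℝ, ω x v w = 0) → v = 0

/-- the average of `ω` over the unit cube is `A` (that is, `ω` has the class of the constant form `A`) -/
def Cls (A : Form) (ω : V → Form) : Prop :=
  ∀ u v : Fin 4 → ℝ, ∫ x in Icc (0 : Fin 4 → ℝ) 1, ω x u v = A u v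

/-- the symplectic forms in the class `A` -/
def Symp (A : Form) (ω : V → Form) : Prop := IsSymp ω ∧ Cls A ω

/-- joined by a smooth path of symplectic forms in the class `A` -/
def Joined (A : Form) (ω₀ ω₁ : V → Form) : Prop :=
  ∃ Ω : ℝ → V → Form, ContDiff ℝ (⊤ : ℕ∞) (fun p : ℝ × V => Ω p.1 p.2) ∧
    Ω 0 = ω₀ ∧ Ω 1 = ω₁ ∧ ∀ t ∈ Icc (0 : ℝ) 1, Symp A (Ω t)

/-- joined by a smooth path of symplectic forms, whose classes may vary -/
def Deform (ω₀ ω₁ : V → Form) : Prop :=
  ∃ Ω : ℝ → V → Form, ContDiff ℝ (⊤ : ℕ∞) (fun p : ℝ × V => Ω p.1 p.2) ∧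
    Ω 0 = ω₀ ∧ Ω 1 = ω₁ ∧ ∀ t ∈ Icc (0 : ℝ) 1, IsSymp (Ω t)

/-- `rep n ω x = ω (n x)`; as `n⁻² m_n^* ω` for the `n⁴`-fold self-covering `m_n` of the torus -/
def rep (n : ℕ) (ω : V → Form) : V → Form := fun x => ω ((n : ℝ) • x)

/-- the average of a form -/
noncomputable def avg (ω : V → Form) : Form := ∫ x in Icc (0 : Fin 4 → ℝ) 1, ω x

/-- the exterior derivative of a one-form -/
noncomputable def dd (μ : V → Cov) (x : V) : Form := fderiv ℝ μ x - (fderiv ℝ μ x).flip

/-- the wedge product of covectors -/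
noncomputable def wed (α β : Cov) : Form :=
  ContinuousLinearMap.smulRight α β - ContinuousLinearMap.smulRight β α

/-- the coordinate covectors -/
noncomputable def ep (j : Fin 4) : Cov := ContinuousLinearMap.proj j

/-- the coordinate two-forms -/
noncomputable def eb (j k : Fin 4) : Form := wed (ep j) (ep k)

/-- `B` is nondegenerate with margin `c` -/
def Margin (c : ℝ) (B : Form) : Prop := ∀ v : Fin 4 → ℝ, c * ‖v‖ ≤ ‖B v‖

/-- smooth families of closed two-forms -/
structure Fam (Φ : ℝ × V → Form) : Prop where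
  smooth : ContDiff ℝ (⊤ : ℕ∞) Φ
  clo : ∀ t : ℝ, Clo (fun x => Φ (t, x))

/-- the entries of a bilinear form -/
noncomputable def bb (B : Form) (i j : Fin 4) : ℝ := B (Pi.single i 1) (Pi.single j 1)

/-- the Pfaffian -/
noncomputable def pf (B : Form) : ℝ :=
  bb B 0 1 * bb B 2 3 - bb B 0 2 * bb B 1 3 + bb B 0 3 * bb B 1 2

/-- the polarised Pfaffian, `pf (B + C) = pf B + pq B C + pf C` -/
noncomputable def pq (B C : Form) : ℝ :=
  bb B 0 1 * bb C 2 3 + bb B 2 3 * bb C 0 1 - bb B 0 2 * bb C 1 3 - bb B 1 3 * bb C 0 2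
    + bb B 0 3 * bb C 1 2 + bb B 1 2 * bb C 0 3

@[simp] theorem wed_apply (α β : Cov) (u v : V) : wed α β u v = α u * β v - β u * α v := by
  simp [wed]

@[simp] theorem ep_apply (j : Fin 4) (u : V) : ep j u = u j := rfl

@[simp] theorem eb_apply (j k : Fin 4) (u v : V) : eb j k u v = u j * v k - u k * v j := by
  simp [eb]

@[simp] theorem dd_apply (μ : V → Cov) (x u v : V) :
    dd μ x u v = fderiv ℝ μ x u v - fderiv ℝ μ x v u := rfl

theorem IsSymp.clo {ω : V → Form} (h : IsSymp ω) : Clo ω := h.toClo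

end VSI
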