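import Mathlib
import Pool.Agent.VSI.Defs

/-!
# VSI / PAR: smooth dependence of integrals over compact sets on parameters
-/

open Set MeasureTheory

namespace VSI

/-- the partial derivative in the parameter is smooth -/
theorem PAR_comp {E F G : Type} [NormedAddCommGroup E] [NormedSpace ℝ E]
    [NormedAddCommGroup F] [NormedSpace ℝ F] [NormedAddCommGroup G] [NormedSpace ℝ G]
    {H : E × G → F} (hH : ContDiff ℝ (⊤ : ℕ∞) H) :
    ContDiff ℝ (⊤ : ℕ∞) (fun p : E × G => (fderiv ℝ H p).comp (ContinuousLinearMap.inl ℝ E G)) := by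
  have h1 : ContDiff ℝ (⊤ : ℕ∞) (fderiv ℝ H) := hH.fderiv_right (m := (⊤ : ℕ∞)) (by simp)
  exact h1.clm_comp contDiff_const

/-- continuous functions are integrable in the second variable -/
theorem PAR_int {E F G : Type} [NormedAddCommGroup E]
    [NormedAddCommGroup F]
    [NormedAddCommGroup G] [NormedSpace ℝ G] [FiniteDimensional ℝ G] [MeasurableSpace G] [BorelSpace G]
    (μ : Measure G) [IsFiniteMeasureOnCompacts μ] {K : Set G} (hK : IsCompact K) {H : E × G → F}
    (hH : Continuous H) (x : E) : Integrable (fun a => H (x, a)) (μ.restrict K) := by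
  have h : ContinuousOn (fun a => H (x, a)) K :=
    (hH.comp (continuous_const.prodMk continuous_id)).continuousOn
  exact h.integrableOn_compact hK

/-- Derivative of a parameter integral.
Proof: `hasFDerivAt_integral_of_dominated_of_fderiv_le` on the ball of radius one around `x`; the bound is the
maximum of the norm of the derivative over the compact set `closedBall x 1 ×ˢ K`. -/
theorem par_hasFDerivAt {E F G : Type} [NormedAddCommGroup E] [NormedSpace ℝ E] [FiniteDimensional ℝ E]
    [NormedAddCommGroup F] [NormedSpace ℝ F] [CompleteSpace F]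
    [NormedAddCommGroup G] [NormedSpace ℝ G] [FiniteDimensional ℝ G] [MeasurableSpace G] [BorelSpace G]
    (μ : Measure G) [IsFiniteMeasureOnCompacts μ] {K : Set G} (hK : IsCompact K) {H : E × G → F}
    (hH : ContDiff ℝ (⊤ : ℕ∞) H) (x : E) :
    HasFDerivAt (fun x => ∫ a in K, H (x, a) ∂μ)
      (∫ a in K, (fderiv ℝ H (x, a)).comp (ContinuousLinearMap.inl ℝ E G) ∂μ) x := by
  have hc := (PAR_comp hH).continuous
  obtain ⟨C, hC⟩ := ((isCompact_closedBall x 1).prod hK).exists_bound_of_continuousOn
    hc.continuousOn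
  have hint := PAR_int μ hK hc x
  refine hasFDerivAt_integral_of_dominated_of_fderiv_le
    (F := fun x a => H (x, a))
    (F' := fun x a => (fderiv ℝ H (x, a)).comp (ContinuousLinearMap.inl ℝ E G))
    (bound := fun _ => C) (Metric.closedBall_mem_nhds x one_pos) ?_ ?_ ?_ ?_ ?_ ?_
  · exact Filter.Eventually.of_forall fun y => (PAR_int μ hK hH.continuous y).aestronglyMeasurable
  · exact PAR_int μ hK hH.continuous x
  · exact hint.aestronglyMeasurable
  · refine ae_restrict_of_forall_mem hK.measurableSet fun a ha y hy => ?_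
    exact hC (y, a) ⟨hy, ha⟩
  · have h : ContinuousOn (fun _ : G => C) K := continuousOn_const
    exact h.integrableOn_compact hK
  · refine Filter.Eventually.of_forall fun a y _ => ?_
    have h1 : HasFDerivAt H (fderiv ℝ H (y, a)) (y, a) :=
      ((hH.differentiable (by simp)) (y, a)).hasFDerivAt
    have h2 : HasFDerivAt (fun y : E => (y, a)) (ContinuousLinearMap.inl ℝ E G) y :=
      hasFDerivAt_prodMk_left y a
    exact h1.comp y h2

/-- Smoothness of a parameter integral, finite order. -/
theorem PAR_smooth_nat {E G : Type} [NormedAddCommGroup E] [NormedSpace ℝ E] [FiniteDimensional ℝ E]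
    [NormedAddCommGroup G] [NormedSpace ℝ G] [FiniteDimensional ℝ G] [MeasurableSpace G] [BorelSpace G]
    (μ : Measure G) [IsFiniteMeasureOnCompacts μ] {K : Set G} (hK : IsCompact K) (n : ℕ) :
    ∀ (F : Type) [NormedAddCommGroup F] [NormedSpace ℝ F] [CompleteSpace F] (H : E × G → F),
      ContDiff ℝ (⊤ : ℕ∞) H → ContDiff ℝ n (fun x => ∫ a in K, H (x, a) ∂μ) := by
  induction n with
  | zero =>
    intro F _ _ _ H hH
    rw [Nat.cast_zero, contDiff_zero, continuous_iff_continuousAt]
    intro x
    exact (par_hasFDerivAt μ hK hH x).continuousAt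
  | succ n ih =>
    intro F _ _ _ H hH
    have h1 : fderiv ℝ (fun x => ∫ a in K, H (x, a) ∂μ) =
        fun x => ∫ a in K, (fderiv ℝ H (x, a)).comp (ContinuousLinearMap.inl ℝ E G) ∂μ := by
      funext x
      exact (par_hasFDerivAt μ hK hH x).fderiv
    rw [Nat.cast_add, Nat.cast_one, contDiff_succ_iff_fderiv]
    refine ⟨fun x => (par_hasFDerivAt μ hK hH x).differentiableAt, ?_, ?_⟩
    · intro h
      exact absurd h (by simp)
    · rw [h1]
      exact ih (E →L[ℝ] F)
        (fun p : E × G => (fderiv ℝ H p).comp (ContinuousLinearMap.inl ℝ E G)) (PAR_comp hH)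

/-- Smoothness of a parameter integral. Induction on the order of differentiability, for all `F` at once. -/
theorem par_smooth {E F G : Type} [NormedAddCommGroup E] [NormedSpace ℝ E] [FiniteDimensional ℝ E]
    [NormedAddCommGroup F] [NormedSpace ℝ F] [CompleteSpace F]
    [NormedAddCommGroup G] [NormedSpace ℝ G] [FiniteDimensional ℝ G] [MeasurableSpace G] [BorelSpace G]
    (μ : Measure G) [IsFiniteMeasureOnCompacts μ] {K : Set G} (hK : IsCompact K) {H : E × G → F}
    (hH : ContDiff ℝ (⊤ : ℕ∞) H) :
    ContDiff ℝ (⊤ : ℕ∞) (fun x => ∫ a in K, H (x, a) ∂μ) := by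
  rw [contDiff_infty]
  intro n
  exact PAR_smooth_nat μ hK n F H hH

/-- The derivative of a parameter integral in a direction. -/
theorem par_fderiv {E F G : Type} [NormedAddCommGroup E] [NormedSpace ℝ E] [FiniteDimensional ℝ E]
    [NormedAddCommGroup F] [NormedSpace ℝ F] [CompleteSpace F]
    [NormedAddCommGroup G] [NormedSpace ℝ G] [FiniteDimensional ℝ G] [MeasurableSpace G] [BorelSpace G]
    (μ : Measure G) [IsFiniteMeasureOnCompacts μ] {K : Set G} (hK : IsCompact K) {H : E × G → F}
    (hH : ContDiff ℝ (⊤ : ℕ∞) H) (x u : E) :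
    fderiv ℝ (fun x => ∫ a in K, H (x, a) ∂μ) x u = ∫ a in K, fderiv ℝ H (x, a) (u, 0) ∂μ := by
  rw [(par_hasFDerivAt μ hK hH x).fderiv,
    ContinuousLinearMap.integral_apply (PAR_int μ hK (PAR_comp hH).continuous x)]
  rfl

end VSI
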