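import Mathlib
import Pool.Agent.VSI.Defs

/-!
# VSI / SHF: periodic functions and integrals over the unit cube
-/

open Set MeasureTheory

namespace VSI

/-- The lattice of integer points. -/
noncomputable def SHF_L : AddSubgroup V where
  carrier := {x | ∃ n : Fin 4 → ℤ, x = fun i => (n i : ℝ)}
  zero_mem' := ⟨0, by funext i; simp⟩
  add_mem' := by
    rintro x y ⟨n, rfl⟩ ⟨k, rfl⟩
    exact ⟨n + k, by funext i; simp⟩
  neg_mem' := by
    rintro x ⟨n, rfl⟩
    exact ⟨-n, by funext i; simp⟩

theorem SHF_mem (x : V) : x ∈ SHF_L ↔ ∃ n : Fin 4 → ℤ, x = fun i => (n i : ℝ) := Iff.rfl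

/-- The half open unit cube. -/
def SHF_C : Set V := Set.univ.pi fun _ => Set.Ico (0 : ℝ) 1

theorem SHF_unique (x : V) : ∃! g : SHF_L, g +ᵥ x ∈ SHF_C := by
  refine ⟨⟨fun i => ((-⌊x i⌋ : ℤ) : ℝ), ⟨fun i => -⌊x i⌋, rfl⟩⟩, ?_, ?_⟩
  · intro i _
    change ((-⌊x i⌋ : ℤ) : ℝ) + x i ∈ Set.Ico (0 : ℝ) 1
    constructor
    · push_cast
      linarith [Int.floor_le (x i)]
    · push_cast
      linarith [Int.lt_floor_add_one (x i)]
  · rintro ⟨y, n, rfl⟩ hy
    apply Subtype.ext
    funext i
    have h1 : ((n i : ℤ) : ℝ) + x i ∈ Set.Ico (0 : ℝ) 1 := hy i (Set.mem_univ i)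
    have h2 : ⌊x i⌋ = -n i := by
      rw [Int.floor_eq_iff]
      push_cast
      exact ⟨by linarith [h1.1], by linarith [h1.2]⟩
    change ((n i : ℤ) : ℝ) = ((-⌊x i⌋ : ℤ) : ℝ)
    rw [h2, neg_neg]

instance SHF_countable : Countable SHF_L := by
  have h : Function.Surjective (fun n : Fin 4 → ℤ => (⟨fun i => (n i : ℝ), ⟨n, rfl⟩⟩ : SHF_L)) := by
    rintro ⟨y, n, rfl⟩
    exact ⟨n, rfl⟩
  exact h.countable

theorem SHF_measC : MeasurableSet SHF_C :=
  MeasurableSet.univ_pi fun _ => measurableSet_Ico

theorem SHF_fund : IsAddFundamentalDomain SHF_L SHF_C (volume : Measure V) :=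
  IsAddFundamentalDomain.mk' SHF_measC.nullMeasurableSet SHF_unique

theorem SHF_ae : (SHF_C : Set V) =ᵐ[volume] Icc (0 : V) 1 := by
  have h := Measure.univ_pi_Ico_ae_eq_Icc (μ := fun _ : Fin 4 => (volume : Measure ℝ))
    (f := (0 : V)) (g := (1 : V))
  exact h

/-- The integral of a periodic function over the unit cube is translation invariant. -/
theorem integral_shift {F : Type} [NormedAddCommGroup F] [NormedSpace ℝ F] [CompleteSpace F]
    {f : V → F} (hf : Continuous f) (hp : Per f) (a : V) :
    ∫ x in Icc (0 : V) 1, f (x + a) = ∫ x in Icc (0 : V) 1, f x := by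
  rw [← setIntegral_congr_set SHF_ae, ← setIntegral_congr_set SHF_ae]
  -- the translated cube is a fundamental domain as well
  have h1 : ∫ x in SHF_C, f (x + a) = ∫ x in (fun x : V => x + a) '' SHF_C, f x := by
    have h2 : MeasurePreserving (fun x : V => x + a) volume volume :=
      measurePreserving_add_right volume a
    have h3 : MeasurableEmbedding (fun x : V => x + a) := measurableEmbedding_addRight a
    exact (h2.setIntegral_image_emb h3 f SHF_C).symm
  have h4 : IsAddFundamentalDomain SHF_L ((fun x : V => x + a) '' SHF_C) (volume : Measure V) := by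
    refine IsAddFundamentalDomain.mk' ?_ ?_
    · exact ((measurableEmbedding_addRight a).measurableSet_image.2 SHF_measC).nullMeasurableSet
    · intro x
      have e : ∀ g : SHF_L, (g +ᵥ x ∈ (fun x : V => x + a) '' SHF_C) ↔ g +ᵥ (x - a) ∈ SHF_C := by
        intro g
        constructor
        · rintro ⟨y, hy, hyx⟩
          have : g +ᵥ (x - a) = y := by
            change (g : V) + (x - a) = y
            have h5 : y + a = (g : V) + x := hyx
            rw [← add_sub_assoc, ← h5, add_sub_cancel_right]
          rw [this]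
          exact hy
        · intro hy
          refine ⟨g +ᵥ (x - a), hy, ?_⟩
          change (g : V) + (x - a) + a = (g : V) + x
          rw [add_assoc, sub_add_cancel]
      simp only [e]
      exact SHF_unique (x - a)
  rw [h1]
  refine h4.setIntegral_eq SHF_fund fun g x => ?_
  obtain ⟨y, n, rfl⟩ := g
  change f ((fun i => ((n i : ℤ) : ℝ)) + x) = f x
  rw [add_comm]
  exact hp x n

/-- The volume of the unit cube is one. -/
theorem vol_cube : volume (Icc (0 : V) 1) = 1 := by
  rw [Real.volume_Icc_pi]
  simp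

theorem integral_const_cube {F : Type} [NormedAddCommGroup F] [NormedSpace ℝ F] [CompleteSpace F]
    (b : F) : ∫ _x in Icc (0 : V) 1, b = b := by
  rw [setIntegral_const, Measure.real, vol_cube]
  simp

/-- Every point is an integer translate of a point of the unit cube. -/
theorem exists_cube (x : V) : ∃ n : Fin 4 → ℤ, (x + fun i => (n i : ℝ)) ∈ Icc (0 : V) 1 := by
  refine ⟨fun i => -⌊x i⌋, ?_, ?_⟩
  · intro i
    change (0 : ℝ) ≤ x i + ((-⌊x i⌋ : ℤ) : ℝ)
    push_cast
    linarith [Int.floor_le (x i)]
  · intro i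
    change x i + ((-⌊x i⌋ : ℤ) : ℝ) ≤ 1
    push_cast
    linarith [Int.lt_floor_add_one (x i)]

theorem SHF_int {F : Type} [NormedAddCommGroup F] {f : V → F} (h : Continuous f) :
    Integrable f (volume.restrict (Icc (0 : V) 1)) :=
  h.continuousOn.integrableOn_compact isCompact_Icc

/-- The average of a continuous form, evaluated. -/
theorem avg_apply {ω : V → Form} (h : Continuous ω) (u v : V) :
    avg ω u v = ∫ x in Icc (0 : V) 1, ω x u v := by
  unfold avg
  rw [ContinuousLinearMap.integral_apply (SHF_int h),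
    ContinuousLinearMap.integral_apply (SHF_int (h.clm_apply continuous_const))]

theorem cls_iff {ω : V → Form} (h : Continuous ω) (A : Form) : Cls A ω ↔ avg ω = A := by
  constructor
  · intro hc
    refine ContinuousLinearMap.ext fun u => ContinuousLinearMap.ext fun v => ?_
    rw [avg_apply h]
    exact hc u v
  · intro hc u v
    rw [← hc, avg_apply h]

theorem avg_const (B : Form) : avg (fun _ => B) = B := integral_const_cube B

theorem avg_add {ω η : V → Form} (h : Continuous ω) (h' : Continuous η) :
    avg (fun x => ω x + η x) = avg ω + avg η := by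
  unfold avg
  exact integral_add (SHF_int h) (SHF_int h')

theorem SHF_smul {F : Type} [NormedAddCommGroup F] [NormedSpace ℝ F] (r : ℝ) (ω : V → F) :
    ∫ x in Icc (0 : V) 1, r • ω x = r • ∫ x in Icc (0 : V) 1, ω x := integral_smul r _

theorem avg_smul {ω : V → Form} (r : ℝ) : avg (fun x => r • ω x) = r • avg ω :=
  SHF_smul r ω

theorem avg_alt {ω : V → Form} (h : Continuous ω) (ha : ∀ x, Alt (ω x)) : Alt (avg ω) := by
  intro u v
  rw [avg_apply h, avg_apply h, ← integral_neg]
  exact integral_congr_ae (Filter.Eventually.of_forall fun x => ha x u v)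

end VSI
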