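import Mathlib
import Pool.Agent.VSI.PAR
import Pool.Agent.VSI.SHF

/-!
# VSI / DIV: the integral of a derivative of a periodic function vanishes
-/

open Set MeasureTheory

namespace VSI

theorem per_fderiv {F : Type} [NormedAddCommGroup F] [NormedSpace ℝ F] {f : V → F}
    (hp : Per f) : Per (fderiv ℝ f) := by
  intro x n
  rw [← fderiv_comp_add_right]
  congr 1
  funext y
  exact hp y n

/-- Proof: `g h = ∫ f (x + h • u)` does not depend on `h : ℝ` by `integral_shift`, and its derivative at zero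
is `∫ fderiv f x u` by `par_fderiv` with parameter space `ℝ`. -/
theorem integral_fderiv {F : Type} [NormedAddCommGroup F] [NormedSpace ℝ F] [CompleteSpace F]
    {f : V → F} (hf : ContDiff ℝ (⊤ : ℕ∞) f) (hp : Per f) (u : V) :
    ∫ x in Icc (0 : V) 1, fderiv ℝ f x u = 0 := by
  have hg : ContDiff ℝ (⊤ : ℕ∞) (fun p : ℝ × V => p.2 + p.1 • u) := by fun_prop
  have hH : ContDiff ℝ (⊤ : ℕ∞) (fun p : ℝ × V => f (p.2 + p.1 • u)) := hf.comp hg
  have h1 := par_fderiv (volume : Measure V) (isCompact_Icc (a := (0 : V)) (b := 1)) hH (0 : ℝ) 1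
  have h2 : (fun h : ℝ => ∫ a in Icc (0 : V) 1, f (a + h • u)) =
      fun _ => ∫ a in Icc (0 : V) 1, f a := by
    funext h
    exact integral_shift hf.continuous hp _
  simp only at h1
  rw [h2] at h1
  have h3 : ∀ a : V, fderiv ℝ (fun p : ℝ × V => f (p.2 + p.1 • u)) (0, a) (1, 0) = fderiv ℝ f a u := by
    intro a
    have hfa : HasFDerivAt f (fderiv ℝ f (a + (0 : ℝ) • u)) (a + (0 : ℝ) • u) :=
      ((hf.differentiable (by simp)) _).hasFDerivAt
    have hga : HasFDerivAt (fun p : ℝ × V => p.2 + p.1 • u)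
        (ContinuousLinearMap.snd ℝ ℝ V + (ContinuousLinearMap.fst ℝ ℝ V).smulRight u) (0, a) :=
      (hasFDerivAt_snd).add ((hasFDerivAt_fst).smul_const u)
    have h4 := HasFDerivAt.comp (0, a) hfa hga
    have h5 : fderiv ℝ (fun p : ℝ × V => f (p.2 + p.1 • u)) (0, a) = _ := h4.fderiv
    rw [h5]
    simp
  simp only [h3] at h1
  rw [← h1]
  simp

end VSI
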