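import Mathlib
import Pool.Agent.VSI.DIV

/-!
# VSI / EXA: exact forms, sums and multiples of closed forms
-/

open Set MeasureTheory

namespace VSI

section General

variable {E F P : Type} [NormedAddCommGroup E] [NormedSpace ℝ E] [NormedAddCommGroup F]
  [NormedSpace ℝ F] [NormedAddCommGroup P] [NormedSpace ℝ P]

theorem exa_smooth (T : F →L[ℝ] F) {g : P → F} (hg : ContDiff ℝ (⊤ : ℕ∞) g) :
    ContDiff ℝ (⊤ : ℕ∞) (fun x => g x - T (g x)) := hg.sub (T.contDiff.comp hg)

theorem exa_symm {μ : E → F} (hμ : ContDiff ℝ (⊤ : ℕ∞) μ) (x u v : E) :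
    fderiv ℝ (fderiv ℝ μ) x u v = fderiv ℝ (fderiv ℝ μ) x v u := by
  have h : IsSymmSndFDerivAt ℝ μ x :=
    (hμ.contDiffAt).isSymmSndFDerivAt (by
      simp only [minSmoothness_of_isRCLikeNormedField]
      exact WithTop.coe_le_coe.2 (OrderTop.le_top _))
  exact h u v

theorem exa_fderiv (T : F →L[ℝ] F) {g : E → F} {x : E} (hd : DifferentiableAt ℝ g x) :
    fderiv ℝ (fun x => g x - T (g x)) x = fderiv ℝ g x - T.comp (fderiv ℝ g x) :=
  (hd.hasFDerivAt.sub (HasFDerivAt.comp x T.hasFDerivAt hd.hasFDerivAt)).fderiv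

omit [NormedSpace ℝ E] in
theorem exa_avg [MeasurableSpace E] [BorelSpace E] {m : Measure E} [IsFiniteMeasureOnCompacts m]
    (T : F →L[ℝ] F) {K : Set E} (hK : IsCompact K) {g : E → F} (hg : Continuous g) [CompleteSpace F]
    (h00 : ∫ x in K, g x ∂m = 0) : ∫ x in K, (g x - T (g x)) ∂m = 0 := by
  have hi : IntegrableOn g K m := hg.continuousOn.integrableOn_compact hK
  have h1 : ∫ x in K, T (g x) ∂m = 0 := by
    rw [ContinuousLinearMap.integral_comp_comm _ hi, h00, map_zero]
  have hi2 : IntegrableOn (fun x => T (g x)) K m :=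
    (T.continuous.comp hg).continuousOn.integrableOn_compact hK
  rw [integral_sub hi hi2, h00, h1, sub_zero]

theorem exa_int0 [MeasurableSpace E] [BorelSpace E] {m : Measure E} [IsFiniteMeasureOnCompacts m]
    {K : Set E} (hK : IsCompact K) {g : E → E →L[ℝ] F} (hg : Continuous g)
    (h0 : ∀ u, ∫ x in K, g x u ∂m = 0) : ∫ x in K, g x ∂m = 0 := by
  have hi : IntegrableOn g K m := hg.continuousOn.integrableOn_compact hK
  ext1 u
  rw [ContinuousLinearMap.integral_apply hi, h0 u]
  rfl

theorem exa_rep {μ : E → F}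
    (hμ : Differentiable ℝ μ) {r : ℝ} (hn0 : r ≠ 0) (x : E) :
    fderiv ℝ (fun y : E => r⁻¹ • μ (r • y)) x = fderiv ℝ μ (r • x) := by
  have h2 : HasFDerivAt (fun y : E => r • y) (r • ContinuousLinearMap.id ℝ E) x :=
    (hasFDerivAt_id (𝕜 := ℝ) x).const_smul r
  have h3 : HasFDerivAt μ (fderiv ℝ μ (r • x)) (r • x) := (hμ _).hasFDerivAt
  have h4 : HasFDerivAt (fun y : E => r⁻¹ • μ (r • y))
      (r⁻¹ • (fderiv ℝ μ (r • x)).comp (r • ContinuousLinearMap.id ℝ E)) x :=
    (HasFDerivAt.comp x h3 h2).const_smul (r⁻¹)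
  rw [h4.fderiv]
  ext1 u
  simp only [smul_apply, ContinuousLinearMap.comp_apply,
    ContinuousLinearMap.id_apply, map_smul]
  rw [smul_smul, inv_mul_cancel₀ hn0, one_smul]

end General

/-- the flip of bilinear forms, as a continuous linear map -/
noncomputable def exaFlip :=
  (ContinuousLinearMap.flipₗᵢ ℝ V V ℝ).toContinuousLinearEquiv.toContinuousLinearMap

theorem exa_fderiv_dd {μ : V → Cov} (hμ : ContDiff ℝ (⊤ : ℕ∞) μ) (x u v w : V) :
    fderiv ℝ (dd μ) x u v w
      = fderiv ℝ (fderiv ℝ μ) x u v w - fderiv ℝ (fderiv ℝ μ) x u w v := by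
  have hs : ContDiff ℝ (⊤ : ℕ∞) (fderiv ℝ μ) := hμ.fderiv_right (by simp)
  have h := exa_fderiv exaFlip (hs.differentiable (by simp) x)
  have h2 : fderiv ℝ (dd μ) x = _ := h
  rw [h2]
  rfl

/-- Exact forms are closed (symmetry of the second derivative). -/
theorem clo_dd {μ : V → Cov} (hμ : ContDiff ℝ (⊤ : ℕ∞) μ) (hp : Per μ) : Clo (dd μ) where
  smooth := exa_smooth exaFlip (hμ.fderiv_right (m := (⊤ : ℕ∞)) (by simp))
  per := by
    intro x n
    have h := per_fderiv hp x n
    unfold dd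
    rw [h]
  alt := by
    intro x u v
    simp only [dd_apply]
    ring
  closed := by
    intro x u v w
    rw [exa_fderiv_dd hμ, exa_fderiv_dd hμ, exa_fderiv_dd hμ, exa_symm hμ x u v, exa_symm hμ x v w,
      exa_symm hμ x w u]
    ring

/-- Exact forms have average zero. -/
theorem avg_dd {μ : V → Cov} (hμ : ContDiff ℝ (⊤ : ℕ∞) μ) (hp : Per μ) : avg (dd μ) = 0 := by
  have hs : ContDiff ℝ (⊤ : ℕ∞) (fderiv ℝ μ) := hμ.fderiv_right (by simp)
  have h0 := exa_int0 (m := volume) (isCompact_Icc (a := (0 : V)) (b := 1)) hs.continuous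
    (integral_fderiv hμ hp)
  exact exa_avg (m := volume) exaFlip (isCompact_Icc (a := (0 : V)) (b := 1)) hs.continuous h0

theorem clo_const {B : Form} (hB : Alt B) : Clo (fun _ => B) where
  smooth := contDiff_const
  per := fun _ _ => rfl
  alt := fun _ u v => hB u v
  closed := by
    intro x u v w
    simp

theorem Clo.add {ω η : V → Form} (h : Clo ω) (h' : Clo η) : Clo (fun x => ω x + η x) where
  smooth := h.smooth.add h'.smooth
  per := by
    intro x n
    simp only [h.per x n, h'.per x n]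
  alt := by
    intro x u v
    simp only [add_apply]
    rw [h.alt x u v, h'.alt x u v]
    ring
  closed := by
    intro x u v w
    have h1 : HasFDerivAt (fun x => ω x + η x) (fderiv ℝ ω x + fderiv ℝ η x) x :=
      ((h.smooth.differentiable (by simp)) x).hasFDerivAt.add
        ((h'.smooth.differentiable (by simp)) x).hasFDerivAt
    rw [h1.fderiv]
    simp only [add_apply]
    linear_combination h.closed x u v w + h'.closed x u v w

theorem Clo.smul {ω : V → Form} (h : Clo ω) (r : ℝ) : Clo (fun x => r • ω x) where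
  smooth := h.smooth.const_smul r
  per := by
    intro x n
    simp only [h.per x n]
  alt := by
    intro x u v
    simp only [smul_apply, smul_eq_mul]
    rw [h.alt x u v]
    ring
  closed := by
    intro x u v w
    have h1 : HasFDerivAt (fun x => r • ω x) (r • fderiv ℝ ω x) x :=
      ((h.smooth.differentiable (by simp)) x).hasFDerivAt.const_smul r
    rw [h1.fderiv]
    simp only [smul_apply, smul_eq_mul]
    linear_combination r * h.closed x u v w

/-- A smooth family of one-forms has a smooth family of derivatives. -/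
theorem smooth_dd {L : ℝ × V → Cov} (hL : ContDiff ℝ (⊤ : ℕ∞) L) :
    ContDiff ℝ (⊤ : ℕ∞) (fun p : ℝ × V => dd (fun x => L (p.1, x)) p.2) := by
  have h1 : ContDiff ℝ (⊤ : ℕ∞) (fun p : ℝ × V => fderiv ℝ (fun x => L (p.1, x)) p.2) := by
    have hu : ContDiff ℝ (⊤ : ℕ∞)
        (Function.uncurry fun (p : ℝ × V) (x : V) => L (p.1, x)) := by
      have : ContDiff ℝ (⊤ : ℕ∞) (fun q : (ℝ × V) × V => (q.1.1, q.2)) := by fun_prop
      exact hL.comp this
    exact hu.fderiv contDiff_snd (by simp)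
  exact exa_smooth exaFlip h1

/-- `dd` of a rescaled one-form. -/
theorem dd_rep {μ : V → Cov} (hμ : ContDiff ℝ (⊤ : ℕ∞) μ) {n : ℕ} (hn : 0 < n) (x : V) :
    dd (fun y => (n : ℝ)⁻¹ • μ ((n : ℝ) • y)) x = dd μ ((n : ℝ) • x) := by
  have hn0 : (n : ℝ) ≠ 0 := by positivity
  unfold dd
  rw [exa_rep (hμ.differentiable (by simp)) hn0 x]

end VSI
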