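import Mathlib
import Pool.Agent.VSI.SHF

/-!
# VSI / MRG: margins of nondegeneracy
-/

open Set MeasureTheory

namespace VSI

theorem Margin.nondeg {c : ℝ} (hc : 0 < c) {B : Form} (h : Margin c B) : Nondeg B := by
  intro v hv
  have h0 : B v = 0 := ContinuousLinearMap.ext fun w => by simpa using hv w
  have h1 := h v
  rw [h0, norm_zero] at h1
  have h2 : ‖v‖ ≤ 0 := by
    by_contra h3
    push Not at h3
    nlinarith [mul_pos hc h3]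
  exact norm_le_zero_iff.1 h2

theorem Margin.add {c d : ℝ} {B C : Form} (h : Margin c B) (hC : ‖C‖ ≤ d) : Margin (c - d) (B + C) := by
  intro v
  have h1 := h v
  have h2 : ‖C v‖ ≤ d * ‖v‖ :=
    (C.le_opNorm v).trans (mul_le_mul_of_nonneg_right hC (norm_nonneg v))
  have h3 : (B + C) v = B v + C v := rfl
  rw [h3]
  have h4 : ‖B v‖ ≤ ‖B v + C v‖ + ‖C v‖ := by
    calc ‖B v‖ = ‖(B v + C v) - C v‖ := by rw [add_sub_cancel_right]
      _ ≤ _ := norm_sub_le _ _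
  linarith [sub_mul c d ‖v‖]

/-- Uniform margin on the unit interval: the minimum of `‖Φ (t, x) v‖` over `Icc 0 1 ×ˢ Icc 0 1 ×ˢ sphere 0 1`,
then `exists_cube`. -/
theorem margin_compact {Φ : ℝ × V → Form} (hΦ : Continuous Φ)
    (hp : ∀ t ∈ Icc (0 : ℝ) 1, Per (fun x => Φ (t, x)))
    (hn : ∀ t ∈ Icc (0 : ℝ) 1, ∀ x, Nondeg (Φ (t, x))) :
    ∃ c > 0, ∀ t ∈ Icc (0 : ℝ) 1, ∀ x, Margin c (Φ (t, x)) := by
  have hK : IsCompact ((Icc (0 : ℝ) 1) ×ˢ ((Icc (0 : V) 1) ×ˢ (Metric.sphere (0 : V) 1))) :=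
    isCompact_Icc.prod (isCompact_Icc.prod (isCompact_sphere 0 1))
  have hS : (Metric.sphere (0 : V) 1).Nonempty := NormedSpace.sphere_nonempty.2 zero_le_one
  have hne : ((Icc (0 : ℝ) 1) ×ˢ ((Icc (0 : V) 1) ×ˢ (Metric.sphere (0 : V) 1))).Nonempty := by
    refine Set.Nonempty.prod ⟨0, left_mem_Icc.2 zero_le_one⟩ (Set.Nonempty.prod ?_ hS)
    exact ⟨0, left_mem_Icc.2 zero_le_one⟩
  have hg : Continuous fun q : ℝ × V × V => ‖Φ (q.1, q.2.1) q.2.2‖ := by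
    refine Continuous.norm ?_
    exact (hΦ.comp (continuous_fst.prodMk continuous_snd.fst)).clm_apply continuous_snd.snd
  obtain ⟨q, hq, hmin⟩ := hK.exists_isMinOn hne hg.continuousOn
  obtain ⟨hq1, hq2, hq3⟩ := hq
  have hpos : 0 < ‖Φ (q.1, q.2.1) q.2.2‖ := by
    rw [norm_pos_iff]
    intro h0
    have h1 : q.2.2 = 0 := hn q.1 hq1 q.2.1 q.2.2 fun w => by rw [h0]; rfl
    rw [mem_sphere_zero_iff_norm, h1, norm_zero] at hq3
    exact zero_ne_one hq3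
  refine ⟨‖Φ (q.1, q.2.1) q.2.2‖, hpos, ?_⟩
  intro t ht x v
  by_cases hv : v = 0
  · subst hv
    simp
  have hv0 : 0 < ‖v‖ := norm_pos_iff.2 hv
  obtain ⟨n, hn'⟩ := exists_cube x
  have h1 : Φ (t, x) = Φ (t, x + fun i => (n i : ℝ)) := (hp t ht x n).symm
  have h2 : ‖(‖v‖⁻¹ • v)‖ = 1 := norm_smul_inv_norm hv
  have h3 : ‖Φ (q.1, q.2.1) q.2.2‖ ≤ ‖Φ (t, x + fun i => (n i : ℝ)) (‖v‖⁻¹ • v)‖ :=
    hmin (a := (t, (x + fun i => (n i : ℝ)), ‖v‖⁻¹ • v))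
      ⟨ht, hn', mem_sphere_zero_iff_norm.2 h2⟩
  rw [← h1, map_smul, norm_smul, norm_inv, norm_norm] at h3
  calc ‖Φ (q.1, q.2.1) q.2.2‖ * ‖v‖ ≤ (‖v‖⁻¹ * ‖Φ (t, x) v‖) * ‖v‖ :=
        mul_le_mul_of_nonneg_right h3 hv0.le
    _ = ‖Φ (t, x) v‖ := by field_simp

/-- Uniform bound on the unit interval. -/
theorem bound_compact {F : Type} [NormedAddCommGroup F] {Φ : ℝ × V → F} (hΦ : Continuous Φ)
    (hp : ∀ t ∈ Icc (0 : ℝ) 1, Per (fun x => Φ (t, x))) :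
    ∃ C : ℝ, 0 < C ∧ ∀ t ∈ Icc (0 : ℝ) 1, ∀ x, ‖Φ (t, x)‖ ≤ C := by
  have hK : IsCompact ((Icc (0 : ℝ) 1) ×ˢ (Icc (0 : V) 1)) := isCompact_Icc.prod isCompact_Icc
  obtain ⟨C, hC⟩ := hK.exists_bound_of_continuousOn hΦ.continuousOn
  have h0 : 0 ≤ C := (norm_nonneg _).trans
    (hC (0, 0) ⟨left_mem_Icc.2 zero_le_one, left_mem_Icc.2 zero_le_one⟩)
  refine ⟨C + 1, by linarith, ?_⟩
  intro t ht x
  obtain ⟨n, hn'⟩ := exists_cube x
  have h1 : Φ (t, x) = Φ (t, x + fun i => (n i : ℝ)) := (hp t ht x n).symm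
  rw [h1]
  have := hC (t, x + fun i => (n i : ℝ)) ⟨ht, hn'⟩
  linarith

theorem norm_wed_le (α β : Cov) : ‖wed α β‖ ≤ 2 * (‖α‖ * ‖β‖) := by
  have h : ‖wed α β‖ ≤ ‖(ContinuousLinearMap.smulRight α β : Form)‖ +
      ‖(ContinuousLinearMap.smulRight β α : Form)‖ := by
    unfold wed
    exact norm_sub_le (E := Form) _ _
  rw [ContinuousLinearMap.norm_smulRight_apply, ContinuousLinearMap.norm_smulRight_apply] at h
  linarith [mul_comm ‖α‖ ‖β‖]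

theorem norm_ep_le (j : Fin 4) : ‖ep j‖ ≤ 1 := by
  refine ContinuousLinearMap.opNorm_le_bound _ zero_le_one fun u => ?_
  rw [ep_apply, one_mul]
  exact norm_le_pi_norm u j

theorem norm_eb_le (j k : Fin 4) : ‖eb j k‖ ≤ 2 := by
  unfold eb
  refine (norm_wed_le _ _).trans ?_
  have h1 := norm_ep_le j
  have h2 := norm_ep_le k
  have h3 : ‖ep j‖ * ‖ep k‖ ≤ 1 * 1 :=
    mul_le_mul h1 h2 (norm_nonneg _) zero_le_one
  linarith

end VSI
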