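import Mathlib
import Pool.Agent.VSI.Defs

/-!
# VSI / NRM: normalised paths, concatenation
-/

open Set MeasureTheory

namespace VSI

/-- Reparametrisation of a smooth path. -/
theorem nrm_comp {Ω : ℝ → V → Form} (hs : ContDiff ℝ (⊤ : ℕ∞) (fun p : ℝ × V => Ω p.1 p.2))
    {τ : ℝ → ℝ} (hτ : ContDiff ℝ (⊤ : ℕ∞) τ) :
    ContDiff ℝ (⊤ : ℕ∞) (fun p : ℝ × V => Ω (τ p.1) p.2) :=
  hs.comp ((hτ.comp contDiff_fst).prodMk contDiff_snd)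

/-- Normalised path: constant for `t ≤ 0` and for `t ≥ 1`.  Proof: `Ω (smoothTransition t)`. -/
theorem exists_norm_path {P : (V → Form) → Prop} {Ω : ℝ → V → Form}
    (hs : ContDiff ℝ (⊤ : ℕ∞) (fun p : ℝ × V => Ω p.1 p.2)) (hP : ∀ t ∈ Icc (0 : ℝ) 1, P (Ω t)) :
    ∃ Ψ : ℝ → V → Form, ContDiff ℝ (⊤ : ℕ∞) (fun p : ℝ × V => Ψ p.1 p.2) ∧
      (∀ t ≤ 0, Ψ t = Ω 0) ∧ (∀ t, 1 ≤ t → Ψ t = Ω 1) ∧ ∀ t, P (Ψ t) := by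
  refine ⟨fun t => Ω (Real.smoothTransition t), nrm_comp hs Real.smoothTransition.contDiff,
    fun t ht => ?_, fun t ht => ?_, fun t => ?_⟩
  · simp only [Real.smoothTransition.zero_of_nonpos ht]
  · simp only [Real.smoothTransition.one_of_one_le ht]
  · exact hP _ ⟨Real.smoothTransition.nonneg t, Real.smoothTransition.le_one t⟩

/-- Concatenation of two normalised paths; `Ψ₁ (3 t) + Ψ₂ (3 t - 2) - ω₁`. -/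
theorem exists_concat {P : (V → Form) → Prop} {Ω₁ Ω₂ : ℝ → V → Form}
    (hs₁ : ContDiff ℝ (⊤ : ℕ∞) (fun p : ℝ × V => Ω₁ p.1 p.2)) (hP₁ : ∀ t ∈ Icc (0 : ℝ) 1, P (Ω₁ t))
    (hs₂ : ContDiff ℝ (⊤ : ℕ∞) (fun p : ℝ × V => Ω₂ p.1 p.2)) (hP₂ : ∀ t ∈ Icc (0 : ℝ) 1, P (Ω₂ t))
    (hm : Ω₁ 1 = Ω₂ 0) :
    ∃ Ψ : ℝ → V → Form, ContDiff ℝ (⊤ : ℕ∞) (fun p : ℝ × V => Ψ p.1 p.2) ∧
      Ψ 0 = Ω₁ 0 ∧ Ψ 1 = Ω₂ 1 ∧ ∀ t, P (Ψ t) := by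
  obtain ⟨Ψ₁, c1, a1, b1, p1⟩ := exists_norm_path hs₁ hP₁
  obtain ⟨Ψ₂, c2, a2, b2, p2⟩ := exists_norm_path hs₂ hP₂
  refine ⟨fun t x => Ψ₁ (3 * t) x + Ψ₂ (3 * t - 2) x - Ω₁ 1 x, ?_, ?_, ?_, ?_⟩
  · have h1 : ContDiff ℝ (⊤ : ℕ∞) (fun t : ℝ => 3 * t) := by fun_prop
    have h2 : ContDiff ℝ (⊤ : ℕ∞) (fun t : ℝ => 3 * t - 2) := by fun_prop
    have h3 : ContDiff ℝ (⊤ : ℕ∞) (fun _ : ℝ => (1 : ℝ)) := contDiff_const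
    exact ((nrm_comp c1 h1).add (nrm_comp c2 h2)).sub (nrm_comp hs₁ h3)
  · funext x
    change Ψ₁ (3 * 0) x + Ψ₂ (3 * 0 - 2) x - Ω₁ 1 x = Ω₁ 0 x
    rw [a1 _ (by norm_num), a2 _ (by norm_num), hm]
    abel
  · funext x
    change Ψ₁ (3 * 1) x + Ψ₂ (3 * 1 - 2) x - Ω₁ 1 x = Ω₂ 1 x
    rw [b1 _ (by norm_num), b2 _ (by norm_num)]
    abel
  · intro t
    change P (fun x => Ψ₁ (3 * t) x + Ψ₂ (3 * t - 2) x - Ω₁ 1 x)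
    rcases le_total (3 * t) 2 with h | h
    · have : (fun x => Ψ₁ (3 * t) x + Ψ₂ (3 * t - 2) x - Ω₁ 1 x) = Ψ₁ (3 * t) := by
        funext x
        rw [a2 _ (by linarith), hm]
        abel
      rw [this]
      exact p1 _
    · have : (fun x => Ψ₁ (3 * t) x + Ψ₂ (3 * t - 2) x - Ω₁ 1 x) = Ψ₂ (3 * t - 2) := by
        funext x
        rw [b1 _ (by linarith)]
        abel
      rw [this]
      exact p2 _

theorem Joined.refl {A : Form} {ω : V → Form} (h : Symp A ω) : Joined A ω ω :=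
  ⟨fun _ => ω, h.1.smooth.comp contDiff_snd, rfl, rfl, fun _ _ => h⟩

theorem Joined.symm {A : Form} {ω₀ ω₁ : V → Form} (h : Joined A ω₀ ω₁) : Joined A ω₁ ω₀ := by
  obtain ⟨Ω, hs, h0, h1, hP⟩ := h
  have h2 : ContDiff ℝ (⊤ : ℕ∞) (fun t : ℝ => 1 - t) := by fun_prop
  refine ⟨fun t => Ω (1 - t), nrm_comp hs h2, ?_, ?_, fun t ht => ?_⟩
  · simp only [sub_zero]
    exact h1
  · simp only [sub_self]
    exact h0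
  · exact hP _ ⟨by linarith [ht.2], by linarith [ht.1]⟩

theorem Joined.trans {A : Form} {ω₀ ω₁ ω₂ : V → Form} (h : Joined A ω₀ ω₁) (h' : Joined A ω₁ ω₂) :
    Joined A ω₀ ω₂ := by
  obtain ⟨Ω, hs, h0, h1, hP⟩ := h
  obtain ⟨Ω', hs', h0', h1', hP'⟩ := h'
  obtain ⟨Ψ, hc, ha, hb, hp⟩ := exists_concat hs hP hs' hP' (h1.trans h0'.symm)
  exact ⟨Ψ, hc, ha.trans h0, hb.trans h1', fun t _ => hp t⟩

theorem Deform.refl {ω : V → Form} (h : IsSymp ω) : Deform ω ω :=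
  ⟨fun _ => ω, h.smooth.comp contDiff_snd, rfl, rfl, fun _ _ => h⟩

theorem Deform.symm {ω₀ ω₁ : V → Form} (h : Deform ω₀ ω₁) : Deform ω₁ ω₀ := by
  obtain ⟨Ω, hs, h0, h1, hP⟩ := h
  have h2 : ContDiff ℝ (⊤ : ℕ∞) (fun t : ℝ => 1 - t) := by fun_prop
  refine ⟨fun t => Ω (1 - t), nrm_comp hs h2, ?_, ?_, fun t ht => ?_⟩
  · simp only [sub_zero]
    exact h1
  · simp only [sub_self]
    exact h0
  · exact hP _ ⟨by linarith [ht.2], by linarith [ht.1]⟩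

theorem Deform.trans {ω₀ ω₁ ω₂ : V → Form} (h : Deform ω₀ ω₁) (h' : Deform ω₁ ω₂) : Deform ω₀ ω₂ := by
  obtain ⟨Ω, hs, h0, h1, hP⟩ := h
  obtain ⟨Ω', hs', h0', h1', hP'⟩ := h'
  obtain ⟨Ψ, hc, ha, hb, hp⟩ := exists_concat hs hP hs' hP' (h1.trans h0'.symm)
  exact ⟨Ψ, hc, ha.trans h0, hb.trans h1', fun t _ => hp t⟩

theorem Joined.left {A : Form} {ω₀ ω₁ : V → Form} (h : Joined A ω₀ ω₁) : Symp A ω₀ := by
  obtain ⟨Ω, -, h0, -, hP⟩ := h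
  rw [← h0]
  exact hP 0 ⟨le_rfl, zero_le_one⟩

theorem Joined.right {A : Form} {ω₀ ω₁ : V → Form} (h : Joined A ω₀ ω₁) : Symp A ω₁ := by
  obtain ⟨Ω, -, -, h1, hP⟩ := h
  rw [← h1]
  exact hP 1 ⟨zero_le_one, le_rfl⟩

theorem Joined.deform {A : Form} {ω₀ ω₁ : V → Form} (h : Joined A ω₀ ω₁) : Deform ω₀ ω₁ := by
  obtain ⟨Ω, hs, h0, h1, hP⟩ := h
  exact ⟨Ω, hs, h0, h1, fun t ht => (hP t ht).1⟩

end VSI
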