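import Mathlib
import Pool.Agent.VSI.Defs

/-!
# VSI / QDefs: forms on the tori with the periods `n 0, n 1, n 2, n 3`, uniform isotopies

The second version of the theorem of the project VSI works on the torus `V / (n 0 ℤ × n 1 ℤ × n 2 ℤ × n 3 ℤ)`
without rescaling.  All paths come with a margin and a bound for the time derivative of a primitive,
uniformly in `n`.
-/

set_option maxSynthPendingDepth 3

open Set MeasureTheory

namespace VSI

/-- periodic with the periods `n i` -/
def PerN {F : Type} (n : Fin 4 → ℕ) (f : V → F) : Prop :=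
  ∀ (x : V) (k : Fin 4 → ℤ), f (x + fun i => (n i : ℝ) * (k i : ℝ)) = f x

/-- `ω₀` and `ω₁` are joined on the torus with the periods `n i` by a path in the class `A` with margin `c` and
primitives whose time derivative is bounded by `E`. -/
def JQ (n : Fin 4 → ℕ) (A : Form) (c E : ℝ) (ω₀ ω₁ : V → Form) : Prop :=
  ∃ L : ℝ × V → Cov, ContDiff ℝ (⊤ : ℕ∞) L ∧ (∀ t, PerN n (fun x => L (t, x))) ∧
    (∀ x, ω₀ x = A + dd (fun y => L (0, y)) x) ∧ (∀ x, ω₁ x = A + dd (fun y => L (1, y)) x) ∧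
    (∀ t ∈ Icc (0 : ℝ) 1, ∀ x, Margin c (A + dd (fun y => L (t, y)) x)) ∧
    (∀ t ∈ Icc (0 : ℝ) 1, ∀ x, ‖fderiv ℝ L (t, x) (1, 0)‖ ≤ E)

/-- the diagonal map with the entries `n i` -/
noncomputable def dg (n : Fin 4 → ℕ) : V →L[ℝ] V :=
  ContinuousLinearMap.pi fun i => (n i : ℝ) • (ContinuousLinearMap.proj i : V →L[ℝ] ℝ)

@[simp] theorem dg_apply (n : Fin 4 → ℕ) (x : V) (i : Fin 4) : dg n x i = (n i : ℝ) * x i := by
  simp [dg]

/-- pullback of a constant form by `dg n` -/
noncomputable def pul (n : Fin 4 → ℕ) (B : Form) : Form := B.bilinearComp (dg n) (dg n)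

@[simp] theorem pul_apply (n : Fin 4 → ℕ) (B : Form) (u v : V) : pul n B u v = B (dg n u) (dg n v) := by
  simp [pul]

/-- pullback of a form by the covering `dg n` of the torus -/
noncomputable def cvr (n : Fin 4 → ℕ) (ω : V → Form) : V → Form := fun x => pul n (ω (dg n x))

/-- all periods positive, and at least `N` in all directions but `i₀` -/
def Adm (i₀ : Fin 4) (N : ℕ) (n : Fin 4 → ℕ) : Prop := (∀ i, 0 < n i) ∧ ∀ i, i ≠ i₀ → N ≤ n i

/-- uniformly joined to the constant form on all large tori -/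
def UJ (i₀ : Fin 4) (A : Form) (η : V → Form) : Prop :=
  ∃ c > 0, ∃ E > 0, ∃ N : ℕ, ∀ n : Fin 4 → ℕ, Adm i₀ N n → JQ n A c E η (fun _ => A)

end VSI
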