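import Mathlib
import Pool.Agent.VSI.EXA
import Pool.Agent.VSI.MRG
import Pool.Agent.VSI.NRM
import Pool.Agent.VSI.QDefs

/-!
# VSI / QF: back to the standard torus
-/

set_option maxSynthPendingDepth 3

open Set MeasureTheory

namespace VSI

/-- precomposition with the diagonal map -/
private noncomputable def qf_pre (n : Fin 4 → ℕ) : Cov →L[ℝ] Cov :=
  (ContinuousLinearMap.compL ℝ V V ℝ).flip (dg n)

private theorem qf_pre_apply (n : Fin 4 → ℕ) (α : Cov) : qf_pre n α = α.comp (dg n) := rfl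

private theorem qf_dd {μ : V → Cov} (hμ : Differentiable ℝ μ) (n : Fin 4 → ℕ) (x : V) :
    dd (fun y => qf_pre n (μ (dg n y))) x = pul n (dd μ (dg n x)) := by
  have h1 : HasFDerivAt (fun y => μ (dg n y)) ((fderiv ℝ μ (dg n x)).comp (dg n)) x :=
    HasFDerivAt.comp x (hμ (dg n x)).hasFDerivAt (dg n).hasFDerivAt
  have h2 : HasFDerivAt (fun y => qf_pre n (μ (dg n y)))
      ((qf_pre n).comp ((fderiv ℝ μ (dg n x)).comp (dg n))) x :=
    HasFDerivAt.comp x (qf_pre n).hasFDerivAt h1
  refine ContinuousLinearMap.ext fun u => ContinuousLinearMap.ext fun v => ?_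
  rw [dd_apply, h2.fderiv, pul_apply, dd_apply]
  rfl

private theorem qf_pul_add (n : Fin 4 → ℕ) (B C : Form) : pul n (B + C) = pul n B + pul n C := by
  refine ContinuousLinearMap.ext fun u => ContinuousLinearMap.ext fun v => ?_
  rw [pul_apply]
  change B (dg n u) (dg n v) + C (dg n u) (dg n v) = pul n B u v + pul n C u v
  rw [pul_apply, pul_apply]

private theorem qf_pul_nondeg {n : Fin 4 → ℕ} (hn : ∀ i, 0 < n i) {B : Form} (hB : Nondeg B) :
    Nondeg (pul n B) := by
  intro v hv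
  have h1 : dg n v = 0 := by
    refine hB (dg n v) fun w => ?_
    have h2 := hv (fun i => w i / (n i : ℝ))
    rw [pul_apply] at h2
    have h3 : dg n (fun i => w i / (n i : ℝ)) = w := by
      funext i
      rw [dg_apply]
      have : (n i : ℝ) ≠ 0 := by exact_mod_cast (hn i).ne'
      field_simp
    rwa [h3] at h2
  funext i
  have h4 := congrFun h1 i
  rw [dg_apply] at h4
  have : (n i : ℝ) ≠ 0 := by exact_mod_cast (hn i).ne'
  rcases mul_eq_zero.1 h4 with h | h
  · exact absurd h this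
  · exact h

/-- Proof: with `L` the primitives on the torus with periods `n i`, the path is
`t ↦ pul n A + dd (x ↦ (L (t, dg n x)).comp (dg n))`. -/
theorem JQ.joined {n : Fin 4 → ℕ} (hn : ∀ i, 0 < n i) {A : Form} (hA : Alt A) {c E : ℝ} (hc : 0 < c)
    {ω₀ ω₁ : V → Form} (h : JQ n A c E ω₀ ω₁) : Joined (pul n A) (cvr n ω₀) (cvr n ω₁) := by
  obtain ⟨L, hL, hp, h0, h1, hm, -⟩ := h
  have hLt : ∀ t, ContDiff ℝ (⊤ : ℕ∞) (fun y => L (t, y)) := fun t =>
    hL.comp (contDiff_const.prodMk contDiff_id)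
  have hM : ContDiff ℝ (⊤ : ℕ∞) (fun q : ℝ × V => qf_pre n (L (q.1, dg n q.2))) :=
    (qf_pre n).contDiff.comp (hL.comp (contDiff_fst.prodMk ((dg n).contDiff.comp contDiff_snd)))
  have hMt : ∀ t, ContDiff ℝ (⊤ : ℕ∞) (fun y => qf_pre n (L (t, dg n y))) := fun t =>
    hM.comp (contDiff_const.prodMk contDiff_id)
  have hper : ∀ t, Per (fun y => qf_pre n (L (t, dg n y))) := by
    intro t x k
    have h2 : dg n (x + fun i => (k i : ℝ)) = dg n x + fun i => (n i : ℝ) * (k i : ℝ) := by
      funext i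
      rw [dg_apply, Pi.add_apply, Pi.add_apply, dg_apply]
      ring
    have h3 := hp t (dg n x) k
    simp only at h3
    simp only [h2, h3]
  have hkey : ∀ t x, pul n A + dd (fun y => qf_pre n (L (t, dg n y))) x =
      pul n (A + dd (fun y => L (t, y)) (dg n x)) := by
    intro t x
    rw [qf_pul_add, qf_dd ((hLt t).differentiable (by simp)) n x]
  have hAlt : Alt (pul n A) := by
    intro u v
    rw [pul_apply, pul_apply]
    exact hA _ _
  refine ⟨fun t x => pul n A + dd (fun y => qf_pre n (L (t, dg n y))) x, ?_, ?_, ?_, ?_⟩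
  · exact contDiff_const.add (smooth_dd (L := fun q : ℝ × V => qf_pre n (L (q.1, dg n q.2))) hM)
  · funext x
    refine (hkey 0 x).trans ?_
    rw [← h0]
    rfl
  · funext x
    refine (hkey 1 x).trans ?_
    rw [← h1]
    rfl
  · intro t ht
    have hclo : Clo (fun x => pul n A + dd (fun y => qf_pre n (L (t, dg n y))) x) :=
      Clo.add (clo_const hAlt) (clo_dd (hMt t) (hper t))
    refine ⟨⟨hclo, ?_⟩, ?_⟩
    · intro x
      simp only [hkey]
      exact qf_pul_nondeg hn (Margin.nondeg hc (hm t ht _))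
    · rw [cls_iff hclo.smooth.continuous]
      rw [avg_add continuous_const (clo_dd (hMt t) (hper t)).smooth.continuous, avg_const,
        avg_dd (hMt t) (hper t), add_zero]

theorem cvr_const (n : Fin 4 → ℕ) (A : Form) : cvr n (fun _ => A) = fun _ => pul n A := rfl

private theorem qf_pul_const (m : ℕ) (B : Form) : pul (fun _ => m) B = ((m : ℝ) ^ 2) • B := by
  have hd : ∀ u : V, dg (fun _ => m) u = (m : ℝ) • u := by
    intro u
    funext i
    rw [dg_apply, Pi.smul_apply, smul_eq_mul]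
  refine ContinuousLinearMap.ext fun u => ContinuousLinearMap.ext fun v => ?_
  rw [pul_apply, hd, hd]
  change B ((m : ℝ) • u) ((m : ℝ) • v) = (m : ℝ) ^ 2 * B u v
  rw [map_smul, map_smul]
  change (m : ℝ) * ((m : ℝ) * B u v) = _
  ring

private theorem qf_cvr_const (m : ℕ) (ω : V → Form) (x : V) :
    cvr (fun _ => m) ω x = ((m : ℝ) ^ 2) • rep m ω x := by
  have hd : ∀ u : V, dg (fun _ => m) u = (m : ℝ) • u := by
    intro u
    funext i
    rw [dg_apply, Pi.smul_apply, smul_eq_mul]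
  unfold cvr rep
  rw [qf_pul_const, hd]

/-- Rescaling by `m⁻²`. -/
theorem joined_rep_of_cvr {m : ℕ} (hm : 0 < m) {A : Form} {ω₀ ω₁ : V → Form}
    (h : Joined (pul (fun _ => m) A) (cvr (fun _ => m) ω₀) (cvr (fun _ => m) ω₁)) :
    Joined A (rep m ω₀) (rep m ω₁) := by
  obtain ⟨Ω, hs, h0, h1, hP⟩ := h
  have hm0 : ((m : ℝ) ^ 2) ≠ 0 := by positivity
  refine ⟨fun t x => ((m : ℝ) ^ 2)⁻¹ • Ω t x, ?_, ?_, ?_, ?_⟩
  · exact hs.const_smul _
  · funext x
    beta_reduce
    rw [h0, qf_cvr_const, smul_smul, inv_mul_cancel₀ hm0, one_smul]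
  · funext x
    beta_reduce
    rw [h1, qf_cvr_const, smul_smul, inv_mul_cancel₀ hm0, one_smul]
  · intro t ht
    obtain ⟨hsy, hcl⟩ := hP t ht
    have hclo : Clo (fun x => ((m : ℝ) ^ 2)⁻¹ • Ω t x) := hsy.toClo.smul _
    refine ⟨⟨hclo, ?_⟩, ?_⟩
    · intro x v hv
      refine hsy.nondeg x v fun w => ?_
      have h2 := hv w
      change ((m : ℝ) ^ 2)⁻¹ * Ω t x v w = 0 at h2
      rcases mul_eq_zero.1 h2 with h | h
      · exact absurd h (inv_ne_zero hm0)
      · exact h
    · rw [cls_iff hclo.smooth.continuous, avg_smul]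
      rw [cls_iff hsy.smooth.continuous] at hcl
      rw [hcl, qf_pul_const, smul_smul, inv_mul_cancel₀ hm0, one_smul]

end VSI
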