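import Mathlib
import Pool.Agent.VSI.Defs

/-!
# VSI / PFL: the Pfaffian of alternating forms in dimension four
-/

open Set MeasureTheory

namespace VSI

theorem pfl_vec (u : V) : u = ∑ i, u i • (Pi.single i (1 : ℝ) : V) := by
  ext k
  simp [Finset.sum_apply, Pi.single_apply]

/-- The entries determine the form. -/
theorem pfl_expand (B : Form) (u v : V) : B u v = ∑ i, ∑ j, u i * v j * bb B i j := by
  have h1 : B u v = ∑ i, u i * B (Pi.single i 1) v := by
    conv_lhs => rw [pfl_vec u]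
    simp [map_sum]
  rw [h1]
  refine Finset.sum_congr rfl fun i _ => ?_
  have h2 : B (Pi.single i 1) v = ∑ j, v j * B (Pi.single i 1) (Pi.single j 1) := by
    conv_lhs => rw [pfl_vec v]
    simp [map_sum]
  rw [h2, Finset.mul_sum]
  refine Finset.sum_congr rfl fun j _ => ?_
  unfold bb
  ring

theorem bb_alt {B : Form} (hB : Alt B) (i j : Fin 4) : bb B i j = -bb B j i := hB _ _

theorem bb_diag {B : Form} (hB : Alt B) (i : Fin 4) : bb B i i = 0 := by
  have := bb_alt hB i i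
  linarith

theorem bb_add (B C : Form) (i j : Fin 4) : bb (B + C) i j = bb B i j + bb C i j := rfl

theorem bb_smul (r : ℝ) (B : Form) (i j : Fin 4) : bb (r • B) i j = r * bb B i j := rfl

theorem bb_neg (B : Form) (i j : Fin 4) : bb (-B) i j = -bb B i j := rfl

theorem bb_sub (B C : Form) (i j : Fin 4) : bb (B - C) i j = bb B i j - bb C i j := rfl

/-- Six coordinates. -/
theorem alt_apply {B : Form} (hB : Alt B) (u v : V) :
    B u v = bb B 0 1 * (u 0 * v 1 - u 1 * v 0) + bb B 0 2 * (u 0 * v 2 - u 2 * v 0)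
      + bb B 0 3 * (u 0 * v 3 - u 3 * v 0) + bb B 1 2 * (u 1 * v 2 - u 2 * v 1)
      + bb B 1 3 * (u 1 * v 3 - u 3 * v 1) + bb B 2 3 * (u 2 * v 3 - u 3 * v 2) := by
  rw [pfl_expand]
  simp only [Fin.sum_univ_four]
  rw [bb_diag hB 0, bb_diag hB 1, bb_diag hB 2, bb_diag hB 3, bb_alt hB 1 0, bb_alt hB 2 0,
    bb_alt hB 3 0, bb_alt hB 2 1, bb_alt hB 3 1, bb_alt hB 3 2]
  ring

theorem bb_eb (j k i l : Fin 4) : bb (eb j k) i l =
    (if j = i then (1:ℝ) else 0) * (if k = l then 1 else 0) -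
      (if k = i then 1 else 0) * (if j = l then 1 else 0) := by
  simp [bb, Pi.single_apply]

theorem alt_eb (j k : Fin 4) : Alt (eb j k) := by
  intro u v
  simp only [eb_apply]
  ring

theorem alt_add {B C : Form} (hB : Alt B) (hC : Alt C) : Alt (B + C) := by
  intro u v
  simp only [_root_.add_apply]
  rw [hB u v, hC u v]
  ring

theorem alt_smul {B : Form} (hB : Alt B) (r : ℝ) : Alt (r • B) := by
  intro u v
  simp only [_root_.smul_apply, smul_eq_mul]
  rw [hB u v]
  ring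

/-- The rows of the dual matrix. -/
noncomputable def pfl_row (B : Form) (i : Fin 4) : V :=
  ![![0, bb B 2 3, -bb B 1 3, bb B 1 2], ![-bb B 2 3, 0, bb B 0 3, -bb B 0 2],
    ![bb B 1 3, -bb B 0 3, 0, bb B 0 1], ![-bb B 1 2, bb B 0 2, -bb B 0 1, 0]] i

theorem pfl_row_apply {B : Form} (hB : Alt B) (i : Fin 4) (w : V) : B (pfl_row B i) w = -pf B * w i := by
  rw [alt_apply hB]
  unfold pf
  fin_cases i <;> simp [pfl_row] <;> ring

/-- Proof: for the dual matrix `B*` one has `B B* = - pf B`. -/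
theorem nondeg_iff_pf {B : Form} (hB : Alt B) : Nondeg B ↔ pf B ≠ 0 := by
  constructor
  · intro hn hp
    have hr : ∀ i, pfl_row B i = 0 := fun i => hn _ fun w => by
      rw [pfl_row_apply hB, hp]; ring
    have h01 : bb B 0 1 = 0 := by simpa [pfl_row] using congrFun (hr 2) 3
    have h02 : bb B 0 2 = 0 := by simpa [pfl_row] using congrFun (hr 3) 1
    have h03 : bb B 0 3 = 0 := by simpa [pfl_row] using congrFun (hr 1) 2
    have h12 : bb B 1 2 = 0 := by simpa [pfl_row] using congrFun (hr 0) 3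
    have h13 : bb B 1 3 = 0 := by simpa [pfl_row] using congrFun (hr 2) 0
    have h23 : bb B 2 3 = 0 := by simpa [pfl_row] using congrFun (hr 0) 1
    have h := hn (Pi.single 0 1) fun w => by
      rw [alt_apply hB, h01, h02, h03, h12, h13, h23]; ring
    have := congrFun h 0
    simp at this
  · intro hp v hv
    ext i
    have h := hv (pfl_row B i)
    rw [hB, pfl_row_apply hB] at h
    have h2 : pf B * v i = 0 := by linarith
    simpa using (mul_eq_zero.mp h2).resolve_left hp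

theorem pf_add (B C : Form) : pf (B + C) = pf B + pq B C + pf C := by
  unfold pf pq
  simp only [bb_add]
  ring

theorem pf_smul (r : ℝ) (B : Form) : pf (r • B) = r ^ 2 * pf B := by
  unfold pf
  simp only [bb_smul]
  ring

theorem pq_smul (r : ℝ) (B C : Form) : pq B (r • C) = r * pq B C := by
  unfold pq
  simp only [bb_smul]
  ring

theorem continuous_bb (i j : Fin 4) : Continuous fun B : Form => bb B i j := by
  unfold bb
  fun_prop

theorem continuous_pf : Continuous pf := by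
  unfold pf
  have h := continuous_bb
  exact (((h 0 1).mul (h 2 3)).sub ((h 0 2).mul (h 1 3))).add ((h 0 3).mul (h 1 2))

/-- The dual two-form of the bivector `u ∧ v`, explicitly. -/
noncomputable def pfl_dual (u v : V) : Form :=
  (u 2 * v 3 - u 3 * v 2) • eb 0 1 - (u 1 * v 3 - u 3 * v 1) • eb 0 2
    + (u 1 * v 2 - u 2 * v 1) • eb 0 3 + (u 0 * v 3 - u 3 * v 0) • eb 1 2
    - (u 0 * v 2 - u 2 * v 0) • eb 1 3 + (u 0 * v 1 - u 1 * v 0) • eb 2 3

theorem alt_sub {B C : Form} (hB : Alt B) (hC : Alt C) : Alt (B - C) := by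
  intro u v
  have h1 := hB u v
  have h2 := hC u v
  change B u v - C u v = -(B v u - C v u)
  rw [h1, h2]
  ring

theorem pfl_dual_alt (u v : V) : Alt (pfl_dual u v) := by
  unfold pfl_dual
  have h := fun (r : ℝ) (j k : Fin 4) => alt_smul (alt_eb j k) r
  exact alt_add (alt_sub (alt_add (alt_add (alt_sub (h _ _ _) (h _ _ _)) (h _ _ _)) (h _ _ _))
    (h _ _ _)) (h _ _ _)

theorem pfl_dual_bb (u v : V) (i j : Fin 4) : bb (pfl_dual u v) i j =
    (u 2 * v 3 - u 3 * v 2) * bb (eb 0 1) i j - (u 1 * v 3 - u 3 * v 1) * bb (eb 0 2) i j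
    + (u 1 * v 2 - u 2 * v 1) * bb (eb 0 3) i j + (u 0 * v 3 - u 3 * v 0) * bb (eb 1 2) i j
    - (u 0 * v 2 - u 2 * v 0) * bb (eb 1 3) i j + (u 0 * v 1 - u 1 * v 0) * bb (eb 2 3) i j := by
  unfold pfl_dual
  simp only [bb_add, bb_sub, bb_smul]

theorem pfl_dual_01 (u v : V) : bb (pfl_dual u v) 0 1 = u 2 * v 3 - u 3 * v 2 := by
  rw [pfl_dual_bb]; simp [bb_eb]

theorem pfl_dual_02 (u v : V) : bb (pfl_dual u v) 0 2 = -(u 1 * v 3 - u 3 * v 1) := by
  rw [pfl_dual_bb]; simp [bb_eb]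

theorem pfl_dual_03 (u v : V) : bb (pfl_dual u v) 0 3 = u 1 * v 2 - u 2 * v 1 := by
  rw [pfl_dual_bb]; simp [bb_eb]

theorem pfl_dual_12 (u v : V) : bb (pfl_dual u v) 1 2 = u 0 * v 3 - u 3 * v 0 := by
  rw [pfl_dual_bb]; simp [bb_eb]

theorem pfl_dual_13 (u v : V) : bb (pfl_dual u v) 1 3 = -(u 0 * v 2 - u 2 * v 0) := by
  rw [pfl_dual_bb]; simp [bb_eb]

theorem pfl_dual_23 (u v : V) : bb (pfl_dual u v) 2 3 = u 0 * v 1 - u 1 * v 0 := by
  rw [pfl_dual_bb]; simp [bb_eb]

theorem pfl_dual_pf (u v : V) : pf (pfl_dual u v) = 0 := by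
  unfold pf
  rw [pfl_dual_01, pfl_dual_02, pfl_dual_03, pfl_dual_12, pfl_dual_13, pfl_dual_23]
  ring

theorem pfl_dual_pq (u v : V) {B : Form} (hB : Alt B) : pq B (pfl_dual u v) = B u v := by
  unfold pq
  rw [pfl_dual_01, pfl_dual_02, pfl_dual_03, pfl_dual_12, pfl_dual_13, pfl_dual_23, alt_apply hB]
  ring

/-- The dual two-form of the bivector `u ∧ v`. -/
theorem exists_dual (u v : V) :
    ∃ θ : Form, Alt θ ∧ pf θ = 0 ∧ ∀ B : Form, Alt B → pq B θ = B u v :=
  ⟨pfl_dual u v, pfl_dual_alt u v, pfl_dual_pf u v, fun _ hB => pfl_dual_pq u v hB⟩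

/-- If `u` and `v` lie in the coordinate hyperplane `j` then the dual form is divisible by the covector `j`. -/
theorem exists_dual_kill (j : Fin 4) (u v : V) (hu : u j = 0) (hv : v j = 0) :
    ∃ θ : Form, Alt θ ∧ pf θ = 0 ∧ (∀ B : Form, Alt B → pq B θ = B u v) ∧
      (∀ x y : V, x j = 0 → y j = 0 → θ x y = 0) := by
  refine ⟨pfl_dual u v, pfl_dual_alt u v, pfl_dual_pf u v, fun _ hB => pfl_dual_pq u v hB, ?_⟩
  intro x y hx hy
  rw [alt_apply (pfl_dual_alt u v), pfl_dual_01, pfl_dual_02, pfl_dual_03, pfl_dual_12, pfl_dual_13,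
    pfl_dual_23]
  obtain rfl | rfl | rfl | rfl : j = 0 ∨ j = 1 ∨ j = 2 ∨ j = 3 := by fin_cases j <;> simp
  all_goals rw [hu, hv, hx, hy]; ring

/-- An alternating form is a combination of the coordinate two-forms. -/
theorem form_eq_sum {B : Form} (hB : Alt B) :
    B = bb B 0 1 • eb 0 1 + bb B 0 2 • eb 0 2 + bb B 0 3 • eb 0 3 + bb B 1 2 • eb 1 2
      + bb B 1 3 • eb 1 3 + bb B 2 3 • eb 2 3 := by
  refine ContinuousLinearMap.ext fun u => ContinuousLinearMap.ext fun v => ?_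
  rw [alt_apply hB]
  change _ = bb B 0 1 * eb 0 1 u v + bb B 0 2 * eb 0 2 u v + bb B 0 3 * eb 0 3 u v +
    bb B 1 2 * eb 1 2 u v + bb B 1 3 * eb 1 3 u v + bb B 2 3 * eb 2 3 u v
  simp only [eb_apply]

theorem abs_bb_le (B : Form) (i j : Fin 4) : |bb B i j| ≤ ‖B‖ := by
  have h1 : ‖(Pi.single i 1 : V)‖ = 1 := by
    rw [Pi.norm_single (G := fun _ : Fin 4 => ℝ)]; simp
  have h2 : ‖(Pi.single j 1 : V)‖ = 1 := by
    rw [Pi.norm_single (G := fun _ : Fin 4 => ℝ)]; simp
  have h := B.le_opNorm₂ (Pi.single i 1) (Pi.single j 1)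
  rw [h1, h2, mul_one, mul_one] at h
  exact h

end VSI
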