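import Mathlib
import Pool.Agent.VSI.EXA

/-!
# VSI / PRM: primitives of families of closed forms
-/

set_option maxSynthPendingDepth 3

open Set MeasureTheory

namespace VSI

theorem smooth_avg {Φ : ℝ × V → Form} (h : ContDiff ℝ (⊤ : ℕ∞) Φ) :
    ContDiff ℝ (⊤ : ℕ∞) (fun t : ℝ => avg (fun x => Φ (t, x))) :=
  par_smooth (E := ℝ) (F := Form) (G := V) volume (K := Icc (0 : V) 1) isCompact_Icc h

/-- The homotopy operator, averaged over translations by `a ∈ K` with the weight `φ a`. -/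
noncomputable def prm (K : Set V) (φ : V → ℝ) (Φ : ℝ × V → Form) (p : ℝ × V) : Cov :=
  -∫ q in K ×ˢ Icc (0 : ℝ) 1, φ q.1 • (Φ (p.1, p.2 + q.2 • q.1) q.1)

theorem prm_integrand_smooth {φ : V → ℝ} (hφ : ContDiff ℝ (⊤ : ℕ∞) φ) {Φ : ℝ × V → Form}
    (h : ContDiff ℝ (⊤ : ℕ∞) Φ) :
    ContDiff ℝ (⊤ : ℕ∞) (fun r : (ℝ × V) × (V × ℝ) =>
      φ r.2.1 • (Φ (r.1.1, r.1.2 + r.2.2 • r.2.1) r.2.1)) := by
  have e1 : ContDiff ℝ (⊤ : ℕ∞) (fun r : (ℝ × V) × (V × ℝ) => r.2.1) :=
    contDiff_fst.comp contDiff_snd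
  have e2 : ContDiff ℝ (⊤ : ℕ∞) (fun r : (ℝ × V) × (V × ℝ) => r.2.2) :=
    contDiff_snd.comp contDiff_snd
  have e3 : ContDiff ℝ (⊤ : ℕ∞) (fun r : (ℝ × V) × (V × ℝ) => r.1.1) :=
    contDiff_fst.comp contDiff_fst
  have e4 : ContDiff ℝ (⊤ : ℕ∞) (fun r : (ℝ × V) × (V × ℝ) => r.1.2) :=
    contDiff_snd.comp contDiff_fst
  exact (hφ.comp e1).smul ((h.comp (e3.prodMk (e4.add (e2.smul e1)))).clm_apply e1)

theorem prm_smooth {K : Set V} (hK : IsCompact K) {φ : V → ℝ} (hφ : ContDiff ℝ (⊤ : ℕ∞) φ)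
    {Φ : ℝ × V → Form} (h : ContDiff ℝ (⊤ : ℕ∞) Φ) : ContDiff ℝ (⊤ : ℕ∞) (prm K φ Φ) :=
  (par_smooth (E := ℝ × V) (F := Cov) (G := V × ℝ) volume (K := K ×ˢ Icc (0 : ℝ) 1)
    (hK.prod isCompact_Icc) (prm_integrand_smooth hφ h)).neg

theorem prm_per {K : Set V} {φ : V → ℝ} {Φ : ℝ × V → Form} (h : ∀ t, Per (fun x => Φ (t, x)))
    (t : ℝ) : Per (fun x => prm K φ Φ (t, x)) := by
  intro x n
  simp only [prm]
  congr 2
  funext q
  have := h t (x + q.2 • q.1) n
  simp only at this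
  rw [← this]
  congr 4
  abel

/-- The derivative of the homotopy operator. -/
theorem prm_dd {K : Set V} (hK : IsCompact K) (hKm : MeasurableSet K) {φ : V → ℝ}
    (hφ : ContDiff ℝ (⊤ : ℕ∞) φ) {Φ : ℝ × V → Form} (h : Fam Φ) (t : ℝ) (x u v : V) :
    dd (fun x => prm K φ Φ (t, x)) x u v
      = -∫ a in K, φ a * (Φ (t, x + a) u v - Φ (t, x) u v) := by
  set ω : V → Form := fun x => Φ (t, x) with hω
  have hc : Clo ω := h.clo t
  set H : V × (V × ℝ) → Cov := fun r => φ r.2.1 • (ω (r.1 + r.2.2 • r.2.1) r.2.1) with hH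
  have hHs : ContDiff ℝ (⊤ : ℕ∞) H :=
    (prm_integrand_smooth hφ h.smooth).comp
      ((contDiff_const.prodMk contDiff_fst).prodMk contDiff_snd :
        ContDiff ℝ (⊤ : ℕ∞) (fun r : V × (V × ℝ) => (((t, r.1), r.2) : (ℝ × V) × (V × ℝ))))
  have hKc : IsCompact (K ×ˢ Icc (0 : ℝ) 1) := hK.prod isCompact_Icc
  have hωd : ∀ y, HasFDerivAt ω (fderiv ℝ ω y) y := fun y =>
    (hc.smooth.differentiable (by simp)).differentiableAt.hasFDerivAt
  -- the derivative of the integrand
  have hHd : ∀ (q : V × ℝ) (w z : V), fderiv ℝ H (x, q) (w, 0) z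
      = φ q.1 * fderiv ℝ ω (x + q.2 • q.1) w q.1 z := by
    intro q w z
    have e1 : HasFDerivAt H (fderiv ℝ H (x, q)) (x, q) :=
      (hHs.differentiable (by simp)).differentiableAt.hasFDerivAt
    have e2 : HasFDerivAt (fun y : V => H (y, q))
        ((fderiv ℝ H (x, q)).comp (ContinuousLinearMap.inl ℝ V (V × ℝ))) x :=
      HasFDerivAt.comp x (f := fun y : V => ((y, q) : V × (V × ℝ))) e1 (hasFDerivAt_prodMk_left x q)
    have e3 : HasFDerivAt (fun y : V => y + q.2 • q.1) (ContinuousLinearMap.id ℝ V) x :=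
      (hasFDerivAt_id x).add_const _
    have e4 : HasFDerivAt (fun y : V => ω (y + q.2 • q.1))
        ((fderiv ℝ ω (x + q.2 • q.1)).comp (ContinuousLinearMap.id ℝ V)) x :=
      HasFDerivAt.comp x (f := fun y : V => y + q.2 • q.1) (hωd (x + q.2 • q.1)) e3
    have e45 : HasFDerivAt (fun y : V => ω (y + q.2 • q.1) q.1)
        ((ContinuousLinearMap.apply ℝ Cov q.1).comp
          ((fderiv ℝ ω (x + q.2 • q.1)).comp (ContinuousLinearMap.id ℝ V))) x :=
      HasFDerivAt.comp x (f := fun y : V => ω (y + q.2 • q.1))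
        (ContinuousLinearMap.apply ℝ Cov q.1).hasFDerivAt e4
    have e5 : HasFDerivAt (fun y : V => φ q.1 • (ω (y + q.2 • q.1) q.1))
        (φ q.1 • ((ContinuousLinearMap.apply ℝ Cov q.1).comp
          ((fderiv ℝ ω (x + q.2 • q.1)).comp (ContinuousLinearMap.id ℝ V)))) x :=
      e45.const_smul (φ q.1)
    have e6 := e2.unique e5
    have e7 := congrArg (fun D : V →L[ℝ] Cov => D w z) e6
    simpa using e7
  have hint : ∀ (w : V), IntegrableOn (fun q : V × ℝ => fderiv ℝ H (x, q) (w, 0))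
      (K ×ˢ Icc (0 : ℝ) 1) := by
    intro w
    have hcont : Continuous (fun q : V × ℝ => fderiv ℝ H (x, q) (w, 0)) :=
      ((hHs.continuous_fderiv (by simp)).comp (Continuous.prodMk_right x)).clm_apply
        continuous_const
    exact hcont.continuousOn.integrableOn_compact hKc
  have hfd : ∀ w z : V, fderiv ℝ (fun x => prm K φ Φ (t, x)) x w z
      = -∫ q in K ×ˢ Icc (0 : ℝ) 1, φ q.1 * fderiv ℝ ω (x + q.2 • q.1) w q.1 z := by
    intro w z
    have e1 : (fun x => prm K φ Φ (t, x)) = fun x => -∫ q in K ×ˢ Icc (0 : ℝ) 1, H (x, q) := rfl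
    rw [e1, fderiv_fun_neg]
    simp only [neg_apply]
    rw [par_fderiv (E := V) (F := Cov) (G := V × ℝ) volume hKc hHs x w]
    congr 1
    have e2 : (∫ q in K ×ˢ Icc (0 : ℝ) 1, fderiv ℝ H (x, q) (w, 0)) z
        = ∫ q in K ×ˢ Icc (0 : ℝ) 1, fderiv ℝ H (x, q) (w, 0) z :=
      ((ContinuousLinearMap.apply ℝ ℝ z).integral_comp_comm (hint w)).symm
    rw [e2]
    simp only [hHd]
  have haltd : ∀ y w p q : V, fderiv ℝ ω y w p q = -fderiv ℝ ω y w q p := by
    intro y w p q
    have f1 : HasFDerivAt (fun y => ω y p q)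
        ((ContinuousLinearMap.apply ℝ ℝ q).comp
          ((ContinuousLinearMap.apply ℝ Cov p).comp (fderiv ℝ ω y))) y :=
      (ContinuousLinearMap.apply ℝ ℝ q).hasFDerivAt.comp y
        ((ContinuousLinearMap.apply ℝ Cov p).hasFDerivAt.comp y (hωd y))
    have f2 : HasFDerivAt (fun y => -(ω y q p))
        (-((ContinuousLinearMap.apply ℝ ℝ p).comp
          ((ContinuousLinearMap.apply ℝ Cov q).comp (fderiv ℝ ω y)))) y :=
      ((ContinuousLinearMap.apply ℝ ℝ p).hasFDerivAt.comp y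
        ((ContinuousLinearMap.apply ℝ Cov q).hasFDerivAt.comp y (hωd y))).neg
    have f3 : (fun y => ω y p q) = fun y => -(ω y q p) := by
      funext y
      exact hc.alt y p q
    rw [f3] at f1
    have := congrArg (fun D : V →L[ℝ] ℝ => D w) (f1.unique f2)
    simpa using this
  have hclosed : ∀ y a : V, fderiv ℝ ω y u a v - fderiv ℝ ω y v a u = fderiv ℝ ω y a u v := by
    intro y a
    have g1 := hc.closed y u v a
    have g2 := haltd y u a v
    linarith
  -- the integrals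
  have hcont2 : ∀ w z : V, Continuous
      (fun q : V × ℝ => φ q.1 * fderiv ℝ ω (x + q.2 • q.1) w q.1 z) := by
    intro w z
    have c1 : Continuous (fun q : V × ℝ => fderiv ℝ ω (x + q.2 • q.1)) :=
      (hc.smooth.continuous_fderiv (by simp)).comp (by fun_prop)
    exact (hφ.continuous.comp continuous_fst).mul
      (((c1.clm_apply continuous_const).clm_apply continuous_fst).clm_apply continuous_const)
  have hint2 : ∀ w z : V, IntegrableOn
      (fun q : V × ℝ => φ q.1 * fderiv ℝ ω (x + q.2 • q.1) w q.1 z) (K ×ˢ Icc (0 : ℝ) 1) :=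
    fun w z => (hcont2 w z).continuousOn.integrableOn_compact hKc
  have hcont3 : Continuous
      (fun q : V × ℝ => φ q.1 * fderiv ℝ ω (x + q.2 • q.1) q.1 u v) := by
    have c1 : Continuous (fun q : V × ℝ => fderiv ℝ ω (x + q.2 • q.1)) :=
      (hc.smooth.continuous_fderiv (by simp)).comp (by fun_prop)
    exact (hφ.continuous.comp continuous_fst).mul
      (((c1.clm_apply continuous_fst).clm_apply continuous_const).clm_apply continuous_const)
  rw [dd_apply, hfd, hfd]
  have s1 : -(∫ q in K ×ˢ Icc (0 : ℝ) 1, φ q.1 * fderiv ℝ ω (x + q.2 • q.1) u q.1 v)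
      - -(∫ q in K ×ˢ Icc (0 : ℝ) 1, φ q.1 * fderiv ℝ ω (x + q.2 • q.1) v q.1 u)
      = -∫ q in K ×ˢ Icc (0 : ℝ) 1, φ q.1 * fderiv ℝ ω (x + q.2 • q.1) q.1 u v := by
    rw [neg_sub_neg, ← neg_sub, ← integral_sub (hint2 u v) (hint2 v u)]
    congr 2
    funext q
    rw [← hclosed]
    ring
  rw [s1]
  congr 1
  have s2 : ∫ q in K ×ˢ Icc (0 : ℝ) 1, φ q.1 * fderiv ℝ ω (x + q.2 • q.1) q.1 u v
      = ∫ a in K, ∫ s in Icc (0 : ℝ) 1, φ a * fderiv ℝ ω (x + s • a) a u v := by
    have := setIntegral_prod (μ := (volume : Measure V)) (ν := (volume : Measure ℝ))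
      (s := K) (t := Icc (0 : ℝ) 1)
      (fun q : V × ℝ => φ q.1 * fderiv ℝ ω (x + q.2 • q.1) q.1 u v)
      (hcont3.continuousOn.integrableOn_compact hKc)
    exact this
  rw [s2]
  refine setIntegral_congr_fun hKm fun a _ => ?_
  show ∫ s in Icc (0 : ℝ) 1, φ a * fderiv ℝ ω (x + s • a) a u v
    = φ a * (ω (x + a) u v - ω x u v)
  rw [integral_Icc_eq_integral_Ioc, ← intervalIntegral.integral_of_le zero_le_one]
  rw [intervalIntegral.integral_const_mul]
  congr 1
  have d1 : ∀ s : ℝ, HasDerivAt (fun s : ℝ => ω (x + s • a) u v)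
      (fderiv ℝ ω (x + s • a) a u v) s := by
    intro s
    have g1 : HasDerivAt (fun s : ℝ => x + s • a) a s := by
      have := ((hasDerivAt_id s).smul_const a).const_add x
      simpa using this
    have g2 := (hωd (x + s • a)).comp_hasDerivAt s g1
    have g3 := (ContinuousLinearMap.apply ℝ Cov u).hasFDerivAt.comp_hasDerivAt s g2
    have g4 := (ContinuousLinearMap.apply ℝ ℝ v).hasFDerivAt.comp_hasDerivAt s g3
    exact g4
  have hcs : Continuous (fun s : ℝ => fderiv ℝ ω (x + s • a) a u v) := by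
    have c1 : Continuous (fun s : ℝ => fderiv ℝ ω (x + s • a)) :=
      (hc.smooth.continuous_fderiv (by simp)).comp (by fun_prop)
    exact ((c1.clm_apply continuous_const).clm_apply continuous_const).clm_apply continuous_const
  rw [intervalIntegral.integral_eq_sub_of_hasDerivAt (fun s _ => d1 s)
    (hcs.intervalIntegrable _ _)]
  simp

/-- The family of primitives `L (t, x) v = - ∫_{a in the cube} ∫_{s in [0,1]} Φ (t, x + s a) a v`.
Proof: integrate over the compact set `Icc (0 : V) 1 ×ˢ Icc (0 : ℝ) 1` of `V × ℝ` (`par_smooth`,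
`par_fderiv`).  For the derivative: closedness gives
`(D Φ_{x+sa} u) a v - (D Φ_{x+sa} v) a u = (D Φ_{x+sa} a) u v = d/ds Φ (t, x + s a) u v`, and the integral of
`Φ (t, x + a) u v` over `a` in the cube is the average by `integral_shift`. -/
theorem prm_cube {Φ : ℝ × V → Form} (h : Fam Φ) (t : ℝ) (x : V) :
    Φ (t, x) = avg (fun y => Φ (t, y)) + dd (fun y => prm (Icc (0 : V) 1) (fun _ => 1) Φ (t, y)) x := by
  have hc : Clo (fun x => Φ (t, x)) := h.clo t
  ext u v
  rw [add_apply, add_apply, prm_dd isCompact_Icc measurableSet_Icc contDiff_const h t x u v,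
    avg_apply hc.smooth.continuous]
  have hcu : Continuous (fun y => Φ (t, y) u v) :=
    (hc.smooth.continuous.clm_apply continuous_const).clm_apply continuous_const
  have hp : Per (fun y => Φ (t, y) u v) := by
    intro y n
    have := hc.per y n
    simp only at this ⊢
    rw [this]
  have e1 := integral_shift hcu hp x
  have e2 : ∫ a in Icc (0 : V) 1, (1 : ℝ) * (Φ (t, x + a) u v - Φ (t, x) u v)
      = (∫ a in Icc (0 : V) 1, Φ (t, a) u v) - Φ (t, x) u v := by
    simp only [one_mul]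
    rw [integral_sub, integral_const_cube, ← e1]
    · congr 1
      refine setIntegral_congr_fun measurableSet_Icc fun a _ => ?_
      show Φ (t, x + a) u v = Φ (t, a + x) u v
      rw [add_comm x a]
    · exact (hcu.comp (continuous_const.add continuous_id)).continuousOn.integrableOn_compact
        isCompact_Icc
    · exact continuous_const.continuousOn.integrableOn_compact isCompact_Icc
  rw [e2]
  ring

theorem exists_prim {Φ : ℝ × V → Form} (h : Fam Φ) :
    ∃ L : ℝ × V → Cov, ContDiff ℝ (⊤ : ℕ∞) L ∧ (∀ t, Per (fun x => L (t, x))) ∧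
      ∀ t x, Φ (t, x) = avg (fun y => Φ (t, y)) + dd (fun y => L (t, y)) x :=
  ⟨prm (Icc (0 : V) 1) (fun _ => 1) Φ, prm_smooth isCompact_Icc contDiff_const h.smooth,
    fun t => prm_per (fun t => (h.clo t).per) t, fun t x => prm_cube h t x⟩

/-- The same for one form. -/
theorem Clo.exists_prim {ω : V → Form} (h : Clo ω) :
    ∃ μ : V → Cov, ContDiff ℝ (⊤ : ℕ∞) μ ∧ Per μ ∧ ∀ x, ω x = avg ω + dd μ x := by
  have hf : Fam (fun p : ℝ × V => ω p.2) := ⟨h.smooth.comp contDiff_snd, fun _ => h⟩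
  obtain ⟨L, hL, hp, hL'⟩ := VSI.exists_prim hf
  exact ⟨fun x => L (0, x), hL.comp (contDiff_const.prodMk contDiff_id), hp 0, fun x => hL' 0 x⟩

end VSI
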