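import Mathlib
import Pool.Agent.VSI.PRM
import Pool.Agent.VSI.PFL

/-!
# VSI / PFA: the average of a symplectic form is nondegenerate
-/

open Set MeasureTheory

namespace VSI

/-- the basis vectors -/
private noncomputable def be (i : Fin 4) : V := Pi.single i 1

/-- entries of a smooth family of forms -/
private theorem pfa_bb {η : V → Form} (hη : ContDiff ℝ (⊤ : ℕ∞) η) (i j : Fin 4) :
    ContDiff ℝ (⊤ : ℕ∞) (fun x => bb (η x) i j) ∧
      ∀ x u, fderiv ℝ (fun x => bb (η x) i j) x u = fderiv ℝ η x u (be i) (be j) := by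
  have hd : Differentiable ℝ η := hη.differentiable (by simp)
  refine ⟨?_, fun x u => ?_⟩
  · unfold bb
    exact (hη.clm_apply contDiff_const).clm_apply contDiff_const
  · have h1 : HasFDerivAt η (fderiv ℝ η x) x := (hd x).hasFDerivAt
    have h2 := (h1.clm_apply (hasFDerivAt_const (be i) x)).clm_apply (hasFDerivAt_const (be j) x)
    have h3 : fderiv ℝ (fun x => bb (η x) i j) x = _ := h2.fderiv
    rw [h3]
    simp

/-- entries of a smooth one-form -/
private theorem pfa_mu {μ : V → Cov} (hμ : ContDiff ℝ (⊤ : ℕ∞) μ) (j : Fin 4) :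
    ContDiff ℝ (⊤ : ℕ∞) (fun x => μ x (be j)) ∧
      ∀ x u, fderiv ℝ (fun x => μ x (be j)) x u = fderiv ℝ μ x u (be j) := by
  have hd : Differentiable ℝ μ := hμ.differentiable (by simp)
  refine ⟨?_, fun x u => ?_⟩
  · exact hμ.clm_apply contDiff_const
  · have h1 : HasFDerivAt μ (fderiv ℝ μ x) x := (hd x).hasFDerivAt
    have h2 := (h1.clm_apply (hasFDerivAt_const (be j) x))
    rw [h2.fderiv]
    simp

private theorem pfa_int {f : V → ℝ} (hf : Continuous f) :
    IntegrableOn f (Icc (0 : V) 1) volume :=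
  hf.continuousOn.integrableOn_compact isCompact_Icc

/-- integral of a derivative of a product -/
private theorem pfa_prod {b c : V → ℝ} (hb : ContDiff ℝ (⊤ : ℕ∞) b) (hc : ContDiff ℝ (⊤ : ℕ∞) c)
    (pb : Per b) (pc : Per c) (u : V) :
    Continuous (fun x => b x * fderiv ℝ c x u + c x * fderiv ℝ b x u) ∧
    ∫ x in Icc (0 : V) 1, (b x * fderiv ℝ c x u + c x * fderiv ℝ b x u) = 0 := by
  have h1 : ContDiff ℝ (⊤ : ℕ∞) (fun x => b x * c x) := hb.mul hc
  have h2 : Per (fun x => b x * c x) := by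
    intro x n
    show b _ * c _ = b x * c x
    rw [pb x n, pc x n]
  have h3 := integral_fderiv h1 h2 u
  have h4 : ∀ x, fderiv ℝ (fun x => b x * c x) x u = b x * fderiv ℝ c x u + c x * fderiv ℝ b x u := by
    intro x
    have := ((hb.differentiable (by simp) x).hasFDerivAt.mul
      (hc.differentiable (by simp) x).hasFDerivAt).fderiv
    have h5 : fderiv ℝ (fun x => b x * c x) x = b x • fderiv ℝ c x + c x • fderiv ℝ b x := this
    rw [h5]
    simp
  refine ⟨?_, ?_⟩
  · have h6 : Continuous (fun x => fderiv ℝ (fun x => b x * c x) x u) :=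
      (h1.continuous_fderiv (by simp)).clm_apply continuous_const
    simpa only [h4] using h6
  · simpa only [h4] using h3

/-- continuous functions with integral zero -/
private def Zf (f : V → ℝ) : Prop := Continuous f ∧ ∫ x in Icc (0 : V) 1, f x = 0

private theorem Zf.add {f g : V → ℝ} (hf : Zf f) (hg : Zf g) : Zf (fun x => f x + g x) := by
  refine ⟨hf.1.add hg.1, ?_⟩
  rw [integral_add (pfa_int hf.1) (pfa_int hg.1), hf.2, hg.2, add_zero]

private theorem Zf.sub {f g : V → ℝ} (hf : Zf f) (hg : Zf g) : Zf (fun x => f x - g x) := by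
  refine ⟨hf.1.sub hg.1, ?_⟩
  rw [integral_sub (pfa_int hf.1) (pfa_int hg.1), hf.2, hg.2, sub_zero]

/-- The Pfaffian pairing of a closed form with an exact form has integral zero.
Proof: `pq (η x) (dd μ x)` is a divergence, because `η` is closed. -/
theorem integral_pq_dd {η : V → Form} (h : Clo η) {μ : V → Cov} (hμ : ContDiff ℝ (⊤ : ℕ∞) μ)
    (hp : Per μ) : ∫ x in Icc (0 : V) 1, pq (η x) (dd μ x) = 0 := by
  have pB : ∀ i j, Per (fun x => bb (η x) i j) := by
    intro i j x n
    show bb (η _) i j = bb (η x) i j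
    rw [h.per x n]
  have pM : ∀ j, Per (fun x => μ x (be j)) := by
    intro j x n
    show μ _ (be j) = μ x (be j)
    rw [hp x n]
  -- the twelve products
  have P : ∀ (i j k l : Fin 4), Continuous (fun x => bb (η x) i j * fderiv ℝ μ x (be l) (be k)
        + μ x (be k) * fderiv ℝ η x (be l) (be i) (be j)) ∧
      ∫ x in Icc (0 : V) 1, (bb (η x) i j * fderiv ℝ μ x (be l) (be k)
        + μ x (be k) * fderiv ℝ η x (be l) (be i) (be j)) = 0 := by
    intro i j k l
    have := pfa_prod (pfa_bb h.smooth i j).1 (pfa_mu hμ k).1 (pB i j) (pM k) (be l)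
    simpa only [(pfa_bb h.smooth i j).2, (pfa_mu hμ k).2] using this
  have hcl := h.closed
  have hanti : ∀ x u v w, fderiv ℝ η x u v w = - fderiv ℝ η x u w v := by
    intro x u v w
    have hd : DifferentiableAt ℝ η x := h.smooth.differentiable (by simp) x
    have e1 : fderiv ℝ (fun x => η x v w) x u = fderiv ℝ η x u v w := by
      have := ((hd.hasFDerivAt.clm_apply (hasFDerivAt_const v x)).clm_apply (hasFDerivAt_const w x)).fderiv
      rw [this]; simp
    have e2 : fderiv ℝ (fun x => η x w v) x u = fderiv ℝ η x u w v := by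
      have := ((hd.hasFDerivAt.clm_apply (hasFDerivAt_const w x)).clm_apply (hasFDerivAt_const v x)).fderiv
      rw [this]; simp
    rw [← e1, ← e2]
    have : (fun x => η x v w) = fun x => - η x w v := by
      funext y
      exact h.alt y v w
    rw [this, fderiv_fun_neg]
    simp
  have key : ∀ x, pq (η x) (dd μ x) =
      (bb (η x) 2 3 * fderiv ℝ μ x (be 0) (be 1) + μ x (be 1) * fderiv ℝ η x (be 0) (be 2) (be 3))
      - (bb (η x) 1 3 * fderiv ℝ μ x (be 0) (be 2) + μ x (be 2) * fderiv ℝ η x (be 0) (be 1) (be 3))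
      + (bb (η x) 1 2 * fderiv ℝ μ x (be 0) (be 3) + μ x (be 3) * fderiv ℝ η x (be 0) (be 1) (be 2))
      - (bb (η x) 2 3 * fderiv ℝ μ x (be 1) (be 0) + μ x (be 0) * fderiv ℝ η x (be 1) (be 2) (be 3))
      - (bb (η x) 0 2 * fderiv ℝ μ x (be 1) (be 3) + μ x (be 3) * fderiv ℝ η x (be 1) (be 0) (be 2))
      + (bb (η x) 0 3 * fderiv ℝ μ x (be 1) (be 2) + μ x (be 2) * fderiv ℝ η x (be 1) (be 0) (be 3))
      + (bb (η x) 0 1 * fderiv ℝ μ x (be 2) (be 3) + μ x (be 3) * fderiv ℝ η x (be 2) (be 0) (be 1))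
      + (bb (η x) 1 3 * fderiv ℝ μ x (be 2) (be 0) + μ x (be 0) * fderiv ℝ η x (be 2) (be 1) (be 3))
      - (bb (η x) 0 3 * fderiv ℝ μ x (be 2) (be 1) + μ x (be 1) * fderiv ℝ η x (be 2) (be 0) (be 3))
      - (bb (η x) 0 1 * fderiv ℝ μ x (be 3) (be 2) + μ x (be 2) * fderiv ℝ η x (be 3) (be 0) (be 1))
      + (bb (η x) 0 2 * fderiv ℝ μ x (be 3) (be 1) + μ x (be 1) * fderiv ℝ η x (be 3) (be 0) (be 2))
      - (bb (η x) 1 2 * fderiv ℝ μ x (be 3) (be 0) + μ x (be 0) * fderiv ℝ η x (be 3) (be 1) (be 2)) := by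
    intro x
    have hdd : ∀ i j, bb (dd μ x) i j = fderiv ℝ μ x (be i) (be j) - fderiv ℝ μ x (be j) (be i) :=
      fun i j => rfl
    have c0 := hcl x (be 1) (be 2) (be 3)
    have c1 := hcl x (be 0) (be 2) (be 3)
    have c2 := hcl x (be 0) (be 1) (be 3)
    have c3 := hcl x (be 0) (be 1) (be 2)
    have a0 := hanti x (be 2) (be 3) (be 1)
    have a1 := hanti x (be 2) (be 3) (be 0)
    have a2 := hanti x (be 1) (be 3) (be 0)
    have a3 := hanti x (be 1) (be 2) (be 0)
    unfold pq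
    simp only [hdd]
    linear_combination (μ x (be 0)) * (c0 - a0) - (μ x (be 1)) * (c1 - a1)
      + (μ x (be 2)) * (c2 - a2) - (μ x (be 3)) * (c3 - a3)
  simp only [key]
  have Z : ∀ (i j k l : Fin 4), Zf (fun x => bb (η x) i j * fderiv ℝ μ x (be l) (be k)
        + μ x (be k) * fderiv ℝ η x (be l) (be i) (be j)) := fun i j k l => P i j k l
  exact ((((((((((((Z 2 3 1 0).sub (Z 1 3 2 0)).add (Z 1 2 3 0)).sub (Z 2 3 0 1)).sub
    (Z 0 2 3 1)).add (Z 0 3 2 1)).add (Z 0 1 3 2)).add (Z 1 3 0 2)).sub (Z 0 3 1 2)).sub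
    (Z 0 1 2 3)).add (Z 0 2 1 3)).sub (Z 1 2 0 3)).2

private theorem pfa_pqc {η θ : V → Form} (h : Continuous η) (h' : Continuous θ) :
    Continuous (fun x => pq (η x) (θ x)) := by
  have hb : ∀ i j, Continuous (fun x => bb (η x) i j) := fun i j => by
    unfold bb
    exact (h.clm_apply continuous_const).clm_apply continuous_const
  have hb' : ∀ i j, Continuous (fun x => bb (θ x) i j) := fun i j => by
    unfold bb
    exact (h'.clm_apply continuous_const).clm_apply continuous_const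
  unfold pq
  exact (((((((hb 0 1).mul (hb' 2 3)).add ((hb 2 3).mul (hb' 0 1))).sub
    ((hb 0 2).mul (hb' 1 3))).sub ((hb 1 3).mul (hb' 0 2))).add
    ((hb 0 3).mul (hb' 1 2))).add ((hb 1 2).mul (hb' 0 3)))

theorem integral_pf {ω : V → Form} (h : Clo ω) : ∫ x in Icc (0 : V) 1, pf (ω x) = pf (avg ω) := by
  obtain ⟨μ, hμ, hp, hω⟩ := h.exists_prim
  have hA : Clo (fun _ : V => avg ω) := clo_const (avg_alt h.smooth.continuous h.alt)
  have hD : Clo (dd μ) := clo_dd hμ hp
  have z1 : Zf (fun x => pq (avg ω) (dd μ x)) :=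
    ⟨pfa_pqc continuous_const hD.smooth.continuous, integral_pq_dd hA hμ hp⟩
  have z2 : Zf (fun x => pq (dd μ x) (dd μ x)) :=
    ⟨pfa_pqc hD.smooth.continuous hD.smooth.continuous, integral_pq_dd hD hμ hp⟩
  have e : ∀ x, pf (ω x) = pf (avg ω) + (pq (avg ω) (dd μ x) + (1 / 2) * pq (dd μ x) (dd μ x)) := by
    intro x
    have h1 : ω x = avg ω + dd μ x := hω x
    have h2 := pf_add (avg ω) (dd μ x)
    rw [← h1] at h2
    rw [h2]
    unfold pf pq
    ring
  have z3 : Zf (fun x => (1 / 2) * pq (dd μ x) (dd μ x)) := by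
    refine ⟨continuous_const.mul z2.1, ?_⟩
    rw [integral_const_mul, z2.2, mul_zero]
  have z4 := z1.add z3
  simp only [e]
  rw [integral_add (pfa_int continuous_const) (pfa_int z4.1), z4.2, add_zero]
  exact integral_const_cube _

/-- The average of a symplectic form is nondegenerate, with the same orientation. -/
theorem IsSymp.pf_mul_pos {ω : V → Form} (h : IsSymp ω) (x : V) : 0 < pf (ω x) * pf (avg ω) := by
  have hc : Continuous (fun y => pf (ω y)) := continuous_pf.comp h.smooth.continuous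
  have hne : ∀ y, pf (ω y) ≠ 0 := fun y => (nondeg_iff_pf (h.alt y)).1 (h.nondeg y)
  have hpos : ∀ y, 0 < pf (ω x) * pf (ω y) := by
    intro y
    by_contra hcon
    have h0 : 0 < pf (ω x) * pf (ω x) := mul_self_pos.2 (hne x)
    have hcc : Continuous (fun y => pf (ω x) * pf (ω y)) := continuous_const.mul hc
    obtain ⟨z, hz⟩ := mem_range_of_exists_le_of_exists_ge hcc ⟨y, not_lt.1 hcon⟩ ⟨x, h0.le⟩
    rcases mul_eq_zero.1 hz with h1 | h1
    · exact hne x h1
    · exact hne z h1
  rw [← integral_pf h.clo, ← integral_const_mul]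
  have hcc : Continuous (fun y => pf (ω x) * pf (ω y)) := continuous_const.mul hc
  obtain ⟨z, _, hz⟩ := (isCompact_Icc (a := (0 : V)) (b := 1)).exists_isMinOn
    ⟨0, left_mem_Icc.2 (by intro i; simp)⟩ hcc.continuousOn
  have h1 : ∫ _y in Icc (0 : V) 1, pf (ω x) * pf (ω z) ≤ ∫ y in Icc (0 : V) 1, pf (ω x) * pf (ω y) := by
    refine setIntegral_mono_on (pfa_int continuous_const) (pfa_int hcc) measurableSet_Icc ?_
    intro y hy
    exact hz hy
  rw [integral_const_cube] at h1
  exact lt_of_lt_of_le (hpos z) h1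

theorem IsSymp.avg_nondeg {ω : V → Form} (h : IsSymp ω) : Nondeg (avg ω) := by
  rw [nondeg_iff_pf (avg_alt h.smooth.continuous h.alt)]
  intro h0
  have := h.pf_mul_pos 0
  rw [h0, mul_zero] at this
  exact lt_irrefl _ this

end VSI
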