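import Mathlib
import Pool.Agent.VSI.MRG
import Pool.Agent.VSI.PFL
import Pool.Agent.VSI.QDefs

/-!
# VSI / QD: decomposition of alternating forms
-/

set_option maxSynthPendingDepth 3

open Set MeasureTheory

namespace VSI

private theorem qd_norm {D : Form} (i j : Fin 4) : ‖bb D i j • eb i j‖ ≤ 2 * ‖D‖ := by
  rw [norm_smul, Real.norm_eq_abs]
  have h1 := abs_bb_le D i j
  have h2 := norm_eb_le i j
  nlinarith [abs_nonneg (bb D i j), norm_nonneg (eb i j), norm_nonneg D]

private theorem qd_kill {D : Form} (i j : Fin 4) (u v : V) (hu : u i = 0) (hv : v i = 0) :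
    (bb D i j • eb i j) u v = 0 := by
  have h : (bb D i j • eb i j) u v = bb D i j * eb i j u v := rfl
  rw [h, eb_apply, hu, hv]
  ring

private theorem qd_main {D : Form} (a b c d : Fin 4) (ha : a ≠ d) (hb : b ≠ d) (hc : c ≠ d)
    (hs : ∀ u v, bb D a b * (u a * v b - u b * v a) + bb D a c * (u a * v c - u c * v a) +
      bb D a d * (u a * v d - u d * v a) + (bb D b c * (u b * v c - u c * v b) +
      bb D b d * (u b * v d - u d * v b)) + bb D c d * (u c * v d - u d * v c) = D u v) :
    ∃ (j : Fin 3 → Fin 4) (P : Fin 3 → Form), (∀ l, j l ≠ d) ∧ (∀ l, Alt (P l)) ∧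
      (∀ (l : Fin 3) (u v : V), u (j l) = 0 → v (j l) = 0 → P l u v = 0) ∧
      (∀ l, ‖P l‖ ≤ 6 * ‖D‖) ∧ P 0 + P 1 + P 2 = D := by
  refine ⟨![a, b, c], ![bb D a b • eb a b + bb D a c • eb a c + bb D a d • eb a d,
    bb D b c • eb b c + bb D b d • eb b d, bb D c d • eb c d], ?_, ?_, ?_, ?_, ?_⟩
  · intro l
    fin_cases l
    · exact ha
    · exact hb
    · exact hc
  · intro l
    fin_cases l
    · exact alt_add (alt_add (alt_smul (alt_eb _ _) _) (alt_smul (alt_eb _ _) _))
        (alt_smul (alt_eb _ _) _)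
    · exact alt_add (alt_smul (alt_eb _ _) _) (alt_smul (alt_eb _ _) _)
    · exact alt_smul (alt_eb _ _) _
  · intro l u v hu hv
    fin_cases l
    · change (bb D a b • eb a b) u v + (bb D a c • eb a c) u v + (bb D a d • eb a d) u v = 0
      rw [qd_kill a b u v hu hv, qd_kill a c u v hu hv, qd_kill a d u v hu hv]
      norm_num
    · change (bb D b c • eb b c) u v + (bb D b d • eb b d) u v = 0
      rw [qd_kill b c u v hu hv, qd_kill b d u v hu hv]
      norm_num
    · exact qd_kill c d u v hu hv
  · intro l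
    have h0 := norm_nonneg D
    fin_cases l
    · change ‖bb D a b • eb a b + bb D a c • eb a c + bb D a d • eb a d‖ ≤ 6 * ‖D‖
      have h1 := qd_norm (D := D) a b
      have h2 := qd_norm (D := D) a c
      have h3 := qd_norm (D := D) a d
      have h4 : ‖bb D a b • eb a b + bb D a c • eb a c + bb D a d • eb a d‖ ≤
          ‖bb D a b • eb a b + bb D a c • eb a c‖ + ‖bb D a d • eb a d‖ :=
        norm_add_le (E := Form) _ _
      have h5 : ‖bb D a b • eb a b + bb D a c • eb a c‖ ≤
          ‖bb D a b • eb a b‖ + ‖bb D a c • eb a c‖ := norm_add_le (E := Form) _ _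
      linarith
    · change ‖bb D b c • eb b c + bb D b d • eb b d‖ ≤ 6 * ‖D‖
      have h1 := qd_norm (D := D) b c
      have h2 := qd_norm (D := D) b d
      have h5 : ‖bb D b c • eb b c + bb D b d • eb b d‖ ≤
          ‖bb D b c • eb b c‖ + ‖bb D b d • eb b d‖ := norm_add_le (E := Form) _ _
      linarith
    · change ‖bb D c d • eb c d‖ ≤ 6 * ‖D‖
      have h1 := qd_norm (D := D) c d
      linarith
  · refine ContinuousLinearMap.ext fun u => ContinuousLinearMap.ext fun v => ?_
    rw [← hs u v]
    rfl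

/-- An alternating form is a sum of three alternating forms, divisible by three different coordinate covectors
different from the one with index `i₀`.  Order the coordinates so that `i₀` is the last one, and group the six terms
of `form_eq_sum` by their first index. -/
theorem exists_decomp (i₀ : Fin 4) {D : Form} (hD : Alt D) :
    ∃ (j : Fin 3 → Fin 4) (P : Fin 3 → Form), (∀ l, j l ≠ i₀) ∧ (∀ l, Alt (P l)) ∧
      (∀ (l : Fin 3) (u v : V), u (j l) = 0 → v (j l) = 0 → P l u v = 0) ∧
      (∀ l, ‖P l‖ ≤ 6 * ‖D‖) ∧ P 0 + P 1 + P 2 = D := by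
  fin_cases i₀
  · refine qd_main 1 2 3 0 (by decide) (by decide) (by decide) fun u v => ?_
    rw [alt_apply hD u v, bb_alt hD 1 0, bb_alt hD 2 0, bb_alt hD 3 0]
    ring
  · refine qd_main 0 2 3 1 (by decide) (by decide) (by decide) fun u v => ?_
    rw [alt_apply hD u v, bb_alt hD 2 1, bb_alt hD 3 1]
    ring
  · refine qd_main 0 1 3 2 (by decide) (by decide) (by decide) fun u v => ?_
    rw [alt_apply hD u v, bb_alt hD 3 2]
    ring
  · refine qd_main 0 1 2 3 (by decide) (by decide) (by decide) fun u v => ?_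
    rw [alt_apply hD u v]
    ring

end VSI
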