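import Mathlib
import Pool.Agent.VSI.EXA
import Pool.Agent.VSI.MRG
import Pool.Agent.VSI.QDefs

/-!
# VSI / QT: concatenation of uniform isotopies
-/

set_option maxSynthPendingDepth 3

open Set MeasureTheory

namespace VSI

/-- The derivative of the smooth transition function is bounded. -/
theorem exists_bound_smoothTransition :
    ∃ K : ℝ, 0 < K ∧ ∀ t : ℝ, |deriv Real.smoothTransition t| ≤ K := by
  have hs : ContDiff ℝ (⊤ : ℕ∞) Real.smoothTransition := Real.smoothTransition.contDiff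
  have hc : Continuous (deriv Real.smoothTransition) := hs.continuous_deriv (by simp)
  obtain ⟨C, hC⟩ := (isCompact_Icc (a := (0 : ℝ)) (b := 1)).exists_bound_of_continuousOn
    hc.continuousOn
  refine ⟨max C 1, lt_max_of_lt_right one_pos, fun t => ?_⟩
  by_cases h0 : t < 0
  · have h1 : Real.smoothTransition =ᶠ[nhds t] fun _ => (0 : ℝ) := by
      filter_upwards [Iio_mem_nhds h0] with y hy
      exact Real.smoothTransition.zero_of_nonpos (le_of_lt hy)
    rw [h1.deriv_eq, deriv_const, abs_zero]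
    exact (zero_lt_one.trans_le (le_max_right _ _)).le
  · by_cases h1 : 1 < t
    · have h2 : Real.smoothTransition =ᶠ[nhds t] fun _ => (1 : ℝ) := by
        filter_upwards [Ioi_mem_nhds h1] with y hy
        exact Real.smoothTransition.one_of_one_le (le_of_lt hy)
      rw [h2.deriv_eq, deriv_const, abs_zero]
      exact (zero_lt_one.trans_le (le_max_right _ _)).le
    · push Not at h0 h1
      have := hC t ⟨h0, h1⟩
      rw [Real.norm_eq_abs] at this
      exact this.trans (le_max_left _ _)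

theorem PerN.of_per {F : Type} {n : Fin 4 → ℕ} {f : V → F} (h : Per f) : PerN n f := by
  intro x k
  have h1 := h x (fun i => (n i : ℤ) * k i)
  have h2 : (fun i => (((n i : ℤ) * k i : ℤ) : ℝ)) = fun i => (n i : ℝ) * (k i : ℝ) := by
    funext i
    push_cast
    rfl
  rwa [h2] at h1

theorem JQ.mono {n : Fin 4 → ℕ} {A : Form} {c E c' E' : ℝ} {ω₀ ω₁ : V → Form} (h : JQ n A c E ω₀ ω₁)
    (hc : c' ≤ c) (hE : E ≤ E') : JQ n A c' E' ω₀ ω₁ := by
  obtain ⟨L, h1, h2, h3, h4, h5, h6⟩ := h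
  exact ⟨L, h1, h2, h3, h4, fun t ht x v =>
    (mul_le_mul_of_nonneg_right hc (norm_nonneg v)).trans (h5 t ht x v),
    fun t ht x => (h6 t ht x).trans hE⟩

theorem qt_dd {f g h : V → Cov} {x : V} (hf : DifferentiableAt ℝ f x) (hg : DifferentiableAt ℝ g x)
    (hh : DifferentiableAt ℝ h x) :
    dd (fun y => f y + g y - h y) x = dd f x + dd g x - dd h x := by
  have h1 : fderiv ℝ (fun y => f y + g y - h y) x = fderiv ℝ f x + fderiv ℝ g x - fderiv ℝ h x :=
    ((hf.hasFDerivAt.add hg.hasFDerivAt).sub hh.hasFDerivAt).fderiv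
  ext u v
  simp only [dd_apply, add_apply, sub_apply, h1]
  ring

theorem qt_slice {L : ℝ × V → Cov} (hL : ContDiff ℝ (⊤ : ℕ∞) L) (t : ℝ) (x : V) :
    DifferentiableAt ℝ (fun y => L (t, y)) x := by
  have h1 : Differentiable ℝ L := hL.differentiable (by simp)
  exact (h1 (t, x)).comp x ((differentiableAt_const t).prodMk differentiableAt_id)

/-- Concatenation: `L (t, x) = L₁ (S (3 t), x) + L₂ (S (3 t - 2), x) - L₂ (0, x)` with `S` the smooth
transition. -/
theorem exists_JQ_trans : ∃ K : ℝ, 0 < K ∧ ∀ (n : Fin 4 → ℕ) (A : Form) (c E₁ E₂ : ℝ)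
    (ω₀ ω₁ ω₂ : V → Form), JQ n A c E₁ ω₀ ω₁ → JQ n A c E₂ ω₁ ω₂ → JQ n A c (K * (E₁ + E₂)) ω₀ ω₂ := by
  obtain ⟨K, hK, hKb⟩ := exists_bound_smoothTransition
  refine ⟨3 * K, by positivity, ?_⟩
  rintro n A c E₁ E₂ ω₀ ω₁ ω₂ ⟨L₁, a1, a2, a3, a4, a5, a6⟩ ⟨L₂, b1, b2, b3, b4, b5, b6⟩
  have hs : ContDiff ℝ (⊤ : ℕ∞) Real.smoothTransition := Real.smoothTransition.contDiff
  have hsd : Differentiable ℝ Real.smoothTransition := hs.differentiable (by simp)
  set S := Real.smoothTransition with hS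
  have hS01 : ∀ t, S t ∈ Icc (0 : ℝ) 1 := fun t =>
    ⟨Real.smoothTransition.nonneg t, Real.smoothTransition.le_one t⟩
  have hS0 : ∀ t, t ≤ 0 → S t = 0 := fun t ht => Real.smoothTransition.zero_of_nonpos ht
  have hS1 : ∀ t, 1 ≤ t → S t = 1 := fun t ht => Real.smoothTransition.one_of_one_le ht
  have hdd : ∀ (s t : ℝ) (x : V), dd (fun y => L₁ (s, y) + L₂ (t, y) - L₂ (0, y)) x =
      dd (fun y => L₁ (s, y)) x + dd (fun y => L₂ (t, y)) x - dd (fun y => L₂ (0, y)) x :=
    fun s t x => qt_dd (qt_slice a1 s x) (qt_slice b1 t x) (qt_slice b1 0 x)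
  have hmid : ∀ x, dd (fun y => L₁ (1, y)) x = dd (fun y => L₂ (0, y)) x := by
    intro x
    have h1 := (a4 x).symm.trans (b3 x)
    exact add_left_cancel h1
  refine ⟨fun p => L₁ (S (3 * p.1), p.2) + L₂ (S (3 * p.1 - 2), p.2) - L₂ (0, p.2), ?_, ?_, ?_, ?_,
    ?_, ?_⟩
  · have e1 : ContDiff ℝ (⊤ : ℕ∞) (fun p : ℝ × V => (S (3 * p.1), p.2)) :=
      (hs.comp (contDiff_const.mul contDiff_fst)).prodMk contDiff_snd
    have e2 : ContDiff ℝ (⊤ : ℕ∞) (fun p : ℝ × V => (S (3 * p.1 - 2), p.2)) :=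
      (hs.comp ((contDiff_const.mul contDiff_fst).sub contDiff_const)).prodMk contDiff_snd
    have e3 : ContDiff ℝ (⊤ : ℕ∞) (fun p : ℝ × V => ((0 : ℝ), p.2)) :=
      contDiff_const.prodMk contDiff_snd
    exact ((a1.comp e1).add (b1.comp e2)).sub (b1.comp e3)
  · intro t x k
    have h1 := a2 (S (3 * t)) x k
    have h2 := b2 (S (3 * t - 2)) x k
    have h3 := b2 0 x k
    simp only at h1 h2 h3 ⊢
    rw [h1, h2, h3]
  · intro x
    have h1 : S (3 * 0) = 0 := hS0 _ (by norm_num)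
    have h2 : S (3 * 0 - 2) = 0 := hS0 _ (by norm_num)
    simp only [h1, h2]
    rw [hdd, a3, add_sub_cancel_right]
  · intro x
    have h1 : S (3 * 1) = 1 := hS1 _ (by norm_num)
    have h2 : S (3 * 1 - 2) = 1 := hS1 _ (by norm_num)
    simp only [h1, h2]
    rw [hdd, hmid, add_sub_cancel_left, b4]
  · intro t ht x
    simp only
    rw [hdd]
    rcases le_or_gt t (2 / 3) with h | h
    · have h2 : S (3 * t - 2) = 0 := hS0 _ (by linarith)
      rw [h2, add_sub_cancel_right]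
      exact a5 _ (hS01 _) x
    · have h1 : S (3 * t) = 1 := hS1 _ (by linarith)
      rw [h1, hmid, add_sub_cancel_left]
      exact b5 _ (hS01 _) x
  · intro t ht x
    have hL₁ : Differentiable ℝ L₁ := a1.differentiable (by simp)
    have hL₂ : Differentiable ℝ L₂ := b1.differentiable (by simp)
    -- derivative of the reparametrised map
    have key : ∀ (L : ℝ × V → Cov) (_ : Differentiable ℝ L) (r : ℝ),
        HasFDerivAt (fun p : ℝ × V => L (S (3 * p.1 - r), p.2))
        ((fderiv ℝ L (S (3 * t - r), x)).comp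
          (((deriv S (3 * t - r)) • ((3 : ℝ) • ContinuousLinearMap.fst ℝ ℝ V)).prod
            (ContinuousLinearMap.snd ℝ ℝ V))) (t, x) := by
      intro L hL r
      have h1 : HasFDerivAt (fun p : ℝ × V => 3 * p.1 - r) ((3 : ℝ) • ContinuousLinearMap.fst ℝ ℝ V)
          (t, x) := by
        have := (hasFDerivAt_fst (𝕜 := ℝ) (E := ℝ) (F := V) (p := (t, x))).const_mul (3 : ℝ)
        exact this.sub_const r
      have h2 : HasFDerivAt (fun p : ℝ × V => S (3 * p.1 - r))
          ((deriv S (3 * t - r)) • ((3 : ℝ) • ContinuousLinearMap.fst ℝ ℝ V)) (t, x) := by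
        have h0 : HasDerivAt S (deriv S (3 * t - r)) (3 * t - r) := (hsd (3 * t - r)).hasDerivAt
        exact HasDerivAt.comp_hasFDerivAt (f := fun p : ℝ × V => 3 * p.1 - r) (t, x) h0 h1
      have h3 := h2.prodMk (hasFDerivAt_snd (𝕜 := ℝ) (E := ℝ) (F := V) (p := (t, x)))
      exact HasFDerivAt.comp (f := fun p : ℝ × V => (S (3 * p.1 - r), p.2)) (t, x)
        (hL (S (3 * t - r), x)).hasFDerivAt h3
    have k1 := key L₁ hL₁ 0
    have k2 := key L₂ hL₂ 2
    have k3 : HasFDerivAt (fun p : ℝ × V => L₂ (0, p.2))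
        ((fderiv ℝ L₂ (0, x)).comp ((0 : ℝ × V →L[ℝ] ℝ).prod (ContinuousLinearMap.snd ℝ ℝ V)))
        (t, x) := by
      have h3 := (hasFDerivAt_const (0 : ℝ) (t, x)).prodMk
        (hasFDerivAt_snd (𝕜 := ℝ) (E := ℝ) (F := V) (p := (t, x)))
      exact HasFDerivAt.comp (f := fun p : ℝ × V => ((0 : ℝ), p.2)) (t, x)
        (hL₂ (0, x)).hasFDerivAt h3
    simp only [sub_zero] at k1
    have k4 := ((k1.add k2).sub k3).fderiv
    have k5 : fderiv ℝ (fun p : ℝ × V => L₁ (S (3 * p.1), p.2) + L₂ (S (3 * p.1 - 2), p.2) -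
        L₂ (0, p.2)) (t, x) (1, 0) =
        (3 * deriv S (3 * t)) • fderiv ℝ L₁ (S (3 * t), x) (1, 0) +
        (3 * deriv S (3 * t - 2)) • fderiv ℝ L₂ (S (3 * t - 2), x) (1, 0) := by
      have k6 : fderiv ℝ (fun p : ℝ × V => L₁ (S (3 * p.1), p.2) + L₂ (S (3 * p.1 - 2), p.2) -
        L₂ (0, p.2)) (t, x) = _ := k4
      rw [k6]
      have e1 : ∀ r : ℝ, ((r * 3, 0) : ℝ × V) = (3 * r) • ((1, 0) : ℝ × V) := by
        intro r
        ext <;> simp [mul_comm]
      simp only [add_apply, sub_apply, ContinuousLinearMap.comp_apply,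
        ContinuousLinearMap.prod_apply, smul_apply, ContinuousLinearMap.coe_fst',
        ContinuousLinearMap.coe_snd', smul_eq_mul, mul_one, zero_apply, e1, map_smul]
      have e2 : (((0 : ℝ), (0 : V)) : ℝ × V) = 0 := rfl
      rw [e2, map_zero, sub_zero]
    rw [k5]
    have n1 : ‖(3 * deriv S (3 * t)) • fderiv ℝ L₁ (S (3 * t), x) (1, 0)‖ ≤ 3 * K * E₁ := by
      rw [norm_smul, norm_mul, Real.norm_eq_abs, Real.norm_eq_abs, abs_of_pos (by norm_num : (0:ℝ) < 3)]
      exact mul_le_mul (mul_le_mul_of_nonneg_left (hKb _) (by norm_num)) (a6 _ (hS01 _) x)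
        (norm_nonneg _) (by positivity)
    have n2 : ‖(3 * deriv S (3 * t - 2)) • fderiv ℝ L₂ (S (3 * t - 2), x) (1, 0)‖ ≤ 3 * K * E₂ := by
      rw [norm_smul, norm_mul, Real.norm_eq_abs, Real.norm_eq_abs, abs_of_pos (by norm_num : (0:ℝ) < 3)]
      exact mul_le_mul (mul_le_mul_of_nonneg_left (hKb _) (by norm_num)) (b6 _ (hS01 _) x)
        (norm_nonneg _) (by positivity)
    refine (norm_add_le _ _).trans ?_
    rw [mul_add]
    exact add_le_add n1 n2

theorem UJ.const (i₀ : Fin 4) {A : Form} (hA : Nondeg A) : UJ i₀ A (fun _ => A) := by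
  obtain ⟨c, hc, hm⟩ := margin_compact (Φ := fun _ => A) continuous_const
    (fun t ht x n => rfl) (fun t ht x => hA)
  have hz : ∀ x : V, dd (fun _ : V => (0 : Cov)) x = 0 := by
    intro x
    ext u v
    simp
  refine ⟨c, hc, 1, one_pos, 0, fun n hn => ⟨fun _ => 0, contDiff_const, fun t x k => rfl,
    fun x => ?_, fun x => ?_, fun t ht x => ?_, fun t ht x => ?_⟩⟩
  · simp only [hz, add_zero]
  · simp only [hz, add_zero]
  · simp only [hz, add_zero]
    exact hm t ht 0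
  · simp

end VSI
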