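import Mathlib
import Pool.Agent.VSI.PAR
import Pool.Agent.VSI.QDefs

/-!
# VSI / QG: primitives of periodic profiles, and a one dimensional estimate
-/

set_option maxSynthPendingDepth 3

open Set MeasureTheory

namespace VSI

private theorem qg_interval {F : Type} [NormedAddCommGroup F] [NormedSpace ℝ F]
    (g : ℝ → F) : ∫ y in (0 : ℝ)..1, g y = ∫ y in Icc (0 : ℝ) 1, g y := by
  rw [intervalIntegral.integral_of_le zero_le_one, integral_Icc_eq_integral_Ioc]

private theorem qg_smooth {E F : Type} [NormedAddCommGroup E] [NormedSpace ℝ E]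
    [FiniteDimensional ℝ E] [NormedAddCommGroup F] [NormedSpace ℝ F] [CompleteSpace F]
    {g : E × ℝ → F} (hg : ContDiff ℝ (⊤ : ℕ∞) g) :
    ContDiff ℝ (⊤ : ℕ∞) (fun s : E => ∫ y in (0 : ℝ)..1, g (s, y)) := by
  have h := par_smooth (E := E) (F := F) (G := ℝ) volume (K := Icc (0 : ℝ) 1) isCompact_Icc hg
  have h2 : (fun s : E => ∫ y in (0 : ℝ)..1, g (s, y)) = fun s => ∫ a in Icc (0 : ℝ) 1, g (s, a) := by
    funext s
    exact qg_interval _
  rw [h2]
  exact h

/-- `G (s, y) = ∫ r in 0..y, β (s, r) = ∫ r in 0..1, y • β (s, r y)`; the second form is smooth by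
`par_smooth`, the first one gives the derivative; periodic because the integral over a period is zero. -/
theorem exists_profile {β : ℝ × ℝ → Cov} (hβ : ContDiff ℝ (⊤ : ℕ∞) β)
    (hp : ∀ (s y : ℝ) (m : ℤ), β (s, y + m) = β (s, y)) (h0 : ∀ s, ∫ y in (0 : ℝ)..1, β (s, y) = 0) :
    ∃ G : ℝ × ℝ → Cov, ContDiff ℝ (⊤ : ℕ∞) G ∧ (∀ (s y : ℝ) (m : ℤ), G (s, y + m) = G (s, y)) ∧
      (∀ s y, HasDerivAt (fun y => G (s, y)) (β (s, y)) y) ∧
      (∀ s, (∀ y, β (s, y) = 0) → ∀ y, G (s, y) = 0) := by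
  have hc : ∀ s, Continuous fun y => β (s, y) := fun s =>
    hβ.continuous.comp (continuous_const.prodMk continuous_id)
  refine ⟨fun p => ∫ r in (0 : ℝ)..p.2, β (p.1, r), ?_, ?_, ?_, ?_⟩
  · have h1 : (fun p : ℝ × ℝ => ∫ r in (0 : ℝ)..p.2, β (p.1, r)) =
        fun p : ℝ × ℝ => ∫ r in (0 : ℝ)..1, p.2 • β (p.1, r * p.2) := by
      funext p
      have h2 := intervalIntegral.smul_integral_comp_mul_right (a := (0 : ℝ)) (b := 1)
        (fun r : ℝ => β (p.1, r)) p.2
      rw [zero_mul, one_mul] at h2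
      rw [← h2, intervalIntegral.integral_smul]
    rw [h1]
    refine qg_smooth (E := ℝ × ℝ) (F := Cov) (g := fun q : (ℝ × ℝ) × ℝ => q.1.2 • β (q.1.1, q.2 * q.1.2)) ?_
    have ha : ContDiff ℝ (⊤ : ℕ∞) (fun q : (ℝ × ℝ) × ℝ => q.1.2) := by fun_prop
    have hb : ContDiff ℝ (⊤ : ℕ∞) (fun q : (ℝ × ℝ) × ℝ => (q.1.1, q.2 * q.1.2)) := by fun_prop
    exact ha.smul (hβ.comp hb)
  · intro s y m
    have hper : Function.Periodic (fun y => β (s, y)) 1 := by
      intro y
      have := hp s y 1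
      simpa using this
    have hi : ∀ a b, IntervalIntegrable (fun y => β (s, y)) volume a b := fun a b =>
      (hc s).intervalIntegrable a b
    have h1 := hper.intervalIntegral_add_zsmul_eq m y hi
    have h2 : ∫ x in y..y + 1, β (s, x) = 0 := by
      rw [hper.intervalIntegral_add_eq y 0, zero_add]
      exact h0 s
    rw [h2, smul_zero] at h1
    have h3 : y + m • (1 : ℝ) = y + m := by simp
    rw [h3] at h1
    change ∫ r in (0 : ℝ)..(y + m), β (s, r) = ∫ r in (0 : ℝ)..y, β (s, r)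
    rw [← intervalIntegral.integral_add_adjacent_intervals (hi 0 y) (hi y (y + m)), h1, add_zero]
  · intro s y
    exact intervalIntegral.integral_hasDerivAt_right ((hc s).intervalIntegrable _ _)
      ((hc s).stronglyMeasurableAtFilter _ _) (hc s).continuousAt
  · intro s hs y
    simp only [hs]
    exact intervalIntegral.integral_zero

/-- Smoothness of `s ↦ ∫ y in 0..1, g (s, y)`. -/
theorem smooth_interval {F : Type} [NormedAddCommGroup F] [NormedSpace ℝ F] [CompleteSpace F]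
    {g : ℝ × ℝ → F} (hg : ContDiff ℝ (⊤ : ℕ∞) g) :
    ContDiff ℝ (⊤ : ℕ∞) (fun s : ℝ => ∫ y in (0 : ℝ)..1, g (s, y)) :=
  qg_smooth hg

/-- The integral of a function that vanishes outside a small set. -/
theorem norm_interval_le {F : Type} [NormedAddCommGroup F] [NormedSpace ℝ F] [CompleteSpace F]
    {g : ℝ → F} (hg : Continuous g) {S : Set ℝ} (hS : MeasurableSet S)
    {C m : ℝ} (hC : ∀ y ∈ Icc (0 : ℝ) 1, ‖g y‖ ≤ C) (h0 : ∀ y ∈ Icc (0 : ℝ) 1, y ∉ S → g y = 0)
    (hm : 0 ≤ m) (hv : volume (S ∩ Icc (0 : ℝ) 1) ≤ ENNReal.ofReal m) :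
    ‖∫ y in (0 : ℝ)..1, g y‖ ≤ C * m := by
  rw [qg_interval]
  have hC0 : 0 ≤ C := (norm_nonneg _).trans (hC 0 ⟨le_rfl, zero_le_one⟩)
  have h1 : ∫ y in Icc (0 : ℝ) 1, g y = ∫ y in S ∩ Icc (0 : ℝ) 1, g y := by
    refine (setIntegral_eq_of_subset_of_forall_sdiff_eq_zero measurableSet_Icc inter_subset_right
      ?_)
    intro y hy
    exact h0 y hy.1 fun h => hy.2 ⟨h, hy.1⟩
  rw [h1]
  have h2 : volume (S ∩ Icc (0 : ℝ) 1) < ⊤ := lt_of_le_of_lt hv ENNReal.ofReal_lt_top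
  have h3 := norm_setIntegral_le_of_norm_le_const h2 (fun y hy => hC y hy.2)
  have h4 : volume.real (S ∩ Icc (0 : ℝ) 1) ≤ m := ENNReal.toReal_le_of_le_ofReal hm hv
  exact h3.trans (mul_le_mul_of_nonneg_left h4 hC0)

end VSI
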