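import Mathlib
import Pool.Agent.VSI.SHF

/-!
# VSI / CYL: functions of one coordinate on the unit cube
-/

open Set MeasureTheory

namespace VSI

/-- The measure of a cylinder. -/
theorem vol_cyl (j : Fin 4) {S : Set ℝ} (hS : MeasurableSet S) :
    volume {x : V | x ∈ Icc (0 : V) 1 ∧ x j ∈ S} = volume (S ∩ Icc (0 : ℝ) 1) := by
  have h : {x : V | x ∈ Icc (0 : V) 1 ∧ x j ∈ S} =
      Set.pi univ (fun i : Fin 4 => if i = j then S ∩ Icc (0 : ℝ) 1 else Icc (0 : ℝ) 1) := by
    ext x
    simp only [mem_setOf_eq, mem_Icc, mem_univ_pi, Pi.le_def, Pi.zero_apply, Pi.one_apply]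
    constructor
    · rintro ⟨⟨h0, h1⟩, hS⟩ i
      by_cases hi : i = j
      · subst hi; simp [hS, h0 i, h1 i]
      · simp [hi, h0 i, h1 i]
    · intro h
      have hj := h j
      simp only [if_true, mem_inter_iff, mem_Icc] at hj
      refine ⟨⟨fun i => ?_, fun i => ?_⟩, hj.1⟩
      · by_cases hi : i = j
        · subst hi; exact hj.2.1
        · have := h i; rw [if_neg hi] at this; exact this.1
      · by_cases hi : i = j
        · subst hi; exact hj.2.2
        · have := h i; rw [if_neg hi] at this; exact this.2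
  rw [h, volume_pi_pi, Finset.prod_eq_single j]
  · simp
  · intro i _ hi
    rw [if_neg hi]; simp
  · intro hj; exact absurd (Finset.mem_univ j) hj

/-- An integral over the unit cube of a function which vanishes for most values of one coordinate. -/
theorem norm_integral_le_cyl {F : Type} [NormedAddCommGroup F] [NormedSpace ℝ F] [CompleteSpace F]
    (j : Fin 4) {g : ℝ → F} (hg : Continuous g) {S : Set ℝ} (hS : MeasurableSet S)
    {C m : ℝ} (hC : ∀ y ∈ Icc (0 : ℝ) 1, ‖g y‖ ≤ C) (h0 : ∀ y ∈ Icc (0 : ℝ) 1, y ∉ S → g y = 0)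
    (hm : 0 ≤ m) (hv : volume (S ∩ Icc (0 : ℝ) 1) ≤ ENNReal.ofReal m) :
    ‖∫ x in Icc (0 : V) 1, g (x j)‖ ≤ C * m := by
  have hC0 : 0 ≤ C := (norm_nonneg _).trans (hC 0 ⟨le_refl _, zero_le_one⟩)
  set T : Set V := {x : V | x ∈ Icc (0 : V) 1 ∧ x j ∈ S} with hT
  have hTm : MeasurableSet T :=
    (measurableSet_Icc).inter ((measurable_pi_apply j) hS)
  have hTsub : T ⊆ Icc (0 : V) 1 := fun x hx => hx.1
  have hvol : volume T ≤ ENNReal.ofReal m := by rw [hT, vol_cyl j hS]; exact hv
  have heq : ∫ x in Icc (0 : V) 1, g (x j) = ∫ x in T, g (x j) := by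
    apply setIntegral_eq_of_subset_of_forall_diff_eq_zero measurableSet_Icc hTsub
    intro x hx
    apply h0
    · exact ⟨hx.1.1 j, hx.1.2 j⟩
    · intro hxS; exact hx.2 ⟨hx.1, hxS⟩
  rw [heq]
  have hlt : volume T < ⊤ := lt_of_le_of_lt hvol ENNReal.ofReal_lt_top
  calc ‖∫ x in T, g (x j)‖ ≤ C * volume.real T := by
        apply norm_setIntegral_le_of_norm_le_const hlt
        intro x hx
        exact hC _ ⟨hx.1.1 j, hx.1.2 j⟩
    _ ≤ C * m := by
        gcongr
        exact ENNReal.toReal_le_of_le_ofReal hm hvol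

end VSI
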