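import Mathlib
import Pool.Agent.VSI.EXA

/-!
# VSI / JFM: forms divisible by a coordinate covector, and families of one-forms along a wall
-/

open Set MeasureTheory

namespace VSI

/-- An alternating form that vanishes on the hyperplane `u j = 0` is `u j a(v) - v j a(u)`. -/
theorem jfm_div {B : Form} (j : Fin 4) (ha : Alt B) (hk : ∀ u v : V, u j = 0 → v j = 0 → B u v = 0)
    (u v : V) : B u v = u j * B (Pi.single j 1) v - v j * B (Pi.single j 1) u := by
  set e : V := Pi.single j 1 with he
  have hej : e j = 1 := by simp [he]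
  have hee : B e e = 0 := by
    have := ha e e
    linarith
  have hu : (u - u j • e) j = 0 := by simp [hej]
  have hv : (v - v j • e) j = 0 := by simp [hej]
  have h := hk _ _ hu hv
  have hue : B u e = -(B e u) := ha u e
  simp only [map_sub, map_smul, sub_apply, smul_apply,
    smul_eq_mul, hee, hue] at h
  linarith

/-- An alternating form that vanishes on the hyperplane `u j = 0` is divisible by the `j`-th coordinate
covector. -/
theorem cyc_of_kill {B : Form} (j : Fin 4) (ha : Alt B) (hk : ∀ u v : V, u j = 0 → v j = 0 → B u v = 0)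
    (u v w : V) : u j * B v w + v j * B w u + w j * B u v = 0 := by
  rw [jfm_div j ha hk v w, jfm_div j ha hk w u, jfm_div j ha hk u v]
  ring

/-- Such forms with coefficients depending on the `j`-th coordinate only are closed. -/
theorem clo_coord (j : Fin 4) {g : ℝ → Form} (hg : ContDiff ℝ (⊤ : ℕ∞) g)
    (hp : ∀ (y : ℝ) (n : ℤ), g (y + n) = g y) (ha : ∀ y, Alt (g y))
    (hk : ∀ (y : ℝ) (u v : V), u j = 0 → v j = 0 → g y u v = 0) :
    Clo (fun x => g (x j)) := by
  have hgd : Differentiable ℝ g := hg.differentiable (by simp)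
  refine ⟨hg.comp (contDiff_apply ℝ ℝ j), fun x n => ?_, fun x u v => ha (x j) u v, ?_⟩
  · simp only [Pi.add_apply]
    exact hp (x j) (n j)
  · intro x u v w
    have hG : HasFDerivAt g (fderiv ℝ g (x j)) (x j) := (hgd (x j)).hasFDerivAt
    set G : Form := fderiv ℝ g (x j) 1 with hGd
    have hd : ∀ a b : V, HasDerivAt (fun y => g y a b) (G a b) (x j) := by
      intro a b
      have h1 := (hG.clm_apply (hasFDerivAt_const a (x j))).clm_apply (hasFDerivAt_const b (x j))
      have h2 := h1.hasDerivAt
      simpa [hGd] using h2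
    have hB1 : Alt G := by
      intro a b
      have h1 := hd a b
      have h2 := (hd b a).neg
      have h3 : (fun y => g y a b) = (fun y => -(g y b a)) := by
        funext y; exact ha y a b
      rw [h3] at h1
      exact h1.unique h2
    have hB2 : ∀ a b : V, a j = 0 → b j = 0 → G a b = 0 := by
      intro a b h1 h2
      have h3 := hd a b
      have h4 : (fun y => g y a b) = (fun _ => (0 : ℝ)) := by
        funext y; exact hk y a b h1 h2
      rw [h4] at h3
      exact h3.unique (hasDerivAt_const _ _)
    have hf : ∀ a : V, fderiv ℝ (fun x : V => g (x j)) x a = a j • G := by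
      intro a
      have h1 : HasFDerivAt (fun x : V => x j) (ep j) x := (ep j).hasFDerivAt
      have h2 : HasFDerivAt (fun x : V => g (x j)) ((fderiv ℝ g (x j)).comp (ep j)) x :=
        HasFDerivAt.comp (𝕜 := ℝ) (E := V) (F := ℝ) (G := Form) (g := g) (f := fun x : V => x j) x hG h1
      rw [h2.fderiv]
      have h3 : a j = a j • (1 : ℝ) := by simp
      rw [ContinuousLinearMap.comp_apply, ep_apply, h3, map_smul]
      simp [hGd]
    have := cyc_of_kill j hB1 hB2 u v w
    rw [hf, hf, hf]
    simpa using this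

/-- The derivative of the one-form `x ↦ L (τ (x j), x)`. -/
theorem dd_wall (j : Fin 4) {L : ℝ × V → Cov} (hL : ContDiff ℝ (⊤ : ℕ∞) L) {τ : ℝ → ℝ}
    (hτ : ContDiff ℝ (⊤ : ℕ∞) τ) (x : V) :
    dd (fun y => L (τ (y j), y)) x
      = dd (fun y => L (τ (x j), y)) x + deriv τ (x j) • wed (ep j) (fderiv ℝ L (τ (x j), x) (1, 0)) := by
  have hLd : Differentiable ℝ L := hL.differentiable (by simp)
  have hτd : Differentiable ℝ τ := hτ.differentiable (by simp)
  have hf1 : ∀ a : V, fderiv ℝ (fun y : V => L (τ (y j), y)) x a =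
      fderiv ℝ L (τ (x j), x) (a j * deriv τ (x j), a) := by
    intro a
    have h1 : HasFDerivAt (fun x : V => x j) (ep j) x := (ep j).hasFDerivAt
    have h2 := (hτd (x j)).hasDerivAt.comp_hasFDerivAt x h1
    have h3 := h2.prodMk (hasFDerivAt_id x)
    have h4 : HasFDerivAt L (fderiv ℝ L (τ (x j), x)) (τ (x j), x) := (hLd _).hasFDerivAt
    have h5 : HasFDerivAt (fun y : V => L (τ (y j), y)) _ x :=
      HasFDerivAt.comp (f := fun y : V => (τ (y j), y)) x h4 h3
    rw [h5.fderiv]
    simp [mul_comm]
  have hf2 : ∀ a : V, fderiv ℝ (fun y : V => L (τ (x j), y)) x a =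
      fderiv ℝ L (τ (x j), x) (0, a) := by
    intro a
    have h3 : HasFDerivAt (fun y : V => (τ (x j), y))
        ((0 : V →L[ℝ] ℝ).prod (ContinuousLinearMap.id ℝ V)) x :=
      (hasFDerivAt_const (τ (x j)) x).prodMk (hasFDerivAt_id x)
    have h4 : HasFDerivAt L (fderiv ℝ L (τ (x j), x)) (τ (x j), x) := (hLd _).hasFDerivAt
    have h5 : HasFDerivAt (fun y : V => L (τ (x j), y)) _ x :=
      HasFDerivAt.comp (f := fun y : V => (τ (x j), y)) x h4 h3
    rw [h5.fderiv]
    simp
  have hsplit : ∀ a : V, ((a j * deriv τ (x j), a) : ℝ × V) =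
      (a j * deriv τ (x j)) • ((1, 0) : ℝ × V) + (0, a) := by
    intro a
    ext <;> simp
  ext u v
  simp only [dd_apply, add_apply, smul_apply, wed_apply,
    hf1, hf2, hsplit, map_add, map_smul, ep_apply, smul_eq_mul]
  ring

end VSI
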