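import Mathlib
import Pool.Agent.VSI.Defs

/-!
# VSI / TAU: the moving wall
-/

open Set MeasureTheory

namespace VSI

theorem tau_two_mul_le_sin {t : ℝ} (h0 : 0 ≤ t) (h1 : t ≤ 1 / 2) :
    2 * t ≤ Real.sin (Real.pi * t) := by
  have hpi := Real.pi_pos
  have h := Real.mul_le_sin (x := Real.pi * t) (by positivity) (by nlinarith)
  have h2 : 2 / Real.pi * (Real.pi * t) = 2 * t := by field_simp
  linarith

theorem tau_sin_sq_sub {a b : ℝ} (ha : 0 ≤ a) (hab : a ≤ b) (hb : b ≤ 1 / 2) :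
    4 * (b - a) ^ 2 ≤ Real.sin (Real.pi * b) ^ 2 - Real.sin (Real.pi * a) ^ 2 := by
  have e : Real.sin (Real.pi * b) ^ 2 - Real.sin (Real.pi * a) ^ 2
      = Real.sin (Real.pi * (b - a)) * Real.sin (Real.pi * (a + b)) := by
    rw [mul_sub, mul_add, Real.sin_sub, Real.sin_add]
    have h1 := Real.sin_sq_add_cos_sq (Real.pi * a)
    have h2 := Real.sin_sq_add_cos_sq (Real.pi * b)
    have h1' : Real.cos (Real.pi * a) ^ 2 = 1 - Real.sin (Real.pi * a) ^ 2 := by linarith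
    have h2' : Real.cos (Real.pi * b) ^ 2 = 1 - Real.sin (Real.pi * b) ^ 2 := by linarith
    have : (Real.sin (Real.pi * b) * Real.cos (Real.pi * a)
        - Real.cos (Real.pi * b) * Real.sin (Real.pi * a))
        * (Real.sin (Real.pi * a) * Real.cos (Real.pi * b)
          + Real.cos (Real.pi * a) * Real.sin (Real.pi * b))
        = Real.sin (Real.pi * b) ^ 2 * Real.cos (Real.pi * a) ^ 2
          - Real.cos (Real.pi * b) ^ 2 * Real.sin (Real.pi * a) ^ 2 := by ring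
    rw [this, h1', h2']; ring
  rw [e]
  have hs1 : 2 * (b - a) ≤ Real.sin (Real.pi * (b - a)) :=
    tau_two_mul_le_sin (by linarith) (by linarith)
  have hs2 : 2 * (b - a) ≤ Real.sin (Real.pi * (a + b)) := by
    rcases le_total (a + b) (1 / 2) with h | h
    · have := tau_two_mul_le_sin (t := a + b) (by linarith) h
      linarith
    · have := tau_two_mul_le_sin (t := 1 - (a + b)) (by linarith) (by linarith)
      have h3 : Real.sin (Real.pi * (1 - (a + b))) = Real.sin (Real.pi * (a + b)) := by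
        rw [mul_sub, mul_one, Real.sin_pi_sub]
      linarith
  have h0 : 0 ≤ 2 * (b - a) := by linarith
  calc 4 * (b - a) ^ 2 = (2 * (b - a)) * (2 * (b - a)) := by ring
    _ ≤ _ := mul_le_mul hs1 hs2 h0 (h0.trans hs1)

theorem tau_dist_le {w σ a b : ℝ} (ha : 0 ≤ a) (hab : a ≤ b) (hb : b ≤ 1 / 2)
    (h1 : σ - w < Real.sin (Real.pi * a) ^ 2) (h2 : Real.sin (Real.pi * b) ^ 2 < σ) :
    b - a ≤ Real.sqrt w / 2 := by
  have h := tau_sin_sq_sub ha hab hb
  have h3 : (2 * (b - a)) ^ 2 ≤ w := by nlinarith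
  have h4 : 2 * (b - a) ≤ Real.sqrt w := Real.le_sqrt_of_sq_le h3
  linarith

theorem tau_vol_half {w σ : ℝ} :
    volume {y : ℝ | y ∈ Icc (0 : ℝ) (1 / 2) ∧ σ - w < Real.sin (Real.pi * y) ^ 2 ∧
      Real.sin (Real.pi * y) ^ 2 < σ} ≤ ENNReal.ofReal (Real.sqrt w / 2) := by
  refine (Real.volume_le_diam _).trans ?_
  refine Metric.ediam_le ?_
  intro x hx y hy
  rw [edist_dist]
  apply ENNReal.ofReal_le_ofReal
  rcases le_total x y with h | h
  · rw [Real.dist_eq, abs_sub_comm, abs_of_nonneg (sub_nonneg.2 h)]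
    exact tau_dist_le hx.1.1 h hy.1.2 hx.2.1 hy.2.2
  · rw [Real.dist_eq, abs_of_nonneg (sub_nonneg.2 h)]
    exact tau_dist_le hy.1.1 h hx.1.2 hy.2.1 hx.2.2

theorem tau_vol_half' {w σ : ℝ} :
    volume {y : ℝ | y ∈ Icc (1 / 2 : ℝ) 1 ∧ σ - w < Real.sin (Real.pi * y) ^ 2 ∧
      Real.sin (Real.pi * y) ^ 2 < σ} ≤ ENNReal.ofReal (Real.sqrt w / 2) := by
  have hs : ∀ t : ℝ, Real.sin (Real.pi * (1 - t)) = Real.sin (Real.pi * t) := by
    intro t; rw [mul_sub, mul_one, Real.sin_pi_sub]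
  refine (Real.volume_le_diam _).trans ?_
  refine Metric.ediam_le ?_
  intro x hx y hy
  rw [edist_dist]
  apply ENNReal.ofReal_le_ofReal
  obtain ⟨⟨hx1, hx2⟩, hx3, hx4⟩ := hx
  obtain ⟨⟨hy1, hy2⟩, hy3, hy4⟩ := hy
  rcases le_total x y with h | h
  · rw [Real.dist_eq, abs_sub_comm, abs_of_nonneg (sub_nonneg.2 h)]
    have := tau_dist_le (σ := σ) (a := 1 - y) (b := 1 - x) (by linarith) (by linarith)
      (by linarith) (by rw [hs]; exact hy3) (by rw [hs]; exact hx4)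
    linarith
  · rw [Real.dist_eq, abs_of_nonneg (sub_nonneg.2 h)]
    have := tau_dist_le (σ := σ) (a := 1 - x) (b := 1 - y) (by linarith) (by linarith)
      (by linarith) (by rw [hs]; exact hx3) (by rw [hs]; exact hy4)
    linarith

theorem tau_vol {w σ : ℝ} :
    volume {y : ℝ | y ∈ Icc (0 : ℝ) 1 ∧ σ - w < Real.sin (Real.pi * y) ^ 2 ∧
      Real.sin (Real.pi * y) ^ 2 < σ} ≤ ENNReal.ofReal (Real.sqrt w) := by
  have hsub : {y : ℝ | y ∈ Icc (0 : ℝ) 1 ∧ σ - w < Real.sin (Real.pi * y) ^ 2 ∧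
      Real.sin (Real.pi * y) ^ 2 < σ}
      ⊆ {y : ℝ | y ∈ Icc (0 : ℝ) (1 / 2) ∧ σ - w < Real.sin (Real.pi * y) ^ 2 ∧
        Real.sin (Real.pi * y) ^ 2 < σ} ∪
        {y : ℝ | y ∈ Icc (1 / 2 : ℝ) 1 ∧ σ - w < Real.sin (Real.pi * y) ^ 2 ∧
        Real.sin (Real.pi * y) ^ 2 < σ} := by
    rintro y ⟨⟨h0, h1⟩, h2⟩
    rcases le_total y (1 / 2) with h | h
    · exact Or.inl ⟨⟨h0, h⟩, h2⟩
    · exact Or.inr ⟨⟨h, h1⟩, h2⟩
  refine (measure_mono hsub).trans ((measure_union_le _ _).trans ?_)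
  refine (add_le_add tau_vol_half tau_vol_half').trans ?_
  rw [← ENNReal.ofReal_add (by positivity) (by positivity)]
  apply ENNReal.ofReal_le_ofReal
  linarith

/-- `τ (s, y) = Real.smoothTransition ((s * (1 + w) - sin (π y) ^ 2) / w)`.
If `τ (s, y)` is neither zero nor one then `σ - w < sin (π y) ^ 2 < σ` with `σ = s (1 + w)`; on each of the
intervals `[0, 1/2]`, `[1/2, 1]` two such points have distance at most `√w / 2` because
`|sin (π b)^2 - sin (π a)^2| = |sin (π (b - a)) sin (π (a + b))| ≥ 4 (b - a)^2`.  So the set has measure at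
most `√w`. -/
theorem exists_tau {w : ℝ} (hw : 0 < w) :
    ∃ τ : ℝ × ℝ → ℝ, ContDiff ℝ (⊤ : ℕ∞) τ ∧ (∀ (s y : ℝ) (n : ℤ), τ (s, y + n) = τ (s, y)) ∧
      (∀ p, τ p ∈ Icc (0 : ℝ) 1) ∧ (∀ y, τ (0, y) = 0) ∧ (∀ y, τ (1, y) = 1) ∧
      (∃ T : ℝ, 0 < T ∧ ∀ s ∈ Icc (0 : ℝ) 1, ∀ y, |fderiv ℝ τ (s, y) (0, 1)| ≤ T) ∧
      (∀ s, volume {y : ℝ | y ∈ Icc (0 : ℝ) 1 ∧ τ (s, y) ≠ 0 ∧ τ (s, y) ≠ 1}
        ≤ ENNReal.ofReal (Real.sqrt w)) := by
  set τ : ℝ × ℝ → ℝ := fun p =>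
    Real.smoothTransition ((p.1 * (1 + w) - Real.sin (Real.pi * p.2) ^ 2) / w) with hτ
  have hsm : ContDiff ℝ (⊤ : ℕ∞) τ := by
    refine Real.smoothTransition.contDiff.comp ?_
    refine ContDiff.div_const ?_ w
    refine (contDiff_fst.mul contDiff_const).sub ?_
    exact (Real.contDiff_sin.comp (contDiff_const.mul contDiff_snd)).pow 2
  have hper : ∀ (s y : ℝ) (n : ℤ), τ (s, y + n) = τ (s, y) := by
    intro s y n
    simp only [hτ]
    have : Real.sin (Real.pi * (y + n)) ^ 2 = Real.sin (Real.pi * y) ^ 2 := by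
      rw [mul_add, mul_comm Real.pi (n : ℝ), Real.sin_add_int_mul_pi, mul_pow]
      have h1 : ((-1 : ℝ) ^ n) ^ 2 = 1 := by
        rw [← zpow_natCast, ← zpow_mul, mul_comm, zpow_mul]; norm_num
      rw [h1, one_mul]
    rw [this]
  refine ⟨τ, hsm, hper, ?_, ?_, ?_, ?_, ?_⟩
  · intro p
    exact ⟨Real.smoothTransition.nonneg _, Real.smoothTransition.le_one _⟩
  · intro y
    apply Real.smoothTransition.zero_of_nonpos
    have : 0 ≤ Real.sin (Real.pi * y) ^ 2 := sq_nonneg _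
    apply div_nonpos_of_nonpos_of_nonneg _ hw.le
    simp only [zero_mul]; linarith
  · intro y
    apply Real.smoothTransition.one_of_one_le
    rw [le_div_iff₀ hw]
    have : Real.sin (Real.pi * y) ^ 2 ≤ 1 := Real.sin_sq_le_one _
    simp only [one_mul]; linarith
  · have hcont : Continuous (fun p : ℝ × ℝ => |fderiv ℝ τ p (0, 1)|) := by
      have h1 : Continuous (fderiv ℝ τ) := hsm.continuous_fderiv (by simp)
      exact (h1.clm_apply continuous_const).abs
    obtain ⟨C, hC⟩ := (isCompact_Icc (a := (0 : ℝ)) (b := 1)).prod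
      (isCompact_Icc (a := (0 : ℝ)) (b := 1)) |>.exists_bound_of_continuousOn
        (f := fun p : ℝ × ℝ => |fderiv ℝ τ p (0, 1)|) hcont.continuousOn
    have hperf : ∀ (s y : ℝ) (n : ℤ), fderiv ℝ τ (s, y + n) = fderiv ℝ τ (s, y) := by
      intro s y n
      have h1 : (fun p : ℝ × ℝ => τ (p + (0, (n : ℝ)))) = τ := by
        funext p
        obtain ⟨p1, p2⟩ := p
        have := hper p1 p2 n
        rwa [Prod.mk_add_mk, add_zero]
      have h2 := fderiv_comp_add_right (𝕜 := ℝ) (f := τ) (x := (s, y)) ((0 : ℝ), (n : ℝ))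
      rw [h1] at h2
      rw [h2]
      simp
    refine ⟨max C 1, by positivity, ?_⟩
    intro s hs y
    have h1 := hperf s (Int.fract y) ⌊y⌋
    rw [Int.fract_add_floor] at h1
    rw [h1]
    have h2 := hC (s, Int.fract y) ⟨hs, Int.fract_nonneg y, (Int.fract_lt_one y).le⟩
    rw [Real.norm_eq_abs, abs_abs] at h2
    exact h2.trans (le_max_left _ _)
  · intro s
    refine (measure_mono ?_).trans (tau_vol (σ := s * (1 + w)))
    rintro y ⟨hy, h0, h1⟩
    refine ⟨hy, ?_, ?_⟩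
    · by_contra h
      apply h1
      apply Real.smoothTransition.one_of_one_le
      rw [le_div_iff₀ hw]
      push Not at h
      simp only; linarith
    · by_contra h
      apply h0
      apply Real.smoothTransition.zero_of_nonpos
      apply div_nonpos_of_nonpos_of_nonneg _ hw.le
      push Not at h
      simp only; linarith

end VSI
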