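import Mathlib
import Pool.Agent.VSI.PRM
import Pool.Agent.VSI.MRG
import Pool.Agent.VSI.TAU
import Pool.Agent.VSI.CYL
import Pool.Agent.VSI.JFM
import Pool.Agent.VSI.PFL

/-!
# VSI / WAL: the moving wall
-/

set_option maxSynthPendingDepth 3

open Set MeasureTheory

namespace VSI

theorem WAL_deriv {τ : ℝ × ℝ → ℝ} (hτ : ContDiff ℝ (⊤ : ℕ∞) τ) (s y : ℝ) :
    deriv (fun y => τ (s, y)) y = fderiv ℝ τ (s, y) (0, 1) := by
  have h1 : HasFDerivAt τ (fderiv ℝ τ (s, y)) (s, y) :=
    (hτ.differentiable (by simp)).differentiableAt.hasFDerivAt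
  have h2 : HasDerivAt (fun y : ℝ => ((s, y) : ℝ × ℝ)) (0, 1) y :=
    (hasDerivAt_const y s).prodMk (hasDerivAt_id y)
  exact (h1.comp_hasDerivAt y h2).deriv

/-- The wall lemma.  Take `w` with `C √w ≤ c / 4`, `τ` and `T` from `exists_tau`, and `ε = c / (8 T)`.  The path is
`Ω s x = Φ (τ, x) - M s + (∂_y τ) (s, x j) • wed (ep j) (fderiv L (τ, x) (1, 0))` with `τ = τ (s, x j)`,
`M s = ∫ x in cube, (a (τ (s, x j)) - A)`.
It is `A + (a (τ (s, x j)) - A - M s) + dd (fun y => L (τ (s, y j), y)) x`, hence closed (`clo_coord`,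
`clo_dd`) with average `A`.  Margin: `c - C √w - 2 T ε > 0`. -/
theorem wall (j : Fin 4) {c C : ℝ} (hc : 0 < c) (hC : 0 < C) :
    ∃ ε > 0, ∀ (A : Form) (Φ : ℝ × V → Form) (L : ℝ × V → Cov) (a : ℝ → Form),
      ContDiff ℝ (⊤ : ℕ∞) Φ → ContDiff ℝ (⊤ : ℕ∞) L → ContDiff ℝ (⊤ : ℕ∞) a →
      (∀ t, Per (fun x => L (t, x))) → (∀ t, Alt (a t)) →
      (∀ t x, Φ (t, x) = a t + dd (fun y => L (t, y)) x) →
      a 0 = A → a 1 = A →
      (∀ t ∈ Icc (0 : ℝ) 1, ∀ u v : V, u j = 0 → v j = 0 → a t u v = A u v) →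
      (∀ t ∈ Icc (0 : ℝ) 1, ‖a t - A‖ ≤ C) →
      (∀ t ∈ Icc (0 : ℝ) 1, ∀ x, Margin c (Φ (t, x))) →
      (∀ t ∈ Icc (0 : ℝ) 1, ∀ x, ‖fderiv ℝ L (t, x) (1, 0)‖ ≤ ε) →
      Joined A (fun x => Φ (0, x)) (fun x => Φ (1, x)) := by
  have hq : 0 < c / (4 * C) := by positivity
  obtain ⟨τ, hτ, hτp, hτI, hτ0, hτ1, ⟨T, hT, hτT⟩, hτv⟩ := exists_tau (w := (c / (4 * C)) ^ 2)
    (by positivity)
  rw [Real.sqrt_sq hq.le] at hτv
  refine ⟨c / (8 * T), by positivity, ?_⟩
  intro A Φ L a hΦ hL ha hper halt hrep h0 h1 hk haC hm hε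
  have hAalt : Alt A := h0 ▸ halt 0
  -- auxiliary functions
  have htc : ContDiff ℝ (⊤ : ℕ∞) (fun p : ℝ × V => τ (p.1, p.2 j)) :=
    hτ.comp (contDiff_fst.prodMk ((contDiff_apply ℝ ℝ j).comp contDiff_snd))
  set g : ℝ → V → Form := fun s x => a (τ (s, x j)) - A with hg
  have hgs : ContDiff ℝ (⊤ : ℕ∞) (fun p : ℝ × V => g p.1 p.2) :=
    (ha.comp htc).sub contDiff_const
  have hgc : ∀ s, Continuous (g s) := fun s => hgs.continuous.comp (Continuous.prodMk_right s)
  set M : ℝ → Form := fun s => avg (g s) with hM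
  have hMs : ContDiff ℝ (⊤ : ℕ∞) M := smooth_avg (Φ := fun p : ℝ × V => g p.1 p.2) hgs
  have hgalt : ∀ s x, Alt (g s x) := fun s x => alt_sub (halt _) hAalt
  have hMalt : ∀ s, Alt (M s) := fun s => avg_alt (hgc s) (hgalt s)
  have hgk : ∀ s x (u v : V), u j = 0 → v j = 0 → g s x u v = 0 := by
    intro s x u v hu hv
    simp only [hg, sub_apply]
    rw [hk _ (hτI _) u v hu hv, sub_self]
  have hMk : ∀ s (u v : V), u j = 0 → v j = 0 → M s u v = 0 := by
    intro s u v hu hv
    rw [hM]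
    simp only
    rw [avg_apply (hgc s)]
    simp only [hgk s _ u v hu hv]
    simp
  set W : ℝ × V → Form := fun p =>
    fderiv ℝ τ (p.1, p.2 j) (0, 1) • wed (ep j) (fderiv ℝ L (τ (p.1, p.2 j), p.2) (1, 0)) with hW
  have hWs : ContDiff ℝ (⊤ : ℕ∞) W := by
    have e1 : ContDiff ℝ (⊤ : ℕ∞) (fun p : ℝ × V => fderiv ℝ τ (p.1, p.2 j) ((0, 1) : ℝ × ℝ)) := by
      have := (hτ.fderiv_right (m := (⊤ : ℕ∞)) (by simp)).comp
        (contDiff_fst.prodMk ((contDiff_apply ℝ ℝ j).comp contDiff_snd) :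
          ContDiff ℝ (⊤ : ℕ∞) (fun p : ℝ × V => ((p.1, p.2 j) : ℝ × ℝ)))
      exact this.clm_apply contDiff_const
    have e2 : ContDiff ℝ (⊤ : ℕ∞)
        (fun p : ℝ × V => fderiv ℝ L (τ (p.1, p.2 j), p.2) ((1, 0) : ℝ × V)) := by
      have := (hL.fderiv_right (m := (⊤ : ℕ∞)) (by simp)).comp (htc.prodMk contDiff_snd)
      exact this.clm_apply contDiff_const
    apply e1.smul
    unfold wed
    exact (contDiff_const.smulRight e2).sub (e2.smulRight contDiff_const)
  set Ω : ℝ → V → Form := fun s x => Φ (τ (s, x j), x) - M s + W (s, x) with hΩ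
  -- the primitive along the wall
  have hτs : ∀ s, ContDiff ℝ (⊤ : ℕ∞) (fun y => τ (s, y)) := fun s =>
    hτ.comp (contDiff_const.prodMk contDiff_id)
  have hμs : ∀ s, ContDiff ℝ (⊤ : ℕ∞) (fun y : V => L (τ (s, y j), y)) := fun s =>
    hL.comp (((hτs s).comp (contDiff_apply ℝ ℝ j)).prodMk contDiff_id)
  have hμp : ∀ s, Per (fun y : V => L (τ (s, y j), y)) := by
    intro s x n
    have e1 : τ (s, (x + fun i => (n i : ℝ)) j) = τ (s, x j) := by
      have := hτp s (x j) (n j)
      simpa using this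
    show L (τ (s, (x + fun i => (n i : ℝ)) j), x + fun i => (n i : ℝ)) = L (τ (s, x j), x)
    rw [e1]
    exact hper (τ (s, x j)) x n
  have hΩr : ∀ s, Ω s = fun x => (A + (g s x - M s)) + dd (fun y : V => L (τ (s, y j), y)) x := by
    intro s
    funext x
    simp only [hΩ, hg, hW]
    rw [dd_wall j hL (hτs s) x, hrep, WAL_deriv hτ]
    abel
  have hcoord : ∀ s, Clo (fun x : V => g s x - M s) := by
    intro s
    refine clo_coord j (g := fun y => a (τ (s, y)) - A - M s) ?_ ?_ ?_ ?_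
    · exact ((ha.comp (hτs s)).sub contDiff_const).sub contDiff_const
    · intro y n
      rw [hτp s y n]
    · intro y
      exact alt_sub (alt_sub (halt _) hAalt) (hMalt s)
    · intro y u v hu hv
      have e1 := hk _ (hτI (s, y)) u v hu hv
      have e2 := hMk s u v hu hv
      simp only [sub_apply]
      rw [e1, e2]; ring
  have hclo : ∀ s, Clo (Ω s) := by
    intro s
    rw [hΩr s]
    exact ((clo_const hAalt).add (hcoord s)).add (clo_dd (hμs s) (hμp s))
  have havg : ∀ s, avg (Ω s) = A := by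
    intro s
    have e1 : Continuous (fun x => g s x - M s) := (hgc s).sub continuous_const
    rw [hΩr s]
    rw [avg_add (ω := fun x => A + (g s x - M s)) (continuous_const.add e1)
      (clo_dd (hμs s) (hμp s)).smooth.continuous,
      avg_add (ω := fun _ => A) continuous_const e1, avg_const, avg_dd (hμs s) (hμp s)]
    have e2 : avg (fun x => g s x - M s) = 0 := by
      have := avg_add (ω := g s) (η := fun _ => - M s) (hgc s) continuous_const
      rw [avg_const] at this
      simp only [← sub_eq_add_neg] at this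
      rw [this]
      simp [hM]
    rw [e2]; simp
  have hMn : ∀ s, ‖M s‖ ≤ c / 4 := by
    intro s
    have hmeas : MeasurableSet {y : ℝ | τ (s, y) ≠ 0 ∧ τ (s, y) ≠ 1} := by
      have hcont := (hτs s).continuous
      exact ((isOpen_ne_fun hcont continuous_const).inter
        (isOpen_ne_fun hcont continuous_const)).measurableSet
    have := norm_integral_le_cyl j (g := fun y => a (τ (s, y)) - A)
      ((ha.continuous.comp (hτs s).continuous).sub continuous_const) hmeas (C := C)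
      (m := c / (4 * C)) (fun y _ => haC _ (hτI _)) ?_ hq.le ?_
    · have e : C * (c / (4 * C)) = c / 4 := by field_simp
      rw [e] at this
      exact this
    · intro y _ hy
      simp only [mem_ofPred_eq, not_and_or, not_not] at hy
      rcases hy with hy | hy
      · simp only [hy, h0, sub_self]
      · simp only [hy, h1, sub_self]
    · refine le_trans (le_of_eq ?_) (hτv s)
      congr 1
      ext y
      simp only [mem_inter_iff, mem_ofPred_eq]
      tauto
  have hmar : ∀ s ∈ Icc (0 : ℝ) 1, ∀ x, Margin (c - c / 4 - c / 4) (Ω s x) := by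
    intro s hs x
    have e1 : Margin (c - c / 4) (Φ (τ (s, x j), x) + (- M s)) :=
      (hm _ (hτI _) x).add (by rw [norm_neg]; exact hMn s)
    have e2 : ‖W (s, x)‖ ≤ c / 4 := by
      simp only [hW]
      rw [norm_smul, Real.norm_eq_abs]
      have f1 := hτT s hs (x j)
      have f2 := norm_wed_le (ep j) (fderiv ℝ L (τ (s, x j), x) (1, 0))
      have f3 := norm_ep_le j
      have f4 := hε _ (hτI (s, x j)) x
      have f5 : ‖wed (ep j) (fderiv ℝ L (τ (s, x j), x) (1, 0))‖ ≤ 2 * (c / (8 * T)) := by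
        refine f2.trans ?_
        have := mul_le_mul f3 f4 (norm_nonneg _) (by norm_num : (0:ℝ) ≤ 1)
        linarith
      have f6 := mul_le_mul f1 f5 (norm_nonneg _) hT.le
      refine f6.trans (le_of_eq ?_)
      field_simp
      norm_num
    have e3 := e1.add e2
    rw [← sub_eq_add_neg] at e3
    exact e3
  refine ⟨Ω, ?_, ?_, ?_, ?_⟩
  · simp only [hΩ]
    exact ((hΦ.comp (htc.prodMk contDiff_snd)).sub (hMs.comp contDiff_fst)).add hWs
  · funext x
    have e1 : M 0 = 0 := by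
      have : g 0 = fun _ => 0 := by
        funext x
        simp only [hg, hτ0, h0, sub_self]
      simp only [hM, this]
      exact avg_const 0
    have e2 : fderiv ℝ τ (0, x j) (0, 1) = 0 := by
      rw [← WAL_deriv hτ]
      simp [hτ0]
    simp only [hΩ, hW, hτ0, e1, e2, zero_smul, sub_zero, add_zero]
  · funext x
    have e1 : M 1 = 0 := by
      have : g 1 = fun _ => 0 := by
        funext x
        simp only [hg, hτ1, h1, sub_self]
      simp only [hM, this]
      exact avg_const 0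
    have e2 : fderiv ℝ τ (1, x j) (0, 1) = 0 := by
      rw [← WAL_deriv hτ]
      simp [hτ1]
    simp only [hΩ, hW, hτ1, e1, e2, zero_smul, sub_zero, add_zero]
  · intro s hs
    refine ⟨⟨hclo s, ?_⟩, (cls_iff (hclo s).smooth.continuous A).2 (havg s)⟩
    intro x
    exact (hmar s hs x).nondeg (by linarith)

end VSI
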