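import Mathlib
import Pool.Agent.VSI.QG
import Pool.Agent.VSI.WAL

/-!
# VSI / QW: the wall lemma on large tori
-/

set_option maxSynthPendingDepth 3

open Set MeasureTheory

namespace VSI

theorem hasDerivAt_fst {X F : Type} [NormedAddCommGroup X] [NormedSpace ℝ X] [NormedAddCommGroup F]
    [NormedSpace ℝ F] {g : ℝ × X → F} (hg : ContDiff ℝ (⊤ : ℕ∞) g) (s : ℝ) (x : X) :
    HasDerivAt (fun s => g (s, x)) (fderiv ℝ g (s, x) (1, 0)) s := by
  have h1 : HasFDerivAt g (fderiv ℝ g (s, x)) (s, x) :=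
    (hg.differentiable (by simp)).differentiableAt.hasFDerivAt
  have h2 : HasDerivAt (fun s : ℝ => ((s, x) : ℝ × X)) (1, 0) s :=
    (hasDerivAt_id s).prodMk (hasDerivAt_const s x)
  exact h1.comp_hasDerivAt s h2

theorem hasDerivAt_snd {F : Type} [NormedAddCommGroup F]
    [NormedSpace ℝ F] {g : ℝ × ℝ → F} (hg : ContDiff ℝ (⊤ : ℕ∞) g) (s x : ℝ) :
    HasDerivAt (fun x => g (s, x)) (fderiv ℝ g (s, x) (0, 1)) x := by
  have h1 : HasFDerivAt g (fderiv ℝ g (s, x)) (s, x) :=
    (hg.differentiable (by simp)).differentiableAt.hasFDerivAt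
  have h2 : HasDerivAt (fun x : ℝ => ((s, x) : ℝ × ℝ)) (0, 1) x :=
    (hasDerivAt_const x s).prodMk (hasDerivAt_id x)
  exact h1.comp_hasDerivAt x h2

/-- Functions periodic in the second variable are bounded on strips. -/
theorem exists_bound_strip {F : Type} [NormedAddCommGroup F] {g : ℝ × ℝ → F} (hg : Continuous g)
    (hp : ∀ (s y : ℝ) (m : ℤ), g (s, y + m) = g (s, y)) :
    ∃ C : ℝ, 0 < C ∧ ∀ s ∈ Icc (0 : ℝ) 1, ∀ y, ‖g (s, y)‖ ≤ C := by
  obtain ⟨C, hC⟩ := (isCompact_Icc.prod isCompact_Icc :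
    IsCompact (Icc (0 : ℝ) 1 ×ˢ Icc (0 : ℝ) 1)).exists_bound_of_continuousOn hg.continuousOn
  refine ⟨max C 1, by positivity, fun s hs y => ?_⟩
  have h1 : g (s, y) = g (s, Int.fract y) := by
    have := hp s (Int.fract y) ⌊y⌋
    rw [Int.fract_add_floor] at this
    exact this
  rw [h1]
  exact (hC (s, Int.fract y) ⟨hs, (Int.fract_nonneg y), (Int.fract_lt_one y).le⟩).trans
    (le_max_left _ _)

theorem fderiv_strip_per {F : Type} [NormedAddCommGroup F] [NormedSpace ℝ F] {g : ℝ × ℝ → F}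
    (hp : ∀ (s y : ℝ) (m : ℤ), g (s, y + m) = g (s, y)) (s y : ℝ) (m : ℤ) :
    fderiv ℝ g (s, y + m) = fderiv ℝ g (s, y) := by
  have h1 : g = fun p => g (p + ((0, (m : ℝ)) : ℝ × ℝ)) := by
    funext p
    have := hp p.1 p.2 m
    simp only [Prod.add_def, add_zero]
    exact this.symm
  have h2 : fderiv ℝ (fun p => g (p + ((0, (m : ℝ)) : ℝ × ℝ))) (s, y)
      = fderiv ℝ g ((s, y) + ((0, (m : ℝ)) : ℝ × ℝ)) := fderiv_comp_add_right _
  rw [← h1] at h2
  rw [h2]
  simp [Prod.add_def]

theorem dd_add {μ ν : V → Cov} {x : V} (hμ : DifferentiableAt ℝ μ x) (hν : DifferentiableAt ℝ ν x) :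
    dd (fun y => μ y + ν y) x = dd μ x + dd ν x := by
  ext u v
  have : fderiv ℝ (fun y => μ y + ν y) x = fderiv ℝ μ x + fderiv ℝ ν x := fderiv_fun_add hμ hν
  simp only [dd_apply, this, add_apply]
  ring

/-- A form divisible by a coordinate covector. -/
theorem eq_wed_of_kill {B : Form} (j : Fin 4) (ha : Alt B)
    (hk : ∀ u v : V, u j = 0 → v j = 0 → B u v = 0) : B = wed (ep j) (B (Pi.single j 1)) := by
  ext u v
  have h := cyc_of_kill j ha hk u v (Pi.single j 1)
  have h1 := ha v (Pi.single j 1)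
  simp only [wed_apply, ep_apply, Pi.single_eq_same] at *
  rw [h1] at h
  linarith

/-- The wall lemma on the torus with the periods `n i`, only `n j` has to be large.  Walls of width
`W = n j / m`, `m = ⌊n j / W₀⌋`.  The path of primitives is
`L' (s, x) = W • G (s, x j / W) + L (τ (s, x j / W), x)`, `G` the profile (`exists_profile`) of
`β (s, y) = (a (τ (s, y)) - A - M s) (Pi.single j 1)`, `M s = ∫ y in 0..1, (a (τ (s, y)) - A)`.  Then
`A + dd L' = a (τ) - M s + dd (L (τ, ·)) + W⁻¹ ∂_y τ • wed (ep j) (∂_t L)`, as in `wall`; margin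
`c - C √w - 2 T E / W`, and `∂_s L'` is bounded by `2 W₀ * sup ‖∂_s G‖ + E * sup |∂_s τ|`. -/
theorem wallN (j : Fin 4) {c E : ℝ} (hc : 0 < c) (hE : 0 < E) {A : Form} {a : ℝ → Form}
    (ha : ContDiff ℝ (⊤ : ℕ∞) a) (halt : ∀ t, Alt (a t)) (h0 : a 0 = A) (h1 : a 1 = A)
    (hk : ∀ t ∈ Icc (0 : ℝ) 1, ∀ u v : V, u j = 0 → v j = 0 → a t u v = A u v) :
    ∃ c' > 0, ∃ E' > 0, ∃ N : ℕ, ∀ n : Fin 4 → ℕ, (∀ i, 0 < n i) → N ≤ n j →
      ∀ L : ℝ × V → Cov, ContDiff ℝ (⊤ : ℕ∞) L → (∀ t, PerN n (fun x => L (t, x))) →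
      (∀ t ∈ Icc (0 : ℝ) 1, ∀ x, Margin c (a t + dd (fun y => L (t, y)) x)) →
      (∀ t ∈ Icc (0 : ℝ) 1, ∀ x, ‖fderiv ℝ L (t, x) (1, 0)‖ ≤ E) →
      JQ n A c' E' (fun x => A + dd (fun y => L (0, y)) x) (fun x => A + dd (fun y => L (1, y)) x) := by
  obtain ⟨C0, hC0⟩ := (isCompact_Icc (a := (0 : ℝ)) (b := 1)).exists_bound_of_continuousOn
    (f := fun t => a t - A) (ha.continuous.sub continuous_const).continuousOn
  set C : ℝ := max C0 1 with hCdef
  have hC : 0 < C := lt_of_lt_of_le one_pos (le_max_right _ _)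
  have haC : ∀ t ∈ Icc (0 : ℝ) 1, ‖a t - A‖ ≤ C := fun t ht => (hC0 t ht).trans (le_max_left _ _)
  have hq : 0 < c / (4 * C) := by positivity
  obtain ⟨τ, hτ, hτp, hτI, hτ0, hτ1, ⟨T, hT, hτT⟩, hτv⟩ := exists_tau (w := (c / (4 * C)) ^ 2)
    (by positivity)
  rw [Real.sqrt_sq hq.le] at hτv
  have hAalt : Alt A := h0 ▸ halt 0
  have hτs : ∀ s, ContDiff ℝ (⊤ : ℕ∞) (fun y => τ (s, y)) := fun s =>
    hτ.comp (contDiff_const.prodMk contDiff_id)
  -- the averages
  set g : ℝ × ℝ → Form := fun p => a (τ p) - A with hg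
  have hgs : ContDiff ℝ (⊤ : ℕ∞) g := (ha.comp hτ).sub contDiff_const
  have hgc : ∀ s, Continuous (fun y => g (s, y)) := fun s =>
    hgs.continuous.comp (Continuous.prodMk_right s)
  set M : ℝ → Form := fun s => ∫ y in (0 : ℝ)..1, g (s, y) with hM
  have hMs : ContDiff ℝ (⊤ : ℕ∞) M := smooth_interval hgs
  have hMap : ∀ s (u v : V), M s u v = ∫ y in (0 : ℝ)..1, g (s, y) u v := by
    intro s u v
    have hi : IntervalIntegrable (fun y => g (s, y)) volume 0 1 := (hgc s).intervalIntegrable _ _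
    have e1 : M s u = ∫ y in (0 : ℝ)..1, g (s, y) u :=
      ((ContinuousLinearMap.apply ℝ Cov u).intervalIntegral_comp_comm hi).symm
    have hi2 : IntervalIntegrable (fun y => g (s, y) u) volume 0 1 :=
      ((hgc s).clm_apply continuous_const).intervalIntegrable _ _
    rw [e1]
    exact ((ContinuousLinearMap.apply ℝ ℝ v).intervalIntegral_comp_comm hi2).symm
  have hgalt : ∀ p, Alt (g p) := fun p => alt_sub (halt _) hAalt
  have hMalt : ∀ s, Alt (M s) := by
    intro s u v
    rw [hMap, hMap, ← intervalIntegral.integral_neg]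
    congr 1
    funext y
    exact hgalt _ u v
  have hgk : ∀ p (u v : V), u j = 0 → v j = 0 → g p u v = 0 := by
    intro p u v hu hv
    simp only [hg, sub_apply]
    rw [hk _ (hτI _) u v hu hv, sub_self]
  have hMk : ∀ s (u v : V), u j = 0 → v j = 0 → M s u v = 0 := by
    intro s u v hu hv
    rw [hMap]
    simp only [hgk _ u v hu hv]
    simp
  have hMn : ∀ s, ‖M s‖ ≤ c / 4 := by
    intro s
    have hmeas : MeasurableSet {y : ℝ | τ (s, y) ≠ 0 ∧ τ (s, y) ≠ 1} := by
      have hcont := (hτs s).continuous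
      exact ((isOpen_ne_fun hcont continuous_const).inter
        (isOpen_ne_fun hcont continuous_const)).measurableSet
    have := norm_interval_le (g := fun y => g (s, y)) (hgc s) hmeas (C := C)
      (m := c / (4 * C)) (fun y _ => haC _ (hτI _)) ?_ hq.le ?_
    · have e : C * (c / (4 * C)) = c / 4 := by field_simp
      rw [e] at this
      exact this
    · intro y _ hy
      simp only [mem_ofPred_eq, not_and_or, not_not] at hy
      rcases hy with hy | hy
      · simp only [hg, hy, h0, sub_self]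
      · simp only [hg, hy, h1, sub_self]
    · refine le_trans (le_of_eq ?_) (hτv s)
      congr 1
      ext y
      simp only [mem_inter_iff, mem_ofPred_eq]
      tauto
  -- the profile
  set b : ℝ × ℝ → Form := fun p => g p - M p.1 with hb
  have hbs : ContDiff ℝ (⊤ : ℕ∞) b := hgs.sub (hMs.comp contDiff_fst)
  have hbk : ∀ p, b p = wed (ep j) (b p (Pi.single j 1)) := fun p =>
    eq_wed_of_kill j (alt_sub (hgalt p) (hMalt p.1)) (by
      intro u v hu hv
      simp only [hb, sub_apply]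
      rw [hgk p u v hu hv, hMk _ u v hu hv, sub_self])
  have hbp : ∀ (s y : ℝ) (m : ℤ), b (s, y + m) = b (s, y) := by
    intro s y m
    simp only [hb, hg]
    rw [hτp s y m]
  set β : ℝ × ℝ → Cov := fun p => b p (Pi.single j 1) with hβ
  have hβs : ContDiff ℝ (⊤ : ℕ∞) β := hbs.clm_apply contDiff_const
  have hβi : ∀ s, ∫ y in (0 : ℝ)..1, β (s, y) = 0 := by
    intro s
    have hi : IntervalIntegrable (fun y => b (s, y)) volume 0 1 :=
      (hbs.continuous.comp (Continuous.prodMk_right s)).intervalIntegrable _ _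
    have e1 : (∫ y in (0 : ℝ)..1, b (s, y)) (Pi.single j 1) = ∫ y in (0 : ℝ)..1, β (s, y) :=
      ((ContinuousLinearMap.apply ℝ Cov (Pi.single j 1 : V)).intervalIntegral_comp_comm hi).symm
    have e2 : ∫ y in (0 : ℝ)..1, b (s, y) = 0 := by
      simp only [hb]
      rw [intervalIntegral.integral_sub ((hgc s).intervalIntegrable _ _)
        (continuous_const.intervalIntegrable _ _)]
      simp [hM]
    rw [← e1, e2]; simp
  obtain ⟨G, hG, hGp, hGd, hG0⟩ := exists_profile hβs
    (fun s y m => by simp only [hβ]; rw [hbp s y m]) hβi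
  -- bounds
  obtain ⟨CG, hCG, hGb⟩ := exists_bound_strip (g := fun p => fderiv ℝ G p (1, 0))
    ((hG.continuous_fderiv (by simp)).clm_apply continuous_const)
    (fun s y m => by rw [fderiv_strip_per hGp])
  obtain ⟨T2, hT2, hτb⟩ := exists_bound_strip (g := fun p => fderiv ℝ τ p (1, 0))
    ((hτ.continuous_fderiv (by simp)).clm_apply continuous_const)
    (fun s y m => by rw [fderiv_strip_per hτp])
  set W0 : ℝ := 8 * T * E / c + 1 with hW0
  have hW0p : 1 ≤ W0 := by
    have : 0 < 8 * T * E / c := by positivity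
    linarith
  refine ⟨c / 2, by positivity, 2 * W0 * CG + T2 * E, by positivity, ⌈W0⌉₊, ?_⟩
  intro n hn hnj L hL hper hm hE'
  -- the width
  set m : ℕ := ⌊(n j : ℝ) / W0⌋₊ with hmdef
  have hx1 : 1 ≤ (n j : ℝ) / W0 := by
    rw [one_le_div (by linarith)]
    exact (Nat.le_ceil W0).trans (by exact_mod_cast hnj)
  have hm1 : 1 ≤ m := Nat.le_floor (by simpa using hx1)
  have hm1' : (1 : ℝ) ≤ m := by exact_mod_cast hm1
  have hmle : (m : ℝ) ≤ (n j : ℝ) / W0 := Nat.floor_le (by linarith)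
  have hmlt : (n j : ℝ) / W0 < m + 1 := Nat.lt_floor_add_one _
  set W : ℝ := (n j : ℝ) / m with hW
  have hWlo : W0 ≤ W := by
    rw [hW, le_div_iff₀ (by linarith)]
    rw [le_div_iff₀ (by linarith)] at hmle
    linarith
  have hWhi : W ≤ 2 * W0 := by
    rw [hW, div_le_iff₀ (by linarith)]
    rw [div_lt_iff₀ (by linarith)] at hmlt
    nlinarith
  have hWp : 0 < W := by linarith
  have hWm : (n j : ℝ) / W = m := by
    rw [hW]
    have : (n j : ℝ) ≠ 0 := by
      have := hn j
      positivity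
    field_simp
  set L' : ℝ × V → Cov := fun p => W • G (p.1, p.2 j / W) + L (τ (p.1, p.2 j / W), p.2) with hL'
  have hpj : ContDiff ℝ (⊤ : ℕ∞) (fun p : ℝ × V => ((p.1, p.2 j / W) : ℝ × ℝ)) :=
    contDiff_fst.prodMk (((contDiff_apply ℝ ℝ j).comp contDiff_snd).div_const W)
  have hL's : ContDiff ℝ (⊤ : ℕ∞) L' := by
    have e1 : ContDiff ℝ (⊤ : ℕ∞) (fun p : ℝ × V => W • G (p.1, p.2 j / W)) :=
      (hG.comp hpj).const_smul W
    have e2 : ContDiff ℝ (⊤ : ℕ∞) (fun p : ℝ × V => L (τ (p.1, p.2 j / W), p.2)) :=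
      hL.comp ((hτ.comp hpj).prodMk contDiff_snd)
    exact e1.add e2
  have hxj : ∀ (x : V) (k : Fin 4 → ℤ),
      (x + fun i => (n i : ℝ) * (k i : ℝ)) j / W = x j / W + ((m * k j : ℤ) : ℝ) := by
    intro x k
    have : ((m * k j : ℤ) : ℝ) = (m : ℝ) * (k j : ℝ) := by push_cast; ring
    rw [this, ← hWm]
    simp only [Pi.add_apply]
    field_simp
  have hL'p : ∀ t, PerN n (fun x => L' (t, x)) := by
    intro t x k
    simp only [hL']
    rw [hxj x k, hGp, hτp]
    congr 1
    exact hper (τ (t, x j / W)) x k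
  -- derivative of the first part
  have hf1 : ∀ s (x : V), HasFDerivAt (fun y : V => W • G (s, y j / W))
      ((ep j).smulRight (β (s, x j / W))) x := by
    intro s x
    have e1 : HasFDerivAt (fun y : V => y j / W) (W⁻¹ • ep j) x := by
      have := ((ep j).hasFDerivAt (x := x)).const_smul W⁻¹
      refine this.congr_of_eventuallyEq (Filter.Eventually.of_forall fun y => ?_)
      simp [div_eq_inv_mul]
    have e2 := (hGd s (x j / W)).hasFDerivAt.comp x e1
    have e3 := e2.const_smul W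
    refine e3.congr_fderiv ?_
    ext u v
    simp
    field_simp
  have hddf1 : ∀ s (x : V), dd (fun y : V => W • G (s, y j / W)) x = b (s, x j / W) := by
    intro s x
    rw [hbk (s, x j / W)]
    ext u v
    have e1 : fderiv ℝ (fun y : V => W • G (s, y j / W)) x = (ep j).smulRight (β (s, x j / W)) :=
      (hf1 s x).fderiv
    rw [dd_apply, e1]
    simp [hβ]
    ring
  have hτW : ∀ s, ContDiff ℝ (⊤ : ℕ∞) (fun y => τ (s, y / W)) := fun s =>
    (hτs s).comp (contDiff_id.div_const W)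
  have hdτW : ∀ s y, deriv (fun y => τ (s, y / W)) y = W⁻¹ * fderiv ℝ τ (s, y / W) (0, 1) := by
    intro s y
    have e1 : HasDerivAt (fun y : ℝ => y / W) W⁻¹ y := by
      have := (hasDerivAt_id y).div_const W
      simpa using this
    have := (hasDerivAt_snd hτ s (y / W)).scomp y e1
    rw [smul_eq_mul] at this
    exact this.deriv
  have hddL' : ∀ s (x : V), A + dd (fun y => L' (s, y)) x
      = (a (τ (s, x j / W)) + dd (fun y => L (τ (s, x j / W), y)) x) + (- M s)
        + (W⁻¹ * fderiv ℝ τ (s, x j / W) (0, 1)) •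
          wed (ep j) (fderiv ℝ L (τ (s, x j / W), x) (1, 0)) := by
    intro s x
    have e1 : dd (fun y => L' (s, y)) x = dd (fun y : V => W • G (s, y j / W)) x
        + dd (fun y : V => L (τ (s, y j / W), y)) x := by
      refine dd_add (hf1 s x).differentiableAt ?_
      have : ContDiff ℝ (⊤ : ℕ∞) (fun y : V => L (τ (s, y j / W), y)) :=
        hL.comp (((hτW s).comp (contDiff_apply ℝ ℝ j)).prodMk contDiff_id)
      exact (this.differentiable (by simp)).differentiableAt
    rw [e1, hddf1, dd_wall j hL (hτW s) x, hdτW]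
    simp only [hb, hg]
    abel
  refine ⟨L', hL's, hL'p, ?_, ?_, ?_, ?_⟩
  · intro x
    have e1 : ∀ y : V, L' (0, y) = L (0, y) := by
      intro y
      have hz : ∀ r, β (0, r) = 0 := by
        intro r
        have : M 0 = 0 := by
          simp only [hM, hg, hτ0, h0, sub_self]
          simp
        simp only [hβ, hb, hg, hτ0, h0, this, sub_self]
        simp
      simp only [hL', hG0 0 hz, smul_zero, zero_add, hτ0]
    simp only [e1]
  · intro x
    have e1 : ∀ y : V, L' (1, y) = L (1, y) := by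
      intro y
      have hz : ∀ r, β (1, r) = 0 := by
        intro r
        have : M 1 = 0 := by
          simp only [hM, hg, hτ1, h1, sub_self]
          simp
        simp only [hβ, hb, hg, hτ1, h1, this, sub_self]
        simp
      simp only [hL', hG0 1 hz, smul_zero, zero_add, hτ1]
    simp only [e1]
  · intro s hs x
    rw [hddL']
    have e1 : Margin (c - c / 4)
        ((a (τ (s, x j / W)) + dd (fun y => L (τ (s, x j / W), y)) x) + (- M s)) :=
      (hm _ (hτI _) x).add (by rw [norm_neg]; exact hMn s)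
    have e2 : ‖(W⁻¹ * fderiv ℝ τ (s, x j / W) (0, 1)) •
        wed (ep j) (fderiv ℝ L (τ (s, x j / W), x) (1, 0))‖ ≤ c / 4 := by
      rw [norm_smul, Real.norm_eq_abs, abs_mul, abs_of_pos (inv_pos.2 hWp)]
      have f1 := hτT s hs (x j / W)
      have f2 := norm_wed_le (ep j) (fderiv ℝ L (τ (s, x j / W), x) (1, 0))
      have f3 := norm_ep_le j
      have f4 := hE' _ (hτI (s, x j / W)) x
      have f5 : ‖wed (ep j) (fderiv ℝ L (τ (s, x j / W), x) (1, 0))‖ ≤ 2 * E := by
        refine f2.trans ?_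
        have := mul_le_mul f3 f4 (norm_nonneg _) (by norm_num : (0:ℝ) ≤ 1)
        linarith
      have f6 := mul_le_mul f1 f5 (norm_nonneg _) hT.le
      have f7 : W⁻¹ * (T * (2 * E)) ≤ c / 4 := by
        rw [inv_mul_le_iff₀ hWp]
        have : 8 * T * E / c ≤ W := by linarith
        rw [div_le_iff₀ hc] at this
        linarith
      calc W⁻¹ * |fderiv ℝ τ (s, x j / W) (0, 1)|
            * ‖wed (ep j) (fderiv ℝ L (τ (s, x j / W), x) (1, 0))‖
          = W⁻¹ * (|fderiv ℝ τ (s, x j / W) (0, 1)|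
            * ‖wed (ep j) (fderiv ℝ L (τ (s, x j / W), x) (1, 0))‖) := by ring
        _ ≤ W⁻¹ * (T * (2 * E)) := mul_le_mul_of_nonneg_left f6 (inv_nonneg.2 hWp.le)
        _ ≤ c / 4 := f7
    have e3 := e1.add e2
    have e4 : c - c / 4 - c / 4 = c / 2 := by ring
    rwa [e4] at e3
  · intro s hs x
    have d1 := (hasDerivAt_fst hG s (x j / W)).const_smul W
    have d2 : HasDerivAt (fun s => L (τ (s, x j / W), x))
        (fderiv ℝ τ (s, x j / W) (1, 0) • fderiv ℝ L (τ (s, x j / W), x) (1, 0)) s := by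
      have d0 := hasDerivAt_fst hL (τ (s, x j / W)) x
      exact HasDerivAt.scomp (h := fun s => τ (s, x j / W)) (g₁ := fun t => L (t, x)) s d0
        (hasDerivAt_fst hτ s (x j / W))
    have d3 := (hasDerivAt_fst hL's s x).unique (d1.add d2)
    rw [d3]
    have f1 := hGb s hs (x j / W)
    have f2 := hτb s hs (x j / W)
    have f3 := hE' _ (hτI (s, x j / W)) x
    rw [Real.norm_eq_abs] at f2
    refine (norm_add_le _ _).trans ?_
    rw [norm_smul, norm_smul, Real.norm_eq_abs, Real.norm_eq_abs, abs_of_pos hWp]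
    exact add_le_add (mul_le_mul hWhi f1 (norm_nonneg _) (by positivity))
      (mul_le_mul f2 f3 (norm_nonneg _) hT2.le)

end VSI
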