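import Mathlib
import Pool.Agent.VSI.QW
import Pool.Agent.VSI.QT
import Pool.Agent.VSI.QD

/-!
# VSI / QS: change of the class by a small form, uniformly on large tori
-/

set_option maxSynthPendingDepth 3

open Set MeasureTheory

namespace VSI

theorem qs_mono {c c' : ℝ} {B : Form} (h : Margin c B) (hc : c' ≤ c) : Margin c' B :=
  fun v => (mul_le_mul_of_nonneg_right hc (norm_nonneg v)).trans (h v)

/-- Reparametrisation of the time: smoothness and the time derivative. -/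
theorem qs_repar {F : Type} [NormedAddCommGroup F] [NormedSpace ℝ F] {Ξ : ℝ × V → F}
    (hΞ : ContDiff ℝ (⊤ : ℕ∞) Ξ) {τ : ℝ → ℝ} (hτ : ContDiff ℝ (⊤ : ℕ∞) τ) :
    ContDiff ℝ (⊤ : ℕ∞) (fun p : ℝ × V => Ξ (τ p.1, p.2)) ∧
    ∀ t x, fderiv ℝ (fun p : ℝ × V => Ξ (τ p.1, p.2)) (t, x) (1, 0) =
      deriv τ t • fderiv ℝ Ξ (τ t, x) (1, 0) := by
  refine ⟨hΞ.comp ((hτ.comp contDiff_fst).prodMk contDiff_snd), fun t x => ?_⟩
  have h1 : HasFDerivAt (fun p : ℝ × V => τ p.1)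
      ((ContinuousLinearMap.toSpanSingleton ℝ (deriv τ t)).comp (ContinuousLinearMap.fst ℝ ℝ V))
      (t, x) := by
    have h2 : HasFDerivAt τ (ContinuousLinearMap.toSpanSingleton ℝ (deriv τ t)) t :=
      ((hτ.differentiable (by simp)) t).hasDerivAt.hasFDerivAt
    exact HasFDerivAt.comp (t, x) h2 hasFDerivAt_fst
  have h3 := h1.prodMk (hasFDerivAt_snd (𝕜 := ℝ) (p := ((t, x) : ℝ × V)))
  have h4 : HasFDerivAt Ξ (fderiv ℝ Ξ (τ t, x)) (τ t, x) :=
    ((hΞ.differentiable (by simp)) (τ t, x)).hasFDerivAt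
  have h5 := HasFDerivAt.comp (t, x) (f := fun p : ℝ × V => (τ p.1, p.2)) h4 h3
  have h6 : fderiv ℝ (fun p : ℝ × V => Ξ (τ p.1, p.2)) (t, x) = _ := h5.fderiv
  rw [h6]
  simp only [ContinuousLinearMap.comp_apply, ContinuousLinearMap.prod_apply,
    ContinuousLinearMap.coe_fst', ContinuousLinearMap.coe_snd',
    ContinuousLinearMap.toSpanSingleton_apply, one_smul]
  have h7 : ((deriv τ t, (0 : V)) : ℝ × V) = deriv τ t • ((1 : ℝ), (0 : V)) := by
    ext <;> simp
  rw [h7, map_smul]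

/-- One step.  Apply `wallN` with `a t = A + ρ t • D` (class `A + D` at both ends),
`ρ t = 1 - S (3 t) + S (3 t - 2)`, and `L (t, x) = Ξ (S (3 t - 1), x)`, `Ξ` the primitives of the given path from `η` to
`A`.  For `t ≤ 1/3` the form is `η + (1 - S (3 t)) • D`, for `1/3 ≤ t ≤ 2/3` it is on the given path, for
`2/3 ≤ t` it is `A + S (3 t - 2) • D`. -/
theorem stepN {i₀ j : Fin 4} (hj : j ≠ i₀) {A D : Form} {η : V → Form} (hA : Alt A) (hD : Alt D)
    (hk : ∀ u v : V, u j = 0 → v j = 0 → D u v = 0) {c : ℝ} (hc : 0 < c)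
    (h1 : ∀ s ∈ Icc (0 : ℝ) 1, ∀ x, Margin c (η x + s • D))
    (h2 : ∀ s ∈ Icc (0 : ℝ) 1, Margin c (A + s • D)) (hJ : UJ i₀ A η) :
    UJ i₀ (A + D) (fun x => η x + D) := by
  obtain ⟨c₀, hc₀, E₀, hE₀, N₀, hN₀⟩ := hJ
  obtain ⟨K, hK, hKb⟩ := exists_bound_smoothTransition
  let S : ℝ → ℝ := Real.smoothTransition
  have hS : ContDiff ℝ (⊤ : ℕ∞) S := Real.smoothTransition.contDiff
  have hS0 : ∀ t, t ≤ 0 → S t = 0 := fun t ht => Real.smoothTransition.zero_of_nonpos ht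
  have hS1 : ∀ t, 1 ≤ t → S t = 1 := fun t ht => Real.smoothTransition.one_of_one_le ht
  have hSn : ∀ t, 0 ≤ S t := fun t => Real.smoothTransition.nonneg t
  have hSl : ∀ t, S t ≤ 1 := fun t => Real.smoothTransition.le_one t
  let ρ : ℝ → ℝ := fun t => 1 - S (3 * t) + S (3 * t - 2)
  let τ : ℝ → ℝ := fun t => S (3 * t - 1)
  have hρ : ContDiff ℝ (⊤ : ℕ∞) ρ :=
    (contDiff_const.sub (hS.comp (contDiff_const.mul contDiff_id))).add
      (hS.comp ((contDiff_const.mul contDiff_id).sub contDiff_const))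
  have hτ : ContDiff ℝ (⊤ : ℕ∞) τ := hS.comp ((contDiff_const.mul contDiff_id).sub contDiff_const)
  have hτd : ∀ t, |deriv τ t| ≤ 3 * K := by
    intro t
    have e1 : HasDerivAt (fun t : ℝ => 3 * t - 1) 3 t := by
      simpa using ((hasDerivAt_id t).const_mul (3 : ℝ)).sub_const 1
    have e2 : HasDerivAt S (deriv S (3 * t - 1)) (3 * t - 1) :=
      ((hS.differentiable (by simp)) _).hasDerivAt
    have e3' := HasDerivAt.comp (h₂ := S) (h := fun t : ℝ => 3 * t - 1) t e2 e1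
    have e3 : HasDerivAt τ (deriv S (3 * t - 1) * 3) t := e3'
    rw [e3.deriv, abs_mul, abs_of_pos (by norm_num : (0 : ℝ) < 3), mul_comm]
    exact mul_le_mul_of_nonneg_left (hKb _) (by norm_num)
  have hρ0 : ρ 0 = 1 := by
    show 1 - S (3 * 0) + S (3 * 0 - 2) = 1
    rw [hS0 _ (by norm_num), hS0 _ (by norm_num)]; norm_num
  have hρ1 : ρ 1 = 1 := by
    show 1 - S (3 * 1) + S (3 * 1 - 2) = 1
    rw [hS1 _ (by norm_num), hS1 _ (by norm_num)]; norm_num
  have hτ0 : τ 0 = 0 := hS0 _ (by norm_num)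
  have hτ1 : τ 1 = 1 := hS1 _ (by norm_num)
  let a : ℝ → Form := fun t => A + ρ t • D
  obtain ⟨c', hc', E', hE', N, hN⟩ := wallN j (lt_min hc hc₀)
    (mul_pos (mul_pos (by norm_num : (0 : ℝ) < 3) hK) hE₀) (A := A + D) (a := a)
    (contDiff_const.add (hρ.smul contDiff_const))
    (fun t => alt_add hA (alt_smul hD _))
    (by show A + ρ 0 • D = A + D; rw [hρ0, one_smul])
    (by show A + ρ 1 • D = A + D; rw [hρ1, one_smul])
    (fun t _ y z hy hz => by
      show A y z + ρ t * D y z = A y z + D y z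
      rw [hk y z hy hz, mul_zero])
  refine ⟨c', hc', E', hE', max N₀ N, fun n hn => ?_⟩
  obtain ⟨Ξ, hΞ, hΞp, hΞ0, hΞ1, hΞm, hΞE⟩ := hN₀ n ⟨hn.1, fun i hi => (le_max_left _ _).trans (hn.2 i hi)⟩
  obtain ⟨hL, hLd⟩ := qs_repar hΞ hτ
  have h3 := hN n hn.1 ((le_max_right _ _).trans (hn.2 j hj)) (fun p : ℝ × V => Ξ (τ p.1, p.2)) hL
    (fun t => hΞp (τ t)) ?_ ?_
  · have h4 : (fun x => A + D + dd (fun y => Ξ (τ 0, y)) x) = fun x => η x + D := by
      funext x
      rw [hτ0, hΞ0 x]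
      abel
    have h5 : (fun x => A + D + dd (fun y => Ξ (τ 1, y)) x) = fun _ => A + D := by
      funext x
      rw [hτ1]
      have h6 := hΞ1 x
      have h7 : dd (fun y => Ξ (1, y)) x = 0 := by
        have := congrArg (fun B => B - A) h6
        simp only [add_sub_cancel_left] at this
        rw [← this, sub_self]
      rw [h7, add_zero]
    have h3' : JQ n (A + D) c' E' (fun x => A + D + dd (fun y => Ξ (τ 0, y)) x)
      (fun x => A + D + dd (fun y => Ξ (τ 1, y)) x) := h3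
    rwa [h4, h5] at h3'
  · intro t ht x
    show Margin (min c c₀) (A + ρ t • D + dd (fun y => Ξ (τ t, y)) x)
    rcases le_or_gt (3 * t) 1 with h7 | h7
    · have h8 : τ t = 0 := hS0 _ (by linarith)
      have h9 : ρ t = 1 - S (3 * t) := by
        show 1 - S (3 * t) + S (3 * t - 2) = _
        rw [hS0 (3 * t - 2) (by linarith), add_zero]
      have h10 : A + ρ t • D + dd (fun y => Ξ (τ t, y)) x = η x + ρ t • D := by
        rw [h8, hΞ0 x]; abel
      rw [h10]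
      refine qs_mono (h1 (ρ t) ?_ x) (min_le_left _ _)
      rw [h9]
      exact ⟨by linarith [hSl (3 * t)], by linarith [hSn (3 * t)]⟩
    rcases le_or_gt 2 (3 * t) with h10 | h10
    · have h8 : τ t = 1 := hS1 _ (by linarith)
      have h9 : ρ t = S (3 * t - 2) := by
        show 1 - S (3 * t) + S (3 * t - 2) = _
        rw [hS1 (3 * t) (by linarith), sub_self, zero_add]
      have h11 : A + ρ t • D + dd (fun y => Ξ (τ t, y)) x = A + ρ t • D := by
        rw [h8]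
        have h6 := hΞ1 x
        have h7 : dd (fun y => Ξ (1, y)) x = 0 := by
          have := congrArg (fun B => B - A) h6
          simp only [add_sub_cancel_left] at this
          rw [← this, sub_self]
        rw [h7, add_zero]
      rw [h11]
      refine qs_mono (h2 (ρ t) ?_) (min_le_left _ _)
      rw [h9]
      exact ⟨hSn _, hSl _⟩
    · have h9 : ρ t = 0 := by
        show 1 - S (3 * t) + S (3 * t - 2) = 0
        rw [hS1 (3 * t) h7.le, hS0 (3 * t - 2) (by linarith), sub_self, zero_add]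
      rw [h9, zero_smul, add_zero]
      exact qs_mono (hΞm (τ t) ⟨hSn _, hSl _⟩ x) (min_le_right _ _)
  · intro t ht x
    rw [hLd t x, norm_smul, Real.norm_eq_abs]
    exact mul_le_mul (hτd t) (hΞE (τ t) ⟨hSn _, hSl _⟩ x) (norm_nonneg _)
      (by positivity)

theorem qs_margin {c : ℝ} {B D P : Form} (h : Margin c B) (hP : ‖P‖ ≤ 6 * ‖D‖) {s : ℝ}
    (hs : s ∈ Icc (0 : ℝ) 1) : Margin (c - 6 * ‖D‖) (B + s • P) := by
  refine h.add ?_
  rw [norm_smul, Real.norm_eq_abs, abs_of_nonneg hs.1]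
  calc s * ‖P‖ ≤ 1 * ‖P‖ := mul_le_mul_of_nonneg_right hs.2 (norm_nonneg _)
    _ ≤ _ := by rw [one_mul]; exact hP

/-- Three steps. -/
theorem shiftN {i₀ : Fin 4} {A D : Form} {η : V → Form} (hA : Alt A) (hD : Alt D) {c : ℝ} (hc : 0 < c)
    (hmη : ∀ x, Margin c (η x)) (hmA : Margin c A) (hs : 18 * ‖D‖ < c) (hJ : UJ i₀ A η) :
    UJ i₀ (A + D) (fun x => η x + D) := by
  obtain ⟨j, P, hj, hPa, hPk, hPn, hPs⟩ := exists_decomp i₀ hD
  have hD0 : 0 ≤ ‖D‖ := norm_nonneg _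
  have h1 : (1 : ℝ) ∈ Icc (0 : ℝ) 1 := ⟨zero_le_one, le_rfl⟩
  -- the margins of the intermediate forms
  have m1 : ∀ x, Margin (c - 6 * ‖D‖) (η x + P 0) := fun x => by
    simpa using qs_margin (hmη x) (hPn 0) h1
  have m1' : Margin (c - 6 * ‖D‖) (A + P 0) := by simpa using qs_margin hmA (hPn 0) h1
  have m2 : ∀ x, Margin (c - 6 * ‖D‖ - 6 * ‖D‖) (η x + P 0 + P 1) := fun x => by
    simpa using qs_margin (m1 x) (hPn 1) h1
  have m2' : Margin (c - 6 * ‖D‖ - 6 * ‖D‖) (A + P 0 + P 1) := by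
    simpa using qs_margin m1' (hPn 1) h1
  have s1 := stepN (hj 0) hA (hPa 0) (hPk 0) (c := c - 6 * ‖D‖) (by linarith)
    (fun s hs x => qs_margin (hmη x) (hPn 0) hs) (fun s hs => qs_margin hmA (hPn 0) hs) hJ
  have s2 := stepN (hj 1) (alt_add hA (hPa 0)) (hPa 1) (hPk 1) (c := c - 6 * ‖D‖ - 6 * ‖D‖)
    (by linarith) (fun s hs x => qs_margin (m1 x) (hPn 1) hs)
    (fun s hs => qs_margin m1' (hPn 1) hs) s1
  have s3 := stepN (hj 2) (alt_add (alt_add hA (hPa 0)) (hPa 1)) (hPa 2) (hPk 2)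
    (c := c - 6 * ‖D‖ - 6 * ‖D‖ - 6 * ‖D‖)
    (by linarith) (fun s hs x => qs_margin (m2 x) (hPn 2) hs)
    (fun s hs => qs_margin m2' (hPn 2) hs) s2
  have e1 : A + P 0 + P 1 + P 2 = A + D := by rw [← hPs]; abel
  have e2 : (fun x => η x + P 0 + P 1 + P 2) = fun x => η x + D := by
    funext x; rw [← hPs]; abel
  rwa [e1, e2] at s3

end VSI
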