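import Mathlib
import Pool.Agent.VSI.QS
import Pool.Agent.VSI.PFA
import Pool.Agent.VSI.NRM

/-!
# VSI / QI: deformation to a constant form implies isotopy on all large tori
-/

set_option maxSynthPendingDepth 3

open Set MeasureTheory

namespace VSI

theorem qi_alt_sub {B C : Form} (hB : Alt B) (hC : Alt C) : Alt (B - C) := by
  intro u v
  have h1 := hB u v
  have h2 := hC u v
  change B u v - C u v = -(B v u - C v u)
  rw [h1, h2]
  ring

theorem qi_margin_mono {d e : ℝ} {C : Form} (hde : d ≤ e) (hC : Margin e C) : Margin d C := by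
  intro v
  exact (mul_le_mul_of_nonneg_right hde (norm_nonneg _)).trans (hC v)

/-- One mesh step.  Proof: `shiftN` with `D = avg Φ_t' - avg Φ_t`, concatenated (`exists_JQ_trans`) with the path
`σ ↦ Φ_σ + (avg Φ_t' - avg Φ_σ)` from `t'` to `t` with the primitives of `exists_prim`. -/
theorem mesh_stepN {i₀ : Fin 4} {c : ℝ} (hc : 0 < c) {Φ : ℝ × V → Form} (h : Fam Φ)
    (hm : ∀ t x, Margin c (Φ (t, x))) (ha : ∀ t, Margin c (avg fun x => Φ (t, x)))
    {t t' : ℝ} (hd : ∀ s ∈ uIcc t t', 18 * ‖(avg fun x => Φ (t', x)) - (avg fun x => Φ (s, x))‖ < c)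
    (hJ : UJ i₀ (avg fun x => Φ (t, x)) fun x => Φ (t, x)) :
    UJ i₀ (avg fun x => Φ (t', x)) fun x => Φ (t', x) := by
  obtain ⟨L, hL, hLp, hLe⟩ := exists_prim h
  set a : ℝ → Form := fun s => avg fun x => Φ (s, x) with ha_def
  have haAlt : ∀ s, Alt (a s) := fun s =>
    avg_alt (h.clo s).smooth.continuous (fun x u v => (h.clo s).alt x u v)
  have hD : Alt (a t' - a t) := qi_alt_sub (haAlt t') (haAlt t)
  have h18 : 18 * ‖a t' - a t‖ < c := hd t left_mem_uIcc
  have hJ1 : UJ i₀ (a t + (a t' - a t)) (fun x => Φ (t, x) + (a t' - a t)) :=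
    shiftN (haAlt t) hD hc (fun x => hm t x) (ha t) h18 hJ
  have hsum : a t + (a t' - a t) = a t' := by abel
  rw [hsum] at hJ1
  obtain ⟨c₁, hc₁, E₁, hE₁, N, hN⟩ := hJ1
  obtain ⟨K, hK, hKt⟩ := exists_JQ_trans
  -- the path of primitives
  let L' : ℝ × V → Cov := fun p => L (t' + p.1 * (t - t'), p.2)
  have hL' : ContDiff ℝ (⊤ : ℕ∞) L' := by
    have h1 : ContDiff ℝ (⊤ : ℕ∞) (fun p : ℝ × V => t' + p.1 * (t - t')) := by fun_prop
    exact hL.comp (h1.prodMk contDiff_snd)
  have hL'p : ∀ s, Per (fun x => L' (s, x)) := fun s => hLp (t' + s * (t - t'))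
  have hdcont : Continuous (fun p : ℝ × V => fderiv ℝ L' p (1, 0)) :=
    (hL'.continuous_fderiv (by simp)).clm_apply continuous_const
  have hdper : ∀ s ∈ Icc (0 : ℝ) 1, Per (fun x => fderiv ℝ L' (s, x) (1, 0)) := by
    intro s _ x k
    have hsh : (fun p : ℝ × V => L' (p + (0, fun i => (k i : ℝ)))) = L' := by
      funext p
      have := hL'p p.1 p.2 k
      change L' (p.1 + 0, p.2 + fun i => (k i : ℝ)) = L' (p.1, p.2)
      rw [add_zero]
      exact this
    have h1 := congrArg (fun f => fderiv ℝ f (s, x)) hsh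
    simp only [fderiv_comp_add_right] at h1
    have h2 : ((s, x) : ℝ × V) + (0, fun i => (k i : ℝ)) = (s, x + fun i => (k i : ℝ)) := by
      rw [Prod.mk_add_mk, add_zero]
    rw [h2] at h1
    change fderiv ℝ L' (s, x + fun i => (k i : ℝ)) (1, 0) = fderiv ℝ L' (s, x) (1, 0)
    rw [h1]
  obtain ⟨E₂, hE₂, hb⟩ := bound_compact hdcont hdper
  have hmem : ∀ s ∈ Icc (0 : ℝ) 1, t' + s * (t - t') ∈ uIcc t t' := by
    intro s hs
    rcases le_total t t' with hle | hle
    · rw [uIcc_of_le hle]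
      constructor
      · nlinarith [hs.1, hs.2]
      · nlinarith [hs.1, hs.2]
    · rw [uIcc_of_ge hle]
      constructor
      · nlinarith [hs.1, hs.2]
      · nlinarith [hs.1, hs.2]
  have hform : ∀ s x, a t' + dd (fun y => L' (s, y)) x
      = Φ (t' + s * (t - t'), x) + (a t' - a (t' + s * (t - t'))) := by
    intro s x
    have h1 := hLe (t' + s * (t - t')) x
    change Φ (t' + s * (t - t'), x) = a (t' + s * (t - t')) + dd (fun y => L' (s, y)) x at h1
    rw [h1]
    abel
  have hJ2 : ∀ n : Fin 4 → ℕ, JQ n (a t') (c / 2) E₂ (fun x => Φ (t', x))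
      (fun x => Φ (t, x) + (a t' - a t)) := by
    intro n
    refine ⟨L', hL', fun s => PerN.of_per (hL'p s), ?_, ?_, ?_, hb⟩
    · intro x
      rw [hform, zero_mul, add_zero, sub_self, add_zero]
    · intro x
      rw [hform, one_mul, add_sub_cancel]
    · intro s hs x
      rw [hform]
      have hs18 : 18 * ‖a t' - a (t' + s * (t - t'))‖ < c := hd _ (hmem s hs)
      have h2 : ‖a t' - a (t' + s * (t - t'))‖ ≤ c / 2 := by
        have := norm_nonneg (a t' - a (t' + s * (t - t')))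
        linarith
      have h3 := (hm (t' + s * (t - t')) x).add h2
      have h4 : c - c / 2 = c / 2 := by ring
      rw [h4] at h3
      exact h3
  refine ⟨min (c / 2) c₁, lt_min (by positivity) hc₁, K * (E₂ + E₁), by positivity, N, ?_⟩
  intro n hn
  exact hKt n (a t') (min (c / 2) c₁) E₂ E₁ _ _ _ ((hJ2 n).mono (min_le_left _ _) le_rfl)
    ((hN n hn).mono (min_le_right _ _) le_rfl)

/-- Induction over a mesh, as in `joined_of_deform_const` of `VSI / IND`. -/
theorem uj_of_deform_const {A B : Form} {ω : V → Form} (hω : Symp A ω) (hd : Deform ω (fun _ => B))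
    (i₀ : Fin 4) : UJ i₀ A ω := by
  obtain ⟨Ω, hΩs, hΩ0, hΩ1, hΩ⟩ := hd
  obtain ⟨Ψ, hΨs, hΨ0, hΨ1, hΨ⟩ := exists_norm_path (P := IsSymp) hΩs hΩ
  set Φ : ℝ × V → Form := fun p => Ψ p.1 p.2 with hΦ_def
  have hF : Fam Φ := ⟨hΨs, fun t => (hΨ t).toClo⟩
  set a : ℝ → Form := fun s => avg fun x => Φ (s, x) with ha_def
  have hsa : ContDiff ℝ (⊤ : ℕ∞) a := smooth_avg hF.smooth
  -- margins on the unit interval
  obtain ⟨c1, hc1, hm1⟩ := margin_compact (Φ := Φ) hF.smooth.continuous
    (fun t _ => (hF.clo t).per) (fun t _ x => (hΨ t).nondeg x)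
  obtain ⟨c2, hc2, hm2⟩ := margin_compact (Φ := fun p : ℝ × V => a p.1)
    (hsa.continuous.comp continuous_fst) (fun t _ => by intro x n; rfl)
    (fun t _ x => (hΨ t).avg_nondeg)
  set c : ℝ := min c1 c2 with hc_def
  have hc : 0 < c := lt_min hc1 hc2
  have hproj : ∀ t : ℝ, ∃ t0 ∈ Icc (0 : ℝ) 1, Ψ t = Ψ t0 := by
    intro t
    rcases le_total t 0 with h0 | h0
    · exact ⟨0, ⟨le_rfl, zero_le_one⟩, by rw [hΨ0 t h0, hΨ0 0 le_rfl]⟩
    · rcases le_total t 1 with h1 | h1
      · exact ⟨t, ⟨h0, h1⟩, rfl⟩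
      · exact ⟨1, ⟨zero_le_one, le_rfl⟩, by rw [hΨ1 t h1, hΨ1 1 le_rfl]⟩
  have hm : ∀ t x, Margin c (Φ (t, x)) := by
    intro t x
    obtain ⟨t0, ht0, he⟩ := hproj t
    have h1 := hm1 t0 ht0 x
    have h2 : Φ (t, x) = Φ (t0, x) := by
      change Ψ t x = Ψ t0 x
      rw [he]
    rw [h2]
    exact qi_margin_mono (min_le_left _ _) h1
  have hma : ∀ t, Margin c (a t) := by
    intro t
    obtain ⟨t0, ht0, he⟩ := hproj t
    have h1 := hm2 t0 ht0 0
    have h2 : a t = a t0 := by
      change avg (Ψ t) = avg (Ψ t0)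
      rw [he]
    rw [h2]
    exact qi_margin_mono (min_le_right _ _) h1
  -- uniform continuity of the averages
  have hunif := (isCompact_Icc (a := (0 : ℝ)) (b := 1)).uniformContinuousOn_of_continuous
    hsa.continuous.continuousOn
  rw [Metric.uniformContinuousOn_iff] at hunif
  obtain ⟨δ, hδ, hδ'⟩ := hunif (c / 18) (by positivity)
  obtain ⟨n, hn⟩ := exists_nat_one_div_lt hδ
  have hn1 : (0 : ℝ) < (n : ℝ) + 1 := by positivity
  have key : ∀ j : ℕ, j ≤ n + 1 →
      UJ i₀ (a (1 - j / ((n : ℝ) + 1))) (fun x => Φ (1 - j / ((n : ℝ) + 1), x)) := by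
    intro j
    induction j with
    | zero =>
      intro _
      simp only [Nat.cast_zero, zero_div, sub_zero]
      have hconst : (fun x => Φ (1, x)) = fun _ => B := by
        change Ψ 1 = fun _ => B
        rw [hΨ1 1 le_rfl, hΩ1]
      have ha1 : a 1 = B := by
        change avg (fun x => Φ (1, x)) = B
        rw [hconst, avg_const]
      rw [ha1, hconst]
      have hs : IsSymp (fun _ : V => B) := by
        have := hΨ 1
        rwa [hΨ1 1 le_rfl, hΩ1] at this
      exact UJ.const i₀ (hs.nondeg 0)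
    | succ j ih =>
      intro hj
      have hj' := ih (by omega)
      have hjn : ((j : ℝ) + 1) ≤ (n : ℝ) + 1 := by exact_mod_cast hj
      have hj0 : (0 : ℝ) ≤ (j : ℝ) := Nat.cast_nonneg j
      set t : ℝ := 1 - j / ((n : ℝ) + 1) with ht_def
      set t' : ℝ := 1 - ((j + 1 : ℕ) : ℝ) / ((n : ℝ) + 1) with ht'_def
      have htt : t' = t - 1 / ((n : ℝ) + 1) := by
        rw [ht_def, ht'_def]
        push_cast
        ring
      have hstep : 0 < 1 / ((n : ℝ) + 1) := by positivity
      have ht'0 : 0 ≤ t' := by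
        rw [ht'_def]
        push_cast
        rw [sub_nonneg, div_le_one hn1]
        exact hjn
      have ht1 : t ≤ 1 := by
        rw [ht_def]
        have : 0 ≤ (j : ℝ) / ((n : ℝ) + 1) := by positivity
        linarith
      apply mesh_stepN hc hF hm hma (t := t) (t' := t') _ hj'
      intro s hs
      rw [uIcc_of_ge (by rw [htt]; linarith)] at hs
      have hs01 : s ∈ Icc (0 : ℝ) 1 := ⟨ht'0.trans hs.1, hs.2.trans ht1⟩
      have ht'01 : t' ∈ Icc (0 : ℝ) 1 := ⟨ht'0, by rw [htt]; linarith⟩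
      have hdist : dist t' s < δ := by
        rw [Real.dist_eq, abs_sub_comm, abs_of_nonneg (by linarith [hs.1])]
        have : s ≤ t' + 1 / ((n : ℝ) + 1) := by rw [htt]; linarith [hs.2]
        linarith
      have h1 := hδ' t' ht'01 s hs01 hdist
      rw [dist_eq_norm] at h1
      change 18 * ‖a t' - a s‖ < c
      linarith
  have hJ := key (n + 1) le_rfl
  have hend : (1 : ℝ) - ((n + 1 : ℕ) : ℝ) / ((n : ℝ) + 1) = 0 := by
    push_cast
    rw [div_self hn1.ne', sub_self]
  rw [hend] at hJ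
  have h0 : (fun x => Φ (0, x)) = ω := by
    change Ψ 0 = ω
    rw [hΨ0 0 le_rfl, hΩ0]
  have ha0 : a 0 = A := by
    change avg (fun x => Φ (0, x)) = A
    rw [h0]
    exact (cls_iff hω.1.toClo.smooth.continuous A).1 hω.2
  rw [ha0, h0] at hJ
  exact hJ

end VSI
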