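import Mathlib
import Pool.Agent.VSI.QI
import Pool.Agent.VSI.QF

/-!
# VSI / QX: deformations whose classes move in one coordinate direction, on cyclic coverings
-/

set_option maxSynthPendingDepth 3

open Set MeasureTheory

namespace VSI

/-- A deformation whose classes differ from `A` by forms divisible by the coordinate covector `j` becomes an isotopy
on all tori with the `j`-th period large. -/
theorem directional (j : Fin 4) {A : Form} {ω₀ ω₁ : V → Form} (h₀ : Symp A ω₀) (h₁ : Symp A ω₁)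
    {Ω : ℝ → V → Form} (hs : ContDiff ℝ (⊤ : ℕ∞) fun p : ℝ × V => Ω p.1 p.2) (e0 : Ω 0 = ω₀)
    (e1 : Ω 1 = ω₁) (hΩ : ∀ t ∈ Icc (0 : ℝ) 1, IsSymp (Ω t))
    (hk : ∀ t ∈ Icc (0 : ℝ) 1, ∀ u v : V, u j = 0 → v j = 0 →
      ∫ x in Icc (0 : V) 1, Ω t x u v = A u v) :
    ∃ N : ℕ, ∀ n : Fin 4 → ℕ, (∀ i, 0 < n i) → N ≤ n j →
      Joined (pul n A) (cvr n ω₀) (cvr n ω₁) := by
  obtain ⟨Ψ, hΨs, hΨ0, hΨ1, hΨ⟩ := exists_norm_path
    (P := fun ω => IsSymp ω ∧ ∀ u v : V, u j = 0 → v j = 0 → ∫ x in Icc (0 : V) 1, ω x u v = A u v)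
    hs (fun t ht => ⟨hΩ t ht, hk t ht⟩)
  have p0 : Ψ 0 = ω₀ := (hΨ0 0 le_rfl).trans e0
  have p1 : Ψ 1 = ω₁ := (hΨ1 1 le_rfl).trans e1
  have hf : Fam (fun p : ℝ × V => Ψ p.1 p.2) := ⟨hΨs, fun t => (hΨ t).1.toClo⟩
  set a : ℝ → Form := fun t => avg (fun x => Ψ t x) with ha
  have has : ContDiff ℝ (⊤ : ℕ∞) a := smooth_avg (Φ := fun p : ℝ × V => Ψ p.1 p.2) hΨs
  have hcont : ∀ t, Continuous (Ψ t) := fun t => (hf.clo t).smooth.continuous
  have halt : ∀ t, Alt (a t) := fun t => avg_alt (hcont t) fun x u v => (hf.clo t).alt x u v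
  have ha0 : a 0 = A := by
    have := (cls_iff (hcont 0) A).1 (p0 ▸ h₀.2)
    exact this
  have ha1 : a 1 = A := by
    have := (cls_iff (hcont 1) A).1 (p1 ▸ h₁.2)
    exact this
  have hak : ∀ t ∈ Icc (0 : ℝ) 1, ∀ u v : V, u j = 0 → v j = 0 → a t u v = A u v := by
    intro t _ u v hu hv
    have := avg_apply (hcont t) u v
    rw [(hΨ t).2 u v hu hv] at this
    exact this
  obtain ⟨L, hL, hLp, hLd⟩ := exists_prim hf
  obtain ⟨c, hc, hm⟩ := margin_compact (Φ := fun p : ℝ × V => Ψ p.1 p.2) hΨs.continuous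
    (fun t _ => (hf.clo t).per) (fun t _ x => (hΨ t).1.nondeg x)
  have hEc : Continuous (fun p : ℝ × V => fderiv ℝ L p (1, 0)) :=
    (hL.continuous_fderiv (by simp)).clm_apply continuous_const
  have hEp : ∀ t ∈ Icc (0 : ℝ) 1, Per (fun x => fderiv ℝ L (t, x) (1, 0)) := by
    intro t _ x k
    have d1 := hasDerivAt_fst hL t (x + fun i => (k i : ℝ))
    have d2 := hasDerivAt_fst hL t x
    have : (fun s => L (s, x + fun i => (k i : ℝ))) = fun s => L (s, x) := by
      funext s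
      exact hLp s x k
    rw [this] at d1
    exact d1.unique d2
  obtain ⟨E, hE, hEb⟩ := bound_compact hEc hEp
  obtain ⟨c', hc', E', hE', N, hN⟩ := wallN j hc hE has halt ha0 ha1 hak
  refine ⟨N, fun n hn hnj => ?_⟩
  have hq := hN n hn hnj L hL (fun t => PerN.of_per (hLp t))
    (fun t ht x => by
      have := hm t ht x
      simp only at this
      rw [hLd t x] at this
      exact this) hEb
  have q0 : (fun x => A + dd (fun y => L (0, y)) x) = ω₀ := by
    funext x
    have := hLd 0 x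
    simp only [p0] at this
    rw [this]
    congr 1
    rw [← ha0, ha]
    simp only [p0]
  have q1 : (fun x => A + dd (fun y => L (1, y)) x) = ω₁ := by
    funext x
    have := hLd 1 x
    simp only [p1] at this
    rw [this]
    congr 1
    rw [← ha1, ha]
    simp only [p1]
  rw [q0, q1] at hq
  have hAalt : Alt A := ha0 ▸ halt 0
  exact hq.joined hn hAalt hc'

end VSI
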