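import Mathlib

/-!
# VSI / St: the objects of the statements

Symplectic forms on the torus `ℝ⁴ / ℤ⁴` in the language of the frozen statement of the problem, split into small
named definitions.
-/

set_option maxSynthPendingDepth 3

open Set MeasureTheory

namespace VSI.St

/-- vectors -/
abbrev V : Type := Fin 4 → ℝ

/-- bilinear forms on the space of vectors -/
abbrev Form : Type := (Fin 4 → ℝ) →L[ℝ] (Fin 4 → ℝ) →L[ℝ] ℝ

/-- the value of a bilinear form -/
noncomputable def val (B : Form) (u v : V) : ℝ := B u v

/-- the derivative at `x` in the direction `u` of the function `y ↦ ω y v w` -/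
noncomputable def der (ω : V → Form) (x u v w : V) : ℝ := deriv (fun t : ℝ => val (ω (x + t • u)) v w) 0

def Smooth (ω : V → Form) : Prop := ContDiff ℝ (⊤ : ℕ∞) ω

/-- invariance under translation by integer vectors -/
def Periodic (ω : V → Form) : Prop :=
  ∀ (x : Fin 4 → ℝ) (k : Fin 4 → ℤ), ω (x + fun i => (k i : ℝ)) = ω x

def Alternating (ω : V → Form) : Prop := ∀ x u v, val (ω x) u v = -val (ω x) v u

/-- the exterior derivative vanishes -/
def Closed (ω : V → Form) : Prop :=
  ∀ x u v w, der ω x u v w + der ω x v w u + der ω x w u v = 0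

def Nondegenerate (ω : V → Form) : Prop := ∀ x v, (∀ w, val (ω x) v w = 0) → v = 0

/-- symplectic forms on the four-torus -/
structure Symplectic (ω : V → Form) : Prop where
  smooth : Smooth ω
  periodic : Periodic ω
  alternating : Alternating ω
  closed : Closed ω
  nondegenerate : Nondegenerate ω

/-- the average over the unit cube is `A`, that is, the class of `ω` is the one of the constant form `A` -/
def HasClass (A : Form) (ω : V → Form) : Prop :=
  ∀ u v, ∫ x in Icc (0 : V) 1, val (ω x) u v = val A u v

/-- the symplectic forms in the class `A` -/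
def SympIn (A : Form) (ω : V → Form) : Prop := Symplectic ω ∧ HasClass A ω

/-- smooth families -/
def SmoothFamily (Ω : ℝ → V → Form) : Prop := ContDiff ℝ (⊤ : ℕ∞) fun p : ℝ × V => Ω p.1 p.2

/-- joined by a smooth path of symplectic forms in the class `A` -/
def JoinedIn (A : Form) (ω₀ ω₁ : V → Form) : Prop :=
  ∃ Ω : ℝ → V → Form, SmoothFamily Ω ∧ Ω 0 = ω₀ ∧ Ω 1 = ω₁ ∧ ∀ t ∈ Icc (0 : ℝ) 1, SympIn A (Ω t)

/-- joined by a smooth path of symplectic forms, whose classes may vary -/
def Deformable (ω₀ ω₁ : V → Form) : Prop :=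
  ∃ Ω : ℝ → V → Form, SmoothFamily Ω ∧ Ω 0 = ω₀ ∧ Ω 1 = ω₁ ∧ ∀ t ∈ Icc (0 : ℝ) 1, Symplectic (Ω t)

/-- positive on some constant plane -/
def PlanePositive (ω : V → Form) : Prop := ∃ u v : V, ∀ x, 0 < val (ω x) u v

/-- the linear map with the diagonal entries `n i` -/
noncomputable def diag (n : Fin 4 → ℕ) : V →L[ℝ] V :=
  ContinuousLinearMap.pi fun i => (n i : ℝ) • (ContinuousLinearMap.proj i : V →L[ℝ] ℝ)

/-- the pullback of a constant form by `diag n` -/
noncomputable def pullConst (n : Fin 4 → ℕ) (B : Form) : Form := B.bilinearComp (diag n) (diag n)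

/-- the pullback of a form by the covering `diag n` of the torus -/
noncomputable def pull (n : Fin 4 → ℕ) (ω : V → Form) : V → Form := fun x => pullConst n (ω (diag n x))

end VSI.St
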