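import Mathlib
import Pool.Agent.VSI.NRM
import Pool.Agent.VSI.PFA
import Pool.Agent.VSI.MRG

/-!
# VSI / PLP: symplectic forms positive on a constant plane
-/

open Set MeasureTheory

namespace VSI

theorem plp_cd {E : Type} [NormedAddCommGroup E] [NormedSpace ℝ E] {f : E → Form}
    (h : ∀ a b : V, ContDiff ℝ (⊤ : ℕ∞) (fun p => f p a b)) : ContDiff ℝ (⊤ : ℕ∞) f :=
  contDiff_clm_apply_iff.2 fun a => contDiff_clm_apply_iff.2 fun b => h a b

theorem plp_ap {E : Type} [NormedAddCommGroup E] [NormedSpace ℝ E] {f : E → Form}
    (h : ContDiff ℝ (⊤ : ℕ∞) f) (a b : V) : ContDiff ℝ (⊤ : ℕ∞) (fun p => f p a b) :=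
  contDiff_clm_apply_iff.1 (contDiff_clm_apply_iff.1 h a) b

theorem plp_ext {B C : Form} (h : ∀ a b : V, B a b = C a b) : B = C :=
  ContinuousLinearMap.ext fun a => ContinuousLinearMap.ext fun b => h a b

/-- A closed family with Pfaffian of constant sign `e` is symplectic. -/
theorem plp_symp {η : V → Form} (h : Clo η) {e : ℝ} (hp : ∀ x, 0 < e * pf (η x)) : IsSymp η := by
  refine ⟨h, fun x => ?_⟩
  have ha : Alt (η x) := h.alt x
  refine (nondeg_iff_pf ha).2 fun h0 => ?_
  have := hp x
  rw [h0, mul_zero] at this
  exact lt_irrefl _ this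

theorem plp_pf {B θ : Form} (hθ : pf θ = 0) (r : ℝ) : pf (B + r • θ) = pf B + r * pq B θ := by
  rw [pf_add, pf_smul, pq_smul, hθ]
  ring

/-- Proof: let `θ` be the dual form of `u ∧ v` and `ε` the sign of the Pfaffian.  The path
`ω + s K ε θ` has Pfaffian of sign `ε` for all `K ≥ 0`; then `σ A + (1 - σ) ω + K ε θ` has Pfaffian of sign `ε`
for large `K`. -/
theorem deform_of_plane {ω : V → Form} (h : IsSymp ω) {u v : V} (hp : ∀ x, 0 < ω x u v) :
    ∃ B : Form, Deform ω (fun _ => B) := by
  obtain ⟨θ, hθa, hθ0, hθ⟩ := exists_dual u v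
  have hc : Continuous ω := h.smooth.continuous
  have hAa : Alt (avg ω) := avg_alt hc h.alt
  have hcuv : Continuous fun x => ω x u v := by
    have h1 : Continuous fun x => ω x u := hc.clm_apply continuous_const
    exact h1.clm_apply continuous_const
  -- the sign
  obtain ⟨e, he, hes⟩ : ∃ e : ℝ, e ^ 2 = 1 ∧ ∀ x, 0 < e * pf (ω x) := by
    rcases lt_trichotomy (pf (avg ω)) 0 with h1 | h1 | h1
    · refine ⟨-1, by norm_num, fun x => ?_⟩
      have := h.pf_mul_pos x
      nlinarith
    · have := h.pf_mul_pos 0
      rw [h1, mul_zero] at this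
      exact absurd this (lt_irrefl _)
    · refine ⟨1, by norm_num, fun x => ?_⟩
      have := h.pf_mul_pos x
      rw [one_mul]
      exact (pos_iff_pos_of_mul_pos this).2 h1
  -- lower bound of `ω u v`
  obtain ⟨D, hD, hDb⟩ := bound_compact (F := ℝ) (Φ := fun p : ℝ × V => (ω p.2 u v)⁻¹)
    ((hcuv.comp continuous_snd).inv₀ fun p => (hp p.2).ne')
    (fun t _ x n => by simp only [h.per])
  have hlow : ∀ x, D⁻¹ ≤ ω x u v := by
    intro x
    have h1 := hDb 0 (by simp) x
    simp only [norm_inv, Real.norm_eq_abs, abs_of_pos (hp x)] at h1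
    exact inv_le_of_inv_le₀ (hp x) h1
  have hlowA : D⁻¹ ≤ avg ω u v := by
    rw [avg_apply hc]
    have h1 : ∫ _x in Icc (0 : V) 1, D⁻¹ = D⁻¹ := integral_const_cube _
    rw [← h1]
    refine setIntegral_mono_on ?_ ?_ measurableSet_Icc fun x _ => hlow x
    · exact (continuous_const.continuousOn).integrableOn_compact isCompact_Icc
    · exact (hcuv.continuousOn).integrableOn_compact isCompact_Icc
  have hsω : ContDiff ℝ (⊤ : ℕ∞) (fun p : ℝ × V => ω p.2) := h.smooth.comp contDiff_snd
  -- bound of the Pfaffian
  obtain ⟨C, hC, hCb⟩ := bound_compact (F := ℝ)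
    (Φ := fun p : ℝ × V => pf ((1 - p.1) • ω p.2 + p.1 • avg ω))
    (continuous_pf.comp (plp_cd fun a b => by
      simp only [_root_.add_apply, _root_.smul_apply, smul_eq_mul]
      exact ((contDiff_const.sub contDiff_fst).mul (plp_ap hsω a b)).add
        (contDiff_fst.mul contDiff_const)).continuous)
    (fun t _ x n => by simp only [h.per])
  set K : ℝ := D * (C + 1) with hK
  have hK0 : 0 ≤ K := by positivity
  have hKD : K * D⁻¹ = C + 1 := by rw [hK]; field_simp
  have he2 : e * e = 1 := by rw [← sq]; exact he
  -- first path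
  have P1 : Deform ω (fun x => ω x + (K * e) • θ) := by
    refine ⟨fun s x => ω x + (s * (K * e)) • θ, ?_, ?_, ?_, ?_⟩
    · refine plp_cd fun a b => ?_
      simp only [_root_.add_apply, _root_.smul_apply, smul_eq_mul]
      exact (plp_ap hsω a b).add ((contDiff_fst.mul contDiff_const).mul contDiff_const)
    · funext x; refine plp_ext fun a b => ?_
      simp only [_root_.add_apply, _root_.smul_apply, smul_eq_mul]
      ring
    · funext x; refine plp_ext fun a b => ?_
      simp only [_root_.add_apply, _root_.smul_apply, smul_eq_mul]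
      ring
    · intro s hs
      refine plp_symp (h.clo.add (clo_const (B := (s * (K * e)) • θ) ?_)) (e := e) fun x => ?_
      · intro a b
        have := hθa a b
        simp only [_root_.smul_apply, smul_eq_mul]
        rw [this]; ring
      · simp only []
        rw [plp_pf hθ0, hθ _ (h.alt x)]
        have h1 := hes x
        have h2 := (hp x).le
        have h3 : e * (pf (ω x) + s * (K * e) * ω x u v) = e * pf (ω x) + (e * e) * (s * K * ω x u v) := by
          ring
        rw [h3, he2, one_mul]
        have h4 : 0 ≤ s * K * ω x u v := mul_nonneg (mul_nonneg hs.1 hK0) h2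
        linarith
  -- second path
  have P2 : Deform (fun x => ω x + (K * e) • θ) (fun _ => avg ω + (K * e) • θ) := by
    refine ⟨fun s x => ((1 - s) • ω x + s • avg ω) + (K * e) • θ, ?_, ?_, ?_, ?_⟩
    · refine plp_cd fun a b => ?_
      simp only [_root_.add_apply, _root_.smul_apply, smul_eq_mul]
      exact (((contDiff_const.sub contDiff_fst).mul (plp_ap hsω a b)).add
        (contDiff_fst.mul contDiff_const)).add contDiff_const
    · funext x; refine plp_ext fun a b => ?_
      simp only [_root_.add_apply, _root_.smul_apply, smul_eq_mul]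
      ring
    · funext x; refine plp_ext fun a b => ?_
      simp only [_root_.add_apply, _root_.smul_apply, smul_eq_mul]
      ring
    · intro s hs
      have hal : Alt (s • avg ω) := by
        intro a b
        have := hAa a b
        simp only [_root_.smul_apply, smul_eq_mul]
        rw [this]; ring
      have hθal : Alt ((K * e) • θ) := by
        intro a b
        have := hθa a b
        simp only [_root_.smul_apply, smul_eq_mul]
        rw [this]; ring
      refine plp_symp (((h.clo.smul (1 - s)).add (clo_const hal)).add (clo_const hθal))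
        (e := e) fun x => ?_
      have hala : Alt ((1 - s) • ω x + s • avg ω) := by
        intro a b
        have h1 := h.alt x a b
        have h2 := hAa a b
        simp only [_root_.add_apply, _root_.smul_apply, smul_eq_mul]
        rw [h1, h2]; ring
      simp only []
      rw [plp_pf hθ0, hθ _ hala]
      have h1 := hCb s hs x
      simp only [Real.norm_eq_abs] at h1
      have h2 : D⁻¹ ≤ ((1 - s) • ω x + s • avg ω) u v := by
        simp only [_root_.add_apply, _root_.smul_apply, smul_eq_mul]
        have h3 := hlow x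
        have h4 : 0 ≤ 1 - s := by linarith [hs.2]
        have h5 : 0 ≤ s := hs.1
        nlinarith [mul_le_mul_of_nonneg_left h3 h4, mul_le_mul_of_nonneg_left hlowA h5]
      set P : ℝ := pf ((1 - s) • ω x + s • avg ω)
      set Q : ℝ := ((1 - s) • ω x + s • avg ω) u v
      have h3 : e * (P + K * e * Q) = e * P + (e * e) * (K * Q) := by ring
      rw [h3, he2, one_mul]
      have h4 : |e * P| ≤ C := by
        rw [abs_mul]
        have : |e| = 1 := by
          have := sq_abs e
          rw [he] at this
          nlinarith [abs_nonneg e]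
        rw [this, one_mul]; exact h1
      have h5 : K * D⁻¹ ≤ K * Q := mul_le_mul_of_nonneg_left h2 hK0
      rw [hKD] at h5
      have h6 := (abs_le.1 h4).1
      linarith
  exact ⟨_, P1.trans P2⟩

end VSI
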