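import Mathlib
import Pool.Agent.VSI.QW
import Pool.Agent.VSI.PFA
import Pool.Agent.VSI.NRM

/-!
# VSI / QP: forms positive on a plane in a coordinate hyperplane: cyclic coverings are enough
-/

set_option maxSynthPendingDepth 3

open Set MeasureTheory

namespace VSI

theorem qp_cd {E : Type} [NormedAddCommGroup E] [NormedSpace ℝ E] {f : E → Form}
    (h : ∀ a b : V, ContDiff ℝ (⊤ : ℕ∞) (fun p => f p a b)) : ContDiff ℝ (⊤ : ℕ∞) f :=
  contDiff_clm_apply_iff.2 fun a => contDiff_clm_apply_iff.2 fun b => h a b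

theorem qp_ap {E : Type} [NormedAddCommGroup E] [NormedSpace ℝ E] {f : E → Form}
    (h : ContDiff ℝ (⊤ : ℕ∞) f) (a b : V) : ContDiff ℝ (⊤ : ℕ∞) (fun p => f p a b) :=
  contDiff_clm_apply_iff.1 (contDiff_clm_apply_iff.1 h a) b

theorem qp_ext {B C : Form} (h : ∀ a b : V, B a b = C a b) : B = C :=
  ContinuousLinearMap.ext fun a => ContinuousLinearMap.ext fun b => h a b

theorem qp_pf {B θ : Form} (hθ : pf θ = 0) (r : ℝ) : pf (B + r • θ) = pf B + r * pq B θ := by
  rw [pf_add, pf_smul, pq_smul, hθ]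
  ring

theorem qp_dd_smul {μ : V → Cov} (hμ : Differentiable ℝ μ) (r : ℝ) (x : V) :
    dd (fun y => r • μ y) x = r • dd μ x := by
  refine qp_ext fun a b => ?_
  have h1 : fderiv ℝ (fun y => r • μ y) x = r • fderiv ℝ μ x := fderiv_fun_const_smul (hμ x) r
  simp only [dd_apply, _root_.smul_apply, smul_eq_mul, h1]
  ring

/-- The derivative of a family which is periodic in the second variable. -/
theorem qp_per {F : Type} [NormedAddCommGroup F] [NormedSpace ℝ F] {L : ℝ × V → F}
    (hp : ∀ t, Per (fun x => L (t, x))) (t : ℝ) : Per (fun x => fderiv ℝ L (t, x)) := by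
  intro x n
  have h1 : (fun p : ℝ × V => L (p + ((0 : ℝ), (fun i => (n i : ℝ) : V)))) = L := by
    funext p
    have h2 : p + ((0 : ℝ), (fun i => (n i : ℝ) : V)) = (p.1, p.2 + fun i => (n i : ℝ)) := by
      ext <;> simp
    rw [h2]
    exact hp p.1 p.2 n
  have h3 := fderiv_comp_add_right (𝕜 := ℝ) (f := L) (x := (t, x))
    ((0 : ℝ), (fun i => (n i : ℝ) : V))
  rw [h1] at h3
  have h4 : ((t, x) : ℝ × V) + ((0 : ℝ), (fun i => (n i : ℝ) : V)) = (t, x + fun i => (n i : ℝ)) := by
    ext <;> simp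
  rw [h4] at h3
  exact h3.symm

theorem qp_perN {F : Type} {f : V → F} (h : Per f) (n : Fin 4 → ℕ) : PerN n f := by
  intro x k
  have := h x (fun i => (n i : ℤ) * k i)
  simpa using this

/-- Proof: `θ` from `exists_dual_kill j u v`, `ε` the sign of the Pfaffian, `K` large.  Apply `wallN` with
`a t = A + (ρ t * K * ε) • θ`, `ρ t = S (3 t) - S (3 t - 2)`, and `L (t, x) = (1 - S (3 t - 1)) • μ x`, `μ` the
primitive of `ω` (`Clo.exists_prim`). -/
theorem plane_cyclic (j : Fin 4) {A : Form} {ω : V → Form} (hω : Symp A ω) {u v : V} (hu : u j = 0)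
    (hv : v j = 0) (hp : ∀ x, 0 < ω x u v) :
    ∃ c > 0, ∃ E > 0, ∃ N : ℕ, ∀ n : Fin 4 → ℕ, (∀ i, 0 < n i) → N ≤ n j →
      JQ n A c E ω (fun _ => A) := by
  have h := hω.1
  have hc : Continuous ω := h.smooth.continuous
  have hav : avg ω = A := (cls_iff hc A).1 hω.2
  obtain ⟨θ, hθa, hθ0, hθ, hθk⟩ := exists_dual_kill j u v hu hv
  have hAa : Alt A := hav ▸ avg_alt hc h.alt
  have hcuv : Continuous fun x => ω x u v := by
    have h1 : Continuous fun x => ω x u := hc.clm_apply continuous_const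
    exact h1.clm_apply continuous_const
  -- the sign
  obtain ⟨e, he, hes, heA⟩ : ∃ e : ℝ, e ^ 2 = 1 ∧ (∀ x, 0 < e * pf (ω x)) ∧ 0 < e * pf A := by
    rcases lt_trichotomy (pf A) 0 with h1 | h1 | h1
    · refine ⟨-1, by norm_num, fun x => ?_, by linarith⟩
      have := h.pf_mul_pos x
      rw [hav] at this
      nlinarith
    · have := h.pf_mul_pos 0
      rw [hav, h1, mul_zero] at this
      exact absurd this (lt_irrefl _)
    · refine ⟨1, by norm_num, fun x => ?_, by linarith⟩
      have := h.pf_mul_pos x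
      rw [hav] at this
      rw [one_mul]
      exact (pos_iff_pos_of_mul_pos this).2 h1
  -- lower bound of `ω u v`
  obtain ⟨D, hD, hDb⟩ := bound_compact (F := ℝ) (Φ := fun p : ℝ × V => (ω p.2 u v)⁻¹)
    ((hcuv.comp continuous_snd).inv₀ fun p => (hp p.2).ne')
    (fun t _ x n => by simp only [h.per])
  have hlow : ∀ x, D⁻¹ ≤ ω x u v := by
    intro x
    have h1 := hDb 0 (by simp) x
    simp only [norm_inv, Real.norm_eq_abs, abs_of_pos (hp x)] at h1
    exact inv_le_of_inv_le₀ (hp x) h1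
  have hlowA : D⁻¹ ≤ A u v := by
    rw [← hav, avg_apply hc]
    have h1 : ∫ _x in Icc (0 : V) 1, D⁻¹ = D⁻¹ := integral_const_cube _
    rw [← h1]
    refine setIntegral_mono_on ?_ ?_ measurableSet_Icc fun x _ => hlow x
    · exact (continuous_const.continuousOn).integrableOn_compact isCompact_Icc
    · exact (hcuv.continuousOn).integrableOn_compact isCompact_Icc
  have hsω : ContDiff ℝ (⊤ : ℕ∞) (fun p : ℝ × V => ω p.2) := h.smooth.comp contDiff_snd
  -- bound of the Pfaffian
  obtain ⟨C, hC, hCb⟩ := bound_compact (F := ℝ)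
    (Φ := fun p : ℝ × V => pf ((1 - p.1) • ω p.2 + p.1 • A))
    (continuous_pf.comp (qp_cd fun a b => by
      simp only [_root_.add_apply, _root_.smul_apply, smul_eq_mul]
      exact ((contDiff_const.sub contDiff_fst).mul (qp_ap hsω a b)).add
        (contDiff_fst.mul contDiff_const)).continuous)
    (fun t _ x n => by simp only [h.per])
  set K : ℝ := D * (C + 1) with hK
  have hK0 : 0 ≤ K := by positivity
  have hKD : K * D⁻¹ = C + 1 := by rw [hK]; field_simp
  have he2 : e * e = 1 := by rw [← sq]; exact he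
  have hab : |e| = 1 := by
    have := sq_abs e
    rw [he] at this
    nlinarith [abs_nonneg e]
  -- the path
  let S : ℝ → ℝ := Real.smoothTransition
  have hS : ContDiff ℝ (⊤ : ℕ∞) S := Real.smoothTransition.contDiff
  have hS0 : ∀ t, t ≤ 0 → S t = 0 := fun t ht => Real.smoothTransition.zero_of_nonpos ht
  have hS1 : ∀ t, 1 ≤ t → S t = 1 := fun t ht => Real.smoothTransition.one_of_one_le ht
  have hSn : ∀ t, 0 ≤ S t := fun t => Real.smoothTransition.nonneg t
  have hSl : ∀ t, S t ≤ 1 := fun t => Real.smoothTransition.le_one t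
  let ρ : ℝ → ℝ := fun t => S (3 * t) - S (3 * t - 2)
  let τ : ℝ → ℝ := fun t => S (3 * t - 1)
  have hρ : ContDiff ℝ (⊤ : ℕ∞) ρ :=
    (hS.comp (contDiff_const.mul contDiff_id)).sub
      (hS.comp ((contDiff_const.mul contDiff_id).sub contDiff_const))
  have hτ : ContDiff ℝ (⊤ : ℕ∞) τ := hS.comp ((contDiff_const.mul contDiff_id).sub contDiff_const)
  have hρn : ∀ t, 0 ≤ ρ t := by
    intro t
    show 0 ≤ S (3 * t) - S (3 * t - 2)
    rcases le_total (3 * t) 1 with h1 | h1
    · rw [hS0 (3 * t - 2) (by linarith), sub_zero]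
      exact hSn _
    · rw [hS1 (3 * t) h1]
      linarith [hSl (3 * t - 2)]
  obtain ⟨μ, hμ, hμp, hμω⟩ := h.clo.exists_prim
  rw [hav] at hμω
  let a : ℝ → Form := fun t => A + (ρ t * (K * e)) • θ
  let L : ℝ × V → Cov := fun p => (1 - τ p.1) • μ p.2
  have hL : ContDiff ℝ (⊤ : ℕ∞) L :=
    (contDiff_const.sub (hτ.comp contDiff_fst)).smul (hμ.comp contDiff_snd)
  have hLp : ∀ t, Per (fun x => L (t, x)) := by
    intro t x n
    show (1 - τ t) • μ _ = (1 - τ t) • μ x
    rw [hμp x n]
  have hform : ∀ t x, a t + dd (fun y => L (t, y)) x =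
      ((1 - τ t) • ω x + τ t • A) + (ρ t * (K * e)) • θ := by
    intro t x
    have h1 : dd (fun y => L (t, y)) x = (1 - τ t) • dd μ x :=
      qp_dd_smul (hμ.differentiable (by simp)) (1 - τ t) x
    rw [h1]
    show A + (ρ t * (K * e)) • θ + (1 - τ t) • dd μ x = _
    refine qp_ext fun y z => ?_
    have h2 : ω x y z = A y z + dd μ x y z := by rw [hμω x]; rfl
    simp only [_root_.add_apply, _root_.smul_apply, smul_eq_mul]
    rw [h2]
    ring
  -- nondegeneracy
  have halt : ∀ t x, Alt ((1 - τ t) • ω x + τ t • A) := fun t x =>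
    alt_add (alt_smul (h.alt x) _) (alt_smul hAa _)
  have hnd : ∀ t x, 0 < e * pf (((1 - τ t) • ω x + τ t • A) + (ρ t * (K * e)) • θ) := by
    intro t x
    rw [qp_pf hθ0, hθ _ (halt t x)]
    have h3 : e * (pf ((1 - τ t) • ω x + τ t • A) + ρ t * (K * e) *
        ((1 - τ t) • ω x + τ t • A) u v) = e * pf ((1 - τ t) • ω x + τ t • A) +
        (e * e) * (ρ t * (K * ((1 - τ t) • ω x + τ t • A) u v)) := by ring
    rw [h3, he2, one_mul]
    have hτ0 : 0 ≤ τ t := hSn _
    have hτ1 : τ t ≤ 1 := hSl _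
    have h2 : D⁻¹ ≤ ((1 - τ t) • ω x + τ t • A) u v := by
      simp only [_root_.add_apply, _root_.smul_apply, smul_eq_mul]
      have h4 : 0 ≤ 1 - τ t := by linarith
      nlinarith [mul_le_mul_of_nonneg_left (hlow x) h4, mul_le_mul_of_nonneg_left hlowA hτ0]
    have h5 : K * D⁻¹ ≤ K * ((1 - τ t) • ω x + τ t • A) u v := mul_le_mul_of_nonneg_left h2 hK0
    rw [hKD] at h5
    have h6 : 0 ≤ ρ t * (K * ((1 - τ t) • ω x + τ t • A) u v) :=
      mul_nonneg (hρn t) (by linarith)
    rcases le_or_gt (3 * t) 1 with h7 | h7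
    · have h8 : τ t = 0 := hS0 _ (by linarith)
      have h9 : (1 - τ t) • ω x + τ t • A = ω x := by rw [h8]; simp
      rw [h9] at h6 ⊢
      linarith [hes x]
    rcases le_or_gt 2 (3 * t) with h10 | h10
    · have h8 : τ t = 1 := hS1 _ (by linarith)
      have h9 : (1 - τ t) • ω x + τ t • A = A := by rw [h8]; simp
      rw [h9] at h6 ⊢
      linarith
    · have h11 : ρ t = 1 := by
        show S (3 * t) - S (3 * t - 2) = 1
        rw [hS1 _ h7.le, hS0 _ (by linarith), sub_zero]
      rw [h11, one_mul]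
      have h12 := hCb (τ t) ⟨hτ0, hτ1⟩ x
      simp only [Real.norm_eq_abs] at h12
      have h13 : |e * pf ((1 - τ t) • ω x + τ t • A)| ≤ C := by
        rw [abs_mul, hab, one_mul]; exact h12
      linarith [(abs_le.1 h13).1]
  have hΦc : Continuous fun p : ℝ × V => a p.1 + dd (fun y => L (p.1, y)) p.2 := by
    simp only [hform]
    refine (qp_cd fun x y => ?_).continuous
    simp only [_root_.add_apply, _root_.smul_apply, smul_eq_mul]
    exact (((contDiff_const.sub (hτ.comp contDiff_fst)).mul (qp_ap hsω x y)).add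
      ((hτ.comp contDiff_fst).mul contDiff_const)).add
      (((hρ.comp contDiff_fst).mul contDiff_const).mul contDiff_const)
  obtain ⟨c, hc0, hcm⟩ := margin_compact hΦc
    (fun t _ x n => by simp only [hform, h.per])
    (fun t _ x => by
      simp only [hform]
      refine (nondeg_iff_pf (alt_add (halt t x) (alt_smul hθa _))).2 fun h0 => ?_
      have := hnd t x
      rw [h0, mul_zero] at this
      exact lt_irrefl _ this)
  obtain ⟨E, hE0, hE⟩ := bound_compact (F := Cov)
    (Φ := fun p : ℝ × V => fderiv ℝ L p (1, 0))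
    ((hL.continuous_fderiv (by simp)).clm_apply continuous_const)
    (fun t _ x n => by
      show fderiv ℝ L (t, x + fun i => (n i : ℝ)) (1, 0) = fderiv ℝ L (t, x) (1, 0)
      have := qp_per hLp t x n
      simp only at this
      rw [this])
  have hρ0 : ρ 0 = 0 := by
    show S (3 * 0) - S (3 * 0 - 2) = 0
    rw [hS0 _ (by norm_num), hS0 _ (by norm_num), sub_zero]
  have hρ1 : ρ 1 = 0 := by
    show S (3 * 1) - S (3 * 1 - 2) = 0
    rw [hS1 _ (by norm_num), hS1 _ (by norm_num), sub_self]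
  have hτ0 : τ 0 = 0 := hS0 _ (by norm_num)
  have hτ1 : τ 1 = 1 := hS1 _ (by norm_num)
  obtain ⟨c', hc', E', hE', N, hN⟩ := wallN j hc0 hE0 (A := A) (a := a)
    (contDiff_const.add ((hρ.mul contDiff_const).smul contDiff_const))
    (fun t => alt_add hAa (alt_smul hθa _))
    (by show A + (ρ 0 * (K * e)) • θ = A; rw [hρ0, zero_mul, zero_smul, add_zero])
    (by show A + (ρ 1 * (K * e)) • θ = A; rw [hρ1, zero_mul, zero_smul, add_zero])
    (fun t _ y z hy hz => by
      show A y z + (ρ t * (K * e)) * θ y z = A y z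
      rw [hθk y z hy hz, mul_zero, add_zero])
  refine ⟨c', hc', E', hE', N, fun n hn hnj => ?_⟩
  have h1 := hN n hn hnj L hL (fun t => qp_perN (hLp t) n) hcm hE
  have h2 : (fun x => A + dd (fun y => L (0, y)) x) = ω := by
    funext x
    have h3 : dd (fun y => L (0, y)) x = (1 - τ 0) • dd μ x :=
      qp_dd_smul (hμ.differentiable (by simp)) (1 - τ 0) x
    rw [h3, hτ0, sub_zero, one_smul, ← hμω x]
  have h4 : (fun x => A + dd (fun y => L (1, y)) x) = fun _ => A := by
    funext x
    have h3 : dd (fun y => L (1, y)) x = (1 - τ 1) • dd μ x :=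
      qp_dd_smul (hμ.differentiable (by simp)) (1 - τ 1) x
    rw [h3, hτ1, sub_self, zero_smul, add_zero]
  rwa [h2, h4] at h1

end VSI
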