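import Mathlib
import Pool.Agent.VSI.QI
import Pool.Agent.VSI.QP
import Pool.Agent.VSI.QF
import Pool.Agent.VSI.PLP

/-!
# VSI / QFIN: the main theorems, second version
-/

set_option maxSynthPendingDepth 3

open Set MeasureTheory

namespace VSI

theorem Symp.alt_class {A : Form} {ω : V → Form} (h : Symp A ω) : Alt A := by
  have h1 : avg ω = A := (cls_iff h.1.smooth.continuous A).1 h.2
  exact h1 ▸ avg_alt h.1.smooth.continuous fun x u v => h.1.alt x u v

theorem main_cvr {A : Form} {ω η : V → Form} (hω : Symp A ω) (hd : Deform ω η)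
    (hp : ∃ u v : V, ∀ x, 0 < η x u v) (i₀ : Fin 4) :
    ∃ N : ℕ, ∀ n : Fin 4 → ℕ, (∀ i, 0 < n i) → (∀ i, i ≠ i₀ → N ≤ n i) →
      Joined (pul n A) (cvr n ω) (fun _ => pul n A) := by
  have hη : IsSymp η := by
    obtain ⟨Ω, _, _, h1, h2⟩ := hd
    exact h1 ▸ h2 1 (right_mem_Icc.2 zero_le_one)
  obtain ⟨u, v, huv⟩ := hp
  obtain ⟨B, hB⟩ := deform_of_plane hη huv
  obtain ⟨c, hc, E, _, N, hN⟩ := uj_of_deform_const hω (hd.trans hB) i₀
  refine ⟨N, fun n hn hn' => ?_⟩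
  have := (hN n ⟨hn, hn'⟩).joined hn hω.alt_class hc
  rwa [cvr_const] at this

theorem main_rep {A : Form} {ω η : V → Form} (hω : Symp A ω) (hd : Deform ω η)
    (hp : ∃ u v : V, ∀ x, 0 < η x u v) :
    ∃ N : ℕ, ∀ m : ℕ, N ≤ m → Joined A (rep m ω) (fun _ => A) := by
  obtain ⟨N, hN⟩ := main_cvr hω hd hp 0
  refine ⟨N + 1, fun m hm => ?_⟩
  have h1 := hN (fun _ => m) (fun _ => by omega) (fun _ _ => by omega)
  rw [← cvr_const] at h1
  exact joined_rep_of_cvr (by omega) h1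

theorem main_plane (j : Fin 4) {A : Form} {ω : V → Form} (hω : Symp A ω) {u v : V} (hu : u j = 0)
    (hv : v j = 0) (hp : ∀ x, 0 < ω x u v) :
    ∃ N : ℕ, ∀ n : Fin 4 → ℕ, (∀ i, 0 < n i) → N ≤ n j →
      Joined (pul n A) (cvr n ω) (fun _ => pul n A) := by
  obtain ⟨c, hc, E, _, N, hN⟩ := plane_cyclic j hω hu hv hp
  refine ⟨N, fun n hn hn' => ?_⟩
  have := (hN n hn hn').joined hn hω.alt_class hc
  rwa [cvr_const] at this

end VSI
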