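import Mathlib
import Pool.Agent.VSI.St
import Pool.Agent.VSI.QFIN

/-!
# VSI / StEq: the definitions of the statements agree with the ones of the proofs
-/

set_option maxSynthPendingDepth 3

open Set MeasureTheory

namespace VSI

theorem st_der {ω : V → Form} (h : ContDiff ℝ (⊤ : ℕ∞) ω) (x u v w : V) :
    St.der ω x u v w = fderiv ℝ ω x u v w := by
  have h1 : HasFDerivAt ω (fderiv ℝ ω x) (x + (0 : ℝ) • u) := by
    rw [zero_smul, add_zero]
    exact (h.differentiable (by simp)).differentiableAt.hasFDerivAt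
  have h2 : HasDerivAt (fun t : ℝ => x + t • u) u 0 := by
    have := ((hasDerivAt_id (0 : ℝ)).smul_const u).const_add x
    simpa using this
  have h3 := h1.comp_hasDerivAt (0 : ℝ) h2
  have h4 := (ContinuousLinearMap.apply ℝ Cov v).hasFDerivAt.comp_hasDerivAt (0 : ℝ) h3
  have h5 := (ContinuousLinearMap.apply ℝ ℝ w).hasFDerivAt.comp_hasDerivAt (0 : ℝ) h4
  exact h5.deriv

theorem st_symplectic {ω : V → Form} : St.Symplectic ω ↔ IsSymp ω := by
  constructor
  · intro h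
    refine ⟨⟨h.smooth, h.periodic, h.alternating, fun x u v w => ?_⟩, h.nondegenerate⟩
    have := h.closed x u v w
    rwa [st_der h.smooth, st_der h.smooth, st_der h.smooth] at this
  · intro h
    refine ⟨h.smooth, h.per, h.alt, fun x u v w => ?_, h.nondeg⟩
    rw [st_der h.smooth, st_der h.smooth, st_der h.smooth]
    exact h.closed x u v w

theorem st_sympIn {A : Form} {ω : V → Form} : St.SympIn A ω ↔ Symp A ω := by
  constructor
  · rintro ⟨h1, h2⟩
    exact ⟨st_symplectic.1 h1, h2⟩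
  · rintro ⟨h1, h2⟩
    exact ⟨st_symplectic.2 h1, h2⟩

theorem st_joined {A : Form} {ω₀ ω₁ : V → Form} : St.JoinedIn A ω₀ ω₁ ↔ Joined A ω₀ ω₁ := by
  constructor
  · rintro ⟨Ω, h1, h2, h3, h4⟩
    exact ⟨Ω, h1, h2, h3, fun t ht => st_sympIn.1 (h4 t ht)⟩
  · rintro ⟨Ω, h1, h2, h3, h4⟩
    exact ⟨Ω, h1, h2, h3, fun t ht => st_sympIn.2 (h4 t ht)⟩

theorem st_deform {ω₀ ω₁ : V → Form} : St.Deformable ω₀ ω₁ ↔ Deform ω₀ ω₁ := by
  constructor
  · rintro ⟨Ω, h1, h2, h3, h4⟩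
    exact ⟨Ω, h1, h2, h3, fun t ht => st_symplectic.1 (h4 t ht)⟩
  · rintro ⟨Ω, h1, h2, h3, h4⟩
    exact ⟨Ω, h1, h2, h3, fun t ht => st_symplectic.2 (h4 t ht)⟩

theorem st_diag (n : Fin 4 → ℕ) : St.diag n = dg n := rfl

theorem st_pullConst (n : Fin 4 → ℕ) (B : Form) : St.pullConst n B = pul n B := rfl

theorem st_pull (n : Fin 4 → ℕ) (ω : V → Form) : St.pull n ω = cvr n ω := rfl

end VSI
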