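import Mathlib
import Pool.Agent.VSI.St

/-!
# VSI / StB: symplectic forms with uniform bounds

Norms of vectors are maximum norms.
-/

set_option maxSynthPendingDepth 3

namespace VSI.St

/-- the form is bounded by `Λ` everywhere -/
def Upper (Λ : ℝ) (ω : V → Form) : Prop := ∀ x u v, |val (ω x) u v| ≤ Λ * ‖u‖ * ‖v‖

/-- the form is nondegenerate with margin `c` everywhere -/
def Lower (c : ℝ) (ω : V → Form) : Prop := ∀ x v, ∃ w : V, ‖w‖ ≤ 1 ∧ c * ‖v‖ ≤ val (ω x) v w

/-- the form is at least `h` on some constant plane, spanned by vectors of norm at most one -/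
def PlaneLower (h : ℝ) (ω : V → Form) : Prop :=
  ∃ u v : V, ‖u‖ ≤ 1 ∧ ‖v‖ ≤ 1 ∧ ∀ x, h ≤ val (ω x) u v

/-- symplectic forms in the class `A` with the bounds `Λ`, `c` and `h` -/
structure Bounded (A : Form) (Λ c h : ℝ) (ω : V → Form) : Prop where
  symp : SympIn A ω
  upper : Upper Λ ω
  lower : Lower c ω
  plane : PlaneLower h ω

end VSI.St
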