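import Mathlib
import Pool.Agent.VSI.Defs

/-!
# VSI / RDefs: integer covectors, uniform bounds

The modules `R*` prove the uniform theorems for symplectic forms that are positive on some constant plane:
proximity (forms in the same class whose difference has a small primitive are joined), finiteness of the number of
components that contain forms with given bounds, and a uniform covering degree.
-/

set_option maxSynthPendingDepth 3

open Set MeasureTheory

namespace VSI

/-- the covector with integer coefficients `ℓ` -/
noncomputable def lin (ℓ : Fin 4 → ℤ) : Cov := ∑ i, (ℓ i : ℝ) • ep i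

theorem lin_apply (ℓ : Fin 4 → ℤ) (u : V) : lin ℓ u = ∑ i, (ℓ i : ℝ) * u i := by
  simp [lin]

/-- symplectic forms in the class `A` with the bounds `Λ` and `c`, at least `h` on the plane of `u`, `v` -/
structure BPos (A : Form) (Λ c h : ℝ) (u v : V) (ω : V → Form) : Prop where
  symp : Symp A ω
  up : ∀ x, ‖ω x‖ ≤ Λ
  lo : ∀ x, Margin c (ω x)
  pos : ∀ x, h ≤ ω x u v

end VSI
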