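import Mathlib
import Pool.Agent.VSI.PFL
import Pool.Agent.VSI.MRG
import Pool.Agent.VSI.RDefs

/-!
# VSI / RC: Pfaffian and margin, uniformly
-/

set_option maxSynthPendingDepth 3

open Set MeasureTheory

namespace VSI

private theorem rc_row_norm (B : Form) (i : Fin 4) : ‖pfl_row B i‖ ≤ ‖B‖ := by
  have h := abs_bb_le B
  have h0 := norm_nonneg B
  refine (pi_norm_le_iff_of_nonneg h0).2 fun k => ?_
  rw [Real.norm_eq_abs]
  fin_cases i <;> fin_cases k <;> simp [pfl_row, h, h0]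

private theorem rc_row_entry (B : Form) (i k : Fin 4) : |pfl_row B i k| ≤ ‖pfl_row B i‖ := by
  have h := norm_le_pi_norm (pfl_row B i) k
  rwa [Real.norm_eq_abs] at h

/-- Compactness of the set of alternating forms with `‖B‖ ≤ Λ` and margin `c`. -/
theorem exists_pf_lower {Λ c : ℝ} (hc : 0 < c) :
    ∃ p > 0, ∀ B : Form, Alt B → ‖B‖ ≤ Λ → Margin c B → p ≤ |pf B| := by
  refine ⟨c ^ 2 / 3, by positivity, ?_⟩
  intro B hB _ hm
  have h1 : ∀ i, c * ‖pfl_row B i‖ ≤ |pf B| := by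
    intro i
    refine (hm _).trans ?_
    refine ContinuousLinearMap.opNorm_le_bound _ (abs_nonneg _) fun w => ?_
    rw [pfl_row_apply hB, Real.norm_eq_abs, abs_mul, abs_neg]
    refine mul_le_mul_of_nonneg_left ?_ (abs_nonneg _)
    have h := norm_le_pi_norm w i
    rwa [Real.norm_eq_abs] at h
  have h2 : ∀ i k, c * |pfl_row B i k| ≤ |pf B| := fun i k =>
    (mul_le_mul_of_nonneg_left (rc_row_entry B i k) hc.le).trans (h1 i)
  have h01 : c * |bb B 0 1| ≤ |pf B| := by simpa [pfl_row] using h2 2 3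
  have h02 : c * |bb B 0 2| ≤ |pf B| := by simpa [pfl_row] using h2 3 1
  have h03 : c * |bb B 0 3| ≤ |pf B| := by simpa [pfl_row] using h2 1 2
  have h3 := hm (Pi.single 0 1)
  have h4 : ‖(Pi.single 0 1 : V)‖ = 1 := by
    rw [Pi.norm_single (G := fun _ : Fin 4 => ℝ)]; simp
  rw [h4, mul_one] at h3
  have h5 : ‖B (Pi.single 0 1)‖ ≤ |bb B 0 1| + |bb B 0 2| + |bb B 0 3| := by
    refine ContinuousLinearMap.opNorm_le_bound _ (by positivity) fun w => ?_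
    have h6 : B (Pi.single 0 1) w = bb B 0 1 * w 1 + bb B 0 2 * w 2 + bb B 0 3 * w 3 := by
      rw [alt_apply hB]
      simp
    rw [h6, Real.norm_eq_abs]
    have h7 : ∀ i, |w i| ≤ ‖w‖ := fun i => by
      have h := norm_le_pi_norm w i
      rwa [Real.norm_eq_abs] at h
    calc |bb B 0 1 * w 1 + bb B 0 2 * w 2 + bb B 0 3 * w 3|
        ≤ |bb B 0 1 * w 1| + |bb B 0 2 * w 2| + |bb B 0 3 * w 3| := abs_add_three _ _ _
      _ = |bb B 0 1| * |w 1| + |bb B 0 2| * |w 2| + |bb B 0 3| * |w 3| := by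
          rw [abs_mul, abs_mul, abs_mul]
      _ ≤ |bb B 0 1| * ‖w‖ + |bb B 0 2| * ‖w‖ + |bb B 0 3| * ‖w‖ := by
          gcongr <;> exact h7 _
      _ = (|bb B 0 1| + |bb B 0 2| + |bb B 0 3|) * ‖w‖ := by ring
  have h8 : c * c ≤ c * (|bb B 0 1| + |bb B 0 2| + |bb B 0 3|) :=
    mul_le_mul_of_nonneg_left (h3.trans h5) hc.le
  nlinarith

/-- Compactness of the set of pairs `(B, v)`, `‖B‖ ≤ Λ`, `p ≤ |pf B|`, `‖v‖ = 1`. -/
theorem exists_margin_of_pf {Λ p : ℝ} (hp : 0 < p) :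
    ∃ c > 0, ∀ B : Form, Alt B → ‖B‖ ≤ Λ → p ≤ |pf B| → Margin c B := by
  have hL : 0 < |Λ| + 1 := by positivity
  refine ⟨p / (|Λ| + 1), by positivity, ?_⟩
  intro B hB hn hpB v
  rw [div_mul_eq_mul_div, div_le_iff₀ hL]
  have h1 : ∀ i, |pf B| * |v i| ≤ ‖B v‖ * (|Λ| + 1) := by
    intro i
    have h2 : |pf B| * |v i| = |B v (pfl_row B i)| := by
      rw [hB v, pfl_row_apply hB, abs_neg, abs_mul, abs_neg]
    rw [h2]
    have h3 := (B v).le_opNorm (pfl_row B i)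
    rw [Real.norm_eq_abs] at h3
    refine h3.trans (mul_le_mul_of_nonneg_left ?_ (norm_nonneg _))
    have h4 := rc_row_norm B i
    have h5 := le_abs_self Λ
    linarith
  have h6 : ‖v‖ ≤ ‖B v‖ * (|Λ| + 1) / p := by
    refine (pi_norm_le_iff_of_nonneg (by positivity)).2 fun i => ?_
    rw [Real.norm_eq_abs, le_div_iff₀ hp]
    calc |v i| * p ≤ |v i| * |pf B| := mul_le_mul_of_nonneg_left hpB (abs_nonneg _)
      _ = |pf B| * |v i| := mul_comm _ _
      _ ≤ _ := h1 i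
  rw [le_div_iff₀ hp] at h6
  linarith

theorem abs_pf_le (B : Form) : |pf B| ≤ 3 * ‖B‖ ^ 2 := by
  have h := abs_bb_le B
  have h0 := norm_nonneg B
  have h1 : ∀ i j k l, |bb B i j * bb B k l| ≤ ‖B‖ ^ 2 := by
    intro i j k l
    rw [abs_mul, pow_two]
    exact mul_le_mul (h _ _) (h _ _) (abs_nonneg _) h0
  unfold pf
  calc |bb B 0 1 * bb B 2 3 - bb B 0 2 * bb B 1 3 + bb B 0 3 * bb B 1 2|
      ≤ |bb B 0 1 * bb B 2 3 - bb B 0 2 * bb B 1 3| + |bb B 0 3 * bb B 1 2| := abs_add_le _ _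
    _ ≤ (|bb B 0 1 * bb B 2 3| + |bb B 0 2 * bb B 1 3|) + |bb B 0 3 * bb B 1 2| := by
        gcongr
        exact abs_sub _ _
    _ ≤ 3 * ‖B‖ ^ 2 := by linarith [h1 0 1 2 3, h1 0 2 1 3, h1 0 3 1 2]

end VSI
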