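import Mathlib
import Pool.Agent.VSI.PFL
import Pool.Agent.VSI.MRG
import Pool.Agent.VSI.RDefs

/-!
# VSI / RD: the dual form of a plane, with bounds
-/

set_option maxSynthPendingDepth 3

open Set MeasureTheory

namespace VSI

private theorem rd_minor (u v : V) (i j : Fin 4) : |u i * v j - u j * v i| ≤ 2 * (‖u‖ * ‖v‖) := by
  have h1 : ∀ (w : V) i, |w i| ≤ ‖w‖ := fun w i => by
    have h := norm_le_pi_norm w i
    rwa [Real.norm_eq_abs] at h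
  have h2 : ∀ i j, |u i * v j| ≤ ‖u‖ * ‖v‖ := fun i j => by
    rw [abs_mul]
    exact mul_le_mul (h1 u i) (h1 v j) (abs_nonneg _) (norm_nonneg _)
  calc |u i * v j - u j * v i| ≤ |u i * v j| + |u j * v i| := abs_sub _ _
    _ ≤ _ := by linarith [h2 i j, h2 j i]

private theorem rd_term (u v : V) (i j k l : Fin 4) :
    ‖((u i * v j - u j * v i) • eb k l : Form)‖ ≤ 4 * (‖u‖ * ‖v‖) := by
  rw [norm_smul, Real.norm_eq_abs]
  have h1 := rd_minor u v i j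
  have h2 := norm_eb_le k l
  have h3 : |u i * v j - u j * v i| * ‖eb k l‖ ≤ (2 * (‖u‖ * ‖v‖)) * 2 :=
    mul_le_mul h1 h2 (norm_nonneg _) (by positivity)
  linarith

/-- The dual form `pfl_dual u v`.  It is `(x, y) ↦ det (u, v, x, y)`; if all four vectors are in the kernel of
`lin ℓ`, `ℓ ≠ 0`, then the determinant vanishes (`Matrix.exists_mulVec_eq_zero_iff`). -/
theorem exists_dual_lin (ℓ : Fin 4 → ℤ) (hℓ : ℓ ≠ 0) (u v : V) (hu : lin ℓ u = 0) (hv : lin ℓ v = 0) :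
    ∃ θ : Form, Alt θ ∧ pf θ = 0 ∧ (∀ B : Form, Alt B → pq B θ = B u v) ∧
      (∀ x y : V, lin ℓ x = 0 → lin ℓ y = 0 → θ x y = 0) ∧ ‖θ‖ ≤ 24 * (‖u‖ * ‖v‖) := by
  refine ⟨pfl_dual u v, pfl_dual_alt u v, pfl_dual_pf u v, fun _ hB => pfl_dual_pq u v hB, ?_, ?_⟩
  · intro x y hx hy
    rw [lin_apply, Fin.sum_univ_four] at hu hv hx hy
    have hd : pfl_dual u v x y =
        (u 2 * v 3 - u 3 * v 2) * (x 0 * y 1 - x 1 * y 0)
          + -(u 1 * v 3 - u 3 * v 1) * (x 0 * y 2 - x 2 * y 0)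
          + (u 1 * v 2 - u 2 * v 1) * (x 0 * y 3 - x 3 * y 0)
          + (u 0 * v 3 - u 3 * v 0) * (x 1 * y 2 - x 2 * y 1)
          + -(u 0 * v 2 - u 2 * v 0) * (x 1 * y 3 - x 3 * y 1)
          + (u 0 * v 1 - u 1 * v 0) * (x 2 * y 3 - x 3 * y 2) := by
      rw [alt_apply (pfl_dual_alt u v), pfl_dual_01, pfl_dual_02, pfl_dual_03, pfl_dual_12,
        pfl_dual_13, pfl_dual_23]
    rw [hd]
    obtain ⟨i, hi⟩ : ∃ i, ℓ i ≠ 0 := by
      by_contra h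
      push Not at h
      exact hℓ (funext h)
    have hi' : (ℓ i : ℝ) ≠ 0 := by exact_mod_cast hi
    refine (mul_eq_zero.1 (?_ : (ℓ i : ℝ) * _ = 0)).resolve_left hi'
    have hcases : i = 0 ∨ i = 1 ∨ i = 2 ∨ i = 3 := by
      fin_cases i <;> simp
    rcases hcases with rfl | rfl | rfl | rfl
    · linear_combination
        (v 1 * (x 2 * y 3 - x 3 * y 2) - v 2 * (x 1 * y 3 - x 3 * y 1)
          + v 3 * (x 1 * y 2 - x 2 * y 1)) * hu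
        - (u 1 * (x 2 * y 3 - x 3 * y 2) - u 2 * (x 1 * y 3 - x 3 * y 1)
          + u 3 * (x 1 * y 2 - x 2 * y 1)) * hv
        + (y 1 * (u 2 * v 3 - u 3 * v 2) - y 2 * (u 1 * v 3 - u 3 * v 1)
          + y 3 * (u 1 * v 2 - u 2 * v 1)) * hx
        - (x 1 * (u 2 * v 3 - u 3 * v 2) - x 2 * (u 1 * v 3 - u 3 * v 1)
          + x 3 * (u 1 * v 2 - u 2 * v 1)) * hy
    · linear_combination
        -(v 0 * (x 2 * y 3 - x 3 * y 2) - v 2 * (x 0 * y 3 - x 3 * y 0)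
          + v 3 * (x 0 * y 2 - x 2 * y 0)) * hu
        + (u 0 * (x 2 * y 3 - x 3 * y 2) - u 2 * (x 0 * y 3 - x 3 * y 0)
          + u 3 * (x 0 * y 2 - x 2 * y 0)) * hv
        - (y 0 * (u 2 * v 3 - u 3 * v 2) - y 2 * (u 0 * v 3 - u 3 * v 0)
          + y 3 * (u 0 * v 2 - u 2 * v 0)) * hx
        + (x 0 * (u 2 * v 3 - u 3 * v 2) - x 2 * (u 0 * v 3 - u 3 * v 0)
          + x 3 * (u 0 * v 2 - u 2 * v 0)) * hy
    · linear_combination
        (v 0 * (x 1 * y 3 - x 3 * y 1) - v 1 * (x 0 * y 3 - x 3 * y 0)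
          + v 3 * (x 0 * y 1 - x 1 * y 0)) * hu
        - (u 0 * (x 1 * y 3 - x 3 * y 1) - u 1 * (x 0 * y 3 - x 3 * y 0)
          + u 3 * (x 0 * y 1 - x 1 * y 0)) * hv
        + (y 0 * (u 1 * v 3 - u 3 * v 1) - y 1 * (u 0 * v 3 - u 3 * v 0)
          + y 3 * (u 0 * v 1 - u 1 * v 0)) * hx
        - (x 0 * (u 1 * v 3 - u 3 * v 1) - x 1 * (u 0 * v 3 - u 3 * v 0)
          + x 3 * (u 0 * v 1 - u 1 * v 0)) * hy
    · linear_combination
        -(v 0 * (x 1 * y 2 - x 2 * y 1) - v 1 * (x 0 * y 2 - x 2 * y 0)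
          + v 2 * (x 0 * y 1 - x 1 * y 0)) * hu
        + (u 0 * (x 1 * y 2 - x 2 * y 1) - u 1 * (x 0 * y 2 - x 2 * y 0)
          + u 2 * (x 0 * y 1 - x 1 * y 0)) * hv
        - (y 0 * (u 1 * v 2 - u 2 * v 1) - y 1 * (u 0 * v 2 - u 2 * v 0)
          + y 2 * (u 0 * v 1 - u 1 * v 0)) * hx
        + (x 0 * (u 1 * v 2 - u 2 * v 1) - x 1 * (u 0 * v 2 - u 2 * v 0)
          + x 2 * (u 0 * v 1 - u 1 * v 0)) * hy
  · have h := fun (i j k l : Fin 4) => rd_term u v i j k l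
    unfold pfl_dual
    have e1 := norm_add_le
      ((u 2 * v 3 - u 3 * v 2) • eb 0 1 - (u 1 * v 3 - u 3 * v 1) • eb 0 2
        + (u 1 * v 2 - u 2 * v 1) • eb 0 3 + (u 0 * v 3 - u 3 * v 0) • eb 1 2
        - (u 0 * v 2 - u 2 * v 0) • eb 1 3 : Form) ((u 0 * v 1 - u 1 * v 0) • eb 2 3)
    have e2 := norm_sub_le
      ((u 2 * v 3 - u 3 * v 2) • eb 0 1 - (u 1 * v 3 - u 3 * v 1) • eb 0 2
        + (u 1 * v 2 - u 2 * v 1) • eb 0 3 + (u 0 * v 3 - u 3 * v 0) • eb 1 2 : Form)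
      ((u 0 * v 2 - u 2 * v 0) • eb 1 3)
    have e3 := norm_add_le
      ((u 2 * v 3 - u 3 * v 2) • eb 0 1 - (u 1 * v 3 - u 3 * v 1) • eb 0 2
        + (u 1 * v 2 - u 2 * v 1) • eb 0 3 : Form) ((u 0 * v 3 - u 3 * v 0) • eb 1 2)
    have e4 := norm_add_le
      ((u 2 * v 3 - u 3 * v 2) • eb 0 1 - (u 1 * v 3 - u 3 * v 1) • eb 0 2 : Form)
      ((u 1 * v 2 - u 2 * v 1) • eb 0 3)
    have e5 := norm_sub_le
      ((u 2 * v 3 - u 3 * v 2) • eb 0 1 : Form) ((u 1 * v 3 - u 3 * v 1) • eb 0 2)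
    linarith [h 2 3 0 1, h 1 3 0 2, h 1 2 0 3, h 0 3 1 2, h 0 2 1 3, h 0 1 2 3]

end VSI
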