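import Mathlib
import Pool.Agent.VSI.QW
import Pool.Agent.VSI.RDefs

/-!
# VSI / RW: the wall lemma with an integer covector, uniform in the class
-/

set_option maxSynthPendingDepth 3

open Set MeasureTheory

namespace VSI

theorem lin_int (ℓ : Fin 4 → ℤ) (x : V) (n : Fin 4 → ℤ) :
    lin ℓ (x + fun i => (n i : ℝ)) = lin ℓ x + ((∑ i, ℓ i * n i : ℤ) : ℝ) := by
  rw [map_add, lin_apply ℓ (fun i => (n i : ℝ))]
  push_cast
  rfl

theorem exists_lin_one (ℓ : Fin 4 → ℤ) (hℓ : ℓ ≠ 0) : ∃ e : V, lin ℓ e = 1 := by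
  obtain ⟨i, hi⟩ := Function.ne_iff.1 hℓ
  have hi' : (ℓ i : ℝ) ≠ 0 := by exact_mod_cast hi
  refine ⟨Pi.single i ((ℓ i : ℝ)⁻¹), ?_⟩
  rw [lin_apply, Finset.sum_eq_single i]
  · simp [hi']
  · intro j _ hj
    simp [Pi.single_eq_of_ne hj]
  · simp

/-- A form divisible by a covector. -/
theorem eq_wed_of_kill_lin {B : Form} {φ : Cov} {e : V} (he : φ e = 1) (ha : Alt B)
    (hk : ∀ u v : V, φ u = 0 → φ v = 0 → B u v = 0) : B = wed φ (B e) := by
  ext u v
  have h := hk (u - φ u • e) (v - φ v • e) (by simp [he]) (by simp [he])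
  have h1 : B e e = 0 := by
    have := ha e e
    linarith
  have h2 := ha u e
  simp only [map_sub, map_smul, sub_apply, smul_apply, smul_eq_mul, h1] at h
  simp only [wed_apply]
  rw [h2] at h
  linarith

/-- The derivative of the one-form `x ↦ L (τ (φ x), x)`. -/
theorem dd_wall_lin (φ : Cov) {L : ℝ × V → Cov} (hL : ContDiff ℝ (⊤ : ℕ∞) L) {τ : ℝ → ℝ}
    (hτ : ContDiff ℝ (⊤ : ℕ∞) τ) (x : V) :
    dd (fun y => L (τ (φ y), y)) x
      = dd (fun y => L (τ (φ x), y)) x + deriv τ (φ x) • wed φ (fderiv ℝ L (τ (φ x), x) (1, 0)) := by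
  have hLd : HasFDerivAt L (fderiv ℝ L (τ (φ x), x)) (τ (φ x), x) :=
    (hL.differentiable (by simp)).differentiableAt.hasFDerivAt
  have hτd : HasDerivAt τ (deriv τ (φ x)) (φ x) :=
    (hτ.differentiable (by simp)).differentiableAt.hasDerivAt
  have e1 : HasFDerivAt (fun y : V => τ (φ y)) (deriv τ (φ x) • φ) x :=
    hτd.comp_hasFDerivAt x φ.hasFDerivAt
  have e2 : HasFDerivAt (fun y : V => L (τ (φ y), y))
      ((fderiv ℝ L (τ (φ x), x)).comp ((deriv τ (φ x) • φ).prod (ContinuousLinearMap.id ℝ V))) x :=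
    HasFDerivAt.comp x (f := fun y : V => ((τ (φ y), y) : ℝ × V)) hLd (e1.prodMk (hasFDerivAt_id x))
  have e3 : HasFDerivAt (fun y : V => L (τ (φ x), y))
      ((fderiv ℝ L (τ (φ x), x)).comp
        ((0 : V →L[ℝ] ℝ).prod (ContinuousLinearMap.id ℝ V))) x :=
    HasFDerivAt.comp x (f := fun y : V => ((τ (φ x), y) : ℝ × V)) hLd
      ((hasFDerivAt_const _ x).prodMk (hasFDerivAt_id x))
  have key : ∀ u : V, fderiv ℝ L (τ (φ x), x) (deriv τ (φ x) * φ u, u)
      = fderiv ℝ L (τ (φ x), x) (0, u) + (deriv τ (φ x) * φ u) • fderiv ℝ L (τ (φ x), x) (1, 0) := by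
    intro u
    rw [← map_smul, ← map_add]
    simp
  ext u v
  rw [dd_apply, e2.fderiv]
  simp only [add_apply, smul_apply, dd_apply, e3.fderiv, wed_apply,
    ContinuousLinearMap.comp_apply, ContinuousLinearMap.prod_apply, ContinuousLinearMap.id_apply,
    smul_eq_mul, zero_apply, key]
  ring

theorem norm_lin_pos (ℓ : Fin 4 → ℤ) : ∃ K : ℝ, 0 < K ∧ ‖lin ℓ‖ ≤ K :=
  ⟨‖lin ℓ‖ + 1, by positivity, by linarith⟩

/-- As `wallN` with `W = 1` and the coordinate `x j` replaced by `lin ℓ x`; the path of primitives is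
`L' (s, x) = G (s, lin ℓ x) + L (τ (s, lin ℓ x), x)`. -/
theorem wallL (ℓ : Fin 4 → ℤ) (hℓ : ℓ ≠ 0) {c C : ℝ} (hc : 0 < c) (hC : 0 < C) :
    ∃ ε > 0, ∀ (A : Form) (L : ℝ × V → Cov) (a : ℝ → Form),
      ContDiff ℝ (⊤ : ℕ∞) L → ContDiff ℝ (⊤ : ℕ∞) a →
      (∀ t, Per (fun x => L (t, x))) → (∀ t, Alt (a t)) → a 0 = A → a 1 = A →
      (∀ t ∈ Icc (0 : ℝ) 1, ∀ u v : V, lin ℓ u = 0 → lin ℓ v = 0 → a t u v = A u v) →
      (∀ t ∈ Icc (0 : ℝ) 1, ‖a t - A‖ ≤ C) →
      (∀ t ∈ Icc (0 : ℝ) 1, ∀ x, Margin c (a t + dd (fun y => L (t, y)) x)) →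
      (∀ t ∈ Icc (0 : ℝ) 1, ∀ x, ‖fderiv ℝ L (t, x) (1, 0)‖ ≤ ε) →
      Joined A (fun x => A + dd (fun y => L (0, y)) x) (fun x => A + dd (fun y => L (1, y)) x) := by
  obtain ⟨e, he⟩ := exists_lin_one ℓ hℓ
  obtain ⟨Kℓ, hKℓ, hKℓ'⟩ := norm_lin_pos ℓ
  have hq : 0 < c / (4 * C) := by positivity
  obtain ⟨τ, hτ, hτp, hτI, hτ0, hτ1, ⟨T, hT, hτT⟩, hτv⟩ := exists_tau (w := (c / (4 * C)) ^ 2)
    (by positivity)
  rw [Real.sqrt_sq hq.le] at hτv
  refine ⟨c / (8 * T * Kℓ), by positivity, ?_⟩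
  intro A L a hL ha hper halt h0 h1 hk haC hm hε
  have hAalt : Alt A := h0 ▸ halt 0
  have hτs : ∀ s, ContDiff ℝ (⊤ : ℕ∞) (fun y => τ (s, y)) := fun s =>
    hτ.comp (contDiff_const.prodMk contDiff_id)
  -- the averages
  set g : ℝ × ℝ → Form := fun p => a (τ p) - A with hg
  have hgs : ContDiff ℝ (⊤ : ℕ∞) g := (ha.comp hτ).sub contDiff_const
  have hgc : ∀ s, Continuous (fun y => g (s, y)) := fun s =>
    hgs.continuous.comp (Continuous.prodMk_right s)
  set M : ℝ → Form := fun s => ∫ y in (0 : ℝ)..1, g (s, y) with hM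
  have hMs : ContDiff ℝ (⊤ : ℕ∞) M := smooth_interval hgs
  have hMap : ∀ s (u v : V), M s u v = ∫ y in (0 : ℝ)..1, g (s, y) u v := by
    intro s u v
    have hi : IntervalIntegrable (fun y => g (s, y)) volume 0 1 := (hgc s).intervalIntegrable _ _
    have e1 : M s u = ∫ y in (0 : ℝ)..1, g (s, y) u :=
      ((ContinuousLinearMap.apply ℝ Cov u).intervalIntegral_comp_comm hi).symm
    have hi2 : IntervalIntegrable (fun y => g (s, y) u) volume 0 1 :=
      ((hgc s).clm_apply continuous_const).intervalIntegrable _ _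
    rw [e1]
    exact ((ContinuousLinearMap.apply ℝ ℝ v).intervalIntegral_comp_comm hi2).symm
  have hgalt : ∀ p, Alt (g p) := fun p => alt_sub (halt _) hAalt
  have hMalt : ∀ s, Alt (M s) := by
    intro s u v
    rw [hMap, hMap, ← intervalIntegral.integral_neg]
    congr 1
    funext y
    exact hgalt _ u v
  have hgk : ∀ p (u v : V), lin ℓ u = 0 → lin ℓ v = 0 → g p u v = 0 := by
    intro p u v hu hv
    simp only [hg, sub_apply]
    rw [hk _ (hτI _) u v hu hv, sub_self]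
  have hMk : ∀ s (u v : V), lin ℓ u = 0 → lin ℓ v = 0 → M s u v = 0 := by
    intro s u v hu hv
    rw [hMap]
    simp only [hgk _ u v hu hv]
    simp
  have hMn : ∀ s, ‖M s‖ ≤ c / 4 := by
    intro s
    have hmeas : MeasurableSet {y : ℝ | τ (s, y) ≠ 0 ∧ τ (s, y) ≠ 1} := by
      have hcont := (hτs s).continuous
      exact ((isOpen_ne_fun hcont continuous_const).inter
        (isOpen_ne_fun hcont continuous_const)).measurableSet
    have := norm_interval_le (g := fun y => g (s, y)) (hgc s) hmeas (C := C)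
      (m := c / (4 * C)) (fun y _ => haC _ (hτI _)) ?_ hq.le ?_
    · have e : C * (c / (4 * C)) = c / 4 := by field_simp
      rw [e] at this
      exact this
    · intro y _ hy
      simp only [mem_ofPred_eq, not_and_or, not_not] at hy
      rcases hy with hy | hy
      · simp only [hg, hy, h0, sub_self]
      · simp only [hg, hy, h1, sub_self]
    · refine le_trans (le_of_eq ?_) (hτv s)
      congr 1
      ext y
      simp only [mem_inter_iff, mem_ofPred_eq]
      tauto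
  -- the profile
  set b : ℝ × ℝ → Form := fun p => g p - M p.1 with hb
  have hbs : ContDiff ℝ (⊤ : ℕ∞) b := hgs.sub (hMs.comp contDiff_fst)
  have hbk : ∀ p, b p = wed (lin ℓ) (b p e) := fun p =>
    eq_wed_of_kill_lin he (alt_sub (hgalt p) (hMalt p.1)) (by
      intro u v hu hv
      simp only [hb, sub_apply]
      rw [hgk p u v hu hv, hMk _ u v hu hv, sub_self])
  have hbp : ∀ (s y : ℝ) (m : ℤ), b (s, y + m) = b (s, y) := by
    intro s y m
    simp only [hb, hg]
    rw [hτp s y m]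
  set β : ℝ × ℝ → Cov := fun p => b p e with hβ
  have hβs : ContDiff ℝ (⊤ : ℕ∞) β := hbs.clm_apply contDiff_const
  have hβi : ∀ s, ∫ y in (0 : ℝ)..1, β (s, y) = 0 := by
    intro s
    have hi : IntervalIntegrable (fun y => b (s, y)) volume 0 1 :=
      (hbs.continuous.comp (Continuous.prodMk_right s)).intervalIntegrable _ _
    have e1 : (∫ y in (0 : ℝ)..1, b (s, y)) e = ∫ y in (0 : ℝ)..1, β (s, y) :=
      ((ContinuousLinearMap.apply ℝ Cov e).intervalIntegral_comp_comm hi).symm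
    have e2 : ∫ y in (0 : ℝ)..1, b (s, y) = 0 := by
      simp only [hb]
      rw [intervalIntegral.integral_sub ((hgc s).intervalIntegrable _ _)
        (continuous_const.intervalIntegrable _ _)]
      simp [hM]
    rw [← e1, e2]; simp
  obtain ⟨G, hG, hGp, hGd, hG0⟩ := exists_profile hβs
    (fun s y m => by simp only [hβ]; rw [hbp s y m]) hβi
  -- the path
  set L' : ℝ × V → Cov := fun p => G (p.1, lin ℓ p.2) + L (τ (p.1, lin ℓ p.2), p.2) with hL'
  have hpj : ContDiff ℝ (⊤ : ℕ∞) (fun p : ℝ × V => ((p.1, lin ℓ p.2) : ℝ × ℝ)) :=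
    contDiff_fst.prodMk ((lin ℓ).contDiff.comp contDiff_snd)
  have hL's : ContDiff ℝ (⊤ : ℕ∞) L' := by
    have e1 : ContDiff ℝ (⊤ : ℕ∞) (fun p : ℝ × V => G (p.1, lin ℓ p.2)) := hG.comp hpj
    have e2 : ContDiff ℝ (⊤ : ℕ∞) (fun p : ℝ × V => L (τ (p.1, lin ℓ p.2), p.2)) :=
      hL.comp ((hτ.comp hpj).prodMk contDiff_snd)
    exact e1.add e2
  have hL'p : ∀ t, Per (fun x => L' (t, x)) := by
    intro t x k
    simp only [hL']
    rw [lin_int, hGp, hτp]
    congr 1
    exact hper (τ (t, lin ℓ x)) x k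
  -- derivative of the first part
  have hf1 : ∀ s (x : V), HasFDerivAt (fun y : V => G (s, lin ℓ y))
      ((lin ℓ).smulRight (β (s, lin ℓ x))) x := by
    intro s x
    have e2 := (hGd s (lin ℓ x)).hasFDerivAt.comp x (lin ℓ).hasFDerivAt
    refine e2.congr_fderiv ?_
    ext u v
    simp
  have hddf1 : ∀ s (x : V), dd (fun y : V => G (s, lin ℓ y)) x = b (s, lin ℓ x) := by
    intro s x
    rw [hbk (s, lin ℓ x)]
    ext u v
    have e1 : fderiv ℝ (fun y : V => G (s, lin ℓ y)) x = (lin ℓ).smulRight (β (s, lin ℓ x)) :=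
      (hf1 s x).fderiv
    rw [dd_apply, e1]
    simp [hβ]
    ring
  have hddL' : ∀ s (x : V), A + dd (fun y => L' (s, y)) x
      = (a (τ (s, lin ℓ x)) + dd (fun y => L (τ (s, lin ℓ x), y)) x) + (- M s)
        + (fderiv ℝ τ (s, lin ℓ x) (0, 1)) •
          wed (lin ℓ) (fderiv ℝ L (τ (s, lin ℓ x), x) (1, 0)) := by
    intro s x
    have e1 : dd (fun y => L' (s, y)) x = dd (fun y : V => G (s, lin ℓ y)) x
        + dd (fun y : V => L (τ (s, lin ℓ y), y)) x := by
      refine dd_add (hf1 s x).differentiableAt ?_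
      have : ContDiff ℝ (⊤ : ℕ∞) (fun y : V => L (τ (s, lin ℓ y), y)) :=
        hL.comp (((hτs s).comp (lin ℓ).contDiff).prodMk contDiff_id)
      exact (this.differentiable (by simp)).differentiableAt
    rw [e1, hddf1, dd_wall_lin (lin ℓ) hL (hτs s) x, (hasDerivAt_snd hτ s (lin ℓ x)).deriv]
    simp only [hb, hg]
    abel
  have hz : ∀ s, (∀ r, τ (s, r) = 0) ∨ (∀ r, τ (s, r) = 1) → ∀ r, β (s, r) = 0 := by
    intro s hs r
    have hg0 : ∀ r, g (s, r) = 0 := by
      intro r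
      rcases hs with hs | hs
      · simp only [hg, hs, h0, sub_self]
      · simp only [hg, hs, h1, sub_self]
    have : M s = 0 := by
      simp only [hM, hg0]
      simp
    simp only [hβ, hb, hg0, this]
    simp
  have hmar : ∀ s ∈ Icc (0 : ℝ) 1, ∀ x, Margin (c / 2) (A + dd (fun y => L' (s, y)) x) := by
    intro s hs x
    rw [hddL']
    have e1 : Margin (c - c / 4)
        ((a (τ (s, lin ℓ x)) + dd (fun y => L (τ (s, lin ℓ x), y)) x) + (- M s)) :=
      (hm _ (hτI _) x).add (by rw [norm_neg]; exact hMn s)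
    have e2 : ‖(fderiv ℝ τ (s, lin ℓ x) (0, 1)) •
        wed (lin ℓ) (fderiv ℝ L (τ (s, lin ℓ x), x) (1, 0))‖ ≤ c / 4 := by
      rw [norm_smul, Real.norm_eq_abs]
      have f1 := hτT s hs (lin ℓ x)
      have f2 := norm_wed_le (lin ℓ) (fderiv ℝ L (τ (s, lin ℓ x), x) (1, 0))
      have f4 := hε _ (hτI (s, lin ℓ x)) x
      have f5 : ‖wed (lin ℓ) (fderiv ℝ L (τ (s, lin ℓ x), x) (1, 0))‖
          ≤ 2 * (Kℓ * (c / (8 * T * Kℓ))) := by
        refine f2.trans ?_
        have := mul_le_mul hKℓ' f4 (norm_nonneg _) hKℓ.le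
        linarith
      have f6 := mul_le_mul f1 f5 (norm_nonneg _) hT.le
      refine f6.trans (le_of_eq ?_)
      field_simp
      norm_num
    have e3 := e1.add e2
    have e4 : c - c / 4 - c / 4 = c / 2 := by ring
    rwa [e4] at e3
  refine ⟨fun s x => A + dd (fun y => L' (s, y)) x, ?_, ?_, ?_, ?_⟩
  · exact contDiff_const.add (smooth_dd hL's)
  · funext x
    have e1 : ∀ y : V, L' (0, y) = L (0, y) := by
      intro y
      simp only [hL', hG0 0 (hz 0 (Or.inl hτ0)), zero_add, hτ0]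
    simp only [e1]
  · funext x
    have e1 : ∀ y : V, L' (1, y) = L (1, y) := by
      intro y
      simp only [hL', hG0 1 (hz 1 (Or.inr hτ1)), zero_add, hτ1]
    simp only [e1]
  · intro s hs
    have hsm : ContDiff ℝ (⊤ : ℕ∞) (fun y : V => L' (s, y)) :=
      hL's.comp (contDiff_const.prodMk contDiff_id)
    have hclo : Clo (fun x => A + dd (fun y => L' (s, y)) x) :=
      (clo_const hAalt).add (clo_dd hsm (hL'p s))
    refine ⟨⟨hclo, ?_⟩, (cls_iff hclo.smooth.continuous A).2 ?_⟩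
    · intro x
      exact (hmar s hs x).nondeg (by positivity)
    · rw [avg_add (ω := fun _ => A) continuous_const (clo_dd hsm (hL'p s)).smooth.continuous,
        avg_const, avg_dd hsm (hL'p s), add_zero]

end VSI
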