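import Mathlib
import Pool.Agent.VSI.RW
import Pool.Agent.VSI.RC
import Pool.Agent.VSI.RD
import Pool.Agent.VSI.PFA
import Pool.Agent.VSI.PRM
import Pool.Agent.VSI.QT

/-!
# VSI / RB: forms whose difference has a small primitive are joined
-/

set_option maxSynthPendingDepth 3

open Set MeasureTheory

namespace VSI

private theorem rb_dd {μ ν : V → Cov} (hμ : Differentiable ℝ μ) (hν : Differentiable ℝ ν) (r : ℝ)
    (x : V) : dd (fun y => μ y + r • ν y) x = dd μ x + r • dd ν x := by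
  have h1 : HasFDerivAt (fun y => μ y + r • ν y) (fderiv ℝ μ x + r • fderiv ℝ ν x) x :=
    (hμ x).hasFDerivAt.add ((hν x).hasFDerivAt.const_smul r)
  refine ContinuousLinearMap.ext fun u => ContinuousLinearMap.ext fun v => ?_
  rw [dd_apply, h1.fderiv]
  change (fderiv ℝ μ x u v + r * fderiv ℝ ν x u v) - (fderiv ℝ μ x v u + r * fderiv ℝ ν x v u) =
    dd μ x u v + r * dd ν x u v
  rw [dd_apply, dd_apply]
  ring

/-- the signed Pfaffian along the path -/
private theorem rb_pf {Λ p K h s r σ : ℝ} (hσ : σ = 1 ∨ σ = -1) (hh : 0 < h) (hK : 3 * Λ ^ 2 + p ≤ K * h)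
    (hK0 : 0 ≤ K) (hs : s ∈ Icc (0 : ℝ) 1) (hr : r ∈ Icc (0 : ℝ) 1) (hsr : s = 0 ∨ s = 1 ∨ r = 1)
    {B₀ B₁ θ : Form} (h0 : Alt B₀) (h1 : Alt B₁) (hn0 : ‖B₀‖ ≤ Λ) (hn1 : ‖B₁‖ ≤ Λ)
    {u v : V} (hθ : pf θ = 0) (hq : ∀ B : Form, Alt B → pq B θ = B u v)
    (hp0 : p ≤ σ * pf B₀) (hp1 : p ≤ σ * pf B₁) (hu0 : h ≤ B₀ u v) (hu1 : h ≤ B₁ u v) :
    p ≤ |pf (B₀ + s • (B₁ - B₀) + (r * K * σ) • θ)| := by
  set B : Form := B₀ + s • (B₁ - B₀) with hB
  have hBa : Alt B := alt_add h0 (alt_smul (alt_sub h1 h0) s)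
  have hBuv : B u v = (1 - s) * B₀ u v + s * B₁ u v := by
    change B₀ u v + s * (B₁ u v - B₀ u v) = _
    ring
  have hBh : h ≤ B u v := by
    rw [hBuv]
    nlinarith [hs.1, hs.2]
  have hBn : ‖B‖ ≤ Λ := by
    have e : B = (1 - s) • B₀ + s • B₁ := by
      rw [hB, smul_sub, sub_smul, one_smul]
      abel
    rw [e]
    have hs' : 0 ≤ 1 - s := by linarith [hs.2]
    calc ‖(1 - s) • B₀ + s • B₁‖ ≤ ‖(1 - s) • B₀‖ + ‖s • B₁‖ := norm_add_le (E := Form) _ _
      _ = (1 - s) * ‖B₀‖ + s * ‖B₁‖ := by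
        rw [norm_smul, norm_smul, Real.norm_eq_abs, Real.norm_eq_abs, abs_of_nonneg hs',
          abs_of_nonneg hs.1]
      _ ≤ (1 - s) * Λ + s * Λ := by
        have := hs.1
        gcongr
      _ = Λ := by ring
  have hpf : pf (B + (r * K * σ) • θ) = pf B + r * K * σ * B u v := by
    rw [pf_add, pq_smul, pf_smul, hθ, hq B hBa]
    ring
  have hσ2 : σ * σ = 1 := by rcases hσ with h | h <;> rw [h] <;> norm_num
  have hσa : |σ| = 1 := by rcases hσ with h | h <;> rw [h] <;> norm_num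
  have hkey : σ * pf (B + (r * K * σ) • θ) = σ * pf B + r * K * B u v := by
    rw [hpf]
    linear_combination (r * K * B u v) * hσ2
  have hle : σ * pf (B + (r * K * σ) • θ) ≤ |pf (B + (r * K * σ) • θ)| := by
    refine (le_abs_self _).trans ?_
    rw [abs_mul, hσa, one_mul]
  refine le_trans ?_ hle
  rw [hkey]
  have hrK : 0 ≤ r * K * B u v := mul_nonneg (mul_nonneg hr.1 hK0) (by linarith)
  rcases hsr with h | h | h
  · have : B = B₀ := by rw [hB, h, zero_smul, add_zero]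
    rw [this] at hrK ⊢
    linarith
  · have : B = B₁ := by rw [hB, h, one_smul, add_sub_cancel]
    rw [this] at hrK ⊢
    linarith
  · have h2 := abs_pf_le B
    have h3 : -(3 * Λ ^ 2) ≤ σ * pf B := by
      have h4 : |σ * pf B| ≤ 3 * Λ ^ 2 := by
        rw [abs_mul, hσa, one_mul]
        refine h2.trans ?_
        have h5 : ‖B‖ ^ 2 ≤ Λ ^ 2 := pow_le_pow_left₀ (norm_nonneg _) hBn 2
        linarith
      exact (abs_le.1 h4).1
    rw [h, one_mul]
    nlinarith

/-- Proximity.  Let `ε` be the sign of the Pfaffian, `θ` the dual form (`exists_dual_lin`), `K` so large that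
`K h ≥ 3 Λ ^ 2 + p`, `p` from `exists_pf_lower`.  Apply `wallL` with
`a t = A + (ρ t * K * ε) • θ`, `ρ t = S (3 t) - S (3 t - 2)`, `L (t, x) = μ x + S (3 t - 1) • ν x`, where
`ω₀ = A + dd μ`, `ω₁ = ω₀ + dd ν`.  The forms `a t + dd L` have Pfaffian at least `p` in absolute value and norm at
most `Λ + 24 K`, which gives a uniform margin by `exists_margin_of_pf`. -/
theorem near_joined (ℓ : Fin 4 → ℤ) (hℓ : ℓ ≠ 0) {Λ c h : ℝ} (hc : 0 < c) (hh : 0 < h) :
    ∃ ε > 0, ∀ (A : Form) (u v : V) (ω₀ ω₁ : V → Form), lin ℓ u = 0 → lin ℓ v = 0 → ‖u‖ ≤ 1 → ‖v‖ ≤ 1 →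
      BPos A Λ c h u v ω₀ → BPos A Λ c h u v ω₁ →
      ∀ ν : V → Cov, ContDiff ℝ (⊤ : ℕ∞) ν → Per ν → (∀ x, ω₁ x = ω₀ x + dd ν x) → (∀ x, ‖ν x‖ ≤ ε) →
      Joined A ω₀ ω₁ := by
  obtain ⟨p, hp, hpl⟩ := exists_pf_lower (Λ := Λ) hc
  set K : ℝ := (3 * Λ ^ 2 + p) / h with hK
  have hK0 : 0 ≤ K := by positivity
  have hKh : 3 * Λ ^ 2 + p ≤ K * h := by
    rw [hK]
    exact le_of_eq (by field_simp)
  obtain ⟨c', hc', hm⟩ := exists_margin_of_pf (Λ := Λ + 24 * K) hp
  obtain ⟨ε₁, hε₁, hwall⟩ := wallL ℓ hℓ hc' (show 0 < 24 * K + 1 by positivity)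
  obtain ⟨T, hT, hTb⟩ := exists_bound_smoothTransition
  refine ⟨ε₁ / (3 * T), by positivity, ?_⟩
  intro A u v ω₀ ω₁ hu hv hun hvn hB0 hB1 ν hν hνp hνd hνe
  -- basic facts
  have hA0 : avg ω₀ = A := (cls_iff hB0.symp.1.smooth.continuous A).1 hB0.symp.2
  have hA1 : avg ω₁ = A := (cls_iff hB1.symp.1.smooth.continuous A).1 hB1.symp.2
  have hAalt : Alt A := by
    rw [← hA0]
    exact avg_alt hB0.symp.1.smooth.continuous hB0.symp.1.alt
  obtain ⟨θ, hθa, hθ0, hθq, hθk, hθn⟩ := exists_dual_lin ℓ hℓ u v hu hv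
  have hθn' : ‖θ‖ ≤ 24 := by
    have : ‖u‖ * ‖v‖ ≤ 1 * 1 := mul_le_mul hun hvn (norm_nonneg _) zero_le_one
    linarith
  obtain ⟨μ, hμ, hμp, hμd⟩ := hB0.symp.1.toClo.exists_prim
  rw [hA0] at hμd
  -- the sign
  obtain ⟨σ, hσ, hσ0, hσ1⟩ : ∃ σ : ℝ, (σ = 1 ∨ σ = -1) ∧ (∀ x, p ≤ σ * pf (ω₀ x)) ∧
      ∀ x, p ≤ σ * pf (ω₁ x) := by
    have e0 := fun x => IsSymp.pf_mul_pos hB0.symp.1 x
    have e1 := fun x => IsSymp.pf_mul_pos hB1.symp.1 x
    rw [hA0] at e0
    rw [hA1] at e1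
    have l0 := fun x => hpl (ω₀ x) (hB0.symp.1.alt x) (hB0.up x) (hB0.lo x)
    have l1 := fun x => hpl (ω₁ x) (hB1.symp.1.alt x) (hB1.up x) (hB1.lo x)
    rcases lt_or_ge 0 (pf A) with hA | hA
    · refine ⟨1, Or.inl rfl, fun x => ?_, fun x => ?_⟩
      · have h1 : 0 < pf (ω₀ x) := pos_of_mul_pos_left (e0 x) hA.le
        have h2 := l0 x
        rw [abs_of_pos h1] at h2
        linarith
      · have h1 : 0 < pf (ω₁ x) := pos_of_mul_pos_left (e1 x) hA.le
        have h2 := l1 x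
        rw [abs_of_pos h1] at h2
        linarith
    · refine ⟨-1, Or.inr rfl, fun x => ?_, fun x => ?_⟩
      · have h1 : pf (ω₀ x) < 0 := by
          by_contra hcon
          push Not at hcon
          exact absurd (e0 x) (not_lt.2 (mul_nonpos_of_nonneg_of_nonpos hcon hA))
        have h2 := l0 x
        rw [abs_of_neg h1] at h2
        linarith
      · have h1 : pf (ω₁ x) < 0 := by
          by_contra hcon
          push Not at hcon
          exact absurd (e1 x) (not_lt.2 (mul_nonpos_of_nonneg_of_nonpos hcon hA))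
        have h2 := l1 x
        rw [abs_of_neg h1] at h2
        linarith
  -- the path
  set S : ℝ → ℝ := Real.smoothTransition with hS
  have hSs : ContDiff ℝ (⊤ : ℕ∞) S := Real.smoothTransition.contDiff
  have hSI : ∀ t, S t ∈ Icc (0 : ℝ) 1 := fun t =>
    ⟨Real.smoothTransition.nonneg t, Real.smoothTransition.le_one t⟩
  have hS0 : ∀ t, t ≤ 0 → S t = 0 := fun t ht => Real.smoothTransition.zero_of_nonpos ht
  have hS1 : ∀ t, 1 ≤ t → S t = 1 := fun t ht => Real.smoothTransition.one_of_one_le ht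
  set ρ : ℝ → ℝ := fun t => S (3 * t) - S (3 * t - 2) with hρ
  set ς : ℝ → ℝ := fun t => S (3 * t - 1) with hς
  have hρs : ContDiff ℝ (⊤ : ℕ∞) ρ := by
    refine (hSs.comp ?_).sub (hSs.comp ?_)
    · fun_prop
    · fun_prop
  have hςs : ContDiff ℝ (⊤ : ℕ∞) ς := by
    refine hSs.comp ?_
    fun_prop
  have hstage : ∀ t : ℝ, ρ t ∈ Icc (0 : ℝ) 1 ∧ ς t ∈ Icc (0 : ℝ) 1 ∧
      (ς t = 0 ∨ ς t = 1 ∨ ρ t = 1) := by
    intro t
    refine ⟨?_, hSI _, ?_⟩
    · rcases le_or_gt (3 * t - 2) 0 with h1 | h1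
      · rw [hρ]
        beta_reduce
        rw [hS0 _ h1, sub_zero]
        exact hSI _
      · rw [hρ]
        beta_reduce
        rw [hS1 (3 * t) (by linarith)]
        have := hSI (3 * t - 2)
        exact ⟨by linarith [this.2], by linarith [this.1]⟩
    · rcases le_or_gt (3 * t - 1) 0 with h1 | h1
      · exact Or.inl (hS0 _ h1)
      · rcases le_or_gt 1 (3 * t - 1) with h2 | h2
        · exact Or.inr (Or.inl (hS1 _ h2))
        · refine Or.inr (Or.inr ?_)
          rw [hρ]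
          beta_reduce
          rw [hS1 (3 * t) (by linarith), hS0 (3 * t - 2) (by linarith), sub_zero]
  set L : ℝ × V → Cov := fun q => μ q.2 + ς q.1 • ν q.2 with hL
  have hLs : ContDiff ℝ (⊤ : ℕ∞) L :=
    (hμ.comp contDiff_snd).add ((hςs.comp contDiff_fst).smul (hν.comp contDiff_snd))
  have hddL : ∀ t x, dd (fun y => L (t, y)) x = dd μ x + ς t • dd ν x := fun t x =>
    rb_dd (hμ.differentiable (by simp)) (hν.differentiable (by simp)) (ς t) x
  set a : ℝ → Form := fun t => A + (ρ t * K * σ) • θ with ha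
  have hσa : |σ| = 1 := by rcases hσ with h | h <;> rw [h] <;> norm_num
  have hnorm : ∀ t, ‖(ρ t * K * σ) • θ‖ ≤ 24 * K := by
    intro t
    have h1 := (hstage t).1
    rw [norm_smul, Real.norm_eq_abs, abs_mul, abs_mul, hσa, mul_one, abs_of_nonneg h1.1,
      abs_of_nonneg hK0]
    have h2 : ρ t * K ≤ 1 * K := mul_le_mul_of_nonneg_right h1.2 hK0
    have h3 : 0 ≤ ρ t * K := mul_nonneg h1.1 hK0
    calc ρ t * K * ‖θ‖ ≤ (1 * K) * 24 := mul_le_mul h2 hθn' (norm_nonneg _) (by linarith)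
      _ = 24 * K := by ring
  have hform : ∀ t x, a t + dd (fun y => L (t, y)) x =
      ω₀ x + ς t • (ω₁ x - ω₀ x) + (ρ t * K * σ) • θ := by
    intro t x
    rw [hddL, hνd x, hμd x, ha]
    beta_reduce
    rw [add_sub_cancel_left]
    abel
  have hfn : ∀ t x, ‖a t + dd (fun y => L (t, y)) x‖ ≤ Λ + 24 * K := by
    intro t x
    rw [hform]
    have h1 := (hstage t).2.1
    have e : ω₀ x + ς t • (ω₁ x - ω₀ x) = (1 - ς t) • ω₀ x + ς t • ω₁ x := by
      rw [smul_sub, sub_smul, one_smul]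
      abel
    have hs' : 0 ≤ 1 - ς t := by linarith [h1.2]
    have h2 : ‖ω₀ x + ς t • (ω₁ x - ω₀ x)‖ ≤ Λ := by
      rw [e]
      calc ‖(1 - ς t) • ω₀ x + ς t • ω₁ x‖ ≤ ‖(1 - ς t) • ω₀ x‖ + ‖ς t • ω₁ x‖ :=
            norm_add_le (E := Form) _ _
        _ = (1 - ς t) * ‖ω₀ x‖ + ς t * ‖ω₁ x‖ := by
          rw [norm_smul, norm_smul, Real.norm_eq_abs, Real.norm_eq_abs, abs_of_nonneg hs',
            abs_of_nonneg h1.1]
        _ ≤ (1 - ς t) * Λ + ς t * Λ :=
          add_le_add (mul_le_mul_of_nonneg_left (hB0.up x) hs')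
            (mul_le_mul_of_nonneg_left (hB1.up x) h1.1)
        _ = Λ := by ring
    refine (norm_add_le (E := Form) _ _).trans ?_
    exact add_le_add h2 (hnorm t)
  have hmar : ∀ t x, Margin c' (a t + dd (fun y => L (t, y)) x) := by
    intro t x
    have hn := hfn t x
    have h1 := hstage t
    refine hm _ ?_ hn ?_
    · rw [hform]
      exact alt_add (alt_add (hB0.symp.1.alt x) (alt_smul (alt_sub (hB1.symp.1.alt x)
        (hB0.symp.1.alt x)) _)) (alt_smul hθa _)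
    · rw [hform]
      exact rb_pf hσ hh hKh hK0 h1.2.1 h1.1 h1.2.2 (hB0.symp.1.alt x) (hB1.symp.1.alt x)
        (hB0.up x) (hB1.up x) hθ0 hθq (hσ0 x) (hσ1 x) (hB0.pos x) (hB1.pos x)
  have hder : ∀ t x, fderiv ℝ L (t, x) (1, 0) = deriv ς t • ν x := by
    intro t x
    have h1 : HasDerivAt (fun s : ℝ => ((s, x) : ℝ × V)) (1, 0) t :=
      (hasDerivAt_id t).prodMk (hasDerivAt_const t x)
    have h2 : HasDerivAt (fun s : ℝ => L (s, x)) (fderiv ℝ L (t, x) (1, 0)) t :=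
      HasFDerivAt.comp_hasDerivAt t ((hLs.differentiable (by simp)) (t, x)).hasFDerivAt h1
    have h3 : HasDerivAt (fun s : ℝ => L (s, x)) (deriv ς t • ν x) t := by
      have h4 : HasDerivAt ς (deriv ς t) t := ((hςs.differentiable (by simp)) t).hasDerivAt
      exact (h4.smul_const (ν x)).const_add (μ x)
    exact h2.unique h3
  have hςd : ∀ t, |deriv ς t| ≤ 3 * T := by
    intro t
    have h1 : HasDerivAt ς (deriv S (3 * t - 1) * 3) t := by
      have h2 : HasDerivAt (fun t : ℝ => 3 * t - 1) 3 t := by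
        simpa using ((hasDerivAt_id t).const_mul (3 : ℝ)).sub_const 1
      have h3 : HasDerivAt S (deriv S (3 * t - 1)) (3 * t - 1) :=
        ((hSs.differentiable (by simp)) _).hasDerivAt
      exact HasDerivAt.comp t h3 h2
    rw [h1.deriv, abs_mul, abs_of_pos (show (0 : ℝ) < 3 by norm_num)]
    have := hTb (3 * t - 1)
    linarith
  -- conclusion
  have hres := hwall A L a hLs (contDiff_const.add
    (((hρs.mul contDiff_const).mul contDiff_const).smul contDiff_const)) ?_ ?_ ?_ ?_ ?_ ?_ ?_ ?_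
  · have e0 : (fun x => A + dd (fun y => L (0, y)) x) = ω₀ := by
      funext x
      rw [hddL, hς]
      beta_reduce
      rw [hS0 _ (by norm_num), zero_smul, add_zero, hμd x]
    have e1 : (fun x => A + dd (fun y => L (1, y)) x) = ω₁ := by
      funext x
      rw [hddL, hς]
      beta_reduce
      rw [hS1 _ (by norm_num), one_smul, hνd x, hμd x, add_assoc]
    rw [e0, e1] at hres
    exact hres
  · intro t x n
    change μ _ + ς t • ν _ = μ x + ς t • ν x
    rw [hμp x n, hνp x n]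
  · intro t
    exact alt_add hAalt (alt_smul hθa _)
  · rw [ha, hρ]
    beta_reduce
    rw [hS0 _ (by norm_num), hS0 _ (by norm_num), sub_zero, zero_mul, zero_mul, zero_smul, add_zero]
  · rw [ha, hρ]
    beta_reduce
    rw [hS1 _ (by norm_num), hS1 _ (by norm_num), sub_self, zero_mul, zero_mul, zero_smul, add_zero]
  · intro t _ x y hx hy
    change A x y + (ρ t * K * σ) * θ x y = A x y
    rw [hθk x y hx hy, mul_zero, add_zero]
  · intro t _
    have : a t - A = (ρ t * K * σ) • θ := by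
      rw [ha]
      beta_reduce
      rw [add_sub_cancel_left]
    rw [this]
    exact (hnorm t).trans (by linarith)
  · intro t _ x
    exact hmar t x
  · intro t _ x
    rw [hder, norm_smul, Real.norm_eq_abs]
    calc |deriv ς t| * ‖ν x‖ ≤ (3 * T) * (ε₁ / (3 * T)) :=
          mul_le_mul (hςd t) (hνe x) (norm_nonneg _) (by positivity)
      _ = ε₁ := by field_simp

end VSI
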