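import Mathlib
import Pool.Agent.VSI.PRM
import Pool.Agent.VSI.NRM

/-!
# VSI / REP: finite self-coverings
-/

open Set MeasureTheory

namespace VSI

theorem rep_one (ω : V → Form) : rep 1 ω = ω := by
  funext x
  simp [rep]

theorem rep_rep (m n : ℕ) (ω : V → Form) : rep m (rep n ω) = rep (n * m) ω := by
  funext x
  unfold rep
  rw [smul_smul]
  push_cast
  rfl

theorem rep_add_const (n : ℕ) (ω : V → Form) (B : Form) :
    rep n (fun x => ω x + B) = fun x => rep n ω x + B := rfl

theorem rep_fderiv {ω : V → Form} (h : ContDiff ℝ (⊤ : ℕ∞) ω) (n : ℕ) (x u : V) :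
    fderiv ℝ (rep n ω) x u = (n : ℝ) • fderiv ℝ ω ((n : ℝ) • x) u := by
  have h1 : HasFDerivAt (fun y : V => (n : ℝ) • y) ((n : ℝ) • ContinuousLinearMap.id ℝ V) x :=
    (hasFDerivAt_id x).const_smul (n : ℝ)
  have h3 := (HasFDerivAt.comp (g := ω) x
    (h.differentiable (by simp)).differentiableAt.hasFDerivAt h1).fderiv
  have h4 : (ω ∘ fun y : V => (n : ℝ) • y) = rep n ω := rfl
  rw [h4] at h3
  rw [h3]
  simp

theorem rep_per {F : Type} {f : V → F} (h : Per f) (n : ℕ) : Per (fun x => f ((n : ℝ) • x)) := by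
  intro x k
  have h1 := h ((n : ℝ) • x) (fun i => (n : ℤ) * k i)
  have h2 : (n : ℝ) • (x + fun i => (k i : ℝ)) =
      (n : ℝ) • x + fun i => (((n : ℤ) * k i : ℤ) : ℝ) := by
    funext i
    simp [mul_add]
  simp only
  rw [h2]
  exact h1

theorem Clo.rep {ω : V → Form} (h : Clo ω) (n : ℕ) : Clo (rep n ω) := by
  refine ⟨?_, ?_, ?_, ?_⟩
  · exact h.smooth.comp (contDiff_id.const_smul (n : ℝ))
  · exact rep_per (f := ω) h.per n
  · intro x u v
    exact h.alt _ u v
  · intro x u v w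
    rw [rep_fderiv h.smooth, rep_fderiv h.smooth, rep_fderiv h.smooth]
    have h1 := h.closed ((n : ℝ) • x) u v w
    simp only [smul_apply, smul_eq_mul]
    rw [← mul_add, ← mul_add, h1, mul_zero]

theorem rep_avg_const (B : Form) : avg (fun _ => B) = B := by
  unfold avg
  rw [setIntegral_const]
  have h1 : (volume : Measure V).real (Icc (0 : V) 1) = 1 := by
    rw [measureReal_def, Real.volume_Icc_pi]
    simp
  rw [h1, one_smul]

/-- Proof: `ω = avg ω + dd μ` by `Clo.exists_prim`, so `rep n ω = avg ω + dd (n⁻¹ μ (n x))` by `dd_rep`; use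
`avg_dd`. -/
theorem avg_rep {ω : V → Form} (h : Clo ω) {n : ℕ} (hn : 0 < n) : avg (VSI.rep n ω) = avg ω := by
  obtain ⟨μ, hμ, hp, he⟩ := h.exists_prim
  set ν : V → Cov := fun y => (n : ℝ)⁻¹ • μ ((n : ℝ) • y) with hν
  have hνs : ContDiff ℝ (⊤ : ℕ∞) ν := (hμ.comp (contDiff_id.const_smul (n : ℝ))).const_smul _
  have hνp : Per ν := by
    intro x k
    have := rep_per hp n x k
    simp only at this
    rw [hν]
    simp only
    rw [this]
  have h1 : VSI.rep n ω = fun x => avg ω + dd ν x := by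
    funext x
    show ω ((n : ℝ) • x) = _
    rw [he, dd_rep hμ hn]
  have h2 := avg_dd hνs hνp
  have hc := (clo_dd hνs hνp).smooth.continuous
  rw [h1]
  have h3 : avg (fun x => avg ω + dd ν x) = avg (fun _ => avg ω) + avg (dd ν) := by
    unfold avg
    refine integral_add ?_ ?_
    · exact continuous_const.continuousOn.integrableOn_compact isCompact_Icc
    · exact hc.continuousOn.integrableOn_compact isCompact_Icc
  rw [h3, h2, rep_avg_const]
  ext u v
  show (avg ω u v + 0 : ℝ) = avg ω u v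
  rw [add_zero]

theorem rep_avg_apply {ω : V → Form} (h : ContDiff ℝ (⊤ : ℕ∞) ω) (u v : V) :
    avg ω u v = ∫ x in Icc (0 : Fin 4 → ℝ) 1, ω x u v := by
  unfold avg
  have h0 := h.continuous.continuousOn.integrableOn_compact (μ := volume)
    (isCompact_Icc (a := (0 : V)) (b := 1))
  have h1 := (h.clm_apply (contDiff_const (c := u))).continuous.continuousOn.integrableOn_compact
    (μ := volume) (isCompact_Icc (a := (0 : V)) (b := 1))
  have e1 := ContinuousLinearMap.integral_apply h0 u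
  have e2 := ContinuousLinearMap.integral_apply h1 v
  rw [e1, e2]

theorem Symp.rep {A : Form} {ω : V → Form} (h : Symp A ω) {n : ℕ} (hn : 0 < n) : Symp A (VSI.rep n ω) := by
  refine ⟨⟨h.1.toClo.rep n, ?_⟩, ?_⟩
  · intro x v hv
    exact h.1.nondeg _ v hv
  · intro u v
    have h1 := h.2 u v
    rw [← rep_avg_apply h.1.smooth] at h1
    rw [← rep_avg_apply (h.1.toClo.rep n).smooth, avg_rep h.1.toClo hn, h1]

theorem Joined.rep {A : Form} {ω₀ ω₁ : V → Form} (h : Joined A ω₀ ω₁) {n : ℕ} (hn : 0 < n) :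
    Joined A (VSI.rep n ω₀) (VSI.rep n ω₁) := by
  obtain ⟨Ω, hs, h0, h1, hS⟩ := h
  refine ⟨fun t => VSI.rep n (Ω t), ?_, ?_, ?_, ?_⟩
  · have h2 : ContDiff ℝ (⊤ : ℕ∞) (fun p : ℝ × V => (p.1, (n : ℝ) • p.2)) :=
      contDiff_fst.prodMk (contDiff_snd.const_smul (n : ℝ))
    exact hs.comp h2
  · simp only [h0]
  · simp only [h1]
  · intro t ht
    exact (hS t ht).rep hn

end VSI
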