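import Mathlib
import Pool.Agent.VSI.PRM
import Pool.Agent.VSI.PAR
import Pool.Agent.VSI.RDefs

/-!
# VSI / RM: primitives with bounds, smoothing
-/

set_option maxSynthPendingDepth 3

open Set MeasureTheory

namespace VSI

theorem rm_ext {B C : Form} (h : ∀ a b : V, B a b = C a b) : B = C :=
  ContinuousLinearMap.ext fun a => ContinuousLinearMap.ext fun b => h a b

theorem rm_fderiv_alt {η : V → Form} (h : Clo η) (x u v w : V) :
    fderiv ℝ η x u v w = - fderiv ℝ η x u w v := by
  have hd : DifferentiableAt ℝ η x := h.smooth.differentiable (by simp) x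
  have e1 : fderiv ℝ (fun x => η x v w) x u = fderiv ℝ η x u v w := by
    have := ((hd.hasFDerivAt.clm_apply (hasFDerivAt_const v x)).clm_apply
      (hasFDerivAt_const w x)).fderiv
    rw [this]; simp
  have e2 : fderiv ℝ (fun x => η x w v) x u = fderiv ℝ η x u w v := by
    have := ((hd.hasFDerivAt.clm_apply (hasFDerivAt_const w x)).clm_apply
      (hasFDerivAt_const v x)).fderiv
    rw [this]; simp
  rw [← e1, ← e2]
  have : (fun x => η x v w) = fun x => - η x w v := by
    funext y
    exact h.alt y v w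
  rw [this, fderiv_fun_neg]
  simp

/-- the integrand -/
noncomputable def rmH (φ : V → ℝ) (η : V → Form) (q : V × (V × ℝ)) : Cov :=
  -(φ q.2.1 • (η (q.1 + q.2.2 • q.2.1) q.2.1))

theorem rmH_smooth {φ : V → ℝ} (hφ : ContDiff ℝ (⊤ : ℕ∞) φ) {η : V → Form}
    (h : ContDiff ℝ (⊤ : ℕ∞) η) : ContDiff ℝ (⊤ : ℕ∞) (rmH φ η) := by
  unfold rmH
  have h1 : ContDiff ℝ (⊤ : ℕ∞) (fun q : V × (V × ℝ) => q.1 + q.2.2 • q.2.1) := by fun_prop
  have h2 : ContDiff ℝ (⊤ : ℕ∞) (fun q : V × (V × ℝ) => η (q.1 + q.2.2 • q.2.1)) := h.comp h1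
  have h3 : ContDiff ℝ (⊤ : ℕ∞) (fun q : V × (V × ℝ) => q.2.1) := by fun_prop
  exact ((hφ.comp h3).smul (h2.clm_apply h3)).neg

theorem rmH_fderiv {φ : V → ℝ} (hφ : ContDiff ℝ (⊤ : ℕ∞) φ) {η : V → Form}
    (h : ContDiff ℝ (⊤ : ℕ∞) η) (x : V) (p : V × ℝ) (u v : V) :
    fderiv ℝ (rmH φ η) (x, p) (u, 0) v = -(φ p.1 * fderiv ℝ η (x + p.2 • p.1) u p.1 v) := by
  -- the function `y ↦ rmH (y, p)` composed with evaluation at `v`
  have hs := rmH_smooth hφ h
  have h1 : HasFDerivAt (fun y : V => rmH φ η (y, p) v)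
      ((ContinuousLinearMap.apply ℝ ℝ v).comp
        ((fderiv ℝ (rmH φ η) (x, p)).comp (ContinuousLinearMap.inl ℝ V (V × ℝ)))) x := by
    have h2 : HasFDerivAt (fun y : V => rmH φ η (y, p))
        ((fderiv ℝ (rmH φ η) (x, p)).comp (ContinuousLinearMap.inl ℝ V (V × ℝ))) x := by
      have h3 : HasFDerivAt (rmH φ η) (fderiv ℝ (rmH φ η) (x, p)) (x, p) :=
        ((hs.differentiable (by simp)) (x, p)).hasFDerivAt
      have h4 : HasFDerivAt (fun y : V => (y, p)) (ContinuousLinearMap.inl ℝ V (V × ℝ)) x :=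
        hasFDerivAt_prodMk_left x p
      exact h3.comp x h4
    exact ((ContinuousLinearMap.apply ℝ ℝ v).hasFDerivAt).comp x h2
  have h5 : HasFDerivAt (fun y : V => rmH φ η (y, p) v)
      (-(φ p.1 • ((ContinuousLinearMap.apply ℝ ℝ v).comp
        ((ContinuousLinearMap.apply ℝ Cov p.1).comp (fderiv ℝ η (x + p.2 • p.1)))))) x := by
    have h6 : HasFDerivAt (fun y : V => y + p.2 • p.1) (ContinuousLinearMap.id ℝ V) x :=
      (hasFDerivAt_id x).add_const _
    have h7 : HasFDerivAt η (fderiv ℝ η (x + p.2 • p.1)) (x + p.2 • p.1) :=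
      ((h.differentiable (by simp)) _).hasFDerivAt
    have h8 : HasFDerivAt (fun y : V => η (y + p.2 • p.1)) (fderiv ℝ η (x + p.2 • p.1)) x := by
      have := h7.comp x h6
      rw [ContinuousLinearMap.comp_id] at this
      exact this
    have h9 : HasFDerivAt (fun y : V => (η (y + p.2 • p.1) p.1) v)
        ((ContinuousLinearMap.apply ℝ ℝ v).comp
          ((ContinuousLinearMap.apply ℝ Cov p.1).comp (fderiv ℝ η (x + p.2 • p.1)))) x := by
      have e1 := ((ContinuousLinearMap.apply ℝ Cov p.1).hasFDerivAt).comp x h8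
      exact ((ContinuousLinearMap.apply ℝ ℝ v).hasFDerivAt).comp x e1
    have h10 := (h9.const_smul (φ p.1)).neg
    exact h10
  have h11 := h1.unique h5
  have h12 := congrArg (fun L : V →L[ℝ] ℝ => L u) h11
  simpa using h12

/-- the fundamental theorem of calculus on a segment -/
theorem rm_ftc {η : V → Form} (h : Clo η) (x a u v : V) :
    ∫ s in Icc (0 : ℝ) 1, fderiv ℝ η (x + s • a) a u v = η (x + a) u v - η x u v := by
  have hd : Differentiable ℝ η := h.smooth.differentiable (by simp)
  have hder : ∀ s : ℝ, HasDerivAt (fun s : ℝ => η (x + s • a) u v)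
      (fderiv ℝ η (x + s • a) a u v) s := by
    intro s
    have h1 : HasDerivAt (fun s : ℝ => x + s • a) a s := by
      have h2 := ((hasDerivAt_id s).smul_const a).const_add x
      simpa using h2
    have h3 : HasDerivAt (fun s : ℝ => η (x + s • a)) (fderiv ℝ η (x + s • a) a) s :=
      (hd _).hasFDerivAt.comp_hasDerivAt s h1
    have h4 := (h3.clm_apply (hasDerivAt_const s u)).clm_apply (hasDerivAt_const s v)
    simpa using h4
  have hc : Continuous (fun s : ℝ => fderiv ℝ η (x + s • a) a u v) := by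
    have h1 : Continuous (fun s : ℝ => fderiv ℝ η (x + s • a)) :=
      (h.smooth.continuous_fderiv (by simp)).comp (by fun_prop)
    exact ((h1.clm_apply continuous_const).clm_apply continuous_const).clm_apply continuous_const
  rw [integral_Icc_eq_integral_Ioc, ← intervalIntegral.integral_of_le zero_le_one]
  rw [intervalIntegral.integral_eq_sub_of_hasDerivAt (fun s _ => hder s) (hc.intervalIntegrable _ _)]
  simp

theorem rm_core {φ : V → ℝ} (hφ : ContDiff ℝ (⊤ : ℕ∞) φ) {K : Set V} (hK : IsCompact K)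
    {η : V → Form} (h : Clo η) :
    ∃ μ : V → Cov, ContDiff ℝ (⊤ : ℕ∞) μ ∧ Per μ ∧
      (∀ x u v, dd μ x u v = (∫ a in K, φ a) * η x u v - ∫ a in K, φ a * η (x + a) u v) ∧
      ∀ (x : V) (Λ R : ℝ), (∀ x, ‖η x‖ ≤ Λ) → (∀ a ∈ K, ‖a‖ ≤ R) → (∀ a ∈ K, 0 ≤ φ a) →
        ‖μ x‖ ≤ R * Λ * ∫ a in K, φ a := by
  have hη := h.smooth
  have hH := rmH_smooth hφ hη
  have hK' : IsCompact (K ×ˢ Icc (0 : ℝ) 1) := hK.prod isCompact_Icc
  let μ : V → Cov := fun x => ∫ p in K ×ˢ Icc (0 : ℝ) 1, rmH φ η (x, p)
  refine ⟨μ, par_smooth volume hK' hH, ?_, ?_, ?_⟩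
  · intro x n
    show ∫ p in K ×ˢ Icc (0 : ℝ) 1, rmH φ η (x + (fun i => (n i : ℝ)), p) =
      ∫ p in K ×ˢ Icc (0 : ℝ) 1, rmH φ η (x, p)
    congr 1
    funext p
    unfold rmH
    simp only
    have h1 : x + (fun i => (n i : ℝ)) + p.2 • p.1 = (x + p.2 • p.1) + fun i => (n i : ℝ) := by
      abel
    rw [h1, h.per]
  · intro x u v
    -- the derivative
    have hder : ∀ u v, fderiv ℝ μ x u v =
        ∫ p in K ×ˢ Icc (0 : ℝ) 1, -(φ p.1 * fderiv ℝ η (x + p.2 • p.1) u p.1 v) := by
      intro u v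
      have h1 := par_fderiv volume hK' hH x u
      have h2 : fderiv ℝ μ x u = _ := h1
      rw [h2, ContinuousLinearMap.integral_apply]
      · congr 1
        funext p
        exact rmH_fderiv hφ hη x p u v
      · have h3 : Continuous (fun p : V × ℝ => fderiv ℝ (rmH φ η) (x, p) (u, 0)) :=
          ((hH.continuous_fderiv (by simp)).comp (by fun_prop)).clm_apply continuous_const
        exact h3.continuousOn.integrableOn_compact hK'
    have hci : ∀ u v w : V → V, Continuous u → Continuous v → Continuous w →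
        IntegrableOn (fun p : V × ℝ => -(φ p.1 * fderiv ℝ η (x + p.2 • p.1) (u p.1) (v p.1) (w p.1)))
          (K ×ˢ Icc (0 : ℝ) 1) volume := by
      intro u v w hu hv hw
      have h1 : Continuous (fun p : V × ℝ => fderiv ℝ η (x + p.2 • p.1)) :=
        (hη.continuous_fderiv (by simp)).comp (by fun_prop)
      have h2 := ((h1.clm_apply (hu.comp continuous_fst)).clm_apply
        (hv.comp continuous_fst)).clm_apply (hw.comp continuous_fst)
      have h3 : Continuous (fun p : V × ℝ =>
          -(φ p.1 * fderiv ℝ η (x + p.2 • p.1) (u p.1) (v p.1) (w p.1))) :=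
        ((hφ.continuous.comp continuous_fst).mul h2).neg
      exact h3.continuousOn.integrableOn_compact hK'
    have hi1 : IntegrableOn (fun p : V × ℝ => -(φ p.1 * fderiv ℝ η (x + p.2 • p.1) u p.1 v))
        (K ×ˢ Icc (0 : ℝ) 1) volume :=
      hci (fun _ => u) (fun a => a) (fun _ => v) continuous_const continuous_id continuous_const
    have hi2 : IntegrableOn (fun p : V × ℝ => -(φ p.1 * fderiv ℝ η (x + p.2 • p.1) v p.1 u))
        (K ×ˢ Icc (0 : ℝ) 1) volume :=
      hci (fun _ => v) (fun a => a) (fun _ => u) continuous_const continuous_id continuous_const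
    rw [dd_apply, hder u v, hder v u, ← integral_sub hi1 hi2]
    have e1 : ∀ p : V × ℝ, -(φ p.1 * fderiv ℝ η (x + p.2 • p.1) u p.1 v) -
        -(φ p.1 * fderiv ℝ η (x + p.2 • p.1) v p.1 u) =
        -(φ p.1 * fderiv ℝ η (x + p.2 • p.1) p.1 u v) := by
      intro p
      have c1 := h.closed (x + p.2 • p.1) u p.1 v
      have c2 := rm_fderiv_alt h (x + p.2 • p.1) v u p.1
      have c3 := rm_fderiv_alt h (x + p.2 • p.1) p.1 v u
      linear_combination (-φ p.1) * c1 + φ p.1 * c2 + φ p.1 * c3
    have e3 : ∫ p in K ×ˢ Icc (0 : ℝ) 1, (-(φ p.1 * fderiv ℝ η (x + p.2 • p.1) u p.1 v) -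
        -(φ p.1 * fderiv ℝ η (x + p.2 • p.1) v p.1 u)) =
        ∫ p in K ×ˢ Icc (0 : ℝ) 1, -(φ p.1 * fderiv ℝ η (x + p.2 • p.1) p.1 u v) := by
      congr 1
      funext p
      exact e1 p
    refine Eq.trans e3 ?_
    have hi : IntegrableOn (fun p : V × ℝ => -(φ p.1 * fderiv ℝ η (x + p.2 • p.1) p.1 u v))
        (K ×ˢ Icc (0 : ℝ) 1) volume :=
      hci (fun a => a) (fun _ => u) (fun _ => v) continuous_id continuous_const continuous_const
    have hv : (volume : Measure (V × ℝ)) = (volume : Measure V).prod (volume : Measure ℝ) := rfl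
    have e4 : ∫ p in K ×ˢ Icc (0 : ℝ) 1, -(φ p.1 * fderiv ℝ η (x + p.2 • p.1) p.1 u v) =
        ∫ a in K, ∫ s in Icc (0 : ℝ) 1, -(φ a * fderiv ℝ η (x + s • a) a u v) := by
      rw [hv]
      exact setIntegral_prod _ hi
    rw [e4]
    have e5 : ∀ a, ∫ s in Icc (0 : ℝ) 1, -(φ a * fderiv ℝ η (x + s • a) a u v) =
        φ a * η x u v - φ a * η (x + a) u v := by
      intro a
      rw [integral_neg, integral_const_mul, rm_ftc h]
      ring
    simp only [e5]
    have hφK : IntegrableOn φ K volume := hφ.continuous.continuousOn.integrableOn_compact hK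
    have i1 : IntegrableOn (fun a => φ a * η x u v) K volume := hφK.mul_const _
    have i2 : IntegrableOn (fun a => φ a * η (x + a) u v) K volume := by
      have h1 : Continuous (fun a : V => η (x + a)) := hη.continuous.comp (by fun_prop)
      have h2 : Continuous (fun a : V => φ a * η (x + a) u v) :=
        hφ.continuous.mul ((h1.clm_apply continuous_const).clm_apply continuous_const)
      exact h2.continuousOn.integrableOn_compact hK
    rw [integral_sub i1 i2, integral_mul_const]
  · intro x Λ R hΛ hR hφ0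
    show ‖∫ p in K ×ˢ Icc (0 : ℝ) 1, rmH φ η (x, p)‖ ≤ _
    have hv : (volume : Measure (V × ℝ)) = (volume : Measure V).prod (volume : Measure ℝ) := rfl
    have hφK : Continuous (fun p : V × ℝ => R * Λ * φ p.1) :=
      continuous_const.mul (hφ.continuous.comp continuous_fst)
    have i1 : IntegrableOn (fun p : V × ℝ => R * Λ * φ p.1) (K ×ˢ Icc (0 : ℝ) 1) volume :=
      hφK.continuousOn.integrableOn_compact hK'
    have h1 : ‖∫ p in K ×ˢ Icc (0 : ℝ) 1, rmH φ η (x, p)‖ ≤
        ∫ p in K ×ˢ Icc (0 : ℝ) 1, R * Λ * φ p.1 := by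
      refine norm_integral_le_of_norm_le i1 ?_
      refine ae_restrict_of_forall_mem hK'.measurableSet fun p hp => ?_
      unfold rmH
      simp only
      rw [norm_neg, norm_smul, Real.norm_eq_abs, abs_of_nonneg (hφ0 _ hp.1)]
      have h2 : ‖η (x + p.2 • p.1) p.1‖ ≤ Λ * R :=
        ((η (x + p.2 • p.1)).le_opNorm p.1).trans
          (mul_le_mul (hΛ _) (hR _ hp.1) (norm_nonneg _) ((norm_nonneg _).trans (hΛ 0)))
      nlinarith [hφ0 _ hp.1, mul_le_mul_of_nonneg_left h2 (hφ0 _ hp.1)]
    refine h1.trans (le_of_eq ?_)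
    rw [hv] at i1 ⊢
    rw [setIntegral_prod _ i1]
    simp only [setIntegral_const]
    rw [← integral_const_mul]
    simp

/-- A closed form with average zero has a primitive with the same bound.  The primitive is the one of `exists_prim`:
`μ x v = - ∫_{a in the cube} ∫_{s in [0,1]} η (x + s a) a v`, and `‖a‖ ≤ 1`. -/
theorem exists_prim_bound {η : V → Form} (h : Clo η) (h0 : avg η = 0) {Λ : ℝ} (hb : ∀ x, ‖η x‖ ≤ Λ) :
    ∃ μ : V → Cov, ContDiff ℝ (⊤ : ℕ∞) μ ∧ Per μ ∧ (∀ x, η x = dd μ x) ∧ ∀ x, ‖μ x‖ ≤ Λ := by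
  obtain ⟨μ, hμ, hp, hd, hn⟩ := rm_core (φ := fun _ => (1 : ℝ)) contDiff_const
    (K := Icc (0 : V) 1) isCompact_Icc h
  have h1 : ∫ _a in Icc (0 : V) 1, (1 : ℝ) = 1 := integral_const_cube _
  refine ⟨μ, hμ, hp, fun x => rm_ext fun u v => ?_, fun x => ?_⟩
  · rw [hd x u v, h1, one_mul]
    have h2 : ∫ a in Icc (0 : V) 1, (1 : ℝ) * η (x + a) u v = 0 := by
      have hc : Continuous (fun a : V => η a u v) :=
        (h.smooth.continuous.clm_apply continuous_const).clm_apply continuous_const
      have h3 := integral_shift hc (fun y n => by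
        show η _ u v = η y u v
        rw [h.per]) x
      have h4 : ∫ a in Icc (0 : V) 1, η a u v = 0 := by
        rw [← avg_apply h.smooth.continuous, h0]
        rfl
      rw [h4] at h3
      rw [← h3]
      congr 1
      funext a
      rw [one_mul, add_comm x a]
    rw [h2, sub_zero]
  · have h2 := hn x Λ 1 hb (fun a ha => by
      rw [pi_norm_le_iff_of_nonneg zero_le_one]
      intro i
      rw [Real.norm_eq_abs, abs_of_nonneg (ha.1 i)]
      exact ha.2 i) (fun _ _ => zero_le_one)
    rwa [h1, one_mul, mul_one] at h2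

/-- Smoothing at the scale `δ`: with a smooth bump function `φ ≥ 0` of integral one supported in the ball of radius
`δ` (`ContDiffBump`), `η' x = ∫ a, φ a • η (x + a)` and
`κ x v = - ∫ a, ∫ s in 0..1, φ a * η (x + s a) a v`, so `η = η' + dd κ` (same computation as in `exists_prim`).
`η'` is Lipschitz with constant `Λ * ∫ ‖fderiv φ‖`. -/
theorem exists_smoothing {δ : ℝ} (hδ : 0 < δ) :
    ∃ K : ℝ, 0 < K ∧ ∀ (η : V → Form), Clo η → ∀ Λ : ℝ, (∀ x, ‖η x‖ ≤ Λ) →
      ∃ (η' : V → Form) (κ : V → Cov), Clo η' ∧ ContDiff ℝ (⊤ : ℕ∞) κ ∧ Per κ ∧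
        (∀ x, η x = η' x + dd κ x) ∧ (∀ x, ‖η' x‖ ≤ Λ) ∧
        (∀ x y, ‖η' x - η' y‖ ≤ K * Λ * ‖x - y‖) ∧ ∀ x, ‖κ x‖ ≤ δ * Λ := by
  let f : ContDiffBump (0 : V) := ⟨δ / 2, δ, by positivity, by linarith⟩
  let φ : V → ℝ := f.normed volume
  have hφ : ContDiff ℝ (⊤ : ℕ∞) φ := f.contDiff_normed
  have hφ0 : ∀ a, 0 ≤ φ a := fun a => f.nonneg_normed a
  have hφ1 : ∫ a, φ a = 1 := f.integral_normed
  let K : Set V := Metric.closedBall 0 δ
  have hK : IsCompact K := isCompact_closedBall 0 δ
  have hout : ∀ a, a ∉ K → φ a = 0 := by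
    intro a ha
    have h1 : Function.support φ = Metric.ball 0 δ := f.support_normed_eq
    by_contra h2
    have h3 : a ∈ Function.support φ := h2
    rw [h1] at h3
    exact ha (Metric.ball_subset_closedBall h3)
  have hφK : ∫ a in K, φ a = 1 := by
    rw [← hφ1]
    exact setIntegral_eq_integral_of_forall_compl_eq_zero fun a ha => hout a ha
  obtain ⟨C, hC⟩ := ContDiff.lipschitzWith_of_hasCompactSupport (𝕂 := ℝ) (f := φ)
    f.hasCompactSupport_normed hφ (by simp)
  set b : ℝ := volume.real K with hb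
  have hb0 : 0 ≤ b := measureReal_nonneg
  refine ⟨C * (2 * b) + 1, by positivity, ?_⟩
  intro η h Λ hΛ
  have hΛ0 : 0 ≤ Λ := (norm_nonneg _).trans (hΛ 0)
  obtain ⟨κ, hκ, hκp, hκd, hκn⟩ := rm_core hφ hK h
  have hη := h.smooth
  let E : V → Form := fun x => ∫ a in K, φ a • η (x + a)
  have hci : ∀ x : V, Continuous (fun a : V => φ a • η (x + a)) := by
    intro x
    have h1 : Continuous (fun a : V => η (x + a)) := hη.continuous.comp (by fun_prop)
    exact hφ.continuous.smul h1
  have hE : ∀ x u v, E x u v = ∫ a in K, φ a * η (x + a) u v := by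
    intro x u v
    show (∫ a in K, φ a • η (x + a)) u v = _
    have i1 : Integrable (fun a : V => φ a • η (x + a)) (volume.restrict K) :=
      (hci x).continuousOn.integrableOn_compact hK
    rw [ContinuousLinearMap.integral_apply i1, ContinuousLinearMap.integral_apply]
    · rfl
    · exact ((hci x).clm_apply continuous_const).continuousOn.integrableOn_compact hK
  have hEd : ∀ x, η x = E x + dd κ x := by
    intro x
    refine rm_ext fun u v => ?_
    show η x u v = E x u v + dd κ x u v
    rw [hE, hκd, hφK]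
    ring
  have hEc : Clo E := by
    have h1 : E = fun x => η x + (-1 : ℝ) • dd κ x := by
      funext x
      rw [hEd x]
      module
    rw [h1]
    exact h.add ((clo_dd hκ hκp).smul (-1))
  refine ⟨E, κ, hEc, hκ, hκp, hEd, ?_, ?_, ?_⟩
  · intro x
    show ‖∫ a in K, φ a • η (x + a)‖ ≤ Λ
    have i1 : IntegrableOn (fun a => φ a * Λ) K volume :=
      (hφ.continuous.mul continuous_const).continuousOn.integrableOn_compact hK
    have h1 : ‖∫ a in K, φ a • η (x + a)‖ ≤ ∫ a in K, φ a * Λ := by
      refine norm_integral_le_of_norm_le i1 (Filter.Eventually.of_forall fun a => ?_)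
      rw [norm_smul, Real.norm_eq_abs, abs_of_nonneg (hφ0 a)]
      exact mul_le_mul_of_nonneg_left (hΛ _) (hφ0 a)
    rwa [integral_mul_const, hφK, one_mul] at h1
  · intro x y
    -- move the translation to `φ`
    have hT : ∀ x, E x = ∫ a, φ (a - x) • η a := by
      intro x
      have h1 : E x = ∫ a, φ a • η (x + a) := by
        refine setIntegral_eq_integral_of_forall_compl_eq_zero fun a ha => ?_
        rw [hout a ha, zero_smul]
      rw [h1, ← integral_sub_right_eq_self (fun a => φ a • η (x + a)) x]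
      congr 1
      funext a
      rw [add_sub_cancel]
    have hout' : ∀ x a : V, a ∉ Metric.closedBall x δ → φ (a - x) = 0 := by
      intro x a ha
      apply hout
      intro h1
      apply ha
      rw [Metric.mem_closedBall, dist_zero_right] at h1
      rw [Metric.mem_closedBall, dist_eq_norm]
      exact h1
    have hint : ∀ x : V, Integrable (fun a => φ (a - x) • η a) volume := by
      intro x
      have hc : Continuous (fun a => φ (a - x) • η a) :=
        (hφ.continuous.comp (by fun_prop)).smul hη.continuous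
      refine hc.integrable_of_hasCompactSupport ?_
      refine HasCompactSupport.intro (isCompact_closedBall x δ) fun a ha => ?_
      rw [hout' x a ha, zero_smul]
    have h1 : E x - E y = ∫ a, (φ (a - x) - φ (a - y)) • η a := by
      rw [hT x, hT y, ← integral_sub (hint x) (hint y)]
      congr 1
      funext a
      rw [sub_smul]
    set S : Set V := Metric.closedBall x δ ∪ Metric.closedBall y δ with hS
    have h2 : ∫ a, (φ (a - x) - φ (a - y)) • η a = ∫ a in S, (φ (a - x) - φ (a - y)) • η a := by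
      refine (setIntegral_eq_integral_of_forall_compl_eq_zero fun a ha => ?_).symm
      rw [hS, mem_union, not_or] at ha
      rw [hout' x a ha.1, hout' y a ha.2, sub_zero, zero_smul]
    have hSc : IsCompact S := (isCompact_closedBall x δ).union (isCompact_closedBall y δ)
    have h3 : ‖∫ a in S, (φ (a - x) - φ (a - y)) • η a‖ ≤ (C * ‖x - y‖ * Λ) * volume.real S := by
      refine norm_setIntegral_le_of_norm_le_const hSc.measure_lt_top fun a _ => ?_
      rw [norm_smul]
      refine mul_le_mul ?_ (hΛ a) (norm_nonneg _) (by positivity)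
      have h4 := hC.dist_le_mul (a - x) (a - y)
      rw [dist_eq_norm, dist_eq_norm] at h4
      have h5 : a - x - (a - y) = -(x - y) := by abel
      rw [h5, norm_neg] at h4
      exact h4
    have h4 : volume.real S ≤ 2 * b := by
      have h5 : volume.real S ≤ volume.real (Metric.closedBall x δ) +
        volume.real (Metric.closedBall y δ) := measureReal_union_le _ _
      have h6 : ∀ z : V, volume.real (Metric.closedBall z δ) = b := by
        intro z
        rw [hb, Measure.real, Measure.real, Measure.addHaar_closedBall_center]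
      rw [h6, h6] at h5
      linarith
    rw [h1, h2]
    refine h3.trans ?_
    have h7 : (C * ‖x - y‖ * Λ) * volume.real S ≤ (C * ‖x - y‖ * Λ) * (2 * b) :=
      mul_le_mul_of_nonneg_left h4 (by positivity)
    have h8 : 0 ≤ Λ * ‖x - y‖ := by positivity
    nlinarith
  · intro x
    have h1 := hκn x Λ δ hΛ (fun a ha => mem_closedBall_zero_iff.1 ha) (fun a _ => hφ0 a)
    rwa [hφK, mul_one] at h1

end VSI
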