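import Mathlib
import Pool.Agent.VSI.SHF
import Pool.Agent.VSI.RDefs

/-!
# VSI / RP: total boundedness by the pigeonhole principle
-/

set_option maxSynthPendingDepth 3

open Set MeasureTheory

namespace VSI

/-- Among sufficiently many periodic functions with a common bound and a common Lipschitz constant, two are uniformly
close and have the same colour.  Finite net of the unit cube, finite net of the ball of radius `Λ`, pigeonhole. -/
theorem exists_close {κ : Type} [Fintype κ] {F : Type} [NormedAddCommGroup F] [NormedSpace ℝ F]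
    [FiniteDimensional ℝ F] (Λ K : ℝ) {ε : ℝ} (hε : 0 < ε) :
    ∃ N : ℕ, ∀ (f : Fin (N + 1) → V → F) (col : Fin (N + 1) → κ), (∀ i, Per (f i)) →
      (∀ i x, ‖f i x‖ ≤ Λ) → (∀ i x y, ‖f i x - f i y‖ ≤ K * ‖x - y‖) →
      ∃ i j, i ≠ j ∧ col i = col j ∧ ∀ x, ‖f i x - f j x‖ ≤ ε := by
  classical
  haveI : ProperSpace F := FiniteDimensional.proper ℝ F
  have hK1 : 0 < |K| + 1 := by positivity
  obtain ⟨δ, hδ, hKδ⟩ : ∃ δ > 0, K * δ ≤ ε / 4 := by
    refine ⟨ε / 4 / (|K| + 1), by positivity, ?_⟩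
    rw [← mul_div_assoc, div_le_iff₀ hK1, mul_comm]
    refine mul_le_mul_of_nonneg_left ?_ (by positivity)
    linarith [le_abs_self K]
  obtain ⟨t, htsub, htfin, htc⟩ := (isCompact_Icc (a := (0 : V)) (b := 1)).finite_cover_balls hδ
  obtain ⟨s, hssub, hsfin, hsc⟩ := (isCompact_closedBall (0 : F) Λ).finite_cover_balls
    (show 0 < ε / 4 by positivity)
  haveI : Fintype t := htfin.fintype
  haveI : Fintype s := hsfin.fintype
  refine ⟨Fintype.card (κ × (t → s)), ?_⟩
  intro f col hper hbd hlip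
  have hnear : ∀ i (c : V), ∃ a : s, ‖f i c - a‖ < ε / 4 := by
    intro i c
    have h1 : f i c ∈ ⋃ x ∈ s, Metric.ball x (ε / 4) := hsc (by
      rw [mem_closedBall_zero_iff]; exact hbd i c)
    obtain ⟨a, ha, hb⟩ := mem_iUnion₂.1 h1
    refine ⟨⟨a, ha⟩, ?_⟩
    rw [Metric.mem_ball, dist_eq_norm] at hb
    exact hb
  choose g hg using hnear
  let Φ : Fin (Fintype.card (κ × (t → s)) + 1) → κ × (t → s) := fun i => (col i, fun c => g i c)
  have hcard : Fintype.card (κ × (t → s)) < Fintype.card (Fin (Fintype.card (κ × (t → s)) + 1)) := by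
    rw [Fintype.card_fin]
    exact Nat.lt_succ_self _
  obtain ⟨i, j, hij, hΦ⟩ := Fintype.exists_ne_map_eq_of_card_lt Φ hcard
  have hcol : col i = col j := congrArg Prod.fst hΦ
  have hgc : ∀ c : t, g i c = g j c := fun c => congrFun (congrArg Prod.snd hΦ) c
  refine ⟨i, j, hij, hcol, ?_⟩
  intro x
  obtain ⟨n, hn⟩ := exists_cube x
  obtain ⟨c, hc, hxc⟩ := mem_iUnion₂.1 (htc hn)
  rw [Metric.mem_ball, dist_eq_norm] at hxc
  have e1 : f i x = f i (x + fun k => (n k : ℝ)) := (hper i x n).symm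
  have e2 : f j x = f j (x + fun k => (n k : ℝ)) := (hper j x n).symm
  rw [e1, e2]
  set y : V := x + fun k => (n k : ℝ) with hy
  have hKy : K * ‖y - c‖ ≤ ε / 4 := by
    rcases le_total 0 K with h | h
    · exact (mul_le_mul_of_nonneg_left hxc.le h).trans hKδ
    · exact (mul_nonpos_of_nonpos_of_nonneg h (norm_nonneg _)).trans (by positivity)
  have h1 := (hlip i y c).trans hKy
  have h2 := (hlip j y c).trans hKy
  have h3 := hg i c
  have h4 := hg j c
  have h5 : g i c = g j c := hgc ⟨c, hc⟩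
  rw [← h5] at h4
  have h6 : f i y - f j y = (f i y - f i c) + (f i c - (g i c : F)) - (f j c - (g i c : F))
      - (f j y - f j c) := by abel
  rw [h6]
  have a1 := norm_sub_le ((f i y - f i c) + (f i c - (g i c : F)) - (f j c - (g i c : F)))
    (f j y - f j c)
  have a2 := norm_sub_le ((f i y - f i c) + (f i c - (g i c : F))) (f j c - (g i c : F))
  have a3 := norm_add_le (f i y - f i c) (f i c - (g i c : F))
  linarith

end VSI
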