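import Mathlib
import Pool.Agent.VSI.RDefs

/-!
# VSI / RQ: rational planes
-/

set_option maxSynthPendingDepth 3

open Set MeasureTheory

namespace VSI

/-- A nonzero integer covector that kills two integer vectors. -/
theorem exists_killer (p q : Fin 4 → ℤ) :
    ∃ ℓ : Fin 4 → ℤ, ℓ ≠ 0 ∧ ∑ i, ℓ i * p i = 0 ∧ ∑ i, ℓ i * q i = 0 := by
  obtain ⟨t, ht, hA, _⟩ := Int.Matrix.exists_ne_zero_int_vec_norm_le
    (A := (Matrix.of ![p, q] : Matrix (Fin 2) (Fin 4) ℤ)) (by simp) (by simp)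
  refine ⟨t, ht, ?_, ?_⟩
  · have := congrFun hA 0
    simp only [Matrix.mulVec, dotProduct, Matrix.of_apply, Matrix.cons_val_zero, Pi.zero_apply] at this
    rw [← this]
    exact Finset.sum_congr rfl fun i _ => mul_comm _ _
  · have := congrFun hA 1
    simp only [Matrix.mulVec, dotProduct, Matrix.of_apply, Matrix.cons_val_one, Pi.zero_apply] at this
    rw [← this]
    exact Finset.sum_congr rfl fun i _ => mul_comm _ _

/-- Every plane is close to one of finitely many planes with rational spanning vectors, which are in the kernel of a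
nonzero integer covector.  Round `u`, `v` towards zero to multiples of `1 / D`; a nonzero integer covector that
kills two integer vectors exists by Siegel's lemma (`Int.Matrix.exists_ne_zero_int_vec_norm_le`). -/
theorem exists_planes {δ : ℝ} (hδ : 0 < δ) :
    ∃ (m : ℕ) (ℓ : Fin m → Fin 4 → ℤ) (U W : Fin m → V), (∀ k, ℓ k ≠ 0) ∧
      (∀ k, lin (ℓ k) (U k) = 0 ∧ lin (ℓ k) (W k) = 0 ∧ ‖U k‖ ≤ 1 ∧ ‖W k‖ ≤ 1) ∧
      ∀ u v : V, ‖u‖ ≤ 1 → ‖v‖ ≤ 1 → ∃ k, ‖u - U k‖ ≤ δ ∧ ‖v - W k‖ ≤ δ := by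
  classical
  obtain ⟨D, hD⟩ := exists_nat_gt (max 1 (1 / δ))
  have hD1 : (1 : ℝ) < D := lt_of_le_of_lt (le_max_left _ _) hD
  have hDδ : 1 / (D : ℝ) ≤ δ := by
    have h1 : 1 / δ < D := lt_of_le_of_lt (le_max_right _ _) hD
    rw [div_lt_iff₀ hδ] at h1
    rw [div_le_iff₀ (by linarith)]
    linarith
  have hDpos : (0 : ℝ) < D := by linarith
  let I := (Fin 4 → Finset.Icc (-(D : ℤ)) (D : ℤ))
  let vec : I → V := fun p i => ((p i : ℤ) : ℝ) / D
  have hvec : ∀ p : I, ‖vec p‖ ≤ 1 := by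
    intro p
    rw [pi_norm_le_iff_of_nonneg zero_le_one]
    intro i
    have h := Finset.mem_Icc.1 (p i).2
    have h1 : -(D : ℝ) ≤ ((p i : ℤ) : ℝ) := by exact_mod_cast h.1
    have h2 : ((p i : ℤ) : ℝ) ≤ D := by exact_mod_cast h.2
    simp only [vec, Real.norm_eq_abs, abs_div, abs_of_pos hDpos]
    rw [div_le_one hDpos, abs_le]
    exact ⟨h1, h2⟩
  have hround : ∀ u : V, ‖u‖ ≤ 1 → ∃ p : I, ‖u - vec p‖ ≤ δ := by
    intro u hu
    have hui : ∀ i, |u i| ≤ 1 := fun i => (norm_le_pi_norm u i).trans hu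
    have hmem : ∀ i, ⌊(D : ℝ) * u i⌋ ∈ Finset.Icc (-(D : ℤ)) (D : ℤ) := by
      intro i
      have h := abs_le.1 (hui i)
      rw [Finset.mem_Icc]
      constructor
      · rw [Int.le_floor]
        push_cast
        nlinarith [h.1]
      · have : (⌊(D : ℝ) * u i⌋ : ℝ) ≤ (D : ℤ) := by
          refine (Int.floor_le _).trans ?_
          push_cast
          nlinarith [h.2]
        exact_mod_cast this
    refine ⟨fun i => ⟨_, hmem i⟩, ?_⟩
    refine le_trans ?_ hDδ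
    rw [pi_norm_le_iff_of_nonneg (by positivity)]
    intro i
    have h1 := Int.floor_le ((D : ℝ) * u i)
    have h2 := Int.lt_floor_add_one ((D : ℝ) * u i)
    simp only [vec, Pi.sub_apply, Real.norm_eq_abs]
    have e : u i - (⌊(D : ℝ) * u i⌋ : ℝ) / D = ((D : ℝ) * u i - ⌊(D : ℝ) * u i⌋) / D := by
      field_simp
    rw [e, abs_div, abs_of_pos hDpos, abs_of_nonneg (by linarith)]
    exact div_le_div_of_nonneg_right (by linarith) hDpos.le
  have hk : ∀ p : I × I, ∃ ℓ : Fin 4 → ℤ, ℓ ≠ 0 ∧ lin ℓ (vec p.1) = 0 ∧ lin ℓ (vec p.2) = 0 := by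
    intro p
    obtain ⟨ℓ, h0, h1, h2⟩ := exists_killer (fun i => (p.1 i : ℤ)) (fun i => (p.2 i : ℤ))
    refine ⟨ℓ, h0, ?_, ?_⟩
    · rw [lin_apply]
      have : ∑ i, (ℓ i : ℝ) * vec p.1 i = ((∑ i, ℓ i * (p.1 i : ℤ) : ℤ) : ℝ) / D := by
        push_cast
        rw [Finset.sum_div]
        exact Finset.sum_congr rfl fun i _ => by simp only [vec]; ring
      rw [this, h1]; simp
    · rw [lin_apply]
      have : ∑ i, (ℓ i : ℝ) * vec p.2 i = ((∑ i, ℓ i * (p.2 i : ℤ) : ℤ) : ℝ) / D := by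
        push_cast
        rw [Finset.sum_div]
        exact Finset.sum_congr rfl fun i _ => by simp only [vec]; ring
      rw [this, h2]; simp
  choose ℓ hℓ0 hℓ1 hℓ2 using hk
  let e : Fin (Fintype.card (I × I)) ≃ I × I := (Fintype.equivFin (I × I)).symm
  refine ⟨Fintype.card (I × I), fun k => ℓ (e k), fun k => vec (e k).1, fun k => vec (e k).2,
    fun k => hℓ0 _, fun k => ⟨hℓ1 _, hℓ2 _, hvec _, hvec _⟩, ?_⟩
  intro u v hu hv
  obtain ⟨p, hp⟩ := hround u hu
  obtain ⟨q, hq⟩ := hround v hv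
  exact ⟨e.symm (p, q), by simpa using hp, by simpa using hq⟩

end VSI
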