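import Mathlib
import Pool.Agent.VSI.RB
import Pool.Agent.VSI.RM
import Pool.Agent.VSI.RP
import Pool.Agent.VSI.RQ
import Pool.Agent.VSI.REP

/-!
# VSI / RF: the uniform theorems
-/

set_option maxSynthPendingDepth 3

open Set MeasureTheory

namespace VSI

theorem RF_nonneg {A : Form} {Λ c h : ℝ} {u v : V} {ω : V → Form} (H : BPos A Λ c h u v ω) : 0 ≤ Λ :=
  (norm_nonneg _).trans (H.up 0)

theorem RF_apply_le (B : Form) (u v : V) : |B u v| ≤ ‖B‖ * ‖u‖ * ‖v‖ := by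
  rw [← Real.norm_eq_abs]
  exact B.le_opNorm₂ u v

/-- A form that is at least `h` on the plane of `u`, `v` is at least `h / 2` on one of the finitely many planes of
`exists_planes`; `δ = h / (4 (Λ + 1))`. -/
theorem exists_planes_pos {Λ h : ℝ} (hh : 0 < h) :
    ∃ (m : ℕ) (ℓ : Fin m → Fin 4 → ℤ) (U W : Fin m → V), (∀ k, ℓ k ≠ 0) ∧
      (∀ k, lin (ℓ k) (U k) = 0 ∧ lin (ℓ k) (W k) = 0 ∧ ‖U k‖ ≤ 1 ∧ ‖W k‖ ≤ 1) ∧
      ∀ u v : V, ‖u‖ ≤ 1 → ‖v‖ ≤ 1 → ∃ k, ∀ (A : Form) (c : ℝ) (ω : V → Form), BPos A Λ c h u v ω →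
        BPos A Λ c (h / 2) (U k) (W k) ω := by
  have hδ : 0 < h / (4 * (|Λ| + 1)) := by positivity
  obtain ⟨m, ℓ, U, W, h1, h2, h3⟩ := exists_planes hδ
  refine ⟨m, ℓ, U, W, h1, h2, fun u v hu hv => ?_⟩
  obtain ⟨k, hk1, hk2⟩ := h3 u v hu hv
  refine ⟨k, fun A c ω H => ⟨H.symp, H.up, H.lo, fun x => ?_⟩⟩
  have hΛ : 0 ≤ Λ := RF_nonneg H
  rw [abs_of_nonneg hΛ] at hk1 hk2
  have e1 : ω x u v - ω x (U k) (W k) = ω x (u - U k) v + ω x (U k) (v - W k) := by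
    simp only [map_sub, sub_apply]
    ring
  have e2 : |ω x (u - U k) v| ≤ Λ * (h / (4 * (Λ + 1))) := by
    refine (RF_apply_le _ _ _).trans ?_
    calc ‖ω x‖ * ‖u - U k‖ * ‖v‖ ≤ ‖ω x‖ * ‖u - U k‖ * 1 :=
          mul_le_mul_of_nonneg_left hv (by positivity)
      _ = ‖ω x‖ * ‖u - U k‖ := mul_one _
      _ ≤ Λ * (h / (4 * (Λ + 1))) := mul_le_mul (H.up x) hk1 (norm_nonneg _) hΛ
  have e3 : |ω x (U k) (v - W k)| ≤ Λ * (h / (4 * (Λ + 1))) := by
    refine (RF_apply_le _ _ _).trans ?_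
    calc ‖ω x‖ * ‖U k‖ * ‖v - W k‖ ≤ ‖ω x‖ * 1 * ‖v - W k‖ :=
          mul_le_mul_of_nonneg_right (mul_le_mul_of_nonneg_left (h2 k).2.2.1 (norm_nonneg _))
            (norm_nonneg _)
      _ = ‖ω x‖ * ‖v - W k‖ := by rw [mul_one]
      _ ≤ Λ * (h / (4 * (Λ + 1))) := mul_le_mul (H.up x) hk2 (norm_nonneg _) hΛ
  have e4 : Λ * (h / (4 * (Λ + 1))) ≤ h / 4 := by
    have : Λ * (h / (4 * (Λ + 1))) = (Λ / (Λ + 1)) * (h / 4) := by field_simp
    rw [this]
    have : Λ / (Λ + 1) ≤ 1 := by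
      rw [div_le_one (by linarith)]; linarith
    nlinarith
  have e5 := H.pos x
  have e6 := (abs_le.1 e2).2
  have e7 := (abs_le.1 e3).2
  linarith

/-- Proximity with a common constant for all planes. -/
theorem RF_prox {Λ c h : ℝ} (hc : 0 < c) (hh : 0 < h) {m : ℕ} {ℓ : Fin m → Fin 4 → ℤ} {U W : Fin m → V}
    (h1 : ∀ k, ℓ k ≠ 0)
    (h2 : ∀ k, lin (ℓ k) (U k) = 0 ∧ lin (ℓ k) (W k) = 0 ∧ ‖U k‖ ≤ 1 ∧ ‖W k‖ ≤ 1) :
    ∃ ε > 0, ∀ (k : Fin m) (A : Form) (ω₀ ω₁ : V → Form),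
      BPos A Λ c h (U k) (W k) ω₀ → BPos A Λ c h (U k) (W k) ω₁ →
      ∀ ν : V → Cov, ContDiff ℝ (⊤ : ℕ∞) ν → Per ν → (∀ x, ω₁ x = ω₀ x + dd ν x) → (∀ x, ‖ν x‖ ≤ ε) →
      Joined A ω₀ ω₁ := by
  have H : ∀ k, ∃ ε > 0, ∀ (A : Form) (ω₀ ω₁ : V → Form),
      BPos A Λ c h (U k) (W k) ω₀ → BPos A Λ c h (U k) (W k) ω₁ →
      ∀ ν : V → Cov, ContDiff ℝ (⊤ : ℕ∞) ν → Per ν → (∀ x, ω₁ x = ω₀ x + dd ν x) → (∀ x, ‖ν x‖ ≤ ε) →
      Joined A ω₀ ω₁ := by
    intro k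
    obtain ⟨ε, hε, H⟩ := near_joined (ℓ k) (h1 k) (Λ := Λ) hc hh
    exact ⟨ε, hε, fun A ω₀ ω₁ b0 b1 => H A (U k) (W k) ω₀ ω₁ (h2 k).1 (h2 k).2.1 (h2 k).2.2.1
      (h2 k).2.2.2 b0 b1⟩
  choose e he H using H
  rcases Nat.eq_zero_or_pos m with rfl | hm
  · exact ⟨1, one_pos, fun k => k.elim0⟩
  · have hne : (Finset.univ : Finset (Fin m)).Nonempty := ⟨⟨0, hm⟩, Finset.mem_univ _⟩
    obtain ⟨k0, _, hk0⟩ := Finset.exists_min_image Finset.univ e hne
    refine ⟨e k0, he k0, fun k A ω₀ ω₁ b0 b1 ν hν hp h3 h4 => ?_⟩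
    exact H k A ω₀ ω₁ b0 b1 ν hν hp h3 fun x => (h4 x).trans (hk0 k (Finset.mem_univ _))

/-- Proximity, for arbitrary planes. -/
theorem proximity {Λ c h : ℝ} (hc : 0 < c) (hh : 0 < h) :
    ∃ ε > 0, ∀ (A : Form) (u v : V) (ω₀ ω₁ : V → Form), ‖u‖ ≤ 1 → ‖v‖ ≤ 1 →
      BPos A Λ c h u v ω₀ → BPos A Λ c h u v ω₁ →
      ∀ ν : V → Cov, ContDiff ℝ (⊤ : ℕ∞) ν → Per ν → (∀ x, ω₁ x = ω₀ x + dd ν x) → (∀ x, ‖ν x‖ ≤ ε) →
      Joined A ω₀ ω₁ := by
  obtain ⟨m, ℓ, U, W, h1, h2, h3⟩ := exists_planes_pos (Λ := Λ) hh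
  obtain ⟨ε, hε, H⟩ := RF_prox (Λ := Λ) hc (half_pos hh) h1 h2
  refine ⟨ε, hε, fun A u v ω₀ ω₁ hu hv b0 b1 ν hν hp hd hb => ?_⟩
  obtain ⟨k, hk⟩ := h3 u v hu hv
  exact H k A ω₀ ω₁ (hk A c ω₀ b0) (hk A c ω₁ b1) ν hν hp hd hb

theorem dd_sub {μ ν : V → Cov} {x : V} (hμ : DifferentiableAt ℝ μ x) (hν : DifferentiableAt ℝ ν x) :
    dd (fun y => μ y - ν y) x = dd μ x - dd ν x := by
  have : fderiv ℝ (fun y => μ y - ν y) x = fderiv ℝ μ x - fderiv ℝ ν x := fderiv_fun_sub hμ hν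
  ext u v
  simp only [dd_apply, this, sub_apply]
  ring

/-- Finiteness: the forms with given bounds, positive on some constant plane, are in at most `K` components of the
space of symplectic forms in their class. -/
theorem finiteness {Λ c h : ℝ} (hc : 0 < c) (hh : 0 < h) :
    ∃ K : ℕ, ∀ (A : Form) (ω : Fin (K + 1) → V → Form),
      (∀ i, ∃ u v : V, ‖u‖ ≤ 1 ∧ ‖v‖ ≤ 1 ∧ BPos A Λ c h u v (ω i)) →
      ∃ i j, i ≠ j ∧ Joined A (ω i) (ω j) := by
  rcases lt_or_ge Λ 0 with hΛ | hΛ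
  · refine ⟨0, fun A ω H => ?_⟩
    obtain ⟨u, v, _, _, h3⟩ := H 0
    exact absurd (RF_nonneg h3) (not_le.2 hΛ)
  obtain ⟨m, ℓ, U, W, h1, h2, h3⟩ := exists_planes_pos (Λ := Λ) hh
  obtain ⟨ε, hε, H⟩ := RF_prox (Λ := Λ) hc (half_pos hh) h1 h2
  have hδ : 0 < ε / (4 * (Λ + 1)) := by positivity
  obtain ⟨Kl, hKl, hsm⟩ := exists_smoothing hδ
  obtain ⟨N, hN⟩ := exists_close (κ := Fin m) (F := Form) Λ (Kl * Λ) (half_pos hε)
  refine ⟨N, fun A ω hω => ?_⟩
  choose u v hu hv hb using hω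
  have hcl : ∀ i, Clo (ω i) := fun i => (hb i).symp.1.toClo
  choose η κ hη hκs hκp hdec hηb hηL hκb using fun i => hsm (ω i) (hcl i) Λ (hb i).up
  have hcol : ∀ i, ∃ k, BPos A Λ c (h / 2) (U k) (W k) (ω i) := by
    intro i
    obtain ⟨k, hk⟩ := h3 (u i) (v i) (hu i) (hv i)
    exact ⟨k, hk A c (ω i) (hb i)⟩
  choose col hcol using hcol
  obtain ⟨i, j, hij, hcij, hclose⟩ := hN η col (fun i => (hη i).per) hηb hηL
  refine ⟨i, j, hij, ?_⟩
  -- the difference of the smoothed forms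
  have havg : ∀ i, avg (η i) = A := by
    intro i
    have e1 : avg (ω i) = A := (cls_iff (hcl i).smooth.continuous A).1 (hb i).symp.2
    have e2 : ω i = fun x => η i x + dd (κ i) x := funext (hdec i)
    rw [e2, avg_add (hη i).smooth.continuous (clo_dd (hκs i) (hκp i)).smooth.continuous,
      avg_dd (hκs i) (hκp i), add_zero] at e1
    exact e1
  have hdiff : Clo (fun x => η j x + (-1 : ℝ) • η i x) := (hη j).add ((hη i).smul (-1))
  have hdiff0 : avg (fun x => η j x + (-1 : ℝ) • η i x) = 0 := by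
    rw [avg_add (ω := η j) (hη j).smooth.continuous ((hη i).smul (-1)).smooth.continuous,
      avg_smul, havg, havg]
    simp
  have hdiffb : ∀ x, ‖η j x + (-1 : ℝ) • η i x‖ ≤ ε / 2 := by
    intro x
    have := hclose x
    rw [norm_sub_rev] at this
    rw [neg_one_smul, ← sub_eq_add_neg]
    exact this
  obtain ⟨μ, hμs, hμp, hμd, hμb⟩ := exists_prim_bound hdiff hdiff0 hdiffb
  have dif : ∀ {f : V → Cov}, ContDiff ℝ (⊤ : ℕ∞) f → ∀ x, DifferentiableAt ℝ f x :=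
    fun hf x => (hf.differentiable (by simp)).differentiableAt
  have hks : ContDiff ℝ (⊤ : ℕ∞) (fun x => κ j x - κ i x) := (hκs j).sub (hκs i)
  refine H (col i) A (ω i) (ω j) (hcol i) (hcij ▸ hcol j) (fun x => μ x + (κ j x - κ i x))
    (hμs.add hks) ?_ ?_ ?_
  · intro x n
    have e1 := hμp x n
    have e2 := hκp j x n
    have e3 := hκp i x n
    simp only
    rw [e1, e2, e3]
  · intro x
    rw [dd_add (dif hμs x) (dif hks x), dd_sub (dif (hκs j) x) (dif (hκs i) x), ← hμd x, hdec i x,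
      hdec j x, neg_one_smul]
    abel
  · intro x
    have e1 := hμb x
    have e2 := hκb i x
    have e3 := hκb j x
    have e4 : ε / (4 * (Λ + 1)) * Λ ≤ ε / 4 := by
      have : ε / (4 * (Λ + 1)) * Λ = (Λ / (Λ + 1)) * (ε / 4) := by field_simp
      rw [this]
      have : Λ / (Λ + 1) ≤ 1 := by
        rw [div_le_one (by linarith)]; linarith
      nlinarith
    calc ‖μ x + (κ j x - κ i x)‖ ≤ ‖μ x‖ + (‖κ j x‖ + ‖κ i x‖) :=
          (norm_add_le _ _).trans (add_le_add le_rfl (norm_sub_le _ _))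
      _ ≤ ε := by linarith

theorem RF_avg_bound {ω : V → Form} (h : Continuous ω) {Λ : ℝ} (hb : ∀ x, ‖ω x‖ ≤ Λ) : ‖avg ω‖ ≤ Λ := by
  have e1 := norm_setIntegral_le_of_norm_le_const (μ := volume) (s := Icc (0 : V) 1) (f := ω) (C := Λ)
    (by rw [vol_cube]; exact ENNReal.one_lt_top) (fun x _ => hb x)
  have e2 : (volume : Measure V).real (Icc (0 : V) 1) = 1 := by
    simp [Measure.real, vol_cube]
  rw [e2, mul_one] at e1
  exact e1

theorem RF_integral_mono {f g : V → ℝ} (hf : Continuous f) (hg : Continuous g) (h : ∀ x, f x ≤ g x) :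
    ∫ x in Icc (0 : V) 1, f x ≤ ∫ x in Icc (0 : V) 1, g x :=
  integral_mono (hf.continuousOn.integrableOn_compact isCompact_Icc)
    (hg.continuousOn.integrableOn_compact isCompact_Icc) h

/-- The constant form in the class of a form with bounds. -/
theorem RF_const {Λ c h : ℝ} (hc : 0 < c) :
    ∃ c' > 0, c' ≤ c ∧ ∀ (A : Form) (u v : V) (ω : V → Form), BPos A Λ c h u v ω →
      BPos A Λ c' h u v (fun _ => A) := by
  obtain ⟨p, hp, hpl⟩ := exists_pf_lower (Λ := Λ) hc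
  obtain ⟨c1, hc1, hml⟩ := exists_margin_of_pf (Λ := Λ) hp
  refine ⟨min c c1, lt_min hc hc1, min_le_left _ _, fun A u v ω H => ?_⟩
  have hcl : Clo ω := H.symp.1.toClo
  have hcont : Continuous ω := hcl.smooth.continuous
  have hA : avg ω = A := (cls_iff hcont A).1 H.symp.2
  have hAalt : Alt A := hA ▸ avg_alt hcont fun x u v => hcl.alt x u v
  have hAn : ‖A‖ ≤ Λ := hA ▸ RF_avg_bound hcont H.up
  have hpf : p ≤ |pf A| := by
    have hi : ∫ x in Icc (0 : V) 1, pf (ω x) = pf A := hA ▸ integral_pf hcl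
    have hpc : Continuous fun x => pf (ω x) := continuous_pf.comp hcont
    have hsgn := fun x => H.symp.1.pf_mul_pos x
    rw [hA] at hsgn
    have hge : ∀ x, p ≤ |pf (ω x)| := fun x => hpl _ (fun u v => hcl.alt x u v) (H.up x) (H.lo x)
    rcases lt_trichotomy (pf A) 0 with hneg | hzero | hpos
    · have h1 : ∀ x, pf (ω x) ≤ -p := by
        intro x
        have h2 : pf (ω x) < 0 := by
          have := hsgn x
          by_contra hcon
          push Not at hcon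
          nlinarith
        have h3 := hge x
        rw [abs_of_neg h2] at h3
        linarith
      have h2 := RF_integral_mono hpc continuous_const h1
      rw [hi, integral_const_cube] at h2
      rw [abs_of_neg hneg]
      linarith
    · have := hsgn 0
      rw [hzero, mul_zero] at this
      exact absurd this (lt_irrefl _)
    · have h1 : ∀ x, p ≤ pf (ω x) := by
        intro x
        have h2 : 0 < pf (ω x) := by
          have := hsgn x
          by_contra hcon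
          push Not at hcon
          nlinarith
        have h3 := hge x
        rwa [abs_of_pos h2] at h3
      have h2 := RF_integral_mono continuous_const hpc h1
      rw [hi, integral_const_cube] at h2
      rw [abs_of_pos hpos]
      exact h2
  have hAm : Margin c1 A := hml A hAalt hAn hpf
  refine ⟨⟨⟨clo_const hAalt, fun _ => hAm.nondeg hc1⟩, ?_⟩, fun _ => hAn, fun _ w => ?_, fun _ => ?_⟩
  · exact (cls_iff continuous_const A).2 (avg_const A)
  · exact (mul_le_mul_of_nonneg_right (min_le_right _ _) (norm_nonneg _)).trans (hAm w)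
  · have h1 := RF_integral_mono (f := fun _ => h) (g := fun x => ω x u v) continuous_const
      ((hcont.clm_apply continuous_const).clm_apply continuous_const) H.pos
    rw [integral_const_cube] at h1
    rw [← hA, avg_apply hcont]
    exact h1

/-- A uniform covering degree. -/
theorem uniform_rep {Λ c h : ℝ} (hc : 0 < c) (hh : 0 < h) :
    ∃ N : ℕ, ∀ (A : Form) (ω : V → Form),
      (∃ u v : V, ‖u‖ ≤ 1 ∧ ‖v‖ ≤ 1 ∧ BPos A Λ c h u v ω) →
      ∀ n : ℕ, N ≤ n → Joined A (rep n ω) (fun _ => A) := by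
  obtain ⟨c', hc', hcc, hconst⟩ := RF_const (Λ := Λ) (h := h) hc
  obtain ⟨ε, hε, H⟩ := proximity (Λ := Λ) hc' hh
  obtain ⟨N, hN⟩ := exists_nat_gt (2 * |Λ| / ε)
  refine ⟨N + 1, fun A ω ⟨u, v, hu, hv, hb⟩ n hn => ?_⟩
  have hΛ : 0 ≤ Λ := RF_nonneg hb
  rw [abs_of_nonneg hΛ] at hN
  have hn0 : 0 < n := by omega
  have hn0' : (0 : ℝ) < n := by exact_mod_cast hn0
  have hcl : Clo ω := hb.symp.1.toClo
  have hcont : Continuous ω := hcl.smooth.continuous
  have hA : avg ω = A := (cls_iff hcont A).1 hb.symp.2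
  have hAb := hconst A u v ω hb
  have hAalt : Alt A := hA ▸ avg_alt hcont fun x u v => hcl.alt x u v
  have hrep : BPos A Λ c' h u v (rep n ω) := by
    refine ⟨hb.symp.rep hn0, fun x => hb.up _, fun x w => ?_, fun x => hb.pos _⟩
    exact (mul_le_mul_of_nonneg_right hcc (norm_nonneg _)).trans (hb.lo _ w)
  -- a primitive of `A - ω`
  have hdc : Clo (fun x => A + (-1 : ℝ) • ω x) := (clo_const hAalt).add (hcl.smul (-1))
  have hd0 : avg (fun x => A + (-1 : ℝ) • ω x) = 0 := by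
    rw [avg_add (ω := fun _ => A) continuous_const (hcl.smul (-1)).smooth.continuous, avg_const,
      avg_smul, hA]
    simp
  have hdb : ∀ x, ‖A + (-1 : ℝ) • ω x‖ ≤ 2 * Λ := by
    intro x
    refine (norm_add_le _ _).trans ?_
    have e1 := hAb.up 0
    have e2 := hb.up x
    rw [norm_smul]
    simp only [norm_neg, norm_one, one_mul]
    linarith
  obtain ⟨μ, hμs, hμp, hμd, hμb⟩ := exists_prim_bound hdc hd0 hdb
  have hsc : ContDiff ℝ (⊤ : ℕ∞) (fun y : V => (n : ℝ)⁻¹ • μ ((n : ℝ) • y)) :=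
    (hμs.comp (contDiff_id.const_smul (n : ℝ))).const_smul _
  refine H A u v (rep n ω) (fun _ => A) hu hv hrep hAb (fun y => (n : ℝ)⁻¹ • μ ((n : ℝ) • y)) hsc
    ?_ ?_ ?_
  · intro x k
    have e1 : (n : ℝ) • (x + fun i => (k i : ℝ)) = (n : ℝ) • x + fun i => (((n : ℤ) * k i : ℤ) : ℝ) := by
      funext i
      simp only [Pi.smul_apply, Pi.add_apply, smul_eq_mul]
      push_cast
      ring
    simp only
    rw [e1]
    have := hμp ((n : ℝ) • x) (fun i => (n : ℤ) * k i)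
    rw [this]
  · intro x
    rw [dd_rep hμs hn0 x, ← hμd]
    simp only [rep, neg_one_smul]
    abel
  · intro x
    rw [norm_smul, norm_inv, Real.norm_eq_abs, abs_of_pos hn0', inv_mul_le_iff₀ hn0']
    refine (hμb _).trans ?_
    rw [div_lt_iff₀ hε] at hN
    have : (N : ℝ) ≤ n := by exact_mod_cast (by omega : N ≤ n)
    nlinarith

end VSI
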