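import Mathlib
import Pool.Agent.VSI.StB
import Pool.Agent.VSI.StEq
import Pool.Agent.VSI.RF

/-!
# VSI / StBEq: the bounds of the statements and the bounds of the proofs
-/

set_option maxSynthPendingDepth 3

open Set MeasureTheory

namespace VSI

theorem st_bounded {A : Form} {Λ c h : ℝ} {ω : V → Form} (H : St.Bounded A Λ c h ω) :
    ∃ u v : V, ‖u‖ ≤ 1 ∧ ‖v‖ ≤ 1 ∧ BPos A Λ c h u v ω := by
  obtain ⟨u, v, hu, hv, hp⟩ := H.plane
  have hΛ : 0 ≤ Λ := by
    have h1 := H.upper 0 (fun _ => 1) (fun _ => 1)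
    have h2 : ‖(fun _ => 1 : V)‖ = 1 := by simp
    rw [h2] at h1
    have := abs_nonneg (St.val (ω 0) (fun _ => 1) (fun _ => 1))
    linarith
  refine ⟨u, v, hu, hv, ⟨st_sympIn.1 H.symp, fun x => ?_, fun x w => ?_, hp⟩⟩
  · refine ContinuousLinearMap.opNorm_le_bound _ hΛ fun y => ?_
    refine ContinuousLinearMap.opNorm_le_bound _ (by positivity) fun z => ?_
    exact H.upper x y z
  · obtain ⟨z, hz, hw⟩ := H.lower x w
    have h1 : ω x w z ≤ ‖ω x w‖ * ‖z‖ := (le_abs_self _).trans ((ω x w).le_opNorm z)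
    have h2 : ‖ω x w‖ * ‖z‖ ≤ ‖ω x w‖ := mul_le_of_le_one_right (norm_nonneg _) hz
    exact hw.trans (h1.trans h2)

end VSI
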