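import Mathlib
import Pool.Agent.VSI.WAL

/-!
# VSI / WCO: families whose classes move in one coordinate direction
-/

open Set MeasureTheory

namespace VSI

theorem per_fderiv_pair {L : ℝ × V → Cov} (hp : ∀ t, Per (fun x => L (t, x))) (t : ℝ) :
    Per (fun x => fderiv ℝ L (t, x) (1, 0)) := by
  intro x n
  have h1 : (fun p : ℝ × V => L (p + (0, fun i => (n i : ℝ)))) = L := by
    funext p
    have h := hp p.1 p.2 n
    have e : p + ((0 : ℝ), fun i => (n i : ℝ)) = (p.1, p.2 + fun i => (n i : ℝ)) :=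
      Prod.ext (add_zero _) rfl
    rw [e]
    exact h
  have h2 := fderiv_comp_add_right (𝕜 := ℝ) (f := L) (x := (t, x)) ((0, fun i => (n i : ℝ)) : ℝ × V)
  rw [h1] at h2
  have h3 : ((t, x) : ℝ × V) + (0, fun i => (n i : ℝ)) = (t, x + fun i => (n i : ℝ)) := by
    simp
  rw [h3] at h2
  simp only
  rw [← h2]

theorem rescale_hasFDerivAt {L : ℝ × V → Cov} (hL : ContDiff ℝ (⊤ : ℕ∞) L) (r s : ℝ) (t : ℝ) (x : V) :
    fderiv ℝ (fun p : ℝ × V => r • L (p.1, s • p.2)) (t, x) (1, 0) =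
      r • fderiv ℝ L (t, s • x) (1, 0) := by
  have hd : DifferentiableAt ℝ L (t, s • x) := (hL.differentiable (by simp)) _
  have hg : HasFDerivAt (fun p : ℝ × V => ((p.1, s • p.2) : ℝ × V))
      ((ContinuousLinearMap.fst ℝ ℝ V).prod (s • ContinuousLinearMap.snd ℝ ℝ V)) (t, x) := by
    apply HasFDerivAt.prodMk
    · exact hasFDerivAt_fst
    · exact hasFDerivAt_snd.const_smul s
  have hc : HasFDerivAt (fun p : ℝ × V => L (p.1, s • p.2))
      ((fderiv ℝ L (t, s • x)).comp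
        ((ContinuousLinearMap.fst ℝ ℝ V).prod (s • ContinuousLinearMap.snd ℝ ℝ V))) (t, x) :=
    HasFDerivAt.comp (t, x) (g := L) (f := fun p : ℝ × V => ((p.1, s • p.2) : ℝ × V))
      hd.hasFDerivAt hg
  have h2 : HasFDerivAt (fun p : ℝ × V => r • L (p.1, s • p.2)) _ (t, x) := hc.const_smul r
  rw [h2.fderiv]
  simp

/-- Proof: primitives `L` from `exists_prim`, `c` from `margin_compact`, `C` and `E` (bound of the `t`-derivative
of `L`) from `bound_compact`, `ε` from `wall`; `N > E / ε`.  Apply `wall` to `Φ (t, n x)` with the primitives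
`n⁻¹ L (t, n x)` (`dd_rep`). -/
theorem wall_rep (j : Fin 4) (A : Form) {Φ : ℝ × V → Form} (h : Fam Φ)
    (hn : ∀ t ∈ Icc (0 : ℝ) 1, ∀ x, Nondeg (Φ (t, x)))
    (h0 : avg (fun x => Φ (0, x)) = A) (h1 : avg (fun x => Φ (1, x)) = A)
    (hk : ∀ t ∈ Icc (0 : ℝ) 1, ∀ u v : V, u j = 0 → v j = 0 → avg (fun x => Φ (t, x)) u v = A u v) :
    ∃ N : ℕ, 0 < N ∧ ∀ n : ℕ, N ≤ n →
      Joined A (rep n (fun x => Φ (0, x))) (rep n (fun x => Φ (1, x))) := by
  obtain ⟨L, hL, hLp, hLd⟩ := exists_prim h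
  have hcont : Continuous Φ := h.smooth.continuous
  have hslice : ∀ t, Continuous (fun x : V => Φ (t, x)) := fun t =>
    hcont.comp (Continuous.prodMk_right t)
  obtain ⟨c, hc, hmar⟩ := margin_compact hcont (fun t _ => (h.clo t).per) hn
  have ha : ContDiff ℝ (⊤ : ℕ∞) (fun t : ℝ => avg (fun x => Φ (t, x))) := smooth_avg h.smooth
  have hac : Continuous (fun p : ℝ × V => avg (fun x => Φ (p.1, x)) - A) := by
    have h3 : ContDiff ℝ (⊤ : ℕ∞) (fun p : ℝ × V => avg (fun x => Φ (p.1, x))) :=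
      ha.comp contDiff_fst
    exact (h3.sub contDiff_const).continuous
  obtain ⟨C, hC, hCb⟩ := bound_compact (F := Form)
    (Φ := fun p : ℝ × V => avg (fun x => Φ (p.1, x)) - A) hac (fun t _ x n => rfl)
  have hLc : Continuous (fun p : ℝ × V => fderiv ℝ L p (1, 0)) :=
    (hL.continuous_fderiv (by simp)).clm_apply continuous_const
  obtain ⟨E, hE, hEb⟩ := bound_compact (F := Cov)
    (Φ := fun p : ℝ × V => fderiv ℝ L p (1, 0)) hLc (fun t _ => per_fderiv_pair hLp t)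
  obtain ⟨ε, hε, hwall⟩ := wall j hc hC
  obtain ⟨N, hN⟩ := exists_nat_gt (E / ε)
  have hNpos : 0 < N := by
    have h1 : (0 : ℝ) < N := lt_trans (div_pos hE hε) hN
    exact_mod_cast h1
  refine ⟨N, hNpos, fun n hn' => ?_⟩
  have hn0 : 0 < n := lt_of_lt_of_le hNpos hn'
  have hnr : (0 : ℝ) < n := by exact_mod_cast hn0
  have hnE : E / ε < n := lt_of_lt_of_le hN (by exact_mod_cast hn')
  have hsm : ContDiff ℝ (⊤ : ℕ∞) (fun p : ℝ × V => ((p.1, (n : ℝ) • p.2) : ℝ × V)) :=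
    contDiff_fst.prodMk (contDiff_snd.const_smul (n : ℝ))
  have hfin := hwall A (fun p : ℝ × V => Φ (p.1, (n : ℝ) • p.2))
    (fun p : ℝ × V => (n : ℝ)⁻¹ • L (p.1, (n : ℝ) • p.2))
    (fun t : ℝ => avg (fun x => Φ (t, x)))
    (h.smooth.comp hsm) ((hL.comp hsm).const_smul _) ha
    (by
      intro t x m
      have h2 := hLp t ((n : ℝ) • x) (fun i => (n : ℤ) * m i)
      simp only at h2 ⊢
      rw [← h2]
      congr 3
      rw [smul_add]
      congr 1
      funext i
      simp)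
    (fun t => avg_alt (hslice t) (h.clo t).alt)
    (by
      intro t x
      simp only
      rw [hLd t ((n : ℝ) • x)]
      congr 1
      have hLt : ContDiff ℝ (⊤ : ℕ∞) (fun y : V => L (t, y)) :=
        hL.comp (contDiff_prodMk_right t)
      exact (dd_rep hLt hn0 x).symm)
    h0 h1 hk
    (fun t ht => hCb t ht 0)
    (fun t ht x => hmar t ht _)
    (by
      intro t ht x
      rw [rescale_hasFDerivAt hL, norm_smul, norm_inv, Real.norm_natCast]
      have h3 := hEb t ht ((n : ℝ) • x)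
      have h4 : (n : ℝ)⁻¹ * ‖fderiv ℝ L (t, (n : ℝ) • x) (1, 0)‖ ≤ (n : ℝ)⁻¹ * E :=
        mul_le_mul_of_nonneg_left h3 (inv_nonneg.2 hnr.le)
      refine h4.trans ?_
      rw [inv_mul_le_iff₀ hnr]
      rw [div_lt_iff₀ hε] at hnE
      exact hnE.le)
  exact hfin

end VSI
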