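import Mathlib
import Pool.Agent.VSI.WCO
import Pool.Agent.VSI.REP
import Pool.Agent.VSI.PFL

/-!
# VSI / STP: changing the class by a small multiple of a coordinate two-form
-/

open Set MeasureTheory

namespace VSI

theorem stp_add_assoc (A B C : Form) : A + B + C = A + (B + C) := add_assoc A B C

theorem stp_add_comm (A B : Form) : A + B = B + A := add_comm A B

theorem stp_add_zero (A : Form) : A + 0 = A := add_zero A

theorem stp_smul_apply (r : ℝ) (B : Form) (u v : V) : (r • B) u v = r * B u v := rfl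

theorem stp_add_apply (B C : Form) (u v : V) : (B + C) u v = B u v + C u v := rfl

theorem stp_gen_norm_smul {W : Type} [NormedAddCommGroup W] [NormedSpace ℝ W] (r : ℝ) (B : W) :
    ‖r • B‖ = |r| * ‖B‖ := by
  rw [norm_smul, Real.norm_eq_abs]

theorem stp_gen_zero_smul {W : Type} [NormedAddCommGroup W] [NormedSpace ℝ W] (B : W) :
    (0 : ℝ) • B = 0 := zero_smul ℝ B

theorem stp_gen_smooth_smul {X W : Type} [NormedAddCommGroup X] [NormedSpace ℝ X]
    [NormedAddCommGroup W] [NormedSpace ℝ W] {f : X → ℝ} (hf : ContDiff ℝ (⊤ : ℕ∞) f)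
    (B : W) : ContDiff ℝ (⊤ : ℕ∞) (fun x => f x • B) :=
  hf.smul contDiff_const

theorem stp_gen_smooth_add {X W : Type} [NormedAddCommGroup X] [NormedSpace ℝ X]
    [NormedAddCommGroup W] [NormedSpace ℝ W] {f g : X → W}
    (hf : ContDiff ℝ (⊤ : ℕ∞) f) (hg : ContDiff ℝ (⊤ : ℕ∞) g) :
    ContDiff ℝ (⊤ : ℕ∞) (fun x => f x + g x) := hf.add hg

theorem stp_zero_smul (B : Form) : (0 : ℝ) • B = 0 := stp_gen_zero_smul (W := Form) B

theorem stp_norm_smul (r : ℝ) (B : Form) : ‖r • B‖ = |r| * ‖B‖ := stp_gen_norm_smul (W := Form) r B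

theorem stp_norm_add (B C : Form) : ‖B + C‖ ≤ ‖B‖ + ‖C‖ := norm_add_le (E := Form) B C

theorem stp_smooth_smul {f : ℝ × V → ℝ} (hf : ContDiff ℝ (⊤ : ℕ∞) f) (B : Form) :
    ContDiff ℝ (⊤ : ℕ∞) (fun x => f x • B) := stp_gen_smooth_smul (W := Form) hf B

theorem stp_smooth_add {f g : ℝ × V → Form} (hf : ContDiff ℝ (⊤ : ℕ∞) f)
    (hg : ContDiff ℝ (⊤ : ℕ∞) g) : ContDiff ℝ (⊤ : ℕ∞) (fun x => f x + g x) :=
  stp_gen_smooth_add (W := Form) hf hg

theorem stp_eb_alt (j k : Fin 4) (r : ℝ) : Alt (r • eb j k) := by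
  intro u v
  rw [stp_smul_apply, stp_smul_apply, eb_apply, eb_apply]
  ring

theorem stp_alt_add {B C : Form} (hB : Alt B) (hC : Alt C) : Alt (B + C) := by
  intro u v
  rw [stp_add_apply, stp_add_apply, hB u v, hC u v]
  ring

theorem stp_symp_alt {A : Form} (h : Symp A (fun _ => A)) : Alt A := fun u v => h.1.alt 0 u v

theorem stp_avg_of_symp {A : Form} {ω : V → Form} (h : Symp A ω) : avg ω = A :=
  (cls_iff h.1.smooth.continuous A).1 h.2

/-- The step.  Proof: concatenate `η + (1 - s) δ`, the given path from `η` to `A`, and `A + s δ`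
(`δ = r • eb j k`); the classes of this family differ from `A + δ` by multiples of `eb j k`; apply
`wall_rep`. -/
theorem step (j k : Fin 4) (r : ℝ) {A : Form} {η : V → Form} (hJ : Joined A η (fun _ => A))
    (h1 : ∀ s ∈ Icc (0 : ℝ) 1, ∀ x, Nondeg (η x + (s * r) • eb j k))
    (h2 : ∀ s ∈ Icc (0 : ℝ) 1, Nondeg (A + (s * r) • eb j k)) :
    ∃ N : ℕ, 0 < N ∧ Joined (A + r • eb j k) (rep N (fun x => η x + r • eb j k))
      (fun _ => A + r • eb j k) := by
  have hl : Symp A η := hJ.left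
  have hr : Symp A (fun _ => A) := hJ.right
  have hAalt : Alt A := stp_symp_alt hr
  have havg : avg η = A := stp_avg_of_symp hl
  obtain ⟨Ω, hΩs, hΩ0, hΩ1, hΩ⟩ := hJ
  let P : (V → Form) → Prop := fun ω => Clo ω ∧ (∀ x, Nondeg (ω x)) ∧ ∃ s : ℝ, avg ω = A + s • eb j k
  have hηs : ContDiff ℝ (⊤ : ℕ∞) η := hl.1.smooth
  have hs₁ : ContDiff ℝ (⊤ : ℕ∞)
      (fun p : ℝ × V => (fun (t : ℝ) (x : V) => η x + ((1 - t) * r) • eb j k) p.1 p.2) := by
    have e1 : ContDiff ℝ (⊤ : ℕ∞) (fun p : ℝ × V => η p.2) := hηs.comp contDiff_snd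
    have e2 : ContDiff ℝ (⊤ : ℕ∞) (fun p : ℝ × V => ((1 - p.1) * r)) :=
      (contDiff_const.sub contDiff_fst).mul contDiff_const
    exact stp_smooth_add e1 (stp_smooth_smul e2 _)
  have hP₁ : ∀ t ∈ Icc (0 : ℝ) 1, P ((fun (t : ℝ) (x : V) => η x + ((1 - t) * r) • eb j k) t) := by
    intro t ht
    refine ⟨hl.1.clo.add (clo_const (stp_eb_alt j k _)), ?_, (1 - t) * r, ?_⟩
    · intro x
      exact h1 (1 - t) ⟨by linarith [ht.2], by linarith [ht.1]⟩ x
    · have := avg_add (ω := η) (η := fun _ => ((1 - t) * r) • eb j k) hηs.continuous continuous_const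
      rw [avg_const, havg] at this
      exact this
  have hP₂ : ∀ t ∈ Icc (0 : ℝ) 1, P (Ω t) := by
    intro t ht
    have h := hΩ t ht
    refine ⟨h.1.clo, fun x v hv => h.1.nondeg x v hv, 0, ?_⟩
    rw [stp_avg_of_symp h, stp_zero_smul, stp_add_zero]
  have hm₁ : (fun (t : ℝ) (x : V) => η x + ((1 - t) * r) • eb j k) 1 = Ω 0 := by
    funext x
    rw [hΩ0]
    change η x + ((1 - 1) * r) • eb j k = η x
    rw [sub_self, zero_mul, stp_zero_smul, stp_add_zero]
  obtain ⟨Ψ₁, hΨs, hΨ0, hΨ1, hΨ⟩ := exists_concat (P := P) hs₁ hP₁ hΩs hP₂ hm₁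
  have hs₃ : ContDiff ℝ (⊤ : ℕ∞)
      (fun p : ℝ × V => (fun (t : ℝ) (_ : V) => A + (t * r) • eb j k) p.1 p.2) := by
    have e2 : ContDiff ℝ (⊤ : ℕ∞) (fun p : ℝ × V => (p.1 * r)) :=
      contDiff_fst.mul contDiff_const
    exact stp_smooth_add contDiff_const (stp_smooth_smul e2 _)
  have hP₃ : ∀ t ∈ Icc (0 : ℝ) 1, P ((fun (t : ℝ) (_ : V) => A + (t * r) • eb j k) t) := by
    intro t ht
    refine ⟨clo_const (stp_alt_add hAalt (stp_eb_alt j k _)), fun _ => h2 t ht, t * r, ?_⟩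
    exact avg_const _
  have hm₂ : Ψ₁ 1 = (fun (t : ℝ) (_ : V) => A + (t * r) • eb j k) 0 := by
    rw [hΨ1, hΩ1]
    funext x
    change A = A + ((0 : ℝ) * r) • eb j k
    rw [zero_mul, stp_zero_smul, stp_add_zero]
  obtain ⟨Ψ, hs, h0, h1', hP⟩ := exists_concat (P := P) hΨs (fun t _ => hΨ t) hs₃ hP₃ hm₂
  have e0 : Ψ 0 = fun x => η x + r • eb j k := by
    rw [h0, hΨ0]
    funext x
    rw [sub_zero, one_mul]
  have e1 : Ψ 1 = fun _ => A + r • eb j k := by
    rw [h1']
    funext x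
    rw [one_mul]
  have hFam : Fam (fun p : ℝ × V => Ψ p.1 p.2) := ⟨hs, fun t => (hP t).1⟩
  have ha0 : avg (fun x => (fun p : ℝ × V => Ψ p.1 p.2) (0, x)) = A + r • eb j k := by
    change avg (Ψ 0) = _
    rw [e0]
    have := avg_add (ω := η) (η := fun _ => r • eb j k) hηs.continuous continuous_const
    rw [avg_const, havg] at this
    exact this
  have ha1 : avg (fun x => (fun p : ℝ × V => Ψ p.1 p.2) (1, x)) = A + r • eb j k := by
    change avg (Ψ 1) = _
    rw [e1]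
    exact avg_const _
  obtain ⟨N, hN, hNj⟩ := wall_rep j (A + r • eb j k) hFam (fun t _ x => (hP t).2.1 x) ha0 ha1
    (by
      intro t _ u v hu hv
      obtain ⟨s, hs'⟩ := (hP t).2.2
      change avg (Ψ t) u v = _
      rw [hs']
      rw [stp_add_apply, stp_add_apply, stp_smul_apply, stp_smul_apply, eb_apply, hu, hv]
      ring)
  refine ⟨N, hN, ?_⟩
  have h := hNj N le_rfl
  change Joined (A + r • eb j k) (rep N (Ψ 0)) (rep N (Ψ 1)) at h
  rw [e0, e1] at h
  exact h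

theorem stp_margin_nondeg {c d : ℝ} {B C : Form} (h : Margin c B) (hC : ‖C‖ ≤ d) (hd : d < c) :
    Nondeg (B + C) :=
  Margin.nondeg (by linarith) (h.add hC)

theorem stp_norm_smul_eb (j k : Fin 4) (r : ℝ) : ‖r • eb j k‖ ≤ 2 * |r| := by
  rw [stp_norm_smul]
  have := norm_eb_le j k
  nlinarith [abs_nonneg r]

theorem stp_norm_sum (L : List (Fin 4 × Fin 4 × ℝ)) :
    ‖(L.map fun p => p.2.2 • eb p.1 p.2.1).sum‖ ≤ (L.map fun p => 2 * |p.2.2|).sum := by
  induction L with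
  | nil =>
    change ‖(0 : Form)‖ ≤ 0
    exact le_of_eq (norm_zero (E := Form))
  | cons p L ih =>
    rw [List.map_cons, List.sum_cons, List.map_cons, List.sum_cons]
    exact (stp_norm_add _ _).trans (add_le_add (stp_norm_smul_eb _ _ _) ih)

theorem stp_sum_nonneg (L : List (Fin 4 × Fin 4 × ℝ)) :
    0 ≤ (L.map fun p => 2 * |p.2.2|).sum := by
  induction L with
  | nil => simp
  | cons p L ih =>
    rw [List.map_cons, List.sum_cons]
    have := abs_nonneg p.2.2
    linarith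

/-- Several steps.  Induction on the list. -/
theorem steps {c : ℝ} {A : Form} {η : V → Form} (hA : Margin c A) (hη : ∀ x, Margin c (η x))
    (hJ : ∃ N : ℕ, 0 < N ∧ Joined A (rep N η) (fun _ => A)) :
    ∀ L : List (Fin 4 × Fin 4 × ℝ), (L.map fun p => 2 * |p.2.2|).sum < c →
      ∃ N : ℕ, 0 < N ∧ Joined (A + (L.map fun p => p.2.2 • eb p.1 p.2.1).sum)
        (fun x => rep N η x + (L.map fun p => p.2.2 • eb p.1 p.2.1).sum)
        (fun _ => A + (L.map fun p => p.2.2 • eb p.1 p.2.1).sum) := by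
  intro L
  induction L with
  | nil =>
    intro _
    obtain ⟨N, hN, h⟩ := hJ
    refine ⟨N, hN, ?_⟩
    change Joined (A + 0) (fun x => rep N η x + 0) (fun _ => A + 0)
    simp only [stp_add_zero]
    exact h
  | cons p L ih =>
    intro hs
    rw [List.map_cons, List.sum_cons] at hs
    obtain ⟨N, hN, h⟩ := ih (by have := abs_nonneg p.2.2; linarith)
    set S := (L.map fun p => p.2.2 • eb p.1 p.2.1).sum with hS
    have hSn : ‖S‖ ≤ (L.map fun p => 2 * |p.2.2|).sum := stp_norm_sum L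
    have key : ∀ s ∈ Icc (0 : ℝ) 1,
        ‖S + (s * p.2.2) • eb p.1 p.2.1‖ ≤ 2 * |p.2.2| + (L.map fun p => 2 * |p.2.2|).sum := by
      intro s hs'
      have h1 : ‖(s * p.2.2) • eb p.1 p.2.1‖ ≤ 2 * |p.2.2| := by
        refine (stp_norm_smul_eb _ _ _).trans ?_
        rw [abs_mul, abs_of_nonneg hs'.1]
        have := abs_nonneg p.2.2
        nlinarith [hs'.2]
      have h2 := stp_norm_add S ((s * p.2.2) • eb p.1 p.2.1)
      linarith
    obtain ⟨M, hM, h'⟩ := step p.1 p.2.1 p.2.2 h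
      (by
        intro s hs' x
        rw [stp_add_assoc]
        exact stp_margin_nondeg (hη _) (key s hs') hs)
      (by
        intro s hs'
        rw [stp_add_assoc]
        exact stp_margin_nondeg hA (key s hs') hs)
    refine ⟨N * M, Nat.mul_pos hN hM, ?_⟩
    have e1 : (List.map (fun p : Fin 4 × Fin 4 × ℝ => p.2.2 • eb p.1 p.2.1) (p :: L)).sum
        = S + p.2.2 • eb p.1 p.2.1 := by
      rw [List.map_cons, List.sum_cons, ← hS, stp_add_comm]
    rw [e1]
    have e2 : rep M (fun x => rep N η x + S + p.2.2 • eb p.1 p.2.1)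
        = fun x => rep (N * M) η x + (S + p.2.2 • eb p.1 p.2.1) := by
      have e3 : (fun x => rep N η x + S + p.2.2 • eb p.1 p.2.1)
          = fun x => rep N η x + (S + p.2.2 • eb p.1 p.2.1) := by
        funext x
        rw [stp_add_assoc]
      rw [e3, rep_add_const, rep_rep]
    rw [e2] at h'
    rw [← stp_add_assoc A S]
    exact h'

/-- Change of the class by a small alternating form. -/
theorem shift_class {c : ℝ} {A : Form} {η : V → Form} (hA : Margin c A) (hη : ∀ x, Margin c (η x))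
    (hJ : ∃ N : ℕ, 0 < N ∧ Joined A (rep N η) (fun _ => A)) {D : Form} (hD : Alt D)
    (hs : 12 * ‖D‖ < c) :
    ∃ N : ℕ, 0 < N ∧ Joined (A + D) (fun x => rep N η x + D) (fun _ => A + D) := by
  have key := steps hA hη hJ
    [((0 : Fin 4), (1 : Fin 4), bb D 0 1), (0, 2, bb D 0 2), (0, 3, bb D 0 3), (1, 2, bb D 1 2),
      (1, 3, bb D 1 3), (2, 3, bb D 2 3)]
  simp only [List.map_cons, List.map_nil, List.sum_cons, List.sum_nil, add_zero, stp_add_zero] at key
  have hsum : bb D 0 1 • eb 0 1 + (bb D 0 2 • eb 0 2 + (bb D 0 3 • eb 0 3 + (bb D 1 2 • eb 1 2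
      + (bb D 1 3 • eb 1 3 + bb D 2 3 • eb 2 3)))) = D := by
    conv_rhs => rw [form_eq_sum hD]
    rw [stp_add_assoc, stp_add_assoc, stp_add_assoc, stp_add_assoc]
  rw [hsum] at key
  refine key ?_
  have a1 := abs_bb_le D 0 1
  have a2 := abs_bb_le D 0 2
  have a3 := abs_bb_le D 0 3
  have a4 := abs_bb_le D 1 2
  have a5 := abs_bb_le D 1 3
  have a6 := abs_bb_le D 2 3
  linarith

end VSI
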