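import Mathlib
import Pool.Agent.VSI.STP
import Pool.Agent.VSI.PFA

/-!
# VSI / IND: deformation to a constant form implies virtual isotopy
-/

open Set MeasureTheory

namespace VSI

/-- The averages of a smooth family are smooth. -/
theorem avg_family_smooth {Φ : ℝ × V → Form} (h : ContDiff ℝ (⊤ : ℕ∞) Φ) :
    ContDiff ℝ (⊤ : ℕ∞) (fun t : ℝ => avg fun x => Φ (t, x)) :=
  par_smooth (E := ℝ) (F := Form) (G := V) volume (K := Icc (0 : V) 1) isCompact_Icc h

theorem Clo.continuous_form {ω : V → Form} (h : Clo ω) : Continuous ω := h.smooth.continuous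

theorem Clo.alt_form {ω : V → Form} (h : Clo ω) (x : V) : Alt (ω x) := fun u v => h.alt x u v

/-- One mesh step, from the time `t` to the time `t'`.  Proof: `shift_class` with `D = avg Φ_t' - avg Φ_t`,
then the path `σ ↦ rep N (Φ_σ + (avg Φ_t' - avg Φ_σ))` from `σ = t` to `σ = t'`. -/
theorem mesh_step {c : ℝ} {Φ : ℝ × V → Form} (h : Fam Φ)
    (hm : ∀ t x, Margin c (Φ (t, x))) (ha : ∀ t, Margin c (avg fun x => Φ (t, x)))
    {t t' : ℝ} (hd : ∀ s ∈ uIcc t t', 12 * ‖(avg fun x => Φ (t', x)) - (avg fun x => Φ (s, x))‖ < c)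
    (hJ : ∃ N : ℕ, 0 < N ∧ Joined (avg fun x => Φ (t, x)) (rep N fun x => Φ (t, x))
      (fun _ => avg fun x => Φ (t, x))) :
    ∃ N : ℕ, 0 < N ∧ Joined (avg fun x => Φ (t', x)) (rep N fun x => Φ (t', x))
      (fun _ => avg fun x => Φ (t', x)) := by
  set a : ℝ → Form := fun s => avg fun x => Φ (s, x) with ha_def
  have haAlt : ∀ s, Alt (a s) := fun s =>
    avg_alt (h.clo s).continuous_form (fun x => (h.clo s).alt_form x)
  have hD : Alt (a t' - a t) := alt_sub (haAlt t') (haAlt t)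
  have h12 : 12 * ‖a t' - a t‖ < c := hd t left_mem_uIcc
  obtain ⟨N, hN, hJ1⟩ := shift_class (A := a t) (η := fun x => Φ (t, x)) (ha t)
    (fun x => hm t x) hJ hD h12
  have hsum : a t + (a t' - a t) = a t' := by abel
  rw [hsum] at hJ1
  refine ⟨N, hN, ?_⟩
  -- the path
  have hsmooth_a : ContDiff ℝ (⊤ : ℕ∞) a := avg_family_smooth h.smooth
  have hsymp : ∀ s ∈ uIcc t t', Symp (a t') (fun x => Φ (s, x) + (a t' - a s)) := by
    intro s hs
    have hs12 := hd s hs
    have hclo : Clo (fun x => Φ (s, x) + (a t' - a s)) :=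
      (h.clo s).add (clo_const (alt_sub (haAlt t') (haAlt s)))
    refine ⟨⟨hclo, ?_⟩, ?_⟩
    · intro x
      have hmar : Margin (c - ‖a t' - a s‖) (Φ (s, x) + (a t' - a s)) :=
        (hm s x).add le_rfl
      have hpos : 0 < c - ‖a t' - a s‖ := by
        have h0 := norm_nonneg (a t' - a s)
        have h1 : 12 * ‖a t' - a s‖ < c := hs12
        linarith
      exact hmar.nondeg hpos
    · rw [cls_iff hclo.continuous_form]
      rw [avg_add (h.clo s).continuous_form continuous_const, avg_const]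
      change a s + (a t' - a s) = a t'
      abel
  have hJ2 : Joined (a t') (fun x => rep N (fun x => Φ (t, x)) x + (a t' - a t))
      (rep N fun x => Φ (t', x)) := by
    refine ⟨fun s => rep N (fun x => Φ (t + s * (t' - t), x) + (a t' - a (t + s * (t' - t)))),
      ?_, ?_, ?_, ?_⟩
    · have h1 : ContDiff ℝ (⊤ : ℕ∞) (fun p : ℝ × V => t + p.1 * (t' - t)) := by fun_prop
      have h2 : ContDiff ℝ (⊤ : ℕ∞) (fun p : ℝ × V => ((N : ℝ) • p.2 : V)) := by fun_prop
      have h3 : ContDiff ℝ (⊤ : ℕ∞)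
          (fun p : ℝ × V => Φ (t + p.1 * (t' - t), (N : ℝ) • p.2)) :=
        h.smooth.comp (h1.prodMk h2)
      have h4 : ContDiff ℝ (⊤ : ℕ∞) (fun p : ℝ × V => a (t + p.1 * (t' - t))) :=
        hsmooth_a.comp h1
      exact h3.add (contDiff_const.sub h4)
    · funext x
      simp only [rep, zero_mul, add_zero]
    · funext x
      simp only [rep, one_mul, add_sub_cancel]
      exact (congrArg (fun z => Φ (t', (N : ℝ) • x) + z) (sub_self (a t'))).trans (add_zero _)
    · intro s hs
      have hmem : t + s * (t' - t) ∈ uIcc t t' := by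
        rcases le_total t t' with hle | hle
        · rw [uIcc_of_le hle]
          constructor
          · nlinarith [hs.1, hs.2]
          · nlinarith [hs.1, hs.2]
        · rw [uIcc_of_ge hle]
          constructor
          · nlinarith [hs.1, hs.2]
          · nlinarith [hs.1, hs.2]
      exact (hsymp _ hmem).rep hN
  exact hJ2.symm.trans hJ1

/-- Deformation to a constant form implies isotopy to a constant form after a finite covering. -/
theorem joined_of_deform_const {A B : Form} {ω : V → Form} (hω : Symp A ω)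
    (hd : Deform ω (fun _ => B)) :
    ∃ N : ℕ, 0 < N ∧ ∀ k : ℕ, 0 < k → Joined A (rep (N * k) ω) (fun _ => A) := by
  obtain ⟨Ω, hΩs, hΩ0, hΩ1, hΩ⟩ := hd
  obtain ⟨Ψ, hΨs, hΨ0, hΨ1, hΨ⟩ := exists_norm_path (P := IsSymp) hΩs hΩ
  set Φ : ℝ × V → Form := fun p => Ψ p.1 p.2 with hΦ_def
  have hF : Fam Φ := ⟨hΨs, fun t => (hΨ t).toClo⟩
  set a : ℝ → Form := fun s => avg fun x => Φ (s, x) with ha_def
  have hsa : ContDiff ℝ (⊤ : ℕ∞) a := avg_family_smooth hF.smooth
  -- margins on the unit interval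
  obtain ⟨c1, hc1, hm1⟩ := margin_compact (Φ := Φ) hF.smooth.continuous
    (fun t _ => (hF.clo t).per) (fun t _ x => (hΨ t).nondeg x)
  obtain ⟨c2, hc2, hm2⟩ := margin_compact (Φ := fun p : ℝ × V => a p.1)
    (hsa.continuous.comp continuous_fst) (fun t _ => by intro x n; rfl)
    (fun t _ x => (hΨ t).avg_nondeg)
  set c : ℝ := min c1 c2 with hc_def
  have hc : 0 < c := lt_min hc1 hc2
  have hmono : ∀ {d e : ℝ} {C : Form}, d ≤ e → Margin e C → Margin d C := by
    intro d e C hde hC v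
    exact (mul_le_mul_of_nonneg_right hde (norm_nonneg _)).trans (hC v)
  have hproj : ∀ t : ℝ, ∃ t0 ∈ Icc (0 : ℝ) 1, Ψ t = Ψ t0 := by
    intro t
    rcases le_total t 0 with h0 | h0
    · exact ⟨0, ⟨le_rfl, zero_le_one⟩, by rw [hΨ0 t h0, hΨ0 0 le_rfl]⟩
    · rcases le_total t 1 with h1 | h1
      · exact ⟨t, ⟨h0, h1⟩, rfl⟩
      · exact ⟨1, ⟨zero_le_one, le_rfl⟩, by rw [hΨ1 t h1, hΨ1 1 le_rfl]⟩
  have hm : ∀ t x, Margin c (Φ (t, x)) := by
    intro t x
    obtain ⟨t0, ht0, he⟩ := hproj t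
    have h1 := hm1 t0 ht0 x
    have h2 : Φ (t, x) = Φ (t0, x) := by
      change Ψ t x = Ψ t0 x
      rw [he]
    rw [h2]
    exact hmono (min_le_left _ _) h1
  have hma : ∀ t, Margin c (a t) := by
    intro t
    obtain ⟨t0, ht0, he⟩ := hproj t
    have h1 := hm2 t0 ht0 0
    have h2 : a t = a t0 := by
      change avg (Ψ t) = avg (Ψ t0)
      rw [he]
    rw [h2]
    exact hmono (min_le_right _ _) h1
  -- uniform continuity of the averages
  have hunif := (isCompact_Icc (a := (0 : ℝ)) (b := 1)).uniformContinuousOn_of_continuous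
    hsa.continuous.continuousOn
  rw [Metric.uniformContinuousOn_iff] at hunif
  obtain ⟨δ, hδ, hδ'⟩ := hunif (c / 12) (by positivity)
  obtain ⟨n, hn⟩ := exists_nat_one_div_lt hδ
  have hn1 : (0 : ℝ) < (n : ℝ) + 1 := by positivity
  have key : ∀ j : ℕ, j ≤ n + 1 → ∃ N : ℕ, 0 < N ∧
      Joined (a (1 - j / ((n : ℝ) + 1))) (rep N fun x => Φ (1 - j / ((n : ℝ) + 1), x))
        (fun _ => a (1 - j / ((n : ℝ) + 1))) := by
    intro j
    induction j with
    | zero =>
      intro _
      refine ⟨1, one_pos, ?_⟩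
      simp only [Nat.cast_zero, zero_div, sub_zero]
      have hconst : (fun x => Φ (1, x)) = fun _ => B := by
        change Ψ 1 = fun _ => B
        rw [hΨ1 1 le_rfl, hΩ1]
      have ha1 : a 1 = B := by
        change avg (fun x => Φ (1, x)) = B
        rw [hconst, avg_const]
      rw [ha1, hconst, rep_one]
      apply Joined.refl
      have hs : IsSymp (fun _ : V => B) := by
        have := hΨ 1
        rwa [hΨ1 1 le_rfl, hΩ1] at this
      exact ⟨hs, (cls_iff continuous_const B).2 (avg_const B)⟩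
    | succ j ih =>
      intro hj
      have hj' := ih (by omega)
      have hjn : ((j : ℝ) + 1) ≤ (n : ℝ) + 1 := by exact_mod_cast hj
      have hj0 : (0 : ℝ) ≤ (j : ℝ) := Nat.cast_nonneg j
      set t : ℝ := 1 - j / ((n : ℝ) + 1) with ht_def
      set t' : ℝ := 1 - ((j + 1 : ℕ) : ℝ) / ((n : ℝ) + 1) with ht'_def
      have htt : t' = t - 1 / ((n : ℝ) + 1) := by
        rw [ht_def, ht'_def]
        push_cast
        ring
      have hstep : 0 < 1 / ((n : ℝ) + 1) := by positivity
      have ht'0 : 0 ≤ t' := by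
        rw [ht'_def]
        push_cast
        rw [sub_nonneg, div_le_one hn1]
        exact hjn
      have ht1 : t ≤ 1 := by
        rw [ht_def]
        have : 0 ≤ (j : ℝ) / ((n : ℝ) + 1) := by positivity
        linarith
      apply mesh_step hF hm hma (t := t) (t' := t') _ hj'
      intro s hs
      rw [uIcc_of_ge (by rw [htt]; linarith)] at hs
      have hs01 : s ∈ Icc (0 : ℝ) 1 := ⟨ht'0.trans hs.1, hs.2.trans ht1⟩
      have ht'01 : t' ∈ Icc (0 : ℝ) 1 := ⟨ht'0, by rw [htt]; linarith⟩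
      have hdist : dist t' s < δ := by
        rw [Real.dist_eq, abs_sub_comm, abs_of_nonneg (by linarith [hs.1])]
        have : s ≤ t' + 1 / ((n : ℝ) + 1) := by rw [htt]; linarith [hs.2]
        linarith
      have h1 := hδ' t' ht'01 s hs01 hdist
      rw [dist_eq_norm] at h1
      change 12 * ‖a t' - a s‖ < c
      linarith
  obtain ⟨N, hN, hJ⟩ := key (n + 1) le_rfl
  have hend : (1 : ℝ) - ((n + 1 : ℕ) : ℝ) / ((n : ℝ) + 1) = 0 := by
    push_cast
    rw [div_self hn1.ne', sub_self]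
  rw [hend] at hJ
  have h0 : (fun x => Φ (0, x)) = ω := by
    change Ψ 0 = ω
    rw [hΨ0 0 le_rfl, hΩ0]
  have ha0 : a 0 = A := by
    change avg (fun x => Φ (0, x)) = A
    rw [h0]
    exact (cls_iff hω.1.toClo.continuous_form A).1 hω.2
  rw [ha0, h0] at hJ
  refine ⟨N, hN, fun k hk => ?_⟩
  have h2 := hJ.rep hk
  rw [rep_rep] at h2
  exact h2

end VSI
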