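import Mathlib
import Pool.Agent.VSI.IND
import Pool.Agent.VSI.PLP

/-!
# VSI / FIN: the main theorem
-/

set_option maxSynthPendingDepth 3

open Set MeasureTheory

namespace VSI

theorem Deform.right {ω₀ ω₁ : V → Form} (h : Deform ω₀ ω₁) : IsSymp ω₁ := by
  obtain ⟨Ω, _, _, h1, h2⟩ := h
  exact h1 ▸ h2 1 (right_mem_Icc.2 zero_le_one)

theorem main_one {A : Form} {ω η : V → Form} (hω : Symp A ω) (hd : Deform ω η)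
    (hp : ∃ u v : V, ∀ x, 0 < η x u v) :
    ∃ N : ℕ, 0 < N ∧ ∀ k : ℕ, 0 < k → Joined A (rep (N * k) ω) (fun _ => A) := by
  obtain ⟨u, v, huv⟩ := hp
  obtain ⟨B, hB⟩ := deform_of_plane hd.right huv
  exact joined_of_deform_const hω (hd.trans hB)

theorem main_two {A : Form} {ω₀ ω₁ η₀ η₁ : V → Form} (h₀ : Symp A ω₀) (h₁ : Symp A ω₁)
    (hd₀ : Deform ω₀ η₀) (hd₁ : Deform ω₁ η₁) (hp₀ : ∃ u v : V, ∀ x, 0 < η₀ x u v)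
    (hp₁ : ∃ u v : V, ∀ x, 0 < η₁ x u v) :
    ∃ N : ℕ, 0 < N ∧ ∀ k : ℕ, 0 < k → Joined A (rep (N * k) ω₀) (rep (N * k) ω₁) ∧
      Joined A (rep (N * k) ω₀) (fun _ => A) := by
  obtain ⟨N₀, hN₀, H₀⟩ := main_one h₀ hd₀ hp₀
  obtain ⟨N₁, hN₁, H₁⟩ := main_one h₁ hd₁ hp₁
  refine ⟨N₀ * N₁, Nat.mul_pos hN₀ hN₁, fun k hk => ?_⟩
  have e0 := H₀ (N₁ * k) (Nat.mul_pos hN₁ hk)
  have e1 := H₁ (N₀ * k) (Nat.mul_pos hN₀ hk)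
  have f0 : N₀ * (N₁ * k) = N₀ * N₁ * k := by ring
  have f1 : N₁ * (N₀ * k) = N₀ * N₁ * k := by ring
  rw [f0] at e0
  rw [f1] at e1
  exact ⟨e0.trans e1.symm, e0⟩

end VSI
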